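import Pool.Agent.QGN.Defs

/-!
# The angle function of an orbit
-/

open Set Filter Topology MeasureTheory
open scoped Real

namespace QGN

/-- `θ` is an angle function of the orbit `(u, y)` (clockwise rotation on the axis `u = 0`) -/
structure Ang (c m h P : ℝ → ℝ) (K s k a : ℝ) (u y θ : ℝ → ℝ) : Prop where
  th0 : θ a = π / 2
  pos : ∀ r, 0 < u r ^ 2 + y r ^ 2
  dth : ∀ r, HasDerivAt θ ((u r * G c m h P K s k r (u r) (y r) - k * y r ^ 2) /
    (u r ^ 2 + y r ^ 2)) r
  pu : ∀ r, u r = √(u r ^ 2 + y r ^ 2) * Real.cos (θ r)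
  py : ∀ r, y r = √(u r ^ 2 + y r ^ 2) * Real.sin (θ r)

/-- module ANGLE, part 2 -/
theorem Ang.lt_of_le {c m h P : ℝ → ℝ} {K s k a : ℝ} {u y θ : ℝ → ℝ}
    (A : Ang c m h P K s k a u y θ) (hk : 0 < k) {n : ℕ} {r r' : ℝ} (hr : r < r')
    (h1 : θ r ≤ π / 2 - n * π) : θ r' < π / 2 - n * π := by
  have hd : ∀ t, θ t = π / 2 - n * π → HasDerivAt θ (-k) t := by
    intro t ht
    have hc : Real.cos (θ t) = 0 := by
      rw [ht, Real.cos_pi_div_two_sub, Real.sin_nat_mul_pi]
    have hu : u t = 0 := by rw [A.pu t, hc, mul_zero]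
    have h2 := A.dth t
    have h3 := A.pos t
    rw [hu] at h2 h3
    have h4 : y t ^ 2 ≠ 0 := by
      intro e; rw [e] at h3; simp at h3
    have h5 : (0 * G c m h P K s k t 0 (y t) - k * y t ^ 2) / (0 ^ 2 + y t ^ 2) = -k := by
      field_simp
      ring
    rwa [h5] at h2
  have hle : ∀ x ∈ Icc r r', θ x ≤ π / 2 - n * π := by
    intro x hx
    refine image_le_of_deriv_right_lt_deriv_boundary (f := θ) (a := r) (b := r')
      (f' := fun t => (u t * G c m h P K s k t (u t) (y t) - k * y t ^ 2) / (u t ^ 2 + y t ^ 2))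
      (B := fun _ => π / 2 - n * π) (B' := fun _ => 0)
      (fun t _ => (A.dth t).continuousAt.continuousWithinAt)
      (fun t _ => (A.dth t).hasDerivWithinAt) h1 (fun t => hasDerivAt_const t _) ?_ hx
    intro t _ ht
    have h2 := (A.dth t).unique (hd t ht)
    rw [h2]
    linarith
  rcases lt_or_eq_of_le (hle r' (right_mem_Icc.2 hr.le)) with h2 | h2
  · exact h2
  · exfalso
    have h3 := (hasDerivAt_iff_tendsto_slope.1 (hd r' h2)).eventually
      (gt_mem_nhds (show -k < 0 by linarith))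
    have h4 : ∀ᶠ t in 𝓝[<] r', slope θ r' t < 0 :=
      h3.filter_mono (nhdsWithin_mono _ (fun t ht => ne_of_lt ht))
    have h5 : ∀ᶠ t in 𝓝[<] r', t ∈ Ioo r r' := Ioo_mem_nhdsLT hr
    obtain ⟨t, h6, h7⟩ := (h4.and h5).exists
    have h8 := hle t ⟨h7.1.le, h7.2.le⟩
    rw [slope_def_field, h2] at h6
    have h9 : 0 ≤ (θ t - (π / 2 - n * π)) / (t - r') :=
      div_nonneg_of_nonpos (by linarith) (by linarith [h7.2])
    linarith

theorem continuous_G {c m h P : ℝ → ℝ} {c₁ c₂ m₁ m₂ P₀ H₀ : ℝ}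
    (D : Dat c m h P c₁ c₂ m₁ m₂ P₀ H₀) (K s k : ℝ) {α : Type*} [TopologicalSpace α]
    {r u y : α → ℝ} (hr : Continuous r) (hu : Continuous u) (hy : Continuous y) :
    Continuous (fun p => G c m h P K s k (r p) (u p) (y p)) := by
  have h1 := D.cc.comp hr
  have h2 := D.cm.comp hr
  have h3 := D.ch.comp hr
  have h4 := D.cP.comp hr
  simp only [Function.comp_def] at h1 h2 h3 h4
  unfold G T X
  exact (((h1.mul hu).add (h2.mul (hy.abs.mul (hy.abs.min continuous_const)))).const_mul k).neg.sub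
    (h4.mul hy) |>.sub ((h3.div_const k).mul
      (continuous_const.min ((hu.abs.add hy.abs).div_const s)))

/-- the derivative of `u² + y²` is controlled by `u² + y²` -/
theorem abs_dN_le {c m h P : ℝ → ℝ} {c₁ c₂ m₁ m₂ P₀ H₀ : ℝ}
    (D : Dat c m h P c₁ c₂ m₁ m₂ P₀ H₀) {K s k : ℝ} (hK : 0 < K) (hs : 0 < s) (hk : 0 < k) :
    ∃ C : ℝ, ∀ r u y : ℝ, |2 * u * (k * y) + 2 * y * G c m h P K s k r u y| ≤
      C * (u ^ 2 + y ^ 2) := by
  have hc₂ : 0 ≤ c₂ := D.c₁pos.le.trans ((D.c₁le 0).trans (D.lec₂ 0))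
  have hm₂ : 0 ≤ m₂ := D.m₁pos.le.trans ((D.m₁le 0).trans (D.lem₂ 0))
  have hP₀ : 0 ≤ P₀ := (D.P0 0).trans (D.leP₀ 0)
  have hH₀ : 0 ≤ H₀ := (abs_nonneg _).trans (D.leH₀ 0)
  refine ⟨2 * (k + k * c₂ + k * m₂ * K + P₀ + 2 * (H₀ / k / s)), fun r u y => ?_⟩
  have huy : |u| * |y| ≤ u ^ 2 + y ^ 2 := by
    nlinarith [sq_nonneg (|u| - |y|), sq_abs u, sq_abs y, sq_nonneg u, sq_nonneg y]
  have hyy : |y| * |y| ≤ u ^ 2 + y ^ 2 := by
    nlinarith [sq_abs y, sq_nonneg u]
  have hG : |G c m h P K s k r u y| ≤ k * (c₂ * |u| + m₂ * (|y| * K)) + P₀ * |y| +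
      H₀ / k * ((|u| + |y|) / s) := by
    unfold G
    have a1 : |k * (c r * u + m r * T K y)| ≤ k * (c₂ * |u| + m₂ * (|y| * K)) := by
      rw [abs_mul, abs_of_pos hk]
      refine mul_le_mul_of_nonneg_left ?_ hk.le
      refine (abs_add_le _ _).trans (add_le_add ?_ ?_)
      · rw [abs_mul, abs_of_pos (D.c₁pos.trans_le (D.c₁le r))]
        exact mul_le_mul_of_nonneg_right (D.lec₂ r) (abs_nonneg _)
      · rw [abs_mul, abs_of_pos (D.m₁pos.trans_le (D.m₁le r)), abs_of_nonneg (T_nonneg hK.le y)]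
        exact mul_le_mul (D.lem₂ r) (T_le_mul K y) (T_nonneg hK.le y) hm₂
    have a2 : |P r * y| ≤ P₀ * |y| := by
      rw [abs_mul, abs_of_nonneg (D.P0 r)]
      exact mul_le_mul_of_nonneg_right (D.leP₀ r) (abs_nonneg _)
    have a3 : |h r / k * X s u y| ≤ H₀ / k * ((|u| + |y|) / s) := by
      rw [abs_mul, abs_div, abs_of_pos hk, abs_of_nonneg (X_nonneg hs u y)]
      exact mul_le_mul (div_le_div_of_nonneg_right (D.leH₀ r) hk.le) (X_le s u y)
        (X_nonneg hs u y) (by positivity)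
    calc |-(k * (c r * u + m r * T K y)) - P r * y - h r / k * X s u y|
        ≤ |-(k * (c r * u + m r * T K y)) - P r * y| + |h r / k * X s u y| := abs_sub _ _
      _ ≤ |-(k * (c r * u + m r * T K y))| + |P r * y| + |h r / k * X s u y| :=
          add_le_add_left (abs_sub _ _) _
      _ ≤ _ := by
          rw [abs_neg]
          exact add_le_add (add_le_add a1 a2) a3
  have e1 : |2 * u * (k * y) + 2 * y * G c m h P K s k r u y| ≤
      2 * (k * (|u| * |y|)) + 2 * (|y| * |G c m h P K s k r u y|) := by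
    refine (abs_add_le _ _).trans (add_le_add (le_of_eq ?_) (le_of_eq ?_))
    · rw [abs_mul, abs_mul, abs_mul, abs_of_pos hk, abs_of_pos (by norm_num : (0:ℝ) < 2)]; ring
    · rw [abs_mul, abs_mul, abs_of_pos (by norm_num : (0:ℝ) < 2)]; ring
  have e2 : |y| * |G c m h P K s k r u y| ≤ |y| * (k * (c₂ * |u| + m₂ * (|y| * K)) + P₀ * |y| +
      H₀ / k * ((|u| + |y|) / s)) := mul_le_mul_of_nonneg_left hG (abs_nonneg _)
  have e3 : |y| * (k * (c₂ * |u| + m₂ * (|y| * K)) + P₀ * |y| + H₀ / k * ((|u| + |y|) / s)) =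
      k * c₂ * (|u| * |y|) + k * m₂ * K * (|y| * |y|) + P₀ * (|y| * |y|) +
      H₀ / k / s * (|u| * |y|) + H₀ / k / s * (|y| * |y|) := by
    field_simp
    ring
  have f1 : k * (|u| * |y|) ≤ k * (u ^ 2 + y ^ 2) := mul_le_mul_of_nonneg_left huy hk.le
  have f2 : k * c₂ * (|u| * |y|) ≤ k * c₂ * (u ^ 2 + y ^ 2) :=
    mul_le_mul_of_nonneg_left huy (by positivity)
  have f3 : k * m₂ * K * (|y| * |y|) ≤ k * m₂ * K * (u ^ 2 + y ^ 2) :=
    mul_le_mul_of_nonneg_left hyy (by positivity)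
  have f4 : P₀ * (|y| * |y|) ≤ P₀ * (u ^ 2 + y ^ 2) := mul_le_mul_of_nonneg_left hyy hP₀
  have f5 : H₀ / k / s * (|u| * |y|) ≤ H₀ / k / s * (u ^ 2 + y ^ 2) :=
    mul_le_mul_of_nonneg_left huy (by positivity)
  have f6 : H₀ / k / s * (|y| * |y|) ≤ H₀ / k / s * (u ^ 2 + y ^ 2) :=
    mul_le_mul_of_nonneg_left hyy (by positivity)
  have e4 : 2 * (k + k * c₂ + k * m₂ * K + P₀ + 2 * (H₀ / k / s)) * (u ^ 2 + y ^ 2) =
      2 * (k * (u ^ 2 + y ^ 2)) + 2 * (k * c₂ * (u ^ 2 + y ^ 2) + k * m₂ * K * (u ^ 2 + y ^ 2) +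
      P₀ * (u ^ 2 + y ^ 2) + H₀ / k / s * (u ^ 2 + y ^ 2) + H₀ / k / s * (u ^ 2 + y ^ 2)) := by
    ring
  rw [e3] at e2
  rw [e4]
  linarith

/-- an orbit with `κ ≠ 0` never passes through the origin -/
theorem Orb.N_pos {c m h P : ℝ → ℝ} {c₁ c₂ m₁ m₂ P₀ H₀ : ℝ}
    (D : Dat c m h P c₁ c₂ m₁ m₂ P₀ H₀) {K s k a κ : ℝ} (hK : 0 < K) (hs : 0 < s) (hk : 0 < k)
    {u y : ℝ → ℝ} (O : Orb c m h P K s k a κ u y) (hκ : 0 < κ) (r : ℝ) :
    0 < u r ^ 2 + y r ^ 2 := by
  obtain ⟨C, hC⟩ := abs_dN_le D hK hs hk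
  have hN : ∀ t, HasDerivAt (fun t => u t ^ 2 + y t ^ 2)
      (2 * u t * (k * y t) + 2 * y t * G c m h P K s k t (u t) (y t)) t := by
    intro t
    have h1 := ((O.du t).pow 2).add ((O.dy t).pow 2)
    refine h1.congr_deriv ?_
    simp only [Nat.cast_ofNat, Nat.add_one_sub_one, pow_one]
  have hexp : ∀ (b t : ℝ), HasDerivAt (fun t => Real.exp (b * t)) (b * Real.exp (b * t)) t := by
    intro b t
    have h1 := ((hasDerivAt_id t).const_mul b).exp
    refine h1.congr_deriv ?_
    simp only [id, mul_one]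
    ring
  have hprod : ∀ (b t : ℝ), HasDerivAt (fun t => (u t ^ 2 + y t ^ 2) * Real.exp (b * t))
      ((2 * u t * (k * y t) + 2 * y t * G c m h P K s k t (u t) (y t) + b * (u t ^ 2 + y t ^ 2)) *
        Real.exp (b * t)) t := by
    intro b t
    refine ((hN t).mul (hexp b t)).congr_deriv ?_
    ring
  have h0 : 0 < u a ^ 2 + y a ^ 2 := by
    rw [O.u0, O.y0]; positivity
  rcases le_total a r with har | har
  · have hmono : Monotone (fun t => (u t ^ 2 + y t ^ 2) * Real.exp (C * t)) := by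
      apply monotone_of_deriv_nonneg
      · exact fun t => (hprod C t).differentiableAt
      · intro t
        rw [(hprod C t).deriv]
        have := neg_le_of_abs_le (hC t (u t) (y t))
        exact mul_nonneg (by linarith) (Real.exp_pos _).le
    have h1 := hmono har
    simp only at h1
    have h2 : 0 < (u a ^ 2 + y a ^ 2) * Real.exp (C * a) := mul_pos h0 (Real.exp_pos _)
    exact pos_of_mul_pos_left (h2.trans_le h1) (Real.exp_pos _).le
  · have hanti : Antitone (fun t => (u t ^ 2 + y t ^ 2) * Real.exp (-C * t)) := by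
      apply antitone_of_deriv_nonpos
      · exact fun t => (hprod (-C) t).differentiableAt
      · intro t
        rw [(hprod (-C) t).deriv]
        have := le_of_abs_le (hC t (u t) (y t))
        exact mul_nonpos_of_nonpos_of_nonneg (by linarith) (Real.exp_pos _).le
    have h1 := hanti har
    simp only at h1
    have h2 : 0 < (u a ^ 2 + y a ^ 2) * Real.exp (-C * a) := mul_pos h0 (Real.exp_pos _)
    exact pos_of_mul_pos_left (h2.trans_le h1) (Real.exp_pos _).le

/-- module ANGLE, part 1 -/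
theorem exists_angle {c m h P : ℝ → ℝ} {c₁ c₂ m₁ m₂ P₀ H₀ : ℝ}
    (D : Dat c m h P c₁ c₂ m₁ m₂ P₀ H₀) {K s k : ℝ} (hK : 0 < K) (hs : 0 < s) (hk : 0 < k) (a : ℝ)
    {U Y : ℝ → ℝ → ℝ} (hO : ∀ κ, Orb c m h P K s k a κ (U κ) (Y κ))
    (hU : Continuous (fun p : ℝ × ℝ => U p.1 p.2)) (hY : Continuous (fun p : ℝ × ℝ => Y p.1 p.2)) :
    ∃ θ : ℝ → ℝ → ℝ, (∀ κ, 0 < κ → Ang c m h P K s k a (U κ) (Y κ) (θ κ)) ∧
      ∀ b, ContinuousOn (fun κ => θ κ b) (Ioi 0) := by
  set F : ℝ → ℝ → ℝ := fun κ r => (U κ r * G c m h P K s k r (U κ r) (Y κ r) - k * Y κ r ^ 2) /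
    (U κ r ^ 2 + Y κ r ^ 2) with hF
  have hNpos : ∀ κ, 0 < κ → ∀ r, 0 < U κ r ^ 2 + Y κ r ^ 2 := fun κ hκ r =>
    (hO κ).N_pos D hK hs hk hκ r
  refine ⟨fun κ b => π / 2 + ∫ r in a..b, F κ r, fun κ hκ => ?_, fun b => ?_⟩
  · have hUc : Continuous (U κ) := hU.comp (Continuous.prodMk_right κ)
    have hYc : Continuous (Y κ) := hY.comp (Continuous.prodMk_right κ)
    have hFc : Continuous (F κ) := by
      rw [hF]
      refine Continuous.div ?_ ?_ (fun r => (hNpos κ hκ r).ne')
      · exact (hUc.mul (continuous_G D K s k continuous_id hUc hYc)).sub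
          (continuous_const.mul (hYc.pow 2))
      · exact (hUc.pow 2).add (hYc.pow 2)
    set θ : ℝ → ℝ := fun b => π / 2 + ∫ r in a..b, F κ r with hθ
    have hdth : ∀ r, HasDerivAt θ (F κ r) r := by
      intro r
      exact (intervalIntegral.integral_hasDerivAt_right (hFc.intervalIntegrable _ _)
        (hFc.stronglyMeasurableAtFilter _ _) hFc.continuousAt).const_add _
    have hth0 : θ a = π / 2 := by simp [hθ]
    set N : ℝ → ℝ := fun t => U κ t ^ 2 + Y κ t ^ 2 with hN
    have hNp : ∀ t, 0 < N t := hNpos κ hκ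
    set g : ℝ → ℝ := fun t => G c m h P K s k t (U κ t) (Y κ t) with hg
    have hdN : ∀ t, HasDerivAt N (2 * U κ t * (k * Y κ t) + 2 * Y κ t * g t) t := by
      intro t
      have h1 := (((hO κ).du t).pow 2).add (((hO κ).dy t).pow 2)
      refine h1.congr_deriv ?_
      simp only [Nat.cast_ofNat, Nat.add_one_sub_one, pow_one, hg]
    have hFN : ∀ t, F κ t * N t = U κ t * g t - k * Y κ t ^ 2 := by
      intro t
      exact div_mul_cancel₀ _ (hNp t).ne'
    -- the two projections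
    set A : ℝ → ℝ := fun t => U κ t * Real.cos (θ t) + Y κ t * Real.sin (θ t) with hA
    set B : ℝ → ℝ := fun t => -(U κ t * Real.sin (θ t)) + Y κ t * Real.cos (θ t) with hB
    have hdA : ∀ t, HasDerivAt A (k * Y κ t * Real.cos (θ t) - U κ t * Real.sin (θ t) * F κ t +
        (g t * Real.sin (θ t) + Y κ t * Real.cos (θ t) * F κ t)) t := by
      intro t
      have h1 := (((hO κ).du t).mul (hdth t).cos).add (((hO κ).dy t).mul (hdth t).sin)
      refine h1.congr_deriv ?_
      simp only [hg]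
      ring
    have hdB : ∀ t, HasDerivAt B (-(k * Y κ t * Real.sin (θ t) + U κ t * Real.cos (θ t) * F κ t) +
        (g t * Real.cos (θ t) - Y κ t * Real.sin (θ t) * F κ t)) t := by
      intro t
      have h1 := (((hO κ).du t).mul (hdth t).sin).neg.add (((hO κ).dy t).mul (hdth t).cos)
      refine h1.congr_deriv ?_
      simp only [hg]
      ring
    have hsc : ∀ t, Real.sin (θ t) ^ 2 + Real.cos (θ t) ^ 2 = 1 := fun t =>
      Real.sin_sq_add_cos_sq _
    have hsq : ∀ t, HasDerivAt (fun t => √(N t))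
        ((2 * U κ t * (k * Y κ t) + 2 * Y κ t * g t) / (2 * √(N t))) t := fun t =>
      (hdN t).sqrt (hNp t).ne'
    have hsN : ∀ t, 0 < √(N t) := fun t => Real.sqrt_pos.2 (hNp t)
    have hss : ∀ t, √(N t) * √(N t) = N t := fun t => Real.mul_self_sqrt (hNp t).le
    have hzero : ∀ (f f' : ℝ → ℝ), (∀ t, HasDerivAt f (f' t) t) →
        (∀ t, 2 * N t * f' t = (2 * U κ t * (k * Y κ t) + 2 * Y κ t * g t) * f t) →
        ∀ t, f t / √(N t) = f a / √(N a) := by
      intro f f' hf hf' t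
      have hd : ∀ t, HasDerivAt (fun t => f t / √(N t)) 0 t := by
        intro t
        refine ((hf t).div (hsq t) (hsN t).ne').congr_deriv ?_
        rw [div_eq_zero_iff]
        left
        have h1 := hf' t
        rw [← hss t] at h1
        have h2 := (hsN t).ne'
        field_simp
        linear_combination (1 / 2) * h1
      exact is_const_of_deriv_eq_zero (fun t => (hd t).differentiableAt) (fun t => (hd t).deriv) t a
    have hAe : ∀ t, 2 * N t * (k * Y κ t * Real.cos (θ t) - U κ t * Real.sin (θ t) * F κ t +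
        (g t * Real.sin (θ t) + Y κ t * Real.cos (θ t) * F κ t)) =
        (2 * U κ t * (k * Y κ t) + 2 * Y κ t * g t) * A t := by
      intro t
      have h1 := hFN t
      have h2 : N t = U κ t ^ 2 + Y κ t ^ 2 := rfl
      simp only [hA]
      rw [h2] at h1 ⊢
      linear_combination (2 * (Y κ t * Real.cos (θ t) - U κ t * Real.sin (θ t))) * h1
    have hBe : ∀ t, 2 * N t * (-(k * Y κ t * Real.sin (θ t) + U κ t * Real.cos (θ t) * F κ t) +
        (g t * Real.cos (θ t) - Y κ t * Real.sin (θ t) * F κ t)) =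
        (2 * U κ t * (k * Y κ t) + 2 * Y κ t * g t) * B t := by
      intro t
      have h1 := hFN t
      have h2 : N t = U κ t ^ 2 + Y κ t ^ 2 := rfl
      simp only [hB]
      rw [h2] at h1 ⊢
      linear_combination (-2 * (U κ t * Real.cos (θ t) + Y κ t * Real.sin (θ t))) * h1
    have hAc := hzero A _ hdA hAe
    have hBc := hzero B _ hdB hBe
    have hNa : N a = κ ^ 2 := by
      simp only [hN, (hO κ).u0, (hO κ).y0]; ring
    have hsNa : √(N a) = κ := by rw [hNa, Real.sqrt_sq hκ.le]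
    have hAa : A a = κ := by
      simp only [hA, hth0, (hO κ).u0, (hO κ).y0, Real.cos_pi_div_two, Real.sin_pi_div_two]; ring
    have hBa : B a = 0 := by
      simp only [hB, hth0, (hO κ).u0, (hO κ).y0, Real.cos_pi_div_two, Real.sin_pi_div_two]; ring
    have hAt : ∀ t, A t = √(N t) := by
      intro t
      have h1 := hAc t
      rw [hAa, hsNa, div_self hκ.ne', div_eq_one_iff_eq (hsN t).ne'] at h1
      exact h1
    have hBt : ∀ t, B t = 0 := by
      intro t
      have h1 := hBc t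
      rw [hBa, zero_div, div_eq_zero_iff] at h1
      rcases h1 with h1 | h1
      · exact h1
      · exact absurd h1 (hsN t).ne'
    refine ⟨hth0, hNpos κ hκ, hdth, fun t => ?_, fun t => ?_⟩
    · have h1 := hAt t
      have h2 := hBt t
      have h3 := hsc t
      change U κ t = √(N t) * Real.cos (θ t)
      rw [← h1]
      simp only [hA]
      simp only [hB] at h2
      linear_combination (-(U κ t)) * h3 - Real.sin (θ t) * h2
    · have h1 := hAt t
      have h2 := hBt t
      have h3 := hsc t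
      change Y κ t = √(N t) * Real.sin (θ t)
      rw [← h1]
      simp only [hA]
      simp only [hB] at h2
      linear_combination (-(Y κ t)) * h3 + Real.cos (θ t) * h2
  · rw [continuousOn_iff_continuous_domRestrict]
    have hcont : Continuous (Function.uncurry (fun (κ : Ioi (0:ℝ)) (r : ℝ) => F κ r)) := by
      have hp : Continuous (fun p : Ioi (0:ℝ) × ℝ => ((p.1 : ℝ), p.2)) :=
        (continuous_subtype_val.comp continuous_fst).prodMk continuous_snd
      have hU' : Continuous (fun p : Ioi (0:ℝ) × ℝ => U p.1 p.2) := hU.comp hp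
      have hY' : Continuous (fun p : Ioi (0:ℝ) × ℝ => Y p.1 p.2) := hY.comp hp
      refine Continuous.div ?_ ?_ (fun p => (hNpos _ p.1.2 p.2).ne')
      · exact (hU'.mul (continuous_G D K s k continuous_snd hU' hY')).sub
          (continuous_const.mul (hY'.pow 2))
      · exact (hU'.pow 2).add (hY'.pow 2)
    have h1 := intervalIntegral.continuous_parametric_intervalIntegral_of_continuous'
      (μ := volume) hcont a b
    exact continuous_const.add h1

end QGN
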