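import Pool.Agent.QGN.Defs

/-!
# A priori bound of the orbits that do not enter the escape region
-/

open Set Filter Topology
open scoped Real

namespace QGN

theorem forcing_bound {c m h P : ℝ → ℝ} {c₁ c₂ m₁ m₂ P₀ H₀ : ℝ} (D : Dat c m h P c₁ c₂ m₁ m₂ P₀ H₀)
    {s k : ℝ} (hs : 0 < s) (hk : 1 ≤ k) (r u y : ℝ) : |h r / k * X s u y| ≤ H₀ / k := by
  have hk0 : 0 < k := by linarith
  have h1 := D.leH₀ r
  rw [abs_mul, abs_div, abs_of_pos hk0, abs_of_nonneg (X_nonneg hs u y)]
  calc |h r| / k * X s u y ≤ |h r| / k * 1 :=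
        mul_le_mul_of_nonneg_left (X_le_one s u y) (by positivity)
    _ ≤ H₀ / k := by
        rw [mul_one]
        gcongr

/-- module APRI -/
theorem apriori {c m h P : ℝ → ℝ} {c₁ c₂ m₁ m₂ P₀ H₀ : ℝ} (D : Dat c m h P c₁ c₂ m₁ m₂ P₀ H₀)
    {a b : ℝ} (hab : a < b) {Q₀ κ₁ k : ℝ} (hQ : 0 < Q₀) (hκ : 0 < κ₁) (hk : 1 ≤ k) :
    ∃ K₁ : ℝ, ∀ (K s κ : ℝ) (u y : ℝ → ℝ), 0 < K → 0 < s → κ ∈ Icc 0 κ₁ →
      Orb c m h P K s k a κ u y → (∀ t ∈ Ico a b, u t ≤ 0 → -y t < Q₀ - u t) →
      ∀ t ∈ Icc a b, |y t| ≤ K₁ := by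
  have hk0 : 0 < k := by linarith
  have hc₂ : 0 < c₂ := D.c₁pos.trans_le ((D.c₁le 0).trans (D.lec₂ 0))
  have hm₂ : 0 < m₂ := D.m₁pos.trans_le ((D.m₁le 0).trans (D.lem₂ 0))
  have hH : 0 ≤ H₀ := (abs_nonneg _).trans (D.leH₀ 0)
  have hba : 0 < b - a := by linarith
  obtain ⟨V, hV⟩ : ∃ V, V = Q₀ * (Real.exp (k * (b - a)) - 1) := ⟨_, rfl⟩
  have hV0 : 0 ≤ V := by
    rw [hV]
    have : 1 ≤ Real.exp (k * (b - a)) := Real.one_le_exp (by positivity)
    exact mul_nonneg hQ.le (by linarith)
  obtain ⟨C, hC⟩ : ∃ C, C = k * c₂ * V + H₀ / k + 1 := ⟨_, rfl⟩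
  have hC0 : 0 < C := by rw [hC]; positivity
  obtain ⟨Ym, hYm⟩ : ∃ Ym, Ym = κ₁ + C * (b - a) := ⟨_, rfl⟩
  have hYm0 : 0 < Ym := by rw [hYm]; positivity
  obtain ⟨Um, hUm⟩ : ∃ Um, Um = k * Ym * (b - a) := ⟨_, rfl⟩
  have hUm0 : 0 < Um := by rw [hUm]; positivity
  obtain ⟨C', hC'⟩ : ∃ C', C' = Real.exp (m₂ * Um) * (k * c₂ * Um + H₀ / k) + 1 := ⟨_, rfl⟩
  have hC'0 : 0 < C' := by rw [hC']; positivity
  obtain ⟨B, hB⟩ : ∃ B, B = (Q₀ + V) + C' * (b - a) := ⟨_, rfl⟩
  have hB0 : 0 < B := by rw [hB]; positivity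
  refine ⟨max Ym (B * Real.exp (m₂ * V)), ?_⟩
  intro K s κ u y hK hs hκ' O hno
  have hu : Continuous u := continuous_iff_continuousAt.2 fun r => (O.du r).continuousAt
  have hy : Continuous y := continuous_iff_continuousAt.2 fun r => (O.dy r).continuousAt
  -- (i) the lower bound of `u`
  have s1 : ∀ t ∈ Icc a b, -u t ≤ V := by
    have key := image_le_of_deriv_right_lt_deriv_boundary (f := fun t => -u t) (f' := fun t => -(k * y t))
      (a := a) (b := b) (hu.neg.continuousOn) (fun x _ => ((O.du x).neg).hasDerivWithinAt)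
      (B := fun t => Q₀ * (Real.exp (k * (t - a)) - 1))
      (B' := fun t => Q₀ * (Real.exp (k * (t - a)) * (k * 1))) (by
        show -u a ≤ Q₀ * (Real.exp (k * (a - a)) - 1)
        rw [O.u0, sub_self, mul_zero, Real.exp_zero, sub_self, mul_zero, neg_zero])
      (fun x => ((((hasDerivAt_id x).sub_const a).const_mul k).exp.sub_const 1).const_mul Q₀)
      (by
        intro x hx hfx
        have hfx' : -u x = Q₀ * (Real.exp (k * (x - a)) - 1) := hfx
        have e1 : 1 ≤ Real.exp (k * (x - a)) := Real.one_le_exp (mul_nonneg hk0.le (by linarith [hx.1]))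
        have e2 : 0 ≤ Q₀ * (Real.exp (k * (x - a)) - 1) := mul_nonneg hQ.le (by linarith)
        have e3 := hno x hx (by linarith)
        show -(k * y x) < Q₀ * (Real.exp (k * (x - a)) * (k * 1))
        have e4 : k * (-y x) < k * (Q₀ - u x) := mul_lt_mul_of_pos_left e3 hk0
        have e5 : k * (Q₀ - u x) = Q₀ * (Real.exp (k * (x - a)) * (k * 1)) := by
          have : Q₀ - u x = Q₀ * Real.exp (k * (x - a)) := by linarith
          rw [this]
          ring
        linarith)
    intro t ht
    refine (key ht).trans ?_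
    rw [hV]
    have : Real.exp (k * (t - a)) ≤ Real.exp (k * (b - a)) :=
      Real.exp_le_exp.2 (mul_le_mul_of_nonneg_left (by linarith [ht.2]) hk0.le)
    exact mul_le_mul_of_nonneg_left (by linarith) hQ.le
  -- the bound of `-k c u`
  have hcu : ∀ t ∈ Icc a b, -(k * (c t * u t)) ≤ k * c₂ * V := by
    intro t ht
    have e1 := s1 t ht
    have e2 := D.c₁le t
    have e3 := D.lec₂ t
    have e4 : 0 ≤ c t := D.c₁pos.le.trans e2
    have e5 : c t * (-u t) ≤ c₂ * V :=
      (mul_le_mul_of_nonneg_left e1 e4).trans (mul_le_mul_of_nonneg_right e3 hV0)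
    nlinarith
  -- (ii) the upper bound of `y`
  have s2 : ∀ t ∈ Icc a b, y t ≤ Ym := by
    have key := image_le_of_deriv_right_lt_deriv_boundary (f := y)
      (f' := fun t => G c m h P K s k t (u t) (y t)) (a := a) (b := b) (hy.continuousOn)
      (fun x _ => (O.dy x).hasDerivWithinAt)
      (B := fun t => κ₁ + C * (t - a)) (B' := fun t => C * 1) (by
        show y a ≤ κ₁ + C * (a - a)
        rw [O.y0, sub_self, mul_zero, add_zero]
        exact hκ'.2)
      (fun x => (((hasDerivAt_id x).sub_const a).const_mul C).const_add κ₁)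
      (by
        intro x hx hfx
        have hfx' : y x = κ₁ + C * (x - a) := hfx
        have hy0 : 0 ≤ y x := by
          rw [hfx']
          have : 0 ≤ x - a := by linarith [hx.1]
          positivity
        have e1 := hcu x ⟨hx.1, hx.2.le⟩
        have e2 := (abs_le.1 (forcing_bound D hs hk x (u x) (y x))).1
        have e3 : 0 ≤ m x * T K (y x) := mul_nonneg (D.m₁pos.le.trans (D.m₁le x)) (T_nonneg hK.le _)
        have e4 : 0 ≤ P x * y x := mul_nonneg (D.P0 x) hy0
        have e5 : 0 ≤ k * (m x * T K (y x)) := mul_nonneg hk0.le e3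
        show G c m h P K s k x (u x) (y x) < C * 1
        rw [hC]
        unfold G
        linarith)
    intro t ht
    refine (key ht).trans ?_
    rw [hYm]
    have := mul_le_mul_of_nonneg_left (show t - a ≤ b - a by linarith [ht.2]) hC0.le
    linarith
  -- (iii) the upper bound of `u`
  have s3 : ∀ t ∈ Icc a b, u t ≤ Um := by
    have key := image_le_of_deriv_right_le_deriv_boundary (f := u) (f' := fun t => k * y t)
      (a := a) (b := b) hu.continuousOn (fun x _ => (O.du x).hasDerivWithinAt)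
      (B := fun t => k * Ym * (t - a)) (B' := fun t => k * Ym * 1) (by
        show u a ≤ k * Ym * (a - a)
        rw [O.u0, sub_self, mul_zero])
      (by fun_prop)
      (fun x _ => ((((hasDerivAt_id x).sub_const a).const_mul (k * Ym))).hasDerivWithinAt)
      (by
        intro x hx
        show k * y x ≤ k * Ym * 1
        rw [mul_one]
        exact mul_le_mul_of_nonneg_left (s2 x ⟨hx.1, hx.2.le⟩) hk0.le)
    intro t ht
    refine (key ht).trans ?_
    rw [hUm]
    exact mul_le_mul_of_nonneg_left (by linarith [ht.2]) (by positivity)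
  -- (iv) the lower bound of `y`
  have s4 : ∀ t ∈ Icc a b, -y t * Real.exp (m₂ * u t) ≤ B := by
    have key := image_le_of_deriv_right_lt_deriv_boundary (f := fun t => -y t * Real.exp (m₂ * u t))
      (f' := fun t => -G c m h P K s k t (u t) (y t) * Real.exp (m₂ * u t) +
        -y t * (Real.exp (m₂ * u t) * (m₂ * (k * y t)))) (a := a) (b := b) (by fun_prop)
      (fun x _ => (((O.dy x).neg.mul ((O.du x).const_mul m₂).exp)).hasDerivWithinAt)
      (B := fun t => (Q₀ + V) + C' * (t - a)) (B' := fun t => C' * 1) (by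
        show -y a * Real.exp (m₂ * u a) ≤ (Q₀ + V) + C' * (a - a)
        rw [O.u0, O.y0, mul_zero, Real.exp_zero, mul_one, sub_self, mul_zero, add_zero]
        linarith [hκ'.1])
      (fun x => (((hasDerivAt_id x).sub_const a).const_mul C').const_add (Q₀ + V))
      (by
        intro x hx hfx
        have hfx' : -y x * Real.exp (m₂ * u x) = (Q₀ + V) + C' * (x - a) := hfx
        have hxa : 0 ≤ C' * (x - a) := mul_nonneg hC'0.le (by linarith [hx.1])
        have hE := Real.exp_pos (m₂ * u x)
        have hpos : 0 < -y x * Real.exp (m₂ * u x) := by rw [hfx']; linarith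
        have hW : 0 < -y x := by
          by_contra hc
          have := mul_nonpos_of_nonpos_of_nonneg (not_lt.1 hc) hE.le
          linarith
        have hxI : x ∈ Icc a b := ⟨hx.1, hx.2.le⟩
        have hux : 0 < u x := by
          by_contra hc
          have hc' : u x ≤ 0 := not_lt.1 hc
          have e1 := hno x hx hc'
          have e2 : Real.exp (m₂ * u x) ≤ 1 := Real.exp_le_one_iff.2 (mul_nonpos_of_nonneg_of_nonpos hm₂.le hc')
          have e3 : -y x * Real.exp (m₂ * u x) ≤ -y x * 1 := mul_le_mul_of_nonneg_left e2 hW.le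
          have e4 := s1 x hxI
          linarith
        have hG : -G c m h P K s k x (u x) (y x) ≤ k * c₂ * Um + H₀ / k + k * m₂ * (y x) ^ 2 := by
          have e1 := (abs_le.1 (forcing_bound D hs hk x (u x) (y x))).2
          have e2 : m x * T K (y x) ≤ m₂ * (y x) ^ 2 :=
            (mul_le_mul_of_nonneg_right (D.lem₂ x) (T_nonneg hK.le _)).trans
              (mul_le_mul_of_nonneg_left (T_le_sq K (y x)) hm₂.le)
          have e3 : c x * u x ≤ c₂ * Um :=
            (mul_le_mul_of_nonneg_right (D.lec₂ x) hux.le).trans (mul_le_mul_of_nonneg_left (s3 x hxI) hc₂.le)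
          have e4 : P x * y x ≤ 0 := mul_nonpos_of_nonneg_of_nonpos (D.P0 x) (by linarith)
          have e5 : k * (c x * u x + m x * T K (y x)) ≤ k * (c₂ * Um + m₂ * (y x) ^ 2) :=
            mul_le_mul_of_nonneg_left (by linarith) hk0.le
          unfold G
          linarith
        have hEU : Real.exp (m₂ * u x) ≤ Real.exp (m₂ * Um) :=
          Real.exp_le_exp.2 (mul_le_mul_of_nonneg_left (s3 x hxI) hm₂.le)
        have hD0 : 0 ≤ k * c₂ * Um + H₀ / k := by positivity
        show -G c m h P K s k x (u x) (y x) * Real.exp (m₂ * u x) +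
          -y x * (Real.exp (m₂ * u x) * (m₂ * (k * y x))) < C' * 1
        calc -G c m h P K s k x (u x) (y x) * Real.exp (m₂ * u x) +
              -y x * (Real.exp (m₂ * u x) * (m₂ * (k * y x))) =
              (-G c m h P K s k x (u x) (y x) - k * m₂ * (y x) ^ 2) * Real.exp (m₂ * u x) := by ring
          _ ≤ (k * c₂ * Um + H₀ / k) * Real.exp (m₂ * u x) :=
              mul_le_mul_of_nonneg_right (by linarith) hE.le
          _ ≤ (k * c₂ * Um + H₀ / k) * Real.exp (m₂ * Um) := mul_le_mul_of_nonneg_left hEU hD0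
          _ < C' * 1 := by
              rw [hC']
              linarith)
    intro t ht
    refine (key ht).trans ?_
    rw [hB]
    have := mul_le_mul_of_nonneg_left (show t - a ≤ b - a by linarith [ht.2]) hC'0.le
    linarith
  intro t ht
  rw [abs_le]
  constructor
  · have e1 := s4 t ht
    have e2 := s1 t ht
    have e3 : -y t ≤ B * Real.exp (m₂ * V) := by
      have e4 : -y t = (-y t * Real.exp (m₂ * u t)) * Real.exp (-(m₂ * u t)) := by
        rw [mul_assoc, ← Real.exp_add, add_neg_cancel, Real.exp_zero, mul_one]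
      rw [e4]
      calc (-y t * Real.exp (m₂ * u t)) * Real.exp (-(m₂ * u t)) ≤ B * Real.exp (-(m₂ * u t)) :=
            mul_le_mul_of_nonneg_right e1 (Real.exp_pos _).le
        _ ≤ B * Real.exp (m₂ * V) := by
            refine mul_le_mul_of_nonneg_left (Real.exp_le_exp.2 ?_) hB0.le
            have := mul_le_mul_of_nonneg_left e2 hm₂.le
            linarith
    have := le_max_right Ym (B * Real.exp (m₂ * V))
    linarith
  · exact (s2 t ht).trans (le_max_left _ _)

end QGN
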