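import Pool.Agent.QGN.Defs

/-!
# Large initial slopes enter the escape region
-/

open Set Filter Topology
open scoped Real

namespace QGN

theorem force_le {c m h P : ℝ → ℝ} {c₁ c₂ m₁ m₂ P₀ H₀ : ℝ} (D : Dat c m h P c₁ c₂ m₁ m₂ P₀ H₀)
    {s k : ℝ} (hs : 0 < s) (hk : 1 ≤ k) (r u y : ℝ) : |h r / k * X s u y| ≤ H₀ := by
  have hk0 : 0 < k := by linarith
  have h1 := D.leH₀ r
  have hH : 0 ≤ H₀ := (abs_nonneg _).trans h1
  rw [abs_mul, abs_div, abs_of_pos hk0, abs_of_nonneg (X_nonneg hs u y)]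
  calc |h r| / k * X s u y ≤ |h r| / k * 1 :=
        mul_le_mul_of_nonneg_left (X_le_one s u y) (by positivity)
    _ ≤ |h r| := by
        rw [mul_one]
        exact div_le_self (abs_nonneg _) hk
    _ ≤ H₀ := h1

theorem right_nonneg {f : ℝ → ℝ} {d x : ℝ} (hf : HasDerivAt f d x) (h0 : 0 ≤ f x)
    (h1 : f x = 0 → 0 < d) : ∀ᶠ t in 𝓝[>] x, 0 ≤ f t := by
  rcases lt_or_eq_of_le h0 with h | h
  · have h2 : ∀ᶠ t in 𝓝 x, 0 < f t := hf.continuousAt.eventually (lt_mem_nhds h)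
    exact (h2.filter_mono nhdsWithin_le_nhds).mono fun t ht => ht.le
  · have hd := h1 h.symm
    have h2 := hasDerivAt_iff_tendsto_slope.1 hf
    have h3 : ∀ᶠ t in 𝓝[≠] x, 0 < slope f x t := h2.eventually (lt_mem_nhds hd)
    have h4 : ∀ᶠ t in 𝓝[>] x, 0 < slope f x t :=
      h3.filter_mono (nhdsWithin_mono x fun t ht => ne_of_gt ht)
    filter_upwards [h4, self_mem_nhdsWithin] with t ht htx
    have htx' : 0 < t - x := sub_pos.2 htx
    rw [slope_def_field, ← h, sub_zero] at ht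
    have := mul_pos ht htx'
    rw [div_mul_cancel₀ _ htx'.ne'] at this
    exact this.le

/-- two functions stay nonnegative -/
theorem stay {f g f' g' : ℝ → ℝ} {a b : ℝ} (hf : ∀ x, HasDerivAt f (f' x) x)
    (hg : ∀ x, HasDerivAt g (g' x) x) (hfa : 0 ≤ f a) (hga : 0 ≤ g a)
    (h : ∀ x ∈ Ico a b, 0 ≤ f x → 0 ≤ g x → (f x = 0 → 0 < f' x) ∧ (g x = 0 → 0 < g' x)) :
    ∀ x ∈ Icc a b, 0 ≤ f x ∧ 0 ≤ g x := by
  have hfc : Continuous f := continuous_iff_continuousAt.2 fun r => (hf r).continuousAt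
  have hgc : Continuous g := continuous_iff_continuousAt.2 fun r => (hg r).continuousAt
  have hs : IsClosed ({x | 0 ≤ f x ∧ 0 ≤ g x} ∩ Icc a b) :=
    ((isClosed_le continuous_const hfc).inter (isClosed_le continuous_const hgc)).inter isClosed_Icc
  have key := hs.Icc_subset_of_forall_mem_nhdsWithin (a := a) (b := b)
    (s := {x | 0 ≤ f x ∧ 0 ≤ g x}) ⟨hfa, hga⟩ (by
      rintro x ⟨⟨h1, h2⟩, hx⟩
      obtain ⟨h3, h4⟩ := h x hx h1 h2
      exact (right_nonneg (hf x) h1 h3).and (right_nonneg (hg x) h2 h4))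
  exact fun x hx => key hx

/-- module LARGE -/
theorem large {c m h P : ℝ → ℝ} {c₁ c₂ m₁ m₂ P₀ H₀ : ℝ} (D : Dat c m h P c₁ c₂ m₁ m₂ P₀ H₀)
    {a b Q₀ : ℝ} (hab : a < b) (hQ : 0 < Q₀) :
    ∃ κ₁ : ℝ, 1 ≤ κ₁ ∧ ∀ (k K s t₁ : ℝ) (u y : ℝ → ℝ), 1 ≤ k → 0 < K → 0 < s →
      Orb c m h P K s k a κ₁ u y → t₁ ∈ Ioc a b → (∀ t ∈ Ioo a t₁, 0 < u t) → u t₁ = 0 →
      y t₁ ≤ -Q₀ := by
  have hc₁ := D.c₁pos
  have hc₂ : 0 < c₂ := D.c₁pos.trans_le ((D.c₁le 0).trans (D.lec₂ 0))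
  have hm₂ : 0 < m₂ := D.m₁pos.trans_le ((D.m₁le 0).trans (D.lem₂ 0))
  have hH : 0 ≤ H₀ := (abs_nonneg _).trans (D.leH₀ 0)
  have hP : 0 ≤ P₀ := (D.P0 0).trans (D.leP₀ 0)
  have hL : 0 < b - a := by linarith
  obtain ⟨β, hβ⟩ : ∃ β, β = 2 * P₀ + 2 + H₀ ^ 2 := ⟨_, rfl⟩
  have hβ0 : 0 < β := by rw [hβ]; positivity
  obtain ⟨U₀, hU₀⟩ : ∃ U₀, U₀ = (H₀ + 1) / c₁ := ⟨_, rfl⟩
  have hU₀0 : 0 < U₀ := by rw [hU₀]; positivity
  have hU₀c : c₁ * U₀ = H₀ + 1 := by rw [hU₀]; field_simp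
  obtain ⟨R, hR⟩ : ∃ R, R = 1 + Q₀ ^ 2 + c₁ * U₀ ^ 2 := ⟨_, rfl⟩
  have hR1 : 1 ≤ R := by
    rw [hR]
    have : 0 ≤ Q₀ ^ 2 + c₁ * U₀ ^ 2 := by positivity
    linarith
  obtain ⟨M, hM⟩ : ∃ M, M = R * Real.exp (β * (b - a)) := ⟨_, rfl⟩
  have hM0 : 0 < M := by rw [hM]; positivity
  obtain ⟨A, hA⟩ : ∃ A, A = M / c₁ + 1 := ⟨_, rfl⟩
  have hA0 : 0 < A := by rw [hA]; positivity
  have hAM : M ≤ c₁ * A ^ 2 := by
    have e1 : c₁ * A = M + c₁ := by rw [hA]; field_simp
    have e2 : 1 ≤ A := by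
      rw [hA]
      have : 0 < M / c₁ := by positivity
      linarith
    nlinarith
  obtain ⟨N, hN⟩ : ∃ N, N = (c₂ * A ^ 2 + 1) * Real.exp (2 * m₂ * A) := ⟨_, rfl⟩
  have hN0 : 0 < N := by rw [hN]; positivity
  obtain ⟨κ₁, hκ₁⟩ : ∃ κ₁, κ₁ = 1 + N * Real.exp (β * (b - a)) := ⟨_, rfl⟩
  have hκ1 : 1 ≤ κ₁ := by
    rw [hκ₁]
    have : 0 < N * Real.exp (β * (b - a)) := by positivity
    linarith
  refine ⟨κ₁, hκ1, ?_⟩
  intro k K s t₁ u y hk hK hs O ht₁ hpos hu1
  have hk0 : 0 < k := by linarith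
  have hu : Continuous u := continuous_iff_continuousAt.2 fun r => (O.du r).continuousAt
  have hy : Continuous y := continuous_iff_continuousAt.2 fun r => (O.dy r).continuousAt
  have hu0 : ∀ t ∈ Icc a t₁, 0 ≤ u t := by
    intro t ht
    rcases eq_or_lt_of_le ht.1 with h | h
    · rw [← h, O.u0]
    · rcases eq_or_lt_of_le ht.2 with h' | h'
      · rw [h', hu1]
      · exact (hpos t ⟨h, h'⟩).le
  -- the first zero of `y`
  obtain ⟨z, hz, hyz⟩ : ∃ z ∈ Ioo a t₁, k * y z = 0 :=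
    exists_hasDerivAt_eq_zero ht₁.1 hu.continuousOn (by rw [O.u0, hu1]) (fun x _ => O.du x)
  have hyz' : y z = 0 := by
    rcases mul_eq_zero.1 hyz with h | h
    · linarith
    · exact h
  have hcomp : IsCompact (Icc a t₁ ∩ {t | y t ≤ 0}) := isCompact_Icc.inter_right (isClosed_le hy continuous_const)
  obtain ⟨tM, htM⟩ := hcomp.exists_isLeast ⟨z, ⟨hz.1.le, hz.2.le⟩, hyz'.le⟩
  have htMz : tM ≤ z := htM.2 ⟨⟨hz.1.le, hz.2.le⟩, hyz'.le⟩
  have htMI := htM.1.1
  have htMa : a < tM := by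
    rcases lt_or_eq_of_le htMI.1 with h | h
    · exact h
    · exfalso
      have h2 : y tM ≤ 0 := htM.1.2
      rw [← h, O.y0] at h2
      linarith
  have htM1 : tM < t₁ := htMz.trans_lt hz.2
  have hy0 : ∀ t ∈ Ico a tM, 0 < y t := by
    intro t ht
    by_contra hc
    have := htM.2 ⟨⟨ht.1, ht.2.le.trans htMI.2⟩, not_lt.1 hc⟩
    linarith [ht.2]
  have hyM : y tM = 0 := by
    have h1 : (0 : ℝ) ∈ Icc (y tM) (y a) := ⟨htM.1.2, by rw [O.y0]; linarith⟩
    obtain ⟨t, ht, hyt⟩ := intermediate_value_Icc' htMa.le hy.continuousOn h1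
    have := htM.2 ⟨⟨ht.1, ht.2.trans htMI.2⟩, hyt.le⟩
    have h2 : t = tM := le_antisymm ht.2 this
    rw [← h2]
    exact hyt
  -- phase 1
  have hE : (κ₁ ^ 2 + 1) ≤ (c₂ * u tM ^ 2 + 1) * Real.exp (2 * m₂ * u tM) * Real.exp (β * (tM - a)) := by
    have key := image_le_of_deriv_right_le_deriv_boundary (f := fun _ => κ₁ ^ 2 + 1) (f' := fun _ => 0)
      (a := a) (b := tM) continuousOn_const (fun x _ => hasDerivWithinAt_const _ _ _)
      (B := fun t => (y t ^ 2 + c₂ * u t ^ 2 + 1) * Real.exp (2 * m₂ * u t) * Real.exp (β * (t - a)))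
      (B' := fun t => ((2 * y t * G c m h P K s k t (u t) (y t) + c₂ * (2 * u t * (k * y t))) *
          Real.exp (2 * m₂ * u t) +
        (y t ^ 2 + c₂ * u t ^ 2 + 1) * (Real.exp (2 * m₂ * u t) * (2 * m₂ * (k * y t)))) *
          Real.exp (β * (t - a)) +
        (y t ^ 2 + c₂ * u t ^ 2 + 1) * Real.exp (2 * m₂ * u t) * (Real.exp (β * (t - a)) * (β * 1))) (by
          show κ₁ ^ 2 + 1 ≤ (y a ^ 2 + c₂ * u a ^ 2 + 1) * Real.exp (2 * m₂ * u a) * Real.exp (β * (a - a))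
          rw [O.u0, O.y0, sub_self, mul_zero, mul_zero, Real.exp_zero, mul_one, mul_one]
          have : (0 : ℝ) ≤ c₂ * 0 ^ 2 := by positivity
          linarith)
      (by fun_prop)
      (by
        intro x _
        have d1 : HasDerivAt (fun t => y t ^ 2 + c₂ * u t ^ 2 + 1)
            (2 * y x * G c m h P K s k x (u x) (y x) + c₂ * (2 * u x * (k * y x))) x := by
          have e1 := (O.dy x).pow 2
          have e2 := ((O.du x).pow 2).const_mul c₂
          have e3 := (e1.add e2).add_const 1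
          refine e3.congr_deriv ?_
          norm_num
        have d2 : HasDerivAt (fun t => Real.exp (2 * m₂ * u t))
            (Real.exp (2 * m₂ * u x) * (2 * m₂ * (k * y x))) x := ((O.du x).const_mul (2 * m₂)).exp
        have d3 : HasDerivAt (fun t => Real.exp (β * (t - a))) (Real.exp (β * (x - a)) * (β * 1)) x :=
          (((hasDerivAt_id x).sub_const a).const_mul β).exp
        exact ((d1.mul d2).mul d3).hasDerivWithinAt)
      (by
        intro x hx
        have hyx := hy0 x hx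
        have hux := hu0 x ⟨hx.1, hx.2.le.trans htMI.2⟩
        have f1 := abs_le.1 (force_le D hs hk x (u x) (y x))
        have hE1 := Real.exp_pos (2 * m₂ * u x)
        have hE2 := Real.exp_pos (β * (x - a))
        have g1 : 0 ≤ 2 * y x * G c m h P K s k x (u x) (y x) + c₂ * (2 * u x * (k * y x)) +
            (y x ^ 2 + c₂ * u x ^ 2 + 1) * (2 * m₂ * (k * y x)) + (y x ^ 2 + c₂ * u x ^ 2 + 1) * β := by
          have a1 : 0 ≤ 2 * k * y x * (u x * (c₂ - c x)) :=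
            mul_nonneg (by positivity) (mul_nonneg hux (by linarith [D.lec₂ x]))
          have a2 : 0 ≤ 2 * k * y x * (m₂ * y x ^ 2 - m x * T K (y x)) := by
            refine mul_nonneg (by positivity) (sub_nonneg.2 ?_)
            exact (mul_le_mul_of_nonneg_right (D.lem₂ x) (T_nonneg hK.le _)).trans
              (mul_le_mul_of_nonneg_left (T_le_sq K (y x)) hm₂.le)
          have a3 : P x * y x ^ 2 ≤ P₀ * y x ^ 2 := mul_le_mul_of_nonneg_right (D.leP₀ x) (sq_nonneg _)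
          have a4 : y x * (h x / k * X s (u x) (y x)) ≤ y x * H₀ := mul_le_mul_of_nonneg_left f1.2 hyx.le
          have a5 : 0 ≤ 2 * m₂ * k * y x * (c₂ * u x ^ 2 + 1) := by positivity
          have a6 : 2 * (y x * H₀) ≤ y x ^ 2 + H₀ ^ 2 := by nlinarith [sq_nonneg (y x - H₀)]
          have a7 : (y x ^ 2 + c₂ * u x ^ 2 + 1) * β = 2 * P₀ * y x ^ 2 + 2 * y x ^ 2 + H₀ ^ 2 * y x ^ 2 +
            (c₂ * u x ^ 2 + 1) * β := by rw [hβ]; ring
          have a8 : H₀ ^ 2 ≤ (c₂ * u x ^ 2 + 1) * β := by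
            have b1 : β ≤ (c₂ * u x ^ 2 + 1) * β := by
              have : 0 ≤ c₂ * u x ^ 2 * β := by positivity
              linarith
            have b2 : H₀ ^ 2 ≤ β := by rw [hβ]; linarith
            linarith
          have a9 : 0 ≤ H₀ ^ 2 * y x ^ 2 := by positivity
          have a10 : 0 ≤ y x ^ 2 := sq_nonneg _
          have id : 2 * y x * G c m h P K s k x (u x) (y x) + c₂ * (2 * u x * (k * y x)) +
            (y x ^ 2 + c₂ * u x ^ 2 + 1) * (2 * m₂ * (k * y x)) =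
            2 * k * y x * (u x * (c₂ - c x)) + 2 * k * y x * (m₂ * y x ^ 2 - m x * T K (y x)) -
              2 * (P x * y x ^ 2) - 2 * (y x * (h x / k * X s (u x) (y x))) +
              2 * m₂ * k * y x * (c₂ * u x ^ 2 + 1) := by
            unfold G
            ring
          rw [id, a7]
          linarith
        have g2 := mul_nonneg g1 (mul_nonneg hE1.le hE2.le)
        show (0 : ℝ) ≤ _
        refine g2.trans (le_of_eq ?_)
        ring)
    have := key (⟨htMa.le, le_rfl⟩ : tM ∈ Icc a tM)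
    have e1 : (y tM ^ 2 + c₂ * u tM ^ 2 + 1) = (c₂ * u tM ^ 2 + 1) := by rw [hyM]; ring
    have e2 : κ₁ ^ 2 + 1 ≤ (y tM ^ 2 + c₂ * u tM ^ 2 + 1) * Real.exp (2 * m₂ * u tM) *
      Real.exp (β * (tM - a)) := this
    rw [e1] at e2
    exact e2
  have huM0 : 0 ≤ u tM := hu0 tM htMI
  have huA : A ≤ u tM := by
    by_contra hc
    have hc' : u tM ≤ A := (not_le.1 hc).le
    have e1 : u tM ^ 2 ≤ A ^ 2 := pow_le_pow_left₀ huM0 hc' 2
    have e2 : (c₂ * u tM ^ 2 + 1) * Real.exp (2 * m₂ * u tM) ≤ N := by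
      rw [hN]
      refine mul_le_mul (by
        have := mul_le_mul_of_nonneg_left e1 hc₂.le
        linarith) (Real.exp_le_exp.2 (mul_le_mul_of_nonneg_left hc' (by positivity))) (Real.exp_pos _).le (by positivity)
    have e3 : Real.exp (β * (tM - a)) ≤ Real.exp (β * (b - a)) :=
      Real.exp_le_exp.2 (mul_le_mul_of_nonneg_left (by linarith [htMI.2, ht₁.2]) hβ0.le)
    have e4 : (c₂ * u tM ^ 2 + 1) * Real.exp (2 * m₂ * u tM) * Real.exp (β * (tM - a)) ≤
        N * Real.exp (β * (b - a)) := mul_le_mul e2 e3 (Real.exp_pos _).le hN0.le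
    have e5 : N * Real.exp (β * (b - a)) = κ₁ - 1 := by rw [hκ₁]; ring
    have e6 : κ₁ ≤ κ₁ ^ 2 := by nlinarith
    linarith
  -- phase 2
  have hBge : ∀ t ∈ Icc tM t₁, R ≤ M * Real.exp (-(β * (t - tM))) := by
    intro t ht
    rw [hM, mul_assoc, ← Real.exp_add]
    have : 1 ≤ Real.exp (β * (b - a) + -(β * (t - tM))) := by
      refine Real.one_le_exp ?_
      have : β * (t - tM) ≤ β * (b - a) :=
        mul_le_mul_of_nonneg_left (by linarith [ht.2, ht₁.2, htMI.1]) hβ0.le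
      linarith
    nlinarith
  have hph := stay (f := fun t => y t ^ 2 + c₁ * u t ^ 2 - M * Real.exp (-(β * (t - tM)))) (g := fun t => -y t)
    (f' := fun t => 2 * y t * G c m h P K s k t (u t) (y t) + c₁ * (2 * u t * (k * y t)) -
      M * (Real.exp (-(β * (t - tM))) * -(β * 1)))
    (g' := fun t => -G c m h P K s k t (u t) (y t)) (a := tM) (b := t₁)
    (by
      intro x
      have e1 := (O.dy x).pow 2
      have e2 := ((O.du x).pow 2).const_mul c₁
      have e3 := ((((hasDerivAt_id x).sub_const tM).const_mul β).neg.exp).const_mul M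
      have e4 := (e1.add e2).sub e3
      refine e4.congr_deriv ?_
      norm_num)
    (fun x => (O.dy x).neg)
    (by
      show 0 ≤ y tM ^ 2 + c₁ * u tM ^ 2 - M * Real.exp (-(β * (tM - tM)))
      rw [hyM, sub_self, mul_zero, neg_zero, Real.exp_zero, mul_one]
      have : A ^ 2 ≤ u tM ^ 2 := pow_le_pow_left₀ hA0.le huA 2
      have := mul_le_mul_of_nonneg_left this hc₁.le
      have : (0 : ℝ) ^ 2 = 0 := by norm_num
      linarith)
    (by
      show 0 ≤ -y tM
      rw [hyM, neg_zero])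
    (by
      intro x hx hfx hgx
      have hyx : y x ≤ 0 := by
        have : 0 ≤ -y x := hgx
        linarith
      have hxI : x ∈ Icc tM t₁ := ⟨hx.1, hx.2.le⟩
      have hux := hu0 x ⟨htMI.1.trans hx.1, hx.2.le⟩
      have f1 := abs_le.1 (force_le D hs hk x (u x) (y x))
      have hB := hBge x hxI
      have hfx' : 0 ≤ y x ^ 2 + c₁ * u x ^ 2 - M * Real.exp (-(β * (x - tM))) := hfx
      constructor
      · intro h0
        have h0' : y x ^ 2 + c₁ * u x ^ 2 - M * Real.exp (-(β * (x - tM))) = 0 := h0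
        show 0 < 2 * y x * G c m h P K s k x (u x) (y x) + c₁ * (2 * u x * (k * y x)) -
          M * (Real.exp (-(β * (x - tM))) * -(β * 1))
        obtain ⟨Bx, hBx⟩ : ∃ Bx, Bx = M * Real.exp (-(β * (x - tM))) := ⟨_, rfl⟩
        rw [← hBx] at h0' hB
        have id : 2 * y x * G c m h P K s k x (u x) (y x) + c₁ * (2 * u x * (k * y x)) -
          M * (Real.exp (-(β * (x - tM))) * -(β * 1)) =
          2 * k * (-y x) * (u x * (c x - c₁)) + 2 * k * (-y x) * (m x * T K (y x)) - 2 * (P x * y x ^ 2) +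
            2 * ((-y x) * (h x / k * X s (u x) (y x))) + Bx * β := by
          rw [hBx]
          unfold G
          ring
        rw [id]
        have ny : 0 ≤ -y x := hgx
        have a1 : 0 ≤ 2 * k * (-y x) * (u x * (c x - c₁)) :=
          mul_nonneg (by positivity) (mul_nonneg hux (by linarith [D.c₁le x]))
        have a2 : 0 ≤ 2 * k * (-y x) * (m x * T K (y x)) :=
          mul_nonneg (by positivity) (mul_nonneg (D.m₁pos.le.trans (D.m₁le x)) (T_nonneg hK.le _))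
        have a3 : P x * y x ^ 2 ≤ P₀ * y x ^ 2 := mul_le_mul_of_nonneg_right (D.leP₀ x) (sq_nonneg _)
        have a4 : (-y x) * (-H₀) ≤ (-y x) * (h x / k * X s (u x) (y x)) := mul_le_mul_of_nonneg_left f1.1 ny
        have a5 : -(y x ^ 2 + H₀ ^ 2) ≤ 2 * ((-y x) * (-H₀)) := by nlinarith [sq_nonneg (y x + H₀)]
        have a6 : y x ^ 2 ≤ Bx := by
          have : 0 ≤ c₁ * u x ^ 2 := by positivity
          linarith
        have a7 : Bx * β = 2 * P₀ * Bx + 2 * Bx + H₀ ^ 2 * Bx := by rw [hβ]; ring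
        have a8 : P₀ * y x ^ 2 ≤ P₀ * Bx := mul_le_mul_of_nonneg_left a6 hP
        have a9 : H₀ ^ 2 * 1 ≤ H₀ ^ 2 * Bx := mul_le_mul_of_nonneg_left (by linarith) (sq_nonneg _)
        rw [a7]
        linarith
      · intro h0
        have hy00 : y x = 0 := by
          have : -y x = 0 := h0
          linarith
        show 0 < -G c m h P K s k x (u x) (y x)
        have b1 : c₁ * U₀ ^ 2 ≤ c₁ * u x ^ 2 := by
          rw [hy00] at hfx'
          have : 0 ≤ Q₀ ^ 2 := sq_nonneg _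
          have : (0 : ℝ) ^ 2 = 0 := by norm_num
          linarith
        have b2 : U₀ ≤ u x := by
          have := le_of_mul_le_mul_left b1 hc₁
          exact (pow_le_pow_iff_left₀ hU₀0.le hux two_ne_zero).1 this
        have b3 : c₁ * U₀ ≤ c x * u x :=
          mul_le_mul (D.c₁le x) b2 hU₀0.le (hc₁.le.trans (D.c₁le x))
        have b4 : 0 ≤ m x * T K (y x) := mul_nonneg (D.m₁pos.le.trans (D.m₁le x)) (T_nonneg hK.le _)
        have b5a : H₀ + 1 ≤ c x * u x + m x * T K (y x) := by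
          rw [← hU₀c]
          exact b3.trans (le_add_of_nonneg_right b4)
        have b5 : 1 * (H₀ + 1) ≤ k * (c x * u x + m x * T K (y x)) :=
          mul_le_mul hk b5a (by positivity) hk0.le
        have b6 : P x * y x = 0 := by rw [hy00, mul_zero]
        have b7 : -G c m h P K s k x (u x) (y x) =
            k * (c x * u x + m x * T K (y x)) + P x * y x + h x / k * X s (u x) (y x) := by
          unfold G
          ring
        rw [b7, b6]
        have b8 := f1.1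
        linarith only [b5, b8])
  have hend := hph t₁ ⟨htM1.le, le_rfl⟩
  have g1 : 0 ≤ y t₁ ^ 2 + c₁ * u t₁ ^ 2 - M * Real.exp (-(β * (t₁ - tM))) := hend.1
  have g2 : 0 ≤ -y t₁ := hend.2
  have g3 := hBge t₁ ⟨htM1.le, le_rfl⟩
  have g4 : Q₀ ^ 2 ≤ (-y t₁) ^ 2 := by
    rw [hu1] at g1
    have : 0 ≤ c₁ * U₀ ^ 2 := by positivity
    have : (-y t₁) ^ 2 = y t₁ ^ 2 := by ring
    have : c₁ * (0 : ℝ) ^ 2 = 0 := by ring
    linarith
  have g5 : Q₀ ≤ -y t₁ := (pow_le_pow_iff_left₀ hQ.le g2 two_ne_zero).1 g4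
  linarith

end QGN
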