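import Pool.Agent.QGN.Defs

/-!
# Elementary lemmas on differential inequalities
-/

open Set Filter Topology

namespace QGN

theorem gron {E E' : ℝ → ℝ} {t₀ t₁ α β : ℝ} (h : t₀ ≤ t₁)
    (hd : ∀ t ∈ Icc t₀ t₁, HasDerivAt E (E' t) t) (hE : ∀ t ∈ Icc t₀ t₁, -(α * E t) - β ≤ E' t)
    (hα : 0 ≤ α) (hβ : 0 ≤ β) :
    Real.exp (-(α * (t₁ - t₀))) * E t₀ - β * (t₁ - t₀) ≤ E t₁ := by
  set F : ℝ → ℝ := fun t => Real.exp (α * (t - t₀)) * E t +
    β * Real.exp (α * (t₁ - t₀)) * (t - t₀) with hF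
  have hFd : ∀ t ∈ Icc t₀ t₁, HasDerivAt F (Real.exp (α * (t - t₀)) * (α * 1) * E t +
      Real.exp (α * (t - t₀)) * E' t + β * Real.exp (α * (t₁ - t₀)) * 1) t := by
    intro t ht
    have h1 : HasDerivAt (fun t => α * (t - t₀)) (α * 1) t :=
      ((hasDerivAt_id t).sub_const t₀).const_mul α
    exact (h1.exp.mul (hd t ht)).add (((hasDerivAt_id t).sub_const t₀).const_mul _)
  have hm : MonotoneOn F (Icc t₀ t₁) := by
    apply monotoneOn_of_deriv_nonneg (convex_Icc _ _)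
    · exact fun t ht => (hFd t ht).continuousAt.continuousWithinAt
    · intro t ht
      rw [interior_Icc] at ht
      exact (hFd t (Ioo_subset_Icc_self ht)).differentiableAt.differentiableWithinAt
    · intro t ht
      rw [interior_Icc] at ht
      have ht' := Ioo_subset_Icc_self ht
      rw [(hFd t ht').deriv]
      have h1 := hE t ht'
      have h2 : Real.exp (α * (t - t₀)) ≤ Real.exp (α * (t₁ - t₀)) :=
        Real.exp_le_exp.2 (mul_le_mul_of_nonneg_left (by linarith [ht.2]) hα)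
      have h3 := Real.exp_pos (α * (t - t₀))
      have h4 := mul_nonneg h3.le (by linarith : 0 ≤ E' t + α * E t + β)
      have h5 := mul_nonneg hβ (sub_nonneg.2 h2)
      nlinarith
  have h1 := hm (left_mem_Icc.2 h) (right_mem_Icc.2 h) h
  simp only [hF, sub_self, mul_zero, Real.exp_zero, one_mul, add_zero] at h1
  have h2 := Real.exp_pos (α * (t₁ - t₀))
  have h3 := Real.exp_pos (-(α * (t₁ - t₀)))
  have h4 : Real.exp (-(α * (t₁ - t₀))) * Real.exp (α * (t₁ - t₀)) = 1 := by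
    rw [← Real.exp_add]; simp
  have h5 := mul_le_mul_of_nonneg_left h1 h3.le
  calc Real.exp (-(α * (t₁ - t₀))) * E t₀ - β * (t₁ - t₀)
      ≤ Real.exp (-(α * (t₁ - t₀))) * (Real.exp (α * (t₁ - t₀)) * E t₁ +
        β * Real.exp (α * (t₁ - t₀)) * (t₁ - t₀)) - β * (t₁ - t₀) := by linarith
    _ = (Real.exp (-(α * (t₁ - t₀))) * Real.exp (α * (t₁ - t₀))) * (E t₁ + β * (t₁ - t₀)) -
        β * (t₁ - t₀) := by ring
    _ = E t₁ := by rw [h4]; ring

/-- the first zero -/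
theorem exists_first {f : ℝ → ℝ} {a b : ℝ} (hab : a ≤ b) (hf : ContinuousOn f (Icc a b))
    (ha : 0 < f a) (hb : f b ≤ 0) : ∃ t ∈ Ioc a b, f t = 0 ∧ ∀ r ∈ Ico a t, 0 < f r := by
  set S : Set ℝ := {t | t ∈ Icc a b ∧ f t ≤ 0} with hS
  have hSc : IsClosed S := by
    have h1 := hf.preimage_isClosed_of_isClosed isClosed_Icc (isClosed_Iic (a := (0 : ℝ)))
    exact h1
  have hSn : S.Nonempty := ⟨b, ⟨hab, le_rfl⟩, hb⟩
  have hSb : BddBelow S := ⟨a, fun t ht => ht.1.1⟩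
  have hτ : sInf S ∈ S := hSc.csInf_mem hSn hSb
  set τ := sInf S with hτd
  have hpos : ∀ r ∈ Ico a τ, 0 < f r := by
    intro r hr
    by_contra h
    have h1 : r ∈ S := ⟨⟨hr.1, hr.2.le.trans hτ.1.2⟩, not_lt.1 h⟩
    exact absurd (csInf_le hSb h1) (not_le.2 hr.2)
  have haτ : a < τ := by
    rcases hτ.1.1.eq_or_lt with h | h
    · rw [← h] at hτ
      exact absurd hτ.2 (not_le.2 ha)
    · exact h
  refine ⟨τ, ⟨haτ, hτ.1.2⟩, ?_, hpos⟩
  by_contra h
  have h1 : f τ < 0 := lt_of_le_of_ne hτ.2 h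
  have h2 : ContinuousOn f (Icc a τ) := hf.mono (Icc_subset_Icc_right hτ.1.2)
  obtain ⟨r, hr, hr0⟩ := intermediate_value_Ioo' haτ.le h2 ⟨h1, ha⟩
  have := hpos r ⟨hr.1.le, hr.2⟩
  rw [hr0] at this
  exact lt_irrefl _ this

/-- the last zero -/
theorem exists_last {f : ℝ → ℝ} {a b : ℝ} (hab : a ≤ b) (hf : ContinuousOn f (Icc a b))
    (ha : 0 ≤ f a) (hb : f b < 0) : ∃ t ∈ Ico a b, f t = 0 ∧ ∀ r ∈ Ioc t b, f r < 0 := by
  have h1 : ContinuousOn (fun t => -f (a + b - t)) (Icc a b) := by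
    apply ContinuousOn.neg
    apply hf.comp (by fun_prop)
    intro t ht
    exact ⟨by linarith [ht.2], by linarith [ht.1]⟩
  obtain ⟨t, ht, h2, h3⟩ := exists_first (f := fun t => -f (a + b - t)) hab h1
    (by show 0 < -f (a + b - a); rw [show a + b - a = b by ring]; linarith)
    (by show -f (a + b - b) ≤ 0; rw [show a + b - b = a by ring]; linarith)
  refine ⟨a + b - t, ⟨by linarith [ht.2], by linarith [ht.1]⟩, by linarith, ?_⟩
  intro r hr
  have : 0 < -f (a + b - (a + b - r)) := h3 (a + b - r) ⟨by linarith [hr.2], by linarith [hr.1]⟩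
  rw [show a + b - (a + b - r) = r by ring] at this
  linarith

theorem eventually_neg {Y : ℝ → ℝ} {y' t : ℝ} (hd : HasDerivAt Y y' t) (h0 : Y t = 0)
    (hy : y' < 0) : ∀ᶠ r in 𝓝[>] t, Y r < 0 := by
  have h1 := hasDerivAt_iff_tendsto_slope.1 hd
  have h2 : Tendsto (slope Y t) (𝓝[>] t) (𝓝 y') :=
    h1.mono_left (nhdsWithin_mono _ (fun x hx => ne_of_gt hx))
  filter_upwards [h2.eventually (gt_mem_nhds hy), self_mem_nhdsWithin] with r hr hr'
  rw [slope_def_field, h0, sub_zero, div_lt_iff₀ (sub_pos.2 hr'), zero_mul] at hr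
  exact hr

/-- persistence of a sign, with knowledge of the past -/
theorem persist {Y Y' : ℝ → ℝ} {a b : ℝ} (hd : ∀ t ∈ Icc a b, HasDerivAt Y (Y' t) t)
    (ha : Y a ≤ 0) (h : ∀ t ∈ Ico a b, (∀ r ∈ Icc a t, Y r ≤ 0) → Y t = 0 → Y' t < 0) :
    ∀ t ∈ Icc a b, Y t ≤ 0 := by
  by_contra hcon
  push Not at hcon
  obtain ⟨t, ht, hpos⟩ := hcon
  set S : Set ℝ := {r | r ∈ Icc a b ∧ 0 < Y r} with hS
  have hSn : S.Nonempty := ⟨t, ht, hpos⟩
  have hSb : BddBelow S := ⟨a, fun r hr => hr.1.1⟩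
  set τ := sInf S with hτ
  have haτ : a ≤ τ := le_csInf hSn fun r hr => hr.1.1
  have hτt : τ ≤ t := csInf_le hSb ⟨ht, hpos⟩
  have hτI : τ ∈ Icc a b := ⟨haτ, hτt.trans ht.2⟩
  have hlt : ∀ r ∈ Ico a τ, Y r ≤ 0 := by
    intro r hr
    by_contra hc
    exact absurd (csInf_le hSb (⟨⟨hr.1, hr.2.le.trans hτI.2⟩, not_le.1 hc⟩ : r ∈ S))
      (not_le.2 hr.2)
  have hτ0 : Y τ ≤ 0 := by
    by_contra hc
    push Not at hc
    have h1 : a < τ := by
      rcases haτ.eq_or_lt with h2 | h2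
      · rw [← h2] at hc
        exact absurd ha (not_le.2 hc)
      · exact h2
    have h2 : ∀ᶠ r in 𝓝[<] τ, 0 < Y r :=
      ((hd τ hτI).continuousAt.eventually (lt_mem_nhds hc)).filter_mono nhdsWithin_le_nhds
    obtain ⟨r, hr1, hr2⟩ := (h2.and (Ioo_mem_nhdsLT h1)).exists
    exact absurd hr1 (not_lt.2 (hlt r ⟨hr2.1.le, hr2.2⟩))
  have hhist : ∀ r ∈ Icc a τ, Y r ≤ 0 := by
    intro r hr
    rcases hr.2.eq_or_lt with h2 | h2
    · rw [h2]; exact hτ0
    · exact hlt r ⟨hr.1, h2⟩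
  have hτt' : τ < t := by
    rcases hτt.eq_or_lt with h2 | h2
    · rw [h2] at hτ0
      exact absurd hpos (not_lt.2 hτ0)
    · exact h2
  have hev : ∀ᶠ r in 𝓝[>] τ, Y r < 0 := by
    rcases hτ0.eq_or_lt with h2 | h2
    · exact eventually_neg (hd τ hτI) h2 (h τ ⟨haτ, hτt'.trans_le ht.2⟩ hhist h2)
    · exact ((hd τ hτI).continuousAt.eventually (gt_mem_nhds h2)).filter_mono nhdsWithin_le_nhds
  obtain ⟨z, hz, hz2⟩ := (mem_nhdsGT_iff_exists_Ioo_subset).1 hev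
  obtain ⟨r, hr, hrz⟩ := exists_lt_of_csInf_lt hSn (show sInf S < z from hz)
  have hτr : τ ≤ r := csInf_le hSb hr
  rcases hτr.eq_or_lt with h2 | h2
  · rw [← h2] at hr
    exact absurd hr.2 (not_lt.2 hτ0)
  · have := hz2 ⟨h2, hrz⟩
    exact absurd hr.2 (not_lt.2 (le_of_lt this))

theorem antitone_of_deriv {U Y : ℝ → ℝ} {k a b : ℝ} (hk : 0 ≤ k)
    (hd : ∀ t ∈ Icc a b, HasDerivAt U (k * Y t) t) (hY : ∀ t ∈ Icc a b, Y t ≤ 0) :
    AntitoneOn U (Icc a b) := by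
  apply antitoneOn_of_deriv_nonpos (convex_Icc _ _)
  · exact fun t ht => (hd t ht).continuousAt.continuousWithinAt
  · intro t ht
    rw [interior_Icc] at ht
    exact (hd t (Ioo_subset_Icc_self ht)).differentiableAt.differentiableWithinAt
  · intro t ht
    rw [interior_Icc] at ht
    rw [(hd t (Ioo_subset_Icc_self ht)).deriv]
    exact mul_nonpos_of_nonneg_of_nonpos hk (hY t (Ioo_subset_Icc_self ht))

end QGN
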