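import Pool.Agent.QGN.Defs
import Pool.Agent.QGN.Aux1

/-!
# No return: an orbit with `u ≤ 0` and `-y ≥ Q₀ - u` keeps `y < 0` for ever
-/

open Set

namespace QGN

/-- in the region `u ≤ 0`, `y = u - Q₀` the field points inwards -/
theorem G_le_of_region {c m h P : ℝ → ℝ} {c₁ c₂ m₁ m₂ P₀ H₀ : ℝ}
    (D : Dat c m h P c₁ c₂ m₁ m₂ P₀ H₀) {K s k Q₀ : ℝ} (hs : 0 < s) (hk : 1 ≤ k) (hQ : 1 ≤ Q₀)
    (hQ2 : c₂ + 2 + P₀ + H₀ ≤ m₁ * Q₀) (hK : Q₀ ≤ K) {r u y : ℝ} (hu : u ≤ 0)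
    (hy : y ≤ u - Q₀) : G c m h P K s k r u y ≤ 2 * (k * y) := by
  have hy0 : y < 0 := by linarith
  have hT : -y * Q₀ ≤ T K y := by
    unfold T
    rw [abs_of_neg hy0]
    exact mul_le_mul_of_nonneg_left (le_min (by linarith) hK) (by linarith)
  have hk0 : 0 < k := by linarith
  have hc := D.lec₂ r
  have hc1 := D.c₁le r
  have hm1 := D.m₁le r
  have hX0 := X_nonneg hs u y
  have hX1 := X_le_one s u y
  have hh := D.leH₀ r
  have hP := D.leP₀ r
  have hP0 := D.P0 r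
  have hH0 : 0 ≤ H₀ := (abs_nonneg _).trans hh
  have hm₁ := D.m₁pos
  have hc₁ := D.c₁pos
  -- the four terms
  have e1 : -(c r * u) ≤ c₂ * -y := by
    have h1 : c r * -u ≤ c₂ * -u := mul_le_mul_of_nonneg_right hc (by linarith)
    have h2 : c₂ * -u ≤ c₂ * -y := mul_le_mul_of_nonneg_left (by linarith) (by linarith)
    linarith
  have e2 : m₁ * Q₀ * -y ≤ m r * T K y := by
    have h1 : m₁ * (-y * Q₀) ≤ m₁ * T K y := mul_le_mul_of_nonneg_left hT hm₁.le
    have h2 : m₁ * T K y ≤ m r * T K y :=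
      mul_le_mul_of_nonneg_right hm1 (T_nonneg (by linarith) y)
    nlinarith
  have e3 : -(P r * y) ≤ k * (P₀ * -y) := by
    have h1 : P r * -y ≤ P₀ * -y := mul_le_mul_of_nonneg_right hP (by linarith)
    have h2 : 0 ≤ P₀ * -y := mul_nonneg (by linarith) (by linarith)
    nlinarith
  have e4 : -(h r / k * X s u y) ≤ k * (H₀ * -y) := by
    have h1 : |h r / k * X s u y| ≤ H₀ := by
      rw [abs_mul, abs_div, abs_of_pos hk0, abs_of_nonneg hX0]
      calc |h r| / k * X s u y ≤ |h r| / k * 1 :=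
            mul_le_mul_of_nonneg_left hX1 (by positivity)
        _ = |h r| / k := mul_one _
        _ ≤ |h r| := div_le_self (abs_nonneg _) hk
        _ ≤ H₀ := hh
    have h2 : -(h r / k * X s u y) ≤ H₀ := (neg_le_abs _).trans h1
    have h3 : (1 : ℝ) ≤ k * -y := by nlinarith
    nlinarith
  have e5 : k * ((c₂ + 2 + P₀ + H₀) * -y) ≤ k * (m₁ * Q₀ * -y) := by
    apply mul_le_mul_of_nonneg_left _ hk0.le
    exact mul_le_mul_of_nonneg_right hQ2 (by linarith)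
  have e12 : k * (-(c r * u)) ≤ k * (c₂ * -y) := mul_le_mul_of_nonneg_left e1 hk0.le
  have e22 : k * (m₁ * Q₀ * -y) ≤ k * (m r * T K y) := mul_le_mul_of_nonneg_left e2 hk0.le
  unfold G
  nlinarith

/-- module NORET -/
theorem no_return {c m h P : ℝ → ℝ} {c₁ c₂ m₁ m₂ P₀ H₀ : ℝ} (D : Dat c m h P c₁ c₂ m₁ m₂ P₀ H₀)
    {K s k a κ Q₀ : ℝ} {u y : ℝ → ℝ} (hs : 0 < s) (hk : 1 ≤ k) (hQ : 1 ≤ Q₀)
    (hQ2 : c₂ + 2 + P₀ + H₀ ≤ m₁ * Q₀) (hK : Q₀ ≤ K) (O : Orb c m h P K s k a κ u y) {t₁ : ℝ}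
    (hu : u t₁ ≤ 0) (hy : Q₀ - u t₁ ≤ -y t₁) : ∀ t, t₁ < t → u t < u t₁ ∧ y t < 0 := by
  intro t ht
  have hk0 : 0 < k := by linarith
  -- while `y ≤ u - Q₀` we have `u ≤ 0`
  have hneg : ∀ b, (∀ r ∈ Icc t₁ b, Q₀ - u r + y r ≤ 0) → ∀ r ∈ Icc t₁ b, u r ≤ 0 := by
    intro b hb
    apply persist (Y' := fun r => k * y r) (fun r _ => O.du r) hu
    intro r hr _ hr0
    have h1 := hb r ⟨hr.1, hr.2.le⟩
    have h2 : y r < 0 := by linarith
    exact mul_neg_of_pos_of_neg hk0 h2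
  have hW : ∀ r ∈ Icc t₁ t, Q₀ - u r + y r ≤ 0 := by
    apply persist (Y' := fun r => -(k * y r) + G c m h P K s k r (u r) (y r))
    · intro r _
      have h1 := (((hasDerivAt_const r Q₀).sub (O.du r)).add (O.dy r))
      have h2 : (0 - k * y r + G c m h P K s k r (u r) (y r)) =
          -(k * y r) + G c m h P K s k r (u r) (y r) := by ring
      rw [h2] at h1
      exact h1
    · linarith
    · intro r hr hhist hr0
      have h1 : u r ≤ 0 := hneg r hhist r ⟨hr.1, le_rfl⟩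
      have h2 := G_le_of_region D hs hk hQ hQ2 hK (r := r) h1 (show y r ≤ u r - Q₀ by linarith)
      have h3 : k * y r < 0 := mul_neg_of_pos_of_neg hk0 (by linarith)
      show -(k * y r) + G c m h P K s k r (u r) (y r) < 0
      linarith
  have hU := hneg t hW
  have hY : ∀ r ∈ Icc t₁ t, y r < 0 := by
    intro r hr
    have h1 := hW r hr
    have h2 := hU r hr
    linarith
  have hs : StrictAntiOn u (Icc t₁ t) := by
    apply strictAntiOn_of_deriv_neg (convex_Icc _ _)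
    · exact fun r _ => (O.du r).continuousAt.continuousWithinAt
    · intro r hr
      rw [interior_Icc] at hr
      rw [(O.du r).deriv]
      exact mul_neg_of_pos_of_neg hk0 (hY r (Ioo_subset_Icc_self hr))
  exact ⟨hs (left_mem_Icc.2 ht.le) (right_mem_Icc.2 ht.le) ht, hY t (right_mem_Icc.2 ht.le)⟩

end QGN
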