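import Pool.Agent.QGN.Aux1

/-!
# One half turn of an orbit in the half plane `u ≥ 0`
-/

set_option autoImplicit false

open Set Filter Topology

namespace QGN

namespace Ph

theorem rising {c₂ m₂ P₀ H₀ L k s t₀ t : ℝ} {U Y Y' : ℝ → ℝ} (hc₂ : 0 < c₂) (hm₂ : 0 < m₂)
    (hP₀ : 0 ≤ P₀) (hH₀ : 0 ≤ H₀) (hk : 0 < k) (hs : 0 < s) (ht : t₀ ≤ t) (htL : t ≤ t₀ + L)
    (dU : ∀ r ∈ Icc t₀ t, HasDerivAt U (k * Y r) r)
    (dY : ∀ r ∈ Icc t₀ t, HasDerivAt Y (Y' r) r)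
    (h1 : ∀ r ∈ Icc t₀ t, 0 ≤ U r → 0 ≤ Y r →
      -(k * c₂ * U r) - k * m₂ * Y r ^ 2 - P₀ * Y r - H₀ / k ≤ Y' r)
    (hU0 : U t₀ = 0) (hY0 : s ≤ Y t₀) (hU : ∀ r ∈ Icc t₀ t, 0 ≤ U r)
    (hU1 : ∀ r ∈ Icc t₀ t, U r ≤ 1) (hY : ∀ r ∈ Icc t₀ t, 0 ≤ Y r)
    (hi : (H₀ / k) ^ 2 * Real.exp (2 * m₂) * L ≤ Real.exp (-((2 * P₀ + 1) * L)) * s ^ 2 / 2) :
    Real.exp (-(2 * m₂)) * Real.exp (-((2 * P₀ + 1) * L)) / 2 * s ^ 2 ≤
      Y t ^ 2 + c₂ * U t ^ 2 := by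
  have key := gron (E := fun r => (Y r ^ 2 + c₂ * U r ^ 2) * Real.exp (2 * m₂ * U r))
    (E' := fun r => (2 * Y r * Y' r + c₂ * (2 * U r * (k * Y r))) * Real.exp (2 * m₂ * U r) +
      (Y r ^ 2 + c₂ * U r ^ 2) * (Real.exp (2 * m₂ * U r) * (2 * m₂ * (k * Y r))))
    (α := 2 * P₀ + 1) (β := (H₀ / k) ^ 2 * Real.exp (2 * m₂)) ht ?_ ?_ (by positivity)
    (by positivity)
  · have e1 : Real.exp (-((2 * P₀ + 1) * L)) ≤ Real.exp (-((2 * P₀ + 1) * (t - t₀))) := by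
      apply Real.exp_le_exp.2
      have : (2 * P₀ + 1) * (t - t₀) ≤ (2 * P₀ + 1) * L :=
        mul_le_mul_of_nonneg_left (by linarith) (by positivity)
      linarith
    have e2 : (H₀ / k) ^ 2 * Real.exp (2 * m₂) * (t - t₀) ≤
        (H₀ / k) ^ 2 * Real.exp (2 * m₂) * L :=
      mul_le_mul_of_nonneg_left (by linarith) (by positivity)
    have e3 : Real.exp (2 * m₂ * U t) ≤ Real.exp (2 * m₂) := by
      apply Real.exp_le_exp.2
      have := hU1 t ⟨ht, le_rfl⟩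
      nlinarith
    have e4 : s ^ 2 ≤ Y t₀ ^ 2 := by nlinarith
    have e5 : (0 : ℝ) ≤ Y t ^ 2 + c₂ * U t ^ 2 := by positivity
    simp only [hU0, mul_zero, Real.exp_zero, mul_one, ne_eq, OfNat.ofNat_ne_zero,
      not_false_eq_true, zero_pow, add_zero] at key
    have e6 : Real.exp (-((2 * P₀ + 1) * L)) * s ^ 2 ≤
        Real.exp (-((2 * P₀ + 1) * (t - t₀))) * Y t₀ ^ 2 :=
      mul_le_mul e1 e4 (by positivity) (by positivity)
    have e7 : (Y t ^ 2 + c₂ * U t ^ 2) * Real.exp (2 * m₂ * U t) ≤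
        (Y t ^ 2 + c₂ * U t ^ 2) * Real.exp (2 * m₂) := mul_le_mul_of_nonneg_left e3 e5
    have e8 : Real.exp (-((2 * P₀ + 1) * L)) * s ^ 2 / 2 ≤
        (Y t ^ 2 + c₂ * U t ^ 2) * Real.exp (2 * m₂) := by linarith
    have e9 : Real.exp (-(2 * m₂)) * Real.exp (2 * m₂) = 1 := by rw [← Real.exp_add]; simp
    have e10 := mul_le_mul_of_nonneg_left e8 (Real.exp_pos (-(2 * m₂))).le
    calc Real.exp (-(2 * m₂)) * Real.exp (-((2 * P₀ + 1) * L)) / 2 * s ^ 2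
        = Real.exp (-(2 * m₂)) * (Real.exp (-((2 * P₀ + 1) * L)) * s ^ 2 / 2) := by ring
      _ ≤ Real.exp (-(2 * m₂)) * ((Y t ^ 2 + c₂ * U t ^ 2) * Real.exp (2 * m₂)) := e10
      _ = (Real.exp (-(2 * m₂)) * Real.exp (2 * m₂)) * (Y t ^ 2 + c₂ * U t ^ 2) := by ring
      _ = Y t ^ 2 + c₂ * U t ^ 2 := by rw [e9, one_mul]
  · intro r hr
    have f1 : HasDerivAt (fun r => Y r ^ 2 + c₂ * U r ^ 2)
        (2 * Y r * Y' r + c₂ * (2 * U r * (k * Y r))) r := by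
      have g1 := ((dY r hr).pow 2).add (((dU r hr).pow 2).const_mul c₂)
      refine g1.congr_deriv ?_
      simp only [Nat.cast_ofNat, Nat.add_one_sub_one, pow_one]
    have f2 : HasDerivAt (fun r => Real.exp (2 * m₂ * U r))
        (Real.exp (2 * m₂ * U r) * (2 * m₂ * (k * Y r))) r :=
      ((dU r hr).const_mul (2 * m₂)).exp
    exact f1.mul f2
  · intro r hr
    have g1 := h1 r hr (hU r hr) (hY r hr)
    have g2 := hU r hr
    have g3 := hY r hr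
    have g4 : Real.exp (2 * m₂ * U r) ≤ Real.exp (2 * m₂) := by
      apply Real.exp_le_exp.2
      have := hU1 r hr
      nlinarith
    have g5 := Real.exp_pos (2 * m₂ * U r)
    obtain ⟨Q, hQ⟩ : ∃ Q, Q = H₀ / k := ⟨_, rfl⟩
    rw [← hQ] at g1 ⊢
    have g6 : -(2 * P₀ + 1) * (Y r ^ 2 + c₂ * U r ^ 2) - Q ^ 2 ≤
        2 * Y r * Y' r + c₂ * (2 * U r * (k * Y r)) +
          (Y r ^ 2 + c₂ * U r ^ 2) * (2 * m₂ * (k * Y r)) := by
      have g7 : 2 * Y r * (-(k * c₂ * U r) - k * m₂ * Y r ^ 2 - P₀ * Y r - Q) ≤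
          2 * Y r * Y' r := mul_le_mul_of_nonneg_left g1 (by positivity)
      have g8 : 0 ≤ (c₂ * U r ^ 2) * (2 * m₂ * (k * Y r)) := by positivity
      have g9 : 0 ≤ (2 * P₀ + 1) * (c₂ * U r ^ 2) := by positivity
      have g10 : 2 * Y r * Q ≤ Y r ^ 2 + Q ^ 2 := by nlinarith [sq_nonneg (Y r - Q)]
      nlinarith
    have g11 := mul_le_mul_of_nonneg_left g6 g5.le
    have g12 : Real.exp (2 * m₂ * U r) * Q ^ 2 ≤ Q ^ 2 * Real.exp (2 * m₂) := by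
      rw [mul_comm]
      exact mul_le_mul_of_nonneg_left g4 (sq_nonneg Q)
    nlinarith

theorem desc_aux {c₁ m₂ P₀ H₀ L k A tA t : ℝ} {U Y Y' : ℝ → ℝ} (hc₁ : 0 < c₁) (hm₂ : 0 < m₂)
    (hP₀ : 0 ≤ P₀) (hH₀ : 0 ≤ H₀) (hk : 0 < k) (hA : 0 < A) (hA1 : A ≤ 1) (ht : tA ≤ t)
    (htL : t ≤ tA + L) (dU : ∀ r ∈ Icc tA t, HasDerivAt U (k * Y r) r)
    (dY : ∀ r ∈ Icc tA t, HasDerivAt Y (Y' r) r)
    (h2 : ∀ r ∈ Icc tA t, 0 ≤ U r → Y r ≤ 0 →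
      k * c₁ * U r - k * m₂ * Y r ^ 2 + P₀ * Y r - H₀ / k ≤ -Y' r)
    (hUA : U tA = A) (hU : ∀ r ∈ Icc tA t, 0 ≤ U r) (hY : ∀ r ∈ Icc tA t, Y r ≤ 0)
    (hii : (H₀ / k) ^ 2 * L ≤
      Real.exp (-((2 * P₀ + 1) * L)) * c₁ * Real.exp (-(2 * m₂)) / 2 * A ^ 2) :
    Real.exp (-((2 * P₀ + 1) * L)) * c₁ * Real.exp (-(2 * m₂)) / 2 * A ^ 2 ≤
      Y t ^ 2 * Real.exp (-(2 * m₂ * U t)) + c₁ * Real.exp (-(2 * m₂)) * U t ^ 2 := by
  have hUle : ∀ r ∈ Icc tA t, U r ≤ A := by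
    intro r hr
    have h3 := antitone_of_deriv hk.le dU hY (left_mem_Icc.2 ht) hr hr.1
    rwa [hUA] at h3
  have key := gron (E := fun r => Y r ^ 2 * Real.exp (-(2 * m₂ * U r)) +
      c₁ * Real.exp (-(2 * m₂)) * U r ^ 2)
    (E' := fun r => (2 * Y r * Y' r) * Real.exp (-(2 * m₂ * U r)) +
      Y r ^ 2 * (Real.exp (-(2 * m₂ * U r)) * -(2 * m₂ * (k * Y r))) +
      c₁ * Real.exp (-(2 * m₂)) * (2 * U r * (k * Y r)))
    (α := 2 * P₀ + 1) (β := (H₀ / k) ^ 2) ht ?_ ?_ (by positivity) (by positivity)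
  · have e1 : Real.exp (-((2 * P₀ + 1) * L)) ≤ Real.exp (-((2 * P₀ + 1) * (t - tA))) := by
      apply Real.exp_le_exp.2
      have : (2 * P₀ + 1) * (t - tA) ≤ (2 * P₀ + 1) * L :=
        mul_le_mul_of_nonneg_left (by linarith) (by positivity)
      linarith
    have e2 : (H₀ / k) ^ 2 * (t - tA) ≤ (H₀ / k) ^ 2 * L :=
      mul_le_mul_of_nonneg_left (by linarith) (by positivity)
    simp only [hUA] at key
    have e3 : c₁ * Real.exp (-(2 * m₂)) * A ^ 2 ≤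
        Y tA ^ 2 * Real.exp (-(2 * m₂ * A)) + c₁ * Real.exp (-(2 * m₂)) * A ^ 2 := by
      have : 0 ≤ Y tA ^ 2 * Real.exp (-(2 * m₂ * A)) := by positivity
      linarith
    have e4 : Real.exp (-((2 * P₀ + 1) * L)) * (c₁ * Real.exp (-(2 * m₂)) * A ^ 2) ≤
        Real.exp (-((2 * P₀ + 1) * (t - tA))) *
          (Y tA ^ 2 * Real.exp (-(2 * m₂ * A)) + c₁ * Real.exp (-(2 * m₂)) * A ^ 2) :=
      mul_le_mul e1 e3 (by positivity) (by positivity)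
    have e5 : Real.exp (-((2 * P₀ + 1) * L)) * (c₁ * Real.exp (-(2 * m₂)) * A ^ 2) =
        2 * (Real.exp (-((2 * P₀ + 1) * L)) * c₁ * Real.exp (-(2 * m₂)) / 2 * A ^ 2) := by ring
    linarith
  · intro r hr
    have f1 : HasDerivAt (fun r => Y r ^ 2) (2 * Y r * Y' r) r := by
      have g1 := (dY r hr).pow 2
      refine g1.congr_deriv ?_
      simp only [Nat.cast_ofNat, Nat.add_one_sub_one, pow_one]
    have f2 : HasDerivAt (fun r => Real.exp (-(2 * m₂ * U r)))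
        (Real.exp (-(2 * m₂ * U r)) * -(2 * m₂ * (k * Y r))) r :=
      (((dU r hr).const_mul (2 * m₂)).neg).exp
    have f3 : HasDerivAt (fun r => U r ^ 2) (2 * U r * (k * Y r)) r := by
      have g1 := (dU r hr).pow 2
      refine g1.congr_deriv ?_
      simp only [Nat.cast_ofNat, Nat.add_one_sub_one, pow_one]
    exact (f1.mul f2).add (f3.const_mul (c₁ * Real.exp (-(2 * m₂))))
  · intro r hr
    have g1 := h2 r hr (hU r hr) (hY r hr)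
    have g2 := hU r hr
    have g3 := hY r hr
    have g4 := hUle r hr
    have g5 : Real.exp (-(2 * m₂)) ≤ Real.exp (-(2 * m₂ * U r)) := by
      apply Real.exp_le_exp.2
      nlinarith
    have g6 : Real.exp (-(2 * m₂ * U r)) ≤ 1 := Real.exp_le_one_iff.2 (by
      have : 0 ≤ 2 * m₂ * U r := by positivity
      linarith)
    have g7 := Real.exp_pos (-(2 * m₂ * U r))
    have g7' := Real.exp_pos (-(2 * m₂))
    obtain ⟨Q, hQ⟩ : ∃ Q, Q = H₀ / k := ⟨_, rfl⟩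
    obtain ⟨W, hW⟩ : ∃ W, W = Real.exp (-(2 * m₂ * U r)) := ⟨_, rfl⟩
    obtain ⟨V, hV⟩ : ∃ V, V = Real.exp (-(2 * m₂)) := ⟨_, rfl⟩
    rw [← hQ] at g1 ⊢
    simp only [← hW, ← hV] at g5 g6 g7 g7' ⊢
    obtain ⟨y, hy⟩ : ∃ y, y = -Y r := ⟨_, rfl⟩
    have hy0 : 0 ≤ y := by rw [hy]; linarith
    have hYy : Y r = -y := by rw [hy]; ring
    rw [hYy] at g1 ⊢
    -- multiply the differential inequality
    have g8 : 2 * y * (k * c₁ * U r - k * m₂ * (-y) ^ 2 + P₀ * -y - Q) ≤ 2 * y * -Y' r :=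
      mul_le_mul_of_nonneg_left g1 (by positivity)
    have g9 : 2 * y * Q ≤ y ^ 2 + Q ^ 2 := by nlinarith [sq_nonneg (y - Q)]
    have g10 : 2 * k * c₁ * U r * y - 2 * k * m₂ * y ^ 3 - (2 * P₀ + 1) * y ^ 2 - Q ^ 2 ≤
        2 * (-y) * Y' r := by nlinarith
    have g11 := mul_le_mul_of_nonneg_left g10 g7.le
    have g12 : 0 ≤ 2 * k * c₁ * U r * y * (W - V) :=
      mul_nonneg (by positivity) (by linarith)
    have g13 : W * Q ^ 2 ≤ 1 * Q ^ 2 := mul_le_mul_of_nonneg_right g6 (sq_nonneg Q)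
    have g14 : 0 ≤ (2 * P₀ + 1) * (c₁ * V * U r ^ 2) := by positivity
    nlinarith

theorem descending {c₁ m₂ P₀ H₀ L k A tA t : ℝ} {U Y Y' : ℝ → ℝ} (hc₁ : 0 < c₁) (hm₂ : 0 < m₂)
    (hP₀ : 0 ≤ P₀) (hH₀ : 0 ≤ H₀) (hk : 1 ≤ k) (hA : 0 < A) (hA1 : A ≤ 1) (ht : tA ≤ t)
    (htL : t ≤ tA + L) (dU : ∀ r ∈ Icc tA t, HasDerivAt U (k * Y r) r)
    (dY : ∀ r ∈ Icc tA t, HasDerivAt Y (Y' r) r)
    (h2 : ∀ r ∈ Icc tA t, 0 ≤ U r → Y r ≤ 0 →
      k * c₁ * U r - k * m₂ * Y r ^ 2 + P₀ * Y r - H₀ / k ≤ -Y' r)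
    (hUA : U tA = A) (hYA : Y tA ≤ 0) (hU : ∀ r ∈ Icc tA t, 0 ≤ U r)
    (hii : (H₀ / k) ^ 2 * L ≤
      Real.exp (-((2 * P₀ + 1) * L)) * c₁ * Real.exp (-(2 * m₂)) / 2 * A ^ 2)
    (hiii : (H₀ / (c₁ * k)) ^ 2 < Real.exp (-((2 * P₀ + 1) * L)) / 2 * A ^ 2) :
    (∀ r ∈ Icc tA t, Y r ≤ 0) ∧
    Real.exp (-((2 * P₀ + 1) * L)) * c₁ * Real.exp (-(2 * m₂)) / 2 * A ^ 2 ≤
      Y t ^ 2 * Real.exp (-(2 * m₂ * U t)) + c₁ * Real.exp (-(2 * m₂)) * U t ^ 2 := by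
  have hkpos : 0 < k := lt_of_lt_of_le one_pos hk
  have hY : ∀ r ∈ Icc tA t, Y r ≤ 0 := by
    refine persist dY hYA ?_
    intro τ hτ hhist hτ0
    have hsub : ∀ r ∈ Icc tA τ, r ∈ Icc tA t := fun r hr => ⟨hr.1, hr.2.trans hτ.2.le⟩
    have h3 := desc_aux (t := τ) hc₁ hm₂ hP₀ hH₀ hkpos hA hA1 hτ.1 (by linarith [hτ.2])
      (fun r hr => dU r (hsub r hr)) (fun r hr => dY r (hsub r hr))
      (fun r hr => h2 r (hsub r hr)) hUA (fun r hr => hU r (hsub r hr)) hhist hii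
    have hτm : τ ∈ Icc tA t := ⟨hτ.1, hτ.2.le⟩
    have h4 := h2 τ hτm (hU τ hτm) hτ0.le
    rw [hτ0] at h3 h4
    have h5 : Real.exp (-((2 * P₀ + 1) * L)) / 2 * A ^ 2 ≤ U τ ^ 2 := by
      have h6 := Real.exp_pos (-(2 * m₂))
      have h7 : (c₁ * Real.exp (-(2 * m₂))) * (Real.exp (-((2 * P₀ + 1) * L)) / 2 * A ^ 2) ≤
          (c₁ * Real.exp (-(2 * m₂))) * U τ ^ 2 := by
        have h8 : (c₁ * Real.exp (-(2 * m₂))) *
            (Real.exp (-((2 * P₀ + 1) * L)) / 2 * A ^ 2) =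
            Real.exp (-((2 * P₀ + 1) * L)) * c₁ * Real.exp (-(2 * m₂)) / 2 * A ^ 2 := by ring
        rw [h8]
        simpa using h3
      exact le_of_mul_le_mul_left h7 (by positivity)
    have h6 : H₀ / (c₁ * k) < U τ := by
      have h7 : (H₀ / (c₁ * k)) ^ 2 < U τ ^ 2 := hiii.trans_le h5
      exact lt_of_pow_lt_pow_left₀ 2 (hU τ hτm) h7
    have h7 : H₀ / k < k * c₁ * U τ := by
      have h8 : H₀ / k = c₁ * (H₀ / (c₁ * k)) := by field_simp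
      have h9 : c₁ * (H₀ / (c₁ * k)) < c₁ * U τ := mul_lt_mul_of_pos_left h6 hc₁
      have h10 : c₁ * U τ ≤ k * c₁ * U τ := by
        have : 0 ≤ c₁ * U τ := mul_nonneg hc₁.le (hU τ hτm)
        nlinarith
      linarith
    have h8 : k * m₂ * (0 : ℝ) ^ 2 = 0 := by ring
    rw [h8, mul_zero] at h4
    linarith
  exact ⟨hY, desc_aux hc₁ hm₂ hP₀ hH₀ hkpos hA hA1 ht htL dU dY h2 hUA hU hY hii⟩

end Ph

open Ph in
/-- module PHASE -/
theorem phase {c₁ c₂ m₂ P₀ H₀ L : ℝ} (hc₁ : 0 < c₁) (hc₂ : 0 < c₂) (hm₂ : 0 < m₂) (hP₀ : 0 ≤ P₀)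
    (hH₀ : 0 ≤ H₀) (hL : 0 < L) :
    ∃ ρ η C₀ : ℝ, 0 < ρ ∧ ρ < 1 ∧ 0 < η ∧ η ≤ 1 ∧ 0 < C₀ ∧
      ∀ (k s t₀ t₁ : ℝ) (U Y Y' : ℝ → ℝ), 1 ≤ k → 0 < s → s ≤ 1 → C₀ ≤ k * s → t₀ < t₁ →
        t₁ ≤ t₀ + L →
        (∀ t ∈ Icc t₀ t₁, HasDerivAt U (k * Y t) t) → (∀ t ∈ Icc t₀ t₁, HasDerivAt Y (Y' t) t) →
        (∀ t ∈ Icc t₀ t₁, 0 ≤ U t → 0 ≤ Y t →
          -(k * c₂ * U t) - k * m₂ * Y t ^ 2 - P₀ * Y t - H₀ / k ≤ Y' t) →
        (∀ t ∈ Icc t₀ t₁, 0 ≤ U t → Y t ≤ 0 →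
          k * c₁ * U t - k * m₂ * Y t ^ 2 + P₀ * Y t - H₀ / k ≤ -Y' t) →
        U t₀ = 0 → s ≤ Y t₀ → (∀ t ∈ Ioo t₀ t₁, 0 < U t) →
        (∀ t ∈ Icc t₀ t₁, η * s ≤ |U t| + |Y t|) ∧ (U t₁ = 0 → Y t₁ ≤ -(ρ * s)) := by
  obtain ⟨e, he⟩ : ∃ e, e = Real.exp (-((2 * P₀ + 1) * L)) := ⟨_, rfl⟩
  have he0 : 0 < e := by rw [he]; exact Real.exp_pos _
  have he1 : e ≤ 1 := by
    rw [he]
    apply Real.exp_le_one_iff.2
    have : 0 ≤ (2 * P₀ + 1) * L := by positivity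
    linarith
  obtain ⟨V, hV⟩ : ∃ V, V = Real.exp (-(2 * m₂)) := ⟨_, rfl⟩
  have hV0 : 0 < V := by rw [hV]; exact Real.exp_pos _
  obtain ⟨sg1, hsg1⟩ : ∃ x, x = V * e / 2 := ⟨_, rfl⟩
  obtain ⟨sg2, hsg2⟩ : ∃ x, x = e * c₁ * V / 2 := ⟨_, rfl⟩
  have hsg10 : 0 < sg1 := by rw [hsg1]; positivity
  have hsg20 : 0 < sg2 := by rw [hsg2]; positivity
  obtain ⟨A1, hA1⟩ : ∃ x, x = min 1 (√(sg1 / (4 * c₂))) := ⟨_, rfl⟩
  have hA10 : 0 < A1 := by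
    rw [hA1]
    exact lt_min one_pos (Real.sqrt_pos.2 (by positivity))
  have hA11 : A1 ≤ 1 := by rw [hA1]; exact min_le_left _ _
  have hA12 : 4 * (c₂ * A1 ^ 2) ≤ sg1 := by
    have h1 : A1 ≤ √(sg1 / (4 * c₂)) := by rw [hA1]; exact min_le_right _ _
    have h2 : A1 ^ 2 ≤ sg1 / (4 * c₂) := by
      have h3 := pow_le_pow_left₀ hA10.le h1 2
      rwa [Real.sq_sqrt (by positivity)] at h3
    rw [le_div_iff₀ (by positivity)] at h2
    linarith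
  obtain ⟨q1, hq1⟩ : ∃ x, x = √(sg1 / max 1 c₂) := ⟨_, rfl⟩
  obtain ⟨q2, hq2⟩ : ∃ x, x = √(sg2 / max 1 c₁) := ⟨_, rfl⟩
  have hmx2 : 0 < max 1 c₂ := lt_max_of_lt_left one_pos
  have hmx1 : 0 < max 1 c₁ := lt_max_of_lt_left one_pos
  have hq10 : 0 < q1 := by rw [hq1]; exact Real.sqrt_pos.2 (by positivity)
  have hq20 : 0 < q2 := by rw [hq2]; exact Real.sqrt_pos.2 (by positivity)
  have hq1s : q1 ^ 2 * max 1 c₂ = sg1 := by
    rw [hq1, Real.sq_sqrt (by positivity)]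
    field_simp
  have hq2s : q2 ^ 2 * max 1 c₁ = sg2 := by
    rw [hq2, Real.sq_sqrt (by positivity)]
    field_simp
  obtain ⟨η, hη⟩ : ∃ x, x = min (min q1 (q2 * A1)) A1 := ⟨_, rfl⟩
  have hη0 : 0 < η := by rw [hη]; exact lt_min (lt_min hq10 (by positivity)) hA10
  have hηA : η ≤ A1 := by rw [hη]; exact min_le_right _ _
  have hηq1 : η ≤ q1 := by rw [hη]; exact (min_le_left _ _).trans (min_le_left _ _)
  have hηq2 : η ≤ q2 * A1 := by rw [hη]; exact (min_le_left _ _).trans (min_le_right _ _)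
  obtain ⟨ρ, hρ⟩ : ∃ x, x = min (√sg2 * A1) (1 / 2) := ⟨_, rfl⟩
  have hρ0 : 0 < ρ := by
    rw [hρ]
    exact lt_min (mul_pos (Real.sqrt_pos.2 hsg20) hA10) (by norm_num)
  have hρ1 : ρ ≤ 1 / 2 := by rw [hρ]; exact min_le_right _ _
  have hρ2 : ρ ≤ √sg2 * A1 := by rw [hρ]; exact min_le_left _ _
  obtain ⟨X1, hX1⟩ : ∃ x, x = 2 * H₀ ^ 2 * Real.exp (2 * m₂) * L / e := ⟨_, rfl⟩
  obtain ⟨X2, hX2⟩ : ∃ x, x = H₀ ^ 2 * L / (sg2 * A1 ^ 2) := ⟨_, rfl⟩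
  obtain ⟨X3, hX3⟩ : ∃ x, x = 2 * H₀ ^ 2 / (c₁ ^ 2 * e * A1 ^ 2) := ⟨_, rfl⟩
  have hX10 : 0 ≤ X1 := by rw [hX1]; positivity
  have hX20 : 0 ≤ X2 := by rw [hX2]; positivity
  have hX30 : 0 ≤ X3 := by rw [hX3]; positivity
  refine ⟨ρ, η, 1 + X1 + X2 + X3, hρ0, by linarith, hη0, hηA.trans hA11, by linarith, ?_⟩
  intro k s t₀ t₁ U Y Y' hk hs hs1 hC ht01 htL dU dY h1 h2 hU0 hY0 hUpos
  have hkpos : 0 < k := lt_of_lt_of_le one_pos hk
  obtain ⟨A, hA⟩ : ∃ x, x = A1 * s := ⟨_, rfl⟩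
  have hA0 : 0 < A := by rw [hA]; positivity
  have hAle1 : A ≤ 1 := by rw [hA]; nlinarith
  have hAs : A ^ 2 = A1 ^ 2 * s ^ 2 := by rw [hA]; ring
  -- smallness of the forcing
  obtain ⟨C, hCe⟩ : ∃ x, x = 1 + X1 + X2 + X3 := ⟨_, rfl⟩
  rw [← hCe] at hC
  have hC1 : 1 ≤ C := by rw [hCe]; linarith
  have hC0 : 0 < C := by linarith
  have hHk : (H₀ / k) ^ 2 * C ≤ H₀ ^ 2 * s ^ 2 := by
    have f1 : H₀ / k * C ≤ H₀ * s := by
      rw [div_mul_eq_mul_div, div_le_iff₀ hkpos]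
      have := mul_le_mul_of_nonneg_left hC hH₀
      linarith
    have f2 : (H₀ / k * C) ^ 2 ≤ (H₀ * s) ^ 2 := pow_le_pow_left₀ (by positivity) f1 2
    have f3 : (H₀ / k) ^ 2 * C ≤ (H₀ / k) ^ 2 * C * C := by
      have : 0 ≤ (H₀ / k) ^ 2 * C := by positivity
      nlinarith
    calc (H₀ / k) ^ 2 * C ≤ (H₀ / k) ^ 2 * C * C := f3
      _ = (H₀ / k * C) ^ 2 := by ring
      _ ≤ (H₀ * s) ^ 2 := f2
      _ = H₀ ^ 2 * s ^ 2 := by ring
  have hi : (H₀ / k) ^ 2 * Real.exp (2 * m₂) * L ≤ e * s ^ 2 / 2 := by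
    have f1 : 2 * H₀ ^ 2 * Real.exp (2 * m₂) * L ≤ C * e := by
      have : X1 ≤ C := by rw [hCe]; linarith
      rwa [hX1, div_le_iff₀ he0] at this
    have f2 : ((H₀ / k) ^ 2 * Real.exp (2 * m₂) * L) * C ≤ (e * s ^ 2 / 2) * C := by
      calc ((H₀ / k) ^ 2 * Real.exp (2 * m₂) * L) * C
          = ((H₀ / k) ^ 2 * C) * (Real.exp (2 * m₂) * L) := by ring
        _ ≤ (H₀ ^ 2 * s ^ 2) * (Real.exp (2 * m₂) * L) :=
            mul_le_mul_of_nonneg_right hHk (by positivity)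
        _ = s ^ 2 / 2 * (2 * H₀ ^ 2 * Real.exp (2 * m₂) * L) := by ring
        _ ≤ s ^ 2 / 2 * (C * e) := mul_le_mul_of_nonneg_left f1 (by positivity)
        _ = (e * s ^ 2 / 2) * C := by ring
    exact le_of_mul_le_mul_right f2 hC0
  have hii : (H₀ / k) ^ 2 * L ≤ sg2 * A ^ 2 := by
    have f1 : H₀ ^ 2 * L ≤ C * (sg2 * A1 ^ 2) := by
      have : X2 ≤ C := by rw [hCe]; linarith
      rwa [hX2, div_le_iff₀ (by positivity)] at this
    have f2 : ((H₀ / k) ^ 2 * L) * C ≤ (sg2 * A ^ 2) * C := by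
      calc ((H₀ / k) ^ 2 * L) * C = ((H₀ / k) ^ 2 * C) * L := by ring
        _ ≤ (H₀ ^ 2 * s ^ 2) * L := mul_le_mul_of_nonneg_right hHk hL.le
        _ = s ^ 2 * (H₀ ^ 2 * L) := by ring
        _ ≤ s ^ 2 * (C * (sg2 * A1 ^ 2)) := mul_le_mul_of_nonneg_left f1 (by positivity)
        _ = (sg2 * A ^ 2) * C := by rw [hAs]; ring
    exact le_of_mul_le_mul_right f2 hC0
  have hiii : (H₀ / (c₁ * k)) ^ 2 < e / 2 * A ^ 2 := by
    have f1 : 2 * H₀ ^ 2 < C * (c₁ ^ 2 * e * A1 ^ 2) := by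
      have : X3 < C := by rw [hCe]; linarith
      rwa [hX3, div_lt_iff₀ (by positivity)] at this
    have f0 : (H₀ / (c₁ * k)) ^ 2 * c₁ ^ 2 = (H₀ / k) ^ 2 := by
      field_simp
    have f2 : ((H₀ / (c₁ * k)) ^ 2) * (c₁ ^ 2 * C) < (e / 2 * A ^ 2) * (c₁ ^ 2 * C) := by
      calc ((H₀ / (c₁ * k)) ^ 2) * (c₁ ^ 2 * C) = (H₀ / k) ^ 2 * C := by rw [← f0]; ring
        _ ≤ H₀ ^ 2 * s ^ 2 := hHk
        _ = s ^ 2 / 2 * (2 * H₀ ^ 2) := by ring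
        _ < s ^ 2 / 2 * (C * (c₁ ^ 2 * e * A1 ^ 2)) := mul_lt_mul_of_pos_left f1 (by positivity)
        _ = (e / 2 * A ^ 2) * (c₁ ^ 2 * C) := by rw [hAs]; ring
    exact lt_of_mul_lt_mul_right f2 (by positivity)
  -- `U ≥ 0`
  have hUc : ContinuousOn U (Icc t₀ t₁) := fun r hr => (dU r hr).continuousAt.continuousWithinAt
  have hYc : ContinuousOn Y (Icc t₀ t₁) := fun r hr => (dY r hr).continuousAt.continuousWithinAt
  have hU : ∀ r ∈ Icc t₀ t₁, 0 ≤ U r := by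
    have f1 : closure (Ioo t₀ t₁) = Icc t₀ t₁ := closure_Ioo ht01.ne
    intro r hr
    have f2 : ∀ x ∈ closure (Ioo t₀ t₁), (0 : ℝ) ≤ U x := by
      intro x hx
      refine ContinuousWithinAt.closure_le (f := fun _ => (0 : ℝ)) hx
        continuousWithinAt_const ?_ (fun y hy => (hUpos y hy).le)
      exact (dU x (by rwa [f1] at hx)).continuousAt.continuousWithinAt
    exact f2 r (by rwa [f1])
  -- the rising part
  have hrise : ∀ t ∈ Icc t₀ t₁, (∀ r ∈ Icc t₀ t, U r ≤ A) → (∀ r ∈ Icc t₀ t, 0 ≤ Y r) →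
      sg1 * s ^ 2 ≤ Y t ^ 2 + c₂ * U t ^ 2 := by
    intro t ht hUA hYn
    have hsub : ∀ r ∈ Icc t₀ t, r ∈ Icc t₀ t₁ := fun r hr => ⟨hr.1, hr.2.trans ht.2⟩
    have f1 := rising (t := t) (L := L) hc₂ hm₂ hP₀ hH₀ hkpos hs ht.1 (ht.2.trans htL)
      (fun r hr => dU r (hsub r hr)) (fun r hr => dY r (hsub r hr))
      (fun r hr => h1 r (hsub r hr)) hU0 hY0 (fun r hr => hU r (hsub r hr))
      (fun r hr => (hUA r hr).trans hAle1) hYn (by rw [← he]; exact hi)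
    rw [← he, ← hV] at f1
    rw [hsg1]
    exact f1
  have hYpos : ∀ t ∈ Icc t₀ t₁, (∀ r ∈ Icc t₀ t, U r ≤ A) → ∀ r ∈ Icc t₀ t, 0 < Y r := by
    intro t ht hUA r hr
    by_contra hc
    push Not at hc
    have hsub : Icc t₀ r ⊆ Icc t₀ t₁ := Icc_subset_Icc_right (hr.2.trans ht.2)
    obtain ⟨τ, hτ, hτ0, hτpos⟩ := exists_first hr.1 (hYc.mono hsub) (hs.trans_le hY0) hc
    have f1 := hrise τ ⟨hτ.1.le, hτ.2.trans (hr.2.trans ht.2)⟩
      (fun x hx => hUA x ⟨hx.1, hx.2.trans (hτ.2.trans hr.2)⟩)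
      (fun x hx => by
        rcases hx.2.eq_or_lt with h3 | h3
        · rw [h3, hτ0]
        · exact (hτpos x ⟨hx.1, h3⟩).le)
    have f2 := hUA τ ⟨hτ.1.le, hτ.2.trans hr.2⟩
    have f3 := hU τ ⟨hτ.1.le, hτ.2.trans (hr.2.trans ht.2)⟩
    have f4 : U τ ^ 2 ≤ A1 ^ 2 * s ^ 2 := by
      rw [← hAs]
      exact pow_le_pow_left₀ f3 f2 2
    rw [hτ0] at f1
    have f5 : c₂ * U τ ^ 2 ≤ c₂ * (A1 ^ 2 * s ^ 2) := mul_le_mul_of_nonneg_left f4 hc₂.le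
    have f6 : 4 * (c₂ * A1 ^ 2) * s ^ 2 ≤ sg1 * s ^ 2 :=
      mul_le_mul_of_nonneg_right hA12 (by positivity)
    have f7 : 0 < sg1 * s ^ 2 := by positivity
    nlinarith
  -- the descending part
  have hdesc : ∀ t ∈ Icc t₀ t₁, (∃ r ∈ Icc t₀ t, A < U r) → U t < A →
      Y t ≤ 0 ∧ sg2 * A ^ 2 ≤ Y t ^ 2 * Real.exp (-(2 * m₂ * U t)) + c₁ * V * U t ^ 2 := by
    rintro t ht ⟨r, hr, hrA⟩ htA
    have hsub : Icc r t ⊆ Icc t₀ t₁ := Icc_subset_Icc hr.1 ht.2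
    obtain ⟨tA, htA1, htA2, htA3⟩ := exists_last (f := fun x => U x - A) hr.2
      ((hUc.mono hsub).sub continuousOn_const) (by linarith) (by linarith)
    have f1 : U tA = A := by linarith
    have hsub2 : ∀ x ∈ Icc tA t, x ∈ Icc t₀ t₁ :=
      fun x hx => ⟨hr.1.trans (htA1.1.trans hx.1), hx.2.trans ht.2⟩
    have htAm : tA ∈ Icc t₀ t₁ := hsub2 tA ⟨le_rfl, htA1.2.le⟩
    have f2 : Y tA ≤ 0 := by
      by_contra hc
      push Not at hc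
      have f3 : HasDerivAt (fun x => A - U x) (-(k * Y tA)) tA := by
        have := (dU tA htAm).const_sub A
        exact this
      have f4 := eventually_neg f3 (by show A - U tA = 0; linarith)
        (by have : 0 < k * Y tA := mul_pos hkpos hc
            linarith)
      have f5 : ∀ᶠ x in 𝓝[>] tA, x ∈ Ioc tA t :=
        Ioc_mem_nhdsGT htA1.2
      obtain ⟨x, hx1, hx2⟩ := (f4.and f5).exists
      have f6 := htA3 x hx2
      linarith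
    have f3 := descending (t := t) (L := L) hc₁ hm₂ hP₀ hH₀ hk hA0 hAle1 htA1.2.le
      (by linarith [htAm.1, ht.2])
      (fun x hx => dU x (hsub2 x hx)) (fun x hx => dY x (hsub2 x hx))
      (fun x hx => h2 x (hsub2 x hx)) f1 f2 (fun x hx => hU x (hsub2 x hx))
      (by rw [← he, ← hV, ← hsg2]; exact hii) (by rw [← he]; exact hiii)
    rw [← he, ← hV, ← hsg2] at f3
    exact ⟨f3.1 t ⟨htA1.2.le, le_rfl⟩, f3.2⟩
  constructor
  · intro t ht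
    have hgoal : ∀ w : ℝ, 0 ≤ w → w ^ 2 ≤ U t ^ 2 + Y t ^ 2 → w ≤ |U t| + |Y t| := by
      intro w hw hw2
      have f1 : w ^ 2 ≤ (|U t| + |Y t|) ^ 2 := by
        have f2 : (|U t| + |Y t|) ^ 2 = U t ^ 2 + Y t ^ 2 + 2 * (|U t| * |Y t|) := by
          rw [← sq_abs (U t), ← sq_abs (Y t)]
          ring
        have f3 : 0 ≤ |U t| * |Y t| := by positivity
        linarith
      exact le_of_sq_le_sq f1 (by positivity)
    by_cases hcase : ∀ r ∈ Icc t₀ t, U r ≤ A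
    · have f1 := hrise t ht hcase (fun r hr => (hYpos t ht hcase r hr).le)
      apply hgoal _ (by positivity)
      have f2 : (η * s) ^ 2 ≤ q1 ^ 2 * s ^ 2 := by
        rw [mul_pow]
        exact mul_le_mul_of_nonneg_right (pow_le_pow_left₀ hη0.le hηq1 2) (by positivity)
      have f3 : Y t ^ 2 + c₂ * U t ^ 2 ≤ max 1 c₂ * (U t ^ 2 + Y t ^ 2) := by
        have g1 : Y t ^ 2 ≤ max 1 c₂ * Y t ^ 2 := by
          have := mul_le_mul_of_nonneg_right (le_max_left 1 c₂) (sq_nonneg (Y t))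
          linarith
        have g2 : c₂ * U t ^ 2 ≤ max 1 c₂ * U t ^ 2 :=
          mul_le_mul_of_nonneg_right (le_max_right 1 c₂) (sq_nonneg (U t))
        linarith
      have f4 : max 1 c₂ * (q1 ^ 2 * s ^ 2) ≤ max 1 c₂ * (U t ^ 2 + Y t ^ 2) := by
        have : max 1 c₂ * (q1 ^ 2 * s ^ 2) = sg1 * s ^ 2 := by rw [← hq1s]; ring
        rw [this]
        linarith
      exact f2.trans (le_of_mul_le_mul_left f4 hmx2)
    · push Not at hcase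
      rcases lt_or_ge (U t) A with hlt | hge
      · obtain ⟨-, f1⟩ := hdesc t ht hcase hlt
        apply hgoal _ (by positivity)
        have f2 : (η * s) ^ 2 ≤ q2 ^ 2 * A ^ 2 := by
          have g1 : (η * s) ^ 2 ≤ (q2 * A1 * s) ^ 2 :=
            pow_le_pow_left₀ (by positivity) (mul_le_mul_of_nonneg_right hηq2 hs.le) 2
          calc (η * s) ^ 2 ≤ (q2 * A1 * s) ^ 2 := g1
            _ = q2 ^ 2 * A ^ 2 := by rw [hAs]; ring
        have f3 : Y t ^ 2 * Real.exp (-(2 * m₂ * U t)) + c₁ * V * U t ^ 2 ≤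
            max 1 c₁ * (U t ^ 2 + Y t ^ 2) := by
          have g0 : Real.exp (-(2 * m₂ * U t)) ≤ 1 := Real.exp_le_one_iff.2 (by
            have : 0 ≤ 2 * m₂ * U t := mul_nonneg (by positivity) (hU t ht)
            linarith)
          have gV : V ≤ 1 := by
            rw [hV]
            exact Real.exp_le_one_iff.2 (by linarith)
          have g1 : Y t ^ 2 * Real.exp (-(2 * m₂ * U t)) ≤ max 1 c₁ * Y t ^ 2 := by
            have g2 := mul_le_mul_of_nonneg_left g0 (sq_nonneg (Y t))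
            have g3 := mul_le_mul_of_nonneg_right (le_max_left 1 c₁) (sq_nonneg (Y t))
            linarith
          have g2 : c₁ * V * U t ^ 2 ≤ max 1 c₁ * U t ^ 2 := by
            have g3 : c₁ * V ≤ max 1 c₁ := by
              have : c₁ * V ≤ c₁ * 1 := mul_le_mul_of_nonneg_left gV hc₁.le
              linarith [le_max_right 1 c₁]
            exact mul_le_mul_of_nonneg_right g3 (sq_nonneg (U t))
          linarith
        have f4 : max 1 c₁ * (q2 ^ 2 * A ^ 2) ≤ max 1 c₁ * (U t ^ 2 + Y t ^ 2) := by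
          have : max 1 c₁ * (q2 ^ 2 * A ^ 2) = sg2 * A ^ 2 := by rw [← hq2s]; ring
          rw [this]
          linarith
        exact f2.trans (le_of_mul_le_mul_left f4 hmx1)
      · have f1 : η * s ≤ A := by
          rw [hA]
          exact mul_le_mul_of_nonneg_right hηA hs.le
        have f2 : U t ≤ |U t| := le_abs_self _
        have f3 := abs_nonneg (Y t)
        linarith
  · intro hU1
    have ht1 : t₁ ∈ Icc t₀ t₁ := right_mem_Icc.2 ht01.le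
    by_cases hcase : ∀ r ∈ Icc t₀ t₁, U r ≤ A
    · exfalso
      have f1 := hYpos t₁ ht1 hcase
      have f2 : StrictMonoOn U (Icc t₀ t₁) := by
        apply strictMonoOn_of_deriv_pos (convex_Icc _ _) hUc
        intro x hx
        rw [interior_Icc] at hx
        have hx' := Ioo_subset_Icc_self hx
        rw [(dU x hx').deriv]
        exact mul_pos hkpos (f1 x hx')
      have f3 := f2 (left_mem_Icc.2 ht01.le) ht1 ht01
      linarith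
    · push Not at hcase
      obtain ⟨f1, f2⟩ := hdesc t₁ ht1 hcase (by rw [hU1]; exact hA0)
      rw [hU1] at f2
      have f3 : (√sg2 * A) ^ 2 ≤ (-Y t₁) ^ 2 := by
        have g1 : (√sg2 * A) ^ 2 = sg2 * A ^ 2 := by
          rw [mul_pow, Real.sq_sqrt hsg20.le]
        have g2 : Y t₁ ^ 2 * Real.exp (-(2 * m₂ * 0)) + c₁ * V * (0 : ℝ) ^ 2 = Y t₁ ^ 2 := by
          simp
        rw [g1, neg_sq, ← g2]
        exact f2
      have f4 : √sg2 * A ≤ -Y t₁ := le_of_sq_le_sq f3 (by linarith)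
      have f5 : ρ * s ≤ √sg2 * A := by
        calc ρ * s ≤ √sg2 * A1 * s := mul_le_mul_of_nonneg_right hρ2 hs.le
          _ = √sg2 * A := by rw [hA]; ring
      linarith

end QGN
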