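import Pool.Agent.QGN.Angle

/-!
# Small orbits make many turns
-/

set_option autoImplicit false

open Set Filter Topology
open scoped Real

namespace QGN

namespace Sm

theorem T_le_abs {K y : ℝ} : T K y ≤ |y| * |y| :=
  mul_le_mul_of_nonneg_left (min_le_left _ _) (abs_nonneg _)

/-- `|h / k * X| * |w| ≤ (H₀ / (k s)) (|u| + |y|) |w|` -/
theorem forcing {H₀ k s u y x w : ℝ} (hH : |x| ≤ H₀) (hk : 0 < k) (hs : 0 < s) :
    |x / k * X s u y * w| ≤ H₀ / (k * s) * ((|u| + |y|) * |w|) := by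
  have hX0 := X_nonneg hs u y
  have hX1 := X_le s u y
  have hH0 : 0 ≤ H₀ := (abs_nonneg x).trans hH
  rw [abs_mul, abs_mul, abs_div, abs_of_pos hk, abs_of_nonneg hX0]
  calc |x| / k * X s u y * |w| ≤ H₀ / k * ((|u| + |y|) / s) * |w| := by gcongr
    _ = H₀ / (k * s) * ((|u| + |y|) * |w|) := by
        field_simp

/-- the growth of `N = u² + y²` -/
theorem growth {c m h P : ℝ → ℝ} {c₁ c₂ m₁ m₂ P₀ H₀ : ℝ} (D : Dat c m h P c₁ c₂ m₁ m₂ P₀ H₀)
    {K s k r u y : ℝ} (hK : 0 < K) (hs : 0 < s) (hk : 0 < k) (hks : 4 * H₀ ≤ k * (k * s))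
    (hy : |y| ≤ 1) :
    2 * (u * (k * y)) + 2 * (y * G c m h P K s k r u y) ≤
      k * (2 + c₂ + 2 * m₂) * (u ^ 2 + y ^ 2) := by
  have hc0 : 0 < c r := D.c₁pos.trans_le (D.c₁le r)
  have hm0 : 0 < m r := D.m₁pos.trans_le (D.m₁le r)
  have hc2 := D.lec₂ r
  have hm2 := D.lem₂ r
  have hP := D.P0 r
  have hT0 := T_nonneg hK.le y
  have hT1 : T K y ≤ |y| * |y| := T_le_abs
  have hf := forcing (u := u) (y := y) (w := y) (D.leH₀ r) hk hs
  have hH0 : 0 ≤ H₀ := (abs_nonneg _).trans (D.leH₀ r)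
  have hu2 : u ^ 2 = |u| * |u| := by rw [abs_mul_abs_self]; ring
  have hy2 : y ^ 2 = |y| * |y| := by rw [abs_mul_abs_self]; ring
  have hu0 := abs_nonneg u
  have hy0 := abs_nonneg y
  have e : 2 * (u * (k * y)) + 2 * (y * G c m h P K s k r u y) =
      2 * k * (u * y) + 2 * k * c r * (-(u * y)) + 2 * k * m r * (-(T K y * y)) -
        2 * (P r * y ^ 2) - 2 * (h r / k * X s u y * y) := by
    simp only [G]
    ring
  rw [e]
  have b1 : u * y ≤ |u| * |y| := by rw [← abs_mul]; exact le_abs_self _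
  have b2 : -(u * y) ≤ |u| * |y| := by rw [← abs_mul]; exact neg_le_abs _
  have b3 : -(T K y * y) ≤ |y| * |y| := by
    calc -(T K y * y) ≤ |T K y * y| := neg_le_abs _
      _ = T K y * |y| := by rw [abs_mul, abs_of_nonneg hT0]
      _ ≤ (|y| * |y|) * 1 := mul_le_mul hT1 hy hy0 (by positivity)
      _ = |y| * |y| := mul_one _
  have b4 : -(h r / k * X s u y * y) ≤ H₀ / (k * s) * ((|u| + |y|) * |y|) :=
    (neg_le_abs _).trans hf
  have b5 : 0 ≤ P r * y ^ 2 := by positivity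
  have b6 : |u| * |y| ≤ (|u| * |u| + |y| * |y|) / 2 := by nlinarith [sq_nonneg (|u| - |y|)]
  have b7 : H₀ / (k * s) ≤ k / 4 := by
    rw [div_le_iff₀ (by positivity)]
    linarith
  have b8 : (|u| + |y|) * |y| ≤ 2 * (|u| * |u| + |y| * |y|) := by nlinarith
  have b9 : H₀ / (k * s) * ((|u| + |y|) * |y|) ≤ k / 4 * (2 * (|u| * |u| + |y| * |y|)) :=
    mul_le_mul b7 b8 (by positivity) (by positivity)
  have d1 : 2 * k * (u * y) ≤ 2 * k * ((|u| * |u| + |y| * |y|) / 2) :=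
    mul_le_mul_of_nonneg_left (b1.trans b6) (by positivity)
  have d2 : 2 * k * c r * (-(u * y)) ≤ 2 * k * c₂ * ((|u| * |u| + |y| * |y|) / 2) := by
    have d3 : 2 * k * c r * (-(u * y)) ≤ 2 * k * c r * ((|u| * |u| + |y| * |y|) / 2) :=
      mul_le_mul_of_nonneg_left (b2.trans b6) (by positivity)
    refine d3.trans (mul_le_mul_of_nonneg_right ?_ (by positivity))
    exact mul_le_mul_of_nonneg_left hc2 (by positivity)
  have d4 : 2 * k * m r * (-(T K y * y)) ≤ 2 * k * m₂ * (|u| * |u| + |y| * |y|) := by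
    have d5 : 2 * k * m r * (-(T K y * y)) ≤ 2 * k * m r * (|u| * |u| + |y| * |y|) := by
      refine mul_le_mul_of_nonneg_left (b3.trans ?_) (by positivity)
      nlinarith
    refine d5.trans (mul_le_mul_of_nonneg_right ?_ (by positivity))
    exact mul_le_mul_of_nonneg_left hm2 (by positivity)
  rw [hu2, hy2]
  rw [hy2] at b5
  nlinarith

/-- the angular velocity -/
theorem angular {c m h P : ℝ → ℝ} {c₁ c₂ m₁ m₂ P₀ H₀ : ℝ} (D : Dat c m h P c₁ c₂ m₁ m₂ P₀ H₀)
    {K s k r u y mi ρ : ℝ} (hK : 0 < K) (hs : 0 < s) (hk : 0 < k) (hmi : 0 < mi) (hmi1 : mi ≤ 1)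
    (hmic : mi ≤ c₁) (hρ : 8 * (m₂ * ρ) ≤ mi) (hρ0 : 0 ≤ ρ) (hkP : 4 * P₀ ≤ k * mi)
    (hks : 16 * H₀ ≤ mi * (k * (k * s))) (hu : |u| ≤ ρ) (hN : 0 < u ^ 2 + y ^ 2) :
    (u * G c m h P K s k r u y - k * y ^ 2) / (u ^ 2 + y ^ 2) ≤ -(k * mi / 2) := by
  have hc1 := D.c₁le r
  have hm0 : 0 < m r := D.m₁pos.trans_le (D.m₁le r)
  have hm2 := D.lem₂ r
  have hm20 : 0 < m₂ := hm0.trans_le hm2
  have hP := D.P0 r
  have hP0 := D.leP₀ r
  have hT0 := T_nonneg hK.le y
  have hT1 : T K y ≤ |y| * |y| := T_le_abs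
  have hf := forcing (u := u) (y := y) (w := u) (D.leH₀ r) hk hs
  have hH0 : 0 ≤ H₀ := (abs_nonneg _).trans (D.leH₀ r)
  have hu2 : u ^ 2 = |u| * |u| := by rw [abs_mul_abs_self]; ring
  have hy2 : y ^ 2 = |y| * |y| := by rw [abs_mul_abs_self]; ring
  have hu0 := abs_nonneg u
  have hy0 := abs_nonneg y
  rw [div_le_iff₀ hN]
  have e : u * G c m h P K s k r u y - k * y ^ 2 =
      -(k * c r * u ^ 2) - k * y ^ 2 + k * m r * (-(T K y * u)) + P r * (-(u * y)) -
        h r / k * X s u y * u := by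
    simp only [G]
    ring
  rw [e]
  have b6 : |u| * |y| ≤ (|u| * |u| + |y| * |y|) / 2 := by nlinarith [sq_nonneg (|u| - |y|)]
  have b1 : k * m r * (-(T K y * u)) ≤ k * mi / 8 * (|u| * |u| + |y| * |y|) := by
    have c1 : -(T K y * u) ≤ (|y| * |y|) * ρ := by
      calc -(T K y * u) ≤ |T K y * u| := neg_le_abs _
        _ = T K y * |u| := by rw [abs_mul, abs_of_nonneg hT0]
        _ ≤ (|y| * |y|) * ρ := mul_le_mul hT1 hu hu0 (by positivity)
    have c2 : k * m r * (-(T K y * u)) ≤ k * m₂ * ((|y| * |y|) * ρ) := by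
      have c3 : k * m r * (-(T K y * u)) ≤ k * m r * ((|y| * |y|) * ρ) :=
        mul_le_mul_of_nonneg_left c1 (by positivity)
      refine c3.trans (mul_le_mul_of_nonneg_right ?_ (by positivity))
      exact mul_le_mul_of_nonneg_left hm2 hk.le
    have c4 : k * m₂ * ((|y| * |y|) * ρ) ≤ k * mi / 8 * (|y| * |y|) := by
      have c5 : k * m₂ * ((|y| * |y|) * ρ) = k * (|y| * |y|) / 8 * (8 * (m₂ * ρ)) := by ring
      have c6 : k * mi / 8 * (|y| * |y|) = k * (|y| * |y|) / 8 * mi := by ring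
      rw [c5, c6]
      exact mul_le_mul_of_nonneg_left hρ (by positivity)
    have c7 : k * mi / 8 * (|y| * |y|) ≤ k * mi / 8 * (|u| * |u| + |y| * |y|) :=
      mul_le_mul_of_nonneg_left (by nlinarith) (by positivity)
    linarith
  have b2 : P r * (-(u * y)) ≤ k * mi / 8 * (|u| * |u| + |y| * |y|) := by
    have c1 : -(u * y) ≤ (|u| * |u| + |y| * |y|) / 2 := by
      refine le_trans ?_ b6
      rw [← abs_mul]
      exact neg_le_abs _
    have c2 : P r * (-(u * y)) ≤ P r * ((|u| * |u| + |y| * |y|) / 2) :=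
      mul_le_mul_of_nonneg_left c1 hP
    have c3 : P r * ((|u| * |u| + |y| * |y|) / 2) ≤ k * mi / 4 * ((|u| * |u| + |y| * |y|) / 2) :=
      mul_le_mul_of_nonneg_right (by linarith) (by positivity)
    linarith
  have b3 : -(h r / k * X s u y * u) ≤ k * mi / 8 * (|u| * |u| + |y| * |y|) := by
    have c1 : H₀ / (k * s) ≤ k * mi / 16 := by
      rw [div_le_iff₀ (by positivity)]
      nlinarith
    have c2 : (|u| + |y|) * |u| ≤ 2 * (|u| * |u| + |y| * |y|) := by nlinarith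
    have c3 : H₀ / (k * s) * ((|u| + |y|) * |u|) ≤ k * mi / 16 * (2 * (|u| * |u| + |y| * |y|)) :=
      mul_le_mul c1 c2 (by positivity) (by positivity)
    have c4 := (neg_le_abs (h r / k * X s u y * u)).trans hf
    linarith
  have b4 : k * mi * (u ^ 2 + y ^ 2) ≤ k * c r * u ^ 2 + k * y ^ 2 := by
    have c1 : k * mi * u ^ 2 ≤ k * c r * u ^ 2 :=
      mul_le_mul_of_nonneg_right (mul_le_mul_of_nonneg_left (hmic.trans hc1) hk.le) (sq_nonneg _)
    have c2 : k * mi * y ^ 2 ≤ k * 1 * y ^ 2 :=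
      mul_le_mul_of_nonneg_right (mul_le_mul_of_nonneg_left hmi1 hk.le) (sq_nonneg _)
    linarith
  have b5 : 0 ≤ k * mi * (u ^ 2 + y ^ 2) := by positivity
  rw [← hu2, ← hy2] at b1 b2 b3
  linarith

end Sm

open Sm in
/-- module SMALL -/
theorem small {c m h P : ℝ → ℝ} {c₁ c₂ m₁ m₂ P₀ H₀ : ℝ} (D : Dat c m h P c₁ c₂ m₁ m₂ P₀ H₀)
    {a b : ℝ} (hab : a < b) (J : ℕ) :
    ∃ δ : ℝ, 0 < δ ∧ δ ≤ 1 ∧ ∀ s : ℝ, 0 < s → ∃ k₀ : ℝ, ∀ (k K : ℝ) (u y θ : ℝ → ℝ), k₀ ≤ k →
      0 < K → Orb c m h P K s k a δ u y → Ang c m h P K s k a u y θ → θ b ≤ π / 2 - J * π := by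
  have hm20 : 0 < m₂ := (D.m₁pos.trans_le (D.m₁le 0)).trans_le (D.lem₂ 0)
  have hc20 : 0 < c₂ := (D.c₁pos.trans_le (D.c₁le 0)).trans_le (D.lec₂ 0)
  have hP00 : 0 ≤ P₀ := (D.P0 0).trans (D.leP₀ 0)
  have hH00 : 0 ≤ H₀ := (abs_nonneg _).trans (D.leH₀ 0)
  obtain ⟨mi, hmi⟩ : ∃ mi, mi = min 1 c₁ := ⟨_, rfl⟩
  have hmi0 : 0 < mi := by rw [hmi]; exact lt_min one_pos D.c₁pos
  have hmi1 : mi ≤ 1 := by rw [hmi]; exact min_le_left _ _
  have hmic : mi ≤ c₁ := by rw [hmi]; exact min_le_right _ _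
  obtain ⟨ρ, hρ⟩ : ∃ ρ, ρ = min (1 / 2) (mi / (8 * m₂)) := ⟨_, rfl⟩
  have hρ0 : 0 < ρ := by rw [hρ]; exact lt_min (by norm_num) (by positivity)
  have hρ1 : ρ ≤ 1 / 2 := by rw [hρ]; exact min_le_left _ _
  have hρ2 : 8 * (m₂ * ρ) ≤ mi := by
    have h1 : ρ ≤ mi / (8 * m₂) := by rw [hρ]; exact min_le_right _ _
    rw [le_div_iff₀ (by positivity)] at h1
    linarith
  obtain ⟨τ, hτ⟩ : ∃ τ, τ = 2 * (J * π) / mi := ⟨_, rfl⟩
  have hτ0 : 0 ≤ τ := by rw [hτ]; positivity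
  have hτ1 : mi * τ / 2 = J * π := by
    rw [hτ]
    field_simp
  obtain ⟨C, hC⟩ : ∃ C, C = 3 + c₂ + 2 * m₂ := ⟨_, rfl⟩
  have hC0 : 0 < C := by rw [hC]; positivity
  refine ⟨ρ * Real.exp (-(C * τ / 2)), by positivity, ?_, ?_⟩
  · have h1 : Real.exp (-(C * τ / 2)) ≤ 1 := Real.exp_le_one_iff.2 (by
      have : 0 ≤ C * τ := by positivity
      linarith)
    have h2 := Real.exp_pos (-(C * τ / 2))
    nlinarith
  intro s hs
  refine ⟨max (max 1 (τ / (b - a))) (max (4 * P₀ / mi) (max (16 * H₀ / (mi * s)) (4 * H₀ / s))),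
    ?_⟩
  intro k K u y θ hk0 hK O A
  have hk1 : 1 ≤ k := le_trans (le_trans (le_max_left _ _) (le_max_left _ _)) hk0
  have hk2 : τ / (b - a) ≤ k := le_trans (le_trans (le_max_right _ _) (le_max_left _ _)) hk0
  have hk3 : 4 * P₀ / mi ≤ k := le_trans (le_trans (le_max_left _ _) (le_max_right _ _)) hk0
  have hk4 : 16 * H₀ / (mi * s) ≤ k :=
    le_trans (le_trans (le_trans (le_max_left _ _) (le_max_right _ _)) (le_max_right _ _)) hk0
  have hk5 : 4 * H₀ / s ≤ k :=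
    le_trans (le_trans (le_trans (le_max_right _ _) (le_max_right _ _)) (le_max_right _ _)) hk0
  have hkpos : 0 < k := lt_of_lt_of_le one_pos hk1
  have hba : 0 < b - a := sub_pos.2 hab
  rw [div_le_iff₀ hba] at hk2
  rw [div_le_iff₀ hmi0] at hk3
  rw [div_le_iff₀ (by positivity)] at hk4
  rw [div_le_iff₀ hs] at hk5
  have hks1 : 4 * H₀ ≤ k * (k * s) := by
    have h1 : k * s ≤ k * (k * s) := by
      have : 0 ≤ k * s := by positivity
      nlinarith
    linarith
  have hks2 : 16 * H₀ ≤ mi * (k * (k * s)) := by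
    have h1 : k * (mi * s) ≤ mi * (k * (k * s)) := by
      have h2 : 0 ≤ k * (mi * s) := by positivity
      nlinarith
    linarith
  -- the growth of `N`
  have hNder : ∀ r, HasDerivAt (fun r => u r ^ 2 + y r ^ 2)
      (2 * (u r * (k * y r)) + 2 * (y r * G c m h P K s k r (u r) (y r))) r := by
    intro r
    have h1 := ((O.du r).pow 2).add ((O.dy r).pow 2)
    refine h1.congr_deriv ?_
    simp only [Nat.cast_ofNat, Nat.add_one_sub_one, pow_one]
    ring
  have hend : a + τ / k ≤ b := by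
    have h1 : τ / k ≤ b - a := by
      rw [div_le_iff₀ hkpos]
      linarith
    linarith
  have hNa : u a ^ 2 + y a ^ 2 = ρ ^ 2 * Real.exp (-(C * τ)) := by
    rw [O.u0, O.y0, mul_pow, ← Real.exp_nat_mul]
    have : ((2 : ℕ) : ℝ) * -(C * τ / 2) = -(C * τ) := by push_cast; ring
    rw [this]
    ring
  have hgrow : ∀ r ∈ Icc a (a + τ / k),
      u r ^ 2 + y r ^ 2 ≤ ρ ^ 2 * Real.exp (-(C * τ) + k * C * (r - a)) := by
    refine image_le_of_deriv_right_lt_deriv_boundary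
      (f := fun r => u r ^ 2 + y r ^ 2)
      (f' := fun r => 2 * (u r * (k * y r)) + 2 * (y r * G c m h P K s k r (u r) (y r)))
      (B := fun r => ρ ^ 2 * Real.exp (-(C * τ) + k * C * (r - a)))
      (B' := fun r => ρ ^ 2 * (Real.exp (-(C * τ) + k * C * (r - a)) * (k * C)))
      (fun r _ => (hNder r).continuousAt.continuousWithinAt)
      (fun r _ => (hNder r).hasDerivWithinAt) ?_ ?_ ?_
    · rw [hNa]
      simp
    · intro r
      have h1 : HasDerivAt (fun r => -(C * τ) + k * C * (r - a)) (k * C) r := by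
        have h2 := (((hasDerivAt_id r).sub_const a).const_mul (k * C)).const_add (-(C * τ))
        simpa using h2
      exact (h1.exp).const_mul _
    · intro r hr heq
      have hle : -(C * τ) + k * C * (r - a) ≤ 0 := by
        have h1 : r - a ≤ τ / k := by linarith [hr.2]
        have h2 : k * (r - a) ≤ τ := by
          rw [le_div_iff₀ hkpos] at h1
          linarith
        nlinarith
      have h3 : u r ^ 2 + y r ^ 2 ≤ ρ ^ 2 := by
        rw [heq]
        have := Real.exp_le_one_iff.2 hle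
        nlinarith [sq_nonneg ρ]
      have h4 : |y r| ≤ 1 := by
        rw [← sq_le_one_iff_abs_le_one]
        nlinarith [sq_nonneg (u r)]
      have h5 := growth (r := r) (u := u r) (y := y r) D hK hs hkpos hks1 h4
      have h6 := A.pos r
      have h7 : ρ ^ 2 * (Real.exp (-(C * τ) + k * C * (r - a)) * (k * C)) =
          k * C * (u r ^ 2 + y r ^ 2) := by
        rw [heq]
        ring
      rw [h7]
      refine lt_of_le_of_lt h5 ?_
      apply mul_lt_mul_of_pos_right _ h6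
      apply mul_lt_mul_of_pos_left _ hkpos
      rw [hC]
      linarith
  -- the angle
  have hsmall : ∀ r ∈ Icc a (a + τ / k), |u r| ≤ ρ := by
    intro r hr
    have h1 := hgrow r hr
    have hle : -(C * τ) + k * C * (r - a) ≤ 0 := by
      have h1 : r - a ≤ τ / k := by linarith [hr.2]
      have h2 : k * (r - a) ≤ τ := by
        rw [le_div_iff₀ hkpos] at h1
        linarith
      nlinarith
    have h3 := Real.exp_le_one_iff.2 hle
    have h4 : u r ^ 2 ≤ ρ ^ 2 := by nlinarith [sq_nonneg ρ, sq_nonneg (y r)]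
    exact abs_le_of_sq_le_sq h4 hρ0.le |>.trans le_rfl
  have hang : ∀ r ∈ Icc a (a + τ / k), θ r ≤ π / 2 - k * mi / 2 * (r - a) := by
    refine image_le_of_deriv_right_le_deriv_boundary
      (f := θ)
      (f' := fun r => (u r * G c m h P K s k r (u r) (y r) - k * y r ^ 2) /
        (u r ^ 2 + y r ^ 2))
      (B := fun r => π / 2 - k * mi / 2 * (r - a))
      (B' := fun _ => -(k * mi / 2))
      (fun r _ => (A.dth r).continuousAt.continuousWithinAt)
      (fun r _ => (A.dth r).hasDerivWithinAt) ?_ ?_ ?_ ?_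
    · rw [A.th0]
      simp
    · exact (Continuous.continuousOn (by fun_prop))
    · intro r _
      have h2 := (((hasDerivAt_id r).sub_const a).const_mul (k * mi / 2)).const_sub (π / 2)
      have h3 : HasDerivAt (fun r => π / 2 - k * mi / 2 * (r - a)) (-(k * mi / 2)) r := by
        simpa using h2
      exact h3.hasDerivWithinAt
    · intro r hr
      exact angular D hK hs hkpos hmi0 hmi1 hmic hρ2 hρ0.le (by linarith) hks2
        (hsmall r ⟨hr.1, hr.2.le⟩) (A.pos r)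
  have hfin : θ (a + τ / k) ≤ π / 2 - J * π := by
    have h1 := hang (a + τ / k) ⟨by
      have : 0 ≤ τ / k := by positivity
      linarith, le_rfl⟩
    have h2 : k * mi / 2 * (a + τ / k - a) = J * π := by
      rw [← hτ1]
      field_simp
      ring
    rw [h2] at h1
    exact h1
  rcases hend.lt_or_eq with h1 | h1
  · exact (A.lt_of_le hkpos h1 hfin).le
  · rw [← h1]
    exact hfin

end QGN
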