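import Pool.Agent.QGN.Flow
import Pool.Agent.QGN.Angle
import Pool.Agent.QGN.Phase
import Pool.Agent.QGN.NoRet
import Pool.Agent.QGN.Apri
import Pool.Agent.QGN.Large
import Pool.Agent.QGN.Small

/-!
# The one-dimensional boundary value problem
-/

open Set Filter Topology
open scoped Real

namespace QGN

section Angles

variable {c m h P : ℝ → ℝ} {K s k a : ℝ} {u y θ : ℝ → ℝ}

theorem Ang.cont (A : Ang c m h P K s k a u y θ) : Continuous θ :=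
  continuous_iff_continuousAt.2 fun r => (A.dth r).continuousAt

/-- the times at which the angle has the value `π / 2 - n π` -/
theorem Ang.exists_level (A : Ang c m h P K s k a u y θ) {b : ℝ} (hab : a ≤ b) {n : ℕ}
    (h1 : θ b ≤ π / 2 - n * π) : ∃ t ∈ Icc a b, θ t = π / 2 - n * π := by
  have h2 : π / 2 - n * π ∈ Icc (θ b) (θ a) := by
    refine ⟨h1, ?_⟩
    rw [A.th0]
    have := Real.pi_pos
    have h3 : (0 : ℝ) ≤ n := Nat.cast_nonneg n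
    nlinarith
  obtain ⟨t, ht, h3⟩ := intermediate_value_Icc' hab A.cont.continuousOn h2
  exact ⟨t, ht, h3⟩

theorem Ang.lt_of_lt (A : Ang c m h P K s k a u y θ) (hk : 0 < k) {n : ℕ} {r t : ℝ} (hr : r < t)
    (h1 : θ t = π / 2 - n * π) : π / 2 - n * π < θ r := by
  by_contra h2
  push Not at h2
  have := A.lt_of_le hk hr h2
  rw [h1] at this
  exact lt_irrefl _ this

theorem Ang.u_eq_zero (A : Ang c m h P K s k a u y θ) {n : ℕ} {t : ℝ}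
    (h1 : θ t = π / 2 - n * π) : u t = 0 := by
  rw [A.pu t, h1, Real.cos_sub_nat_mul_pi]
  simp

/-- between two consecutive levels `(-1) ^ n * u` is positive -/
theorem Ang.u_pos (A : Ang c m h P K s k a u y θ) {n : ℕ} {t : ℝ}
    (h1 : θ t < π / 2 - n * π) (h2 : π / 2 - (n + 1 : ℕ) * π < θ t) : 0 < (-1) ^ n * u t := by
  have h3 : Real.cos (θ t + n * π) = (-1) ^ n * Real.cos (θ t) := Real.cos_add_nat_mul_pi _ _
  have h4 : 0 < Real.cos (θ t + n * π) := by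
    apply Real.cos_pos_of_mem_Ioo
    push_cast at h2
    constructor
    · linarith
    · linarith
  rw [A.pu t]
  have h5 := A.pos t
  have h6 : 0 < √(u t ^ 2 + y t ^ 2) := Real.sqrt_pos.2 h5
  rw [h3] at h4
  calc 0 < √(u t ^ 2 + y t ^ 2) * ((-1) ^ n * Real.cos (θ t)) := mul_pos h6 h4
    _ = (-1) ^ n * (√(u t ^ 2 + y t ^ 2) * Real.cos (θ t)) := by ring

end Angles

section Field

variable {c m h P : ℝ → ℝ} {c₁ c₂ m₁ m₂ P₀ H₀ : ℝ}

theorem Dat.c₂pos (D : Dat c m h P c₁ c₂ m₁ m₂ P₀ H₀) : 0 < c₂ :=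
  D.c₁pos.trans_le ((D.c₁le 0).trans (D.lec₂ 0))

theorem Dat.m₂pos (D : Dat c m h P c₁ c₂ m₁ m₂ P₀ H₀) : 0 < m₂ :=
  D.m₁pos.trans_le ((D.m₁le 0).trans (D.lem₂ 0))

theorem Dat.P₀nonneg (D : Dat c m h P c₁ c₂ m₁ m₂ P₀ H₀) : 0 ≤ P₀ := (D.P0 0).trans (D.leP₀ 0)

theorem Dat.H₀nonneg (D : Dat c m h P c₁ c₂ m₁ m₂ P₀ H₀) : 0 ≤ H₀ :=
  (abs_nonneg _).trans (D.leH₀ 0)

theorem field_bounds (D : Dat c m h P c₁ c₂ m₁ m₂ P₀ H₀) {K s k : ℝ} (hK : 0 < K) (hs : 0 < s)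
    (hk : 1 ≤ k) (r u y : ℝ) (n : ℕ) (hU : 0 ≤ (-1) ^ n * u) :
    (0 ≤ (-1) ^ n * y → -(k * c₂ * ((-1) ^ n * u)) - k * m₂ * ((-1) ^ n * y) ^ 2 -
      P₀ * ((-1) ^ n * y) - H₀ / k ≤ (-1) ^ n * G c m h P K s k r u y) ∧
    ((-1) ^ n * y ≤ 0 → k * c₁ * ((-1) ^ n * u) - k * m₂ * ((-1) ^ n * y) ^ 2 +
      P₀ * ((-1) ^ n * y) - H₀ / k ≤ -((-1) ^ n * G c m h P K s k r u y)) := by
  have hk0 : 0 < k := by linarith
  have hX := forcing_bound D hs hk r u y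
  have hX1 := (abs_le.1 hX).1
  have hX2 := (abs_le.1 hX).2
  have hT0 := T_nonneg hK.le y
  have hT1 := T_le_sq K y
  have hc1 := D.c₁le r
  have hc2 := D.lec₂ r
  have hm1 := D.m₁le r
  have hm2 := D.lem₂ r
  have hm0 := D.m₁pos
  have hp0 := D.P0 r
  have hp1 := D.leP₀ r
  have hmT : 0 ≤ m r * T K y := mul_nonneg (by linarith) hT0
  have hmT2 : m r * T K y ≤ m₂ * y ^ 2 :=
    mul_le_mul hm2 hT1 hT0 (by linarith)
  have hkT : 0 ≤ k * (m r * T K y) := mul_nonneg hk0.le hmT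
  have hkT2 : k * (m r * T K y) ≤ k * (m₂ * y ^ 2) := mul_le_mul_of_nonneg_left hmT2 hk0.le
  have hkT3 : 0 ≤ k * (m₂ * y ^ 2) := hkT.trans hkT2
  unfold G
  rcases Nat.even_or_odd n with hn | hn
  · rw [hn.neg_one_pow] at hU ⊢
    simp only [one_mul] at hU ⊢
    have h1 : c₁ * u ≤ c r * u := mul_le_mul_of_nonneg_right hc1 hU
    have h2 : c r * u ≤ c₂ * u := mul_le_mul_of_nonneg_right hc2 hU
    have h3 := mul_le_mul_of_nonneg_left h1 hk0.le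
    have h4 := mul_le_mul_of_nonneg_left h2 hk0.le
    constructor
    · intro hy
      have h5 : P r * y ≤ P₀ * y := mul_le_mul_of_nonneg_right hp1 hy
      linarith
    · intro hy
      have h5 : P₀ * y ≤ P r * y := mul_le_mul_of_nonpos_right hp1 hy
      linarith
  · rw [hn.neg_one_pow] at hU ⊢
    have hU' : u ≤ 0 := by linarith
    have h1 : c r * u ≤ c₁ * u := mul_le_mul_of_nonpos_right hc1 hU'
    have h2 : c₂ * u ≤ c r * u := mul_le_mul_of_nonpos_right hc2 hU'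
    have h3 := mul_le_mul_of_nonneg_left h1 hk0.le
    have h4 := mul_le_mul_of_nonneg_left h2 hk0.le
    constructor
    · intro hy
      have hy' : y ≤ 0 := by linarith
      have h5 : P₀ * y ≤ P r * y := mul_le_mul_of_nonpos_right hp1 hy'
      nlinarith
    · intro hy
      have hy' : 0 ≤ y := by linarith
      have h5 : P r * y ≤ P₀ * y := mul_le_mul_of_nonneg_right hp1 hy'
      nlinarith

/-- along an orbit of angle `π / 2 - j π` at the end the distance to the origin is not small -/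
theorem chain (D : Dat c m h P c₁ c₂ m₁ m₂ P₀ H₀) {K s k a b κ δ ρ η C₀ : ℝ} (hK : 0 < K)
    (hs : 0 < s) (hk : 1 ≤ k) (hab : a < b) (hρ : 0 < ρ) (hρ1 : ρ < 1) (hη : 0 < η) (hη1 : η ≤ 1)
    (hph : ∀ (k s t₀ t₁ : ℝ) (U Y Y' : ℝ → ℝ), 1 ≤ k → 0 < s → s ≤ 1 → C₀ ≤ k * s → t₀ < t₁ →
        t₁ ≤ t₀ + (b - a) →
        (∀ t ∈ Icc t₀ t₁, HasDerivAt U (k * Y t) t) → (∀ t ∈ Icc t₀ t₁, HasDerivAt Y (Y' t) t) →
        (∀ t ∈ Icc t₀ t₁, 0 ≤ U t → 0 ≤ Y t →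
          -(k * c₂ * U t) - k * m₂ * Y t ^ 2 - P₀ * Y t - H₀ / k ≤ Y' t) →
        (∀ t ∈ Icc t₀ t₁, 0 ≤ U t → Y t ≤ 0 →
          k * c₁ * U t - k * m₂ * Y t ^ 2 + P₀ * Y t - H₀ / k ≤ -Y' t) →
        U t₀ = 0 → s ≤ Y t₀ → (∀ t ∈ Ioo t₀ t₁, 0 < U t) →
        (∀ t ∈ Icc t₀ t₁, η * s ≤ |U t| + |Y t|) ∧ (U t₁ = 0 → Y t₁ ≤ -(ρ * s)))
    {u y θ : ℝ → ℝ} (O : Orb c m h P K s k a κ u y) (A : Ang c m h P K s k a u y θ)
    (hδ : 0 < δ) (hδ1 : δ ≤ 1) (hκ : δ ≤ κ) {j J : ℕ} (hjJ : j ≤ J) (hθ : θ b = π / 2 - j * π)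
    (hC : C₀ ≤ k * (ρ ^ J * δ)) (hsJ : s ≤ η * (ρ ^ J * δ)) :
    ∀ i, i ≤ j → ∃ t ∈ Icc a b, θ t = π / 2 - i * π ∧ ρ ^ i * δ ≤ (-1) ^ i * y t ∧
      ∀ r ∈ Icc a t, s ≤ |u r| + |y r| := by
  have hk0 : 0 < k := by linarith
  have hpow : ∀ i, i ≤ J → ρ ^ J ≤ ρ ^ i := fun i hi => pow_le_pow_of_le_one hρ.le hρ1.le hi
  have hpow1 : ∀ i : ℕ, ρ ^ i ≤ 1 := fun i => pow_le_one₀ hρ.le hρ1.le
  intro i
  induction i with
  | zero =>
    intro _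
    refine ⟨a, ⟨le_rfl, hab.le⟩, ?_, ?_, ?_⟩
    · rw [A.th0]; simp
    · rw [O.y0]; simpa using hκ
    · intro r hr
      have hra : r = a := le_antisymm hr.2 hr.1
      rw [hra, O.u0, O.y0, abs_zero, zero_add]
      have h1 : η * (ρ ^ J * δ) ≤ 1 * (1 * δ) :=
        mul_le_mul hη1 (mul_le_mul_of_nonneg_right (hpow1 J) hδ.le) (by positivity) zero_le_one
      calc s ≤ δ := by linarith
        _ ≤ κ := hκ
        _ ≤ |κ| := le_abs_self _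
  | succ i ih =>
    intro hi
    obtain ⟨t₀, ht₀, h1, h2, h3⟩ := ih (by omega)
    have hθb : θ b ≤ π / 2 - (i + 1 : ℕ) * π := by
      rw [hθ]
      have h4 : ((i + 1 : ℕ) : ℝ) ≤ j := by exact_mod_cast hi
      nlinarith [Real.pi_pos]
    obtain ⟨t₁, ht₁, h5⟩ := A.exists_level hab.le hθb
    have h01 : t₀ < t₁ := by
      by_contra hc
      push Not at hc
      rcases hc.eq_or_lt with h6 | h6
      · rw [h6, h1] at h5
        push_cast at h5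
        nlinarith [Real.pi_pos]
      · have h7 := A.lt_of_le hk0 h6 h5.le
        rw [h1] at h7
        push_cast at h7
        nlinarith [Real.pi_pos]
    have hsg : ((-1 : ℝ) ^ i) * (-1) ^ i = 1 := by
      rw [← pow_add, ← two_mul, pow_mul]; simp
    have habs : |((-1 : ℝ) ^ i)| = 1 := by simp
    obtain ⟨h6, h7⟩ := hph k (ρ ^ i * δ) t₀ t₁ (fun t => (-1) ^ i * u t) (fun t => (-1) ^ i * y t)
      (fun t => (-1) ^ i * G c m h P K s k t (u t) (y t)) hk (by positivity)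
      (by
        have := mul_le_mul (hpow1 i) hδ1 hδ.le zero_le_one
        linarith)
      (hC.trans (mul_le_mul_of_nonneg_left
        (mul_le_mul_of_nonneg_right (hpow i (by omega)) hδ.le) hk0.le)) h01
      (by linarith [ht₀.1, ht₁.2])
      (fun t _ => by
        have h8 := (O.du t).const_mul ((-1 : ℝ) ^ i)
        rw [show (-1 : ℝ) ^ i * (k * y t) = k * ((-1) ^ i * y t) by ring] at h8
        exact h8)
      (fun t _ => (O.dy t).const_mul _)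
      (fun t _ hU hY => (field_bounds D hK hs hk t (u t) (y t) i hU).1 hY)
      (fun t _ hU hY => (field_bounds D hK hs hk t (u t) (y t) i hU).2 hY)
      (by show (-1) ^ i * u t₀ = 0; rw [A.u_eq_zero h1, mul_zero])
      h2
      (fun t ht => A.u_pos (A.lt_of_le hk0 ht.1 h1.le) (A.lt_of_lt hk0 ht.2 h5))
    refine ⟨t₁, ht₁, h5, ?_, ?_⟩
    · have h8 := h7 (by show (-1) ^ i * u t₁ = 0; rw [A.u_eq_zero h5, mul_zero])
      rw [pow_succ, pow_succ]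
      linarith
    · intro r hr
      rcases le_total r t₀ with h8 | h8
      · exact h3 r ⟨hr.1, h8⟩
      · have h9 := h6 r ⟨h8, hr.2⟩
        simp only [abs_mul, habs, one_mul] at h9
        calc s ≤ η * (ρ ^ J * δ) := hsJ
          _ ≤ η * (ρ ^ i * δ) := mul_le_mul_of_nonneg_left
            (mul_le_mul_of_nonneg_right (hpow i (by omega)) hδ.le) hη.le
          _ ≤ |u r| + |y r| := h9

/-- the forcing is not cut off on the whole interval -/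
theorem chain_all (D : Dat c m h P c₁ c₂ m₁ m₂ P₀ H₀) {K s k a b κ δ ρ η C₀ : ℝ} (hK : 0 < K)
    (hs : 0 < s) (hk : 1 ≤ k) (hab : a < b) (hρ : 0 < ρ) (hρ1 : ρ < 1) (hη : 0 < η) (hη1 : η ≤ 1)
    (hph : ∀ (k s t₀ t₁ : ℝ) (U Y Y' : ℝ → ℝ), 1 ≤ k → 0 < s → s ≤ 1 → C₀ ≤ k * s → t₀ < t₁ →
        t₁ ≤ t₀ + (b - a) →
        (∀ t ∈ Icc t₀ t₁, HasDerivAt U (k * Y t) t) → (∀ t ∈ Icc t₀ t₁, HasDerivAt Y (Y' t) t) →
        (∀ t ∈ Icc t₀ t₁, 0 ≤ U t → 0 ≤ Y t →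
          -(k * c₂ * U t) - k * m₂ * Y t ^ 2 - P₀ * Y t - H₀ / k ≤ Y' t) →
        (∀ t ∈ Icc t₀ t₁, 0 ≤ U t → Y t ≤ 0 →
          k * c₁ * U t - k * m₂ * Y t ^ 2 + P₀ * Y t - H₀ / k ≤ -Y' t) →
        U t₀ = 0 → s ≤ Y t₀ → (∀ t ∈ Ioo t₀ t₁, 0 < U t) →
        (∀ t ∈ Icc t₀ t₁, η * s ≤ |U t| + |Y t|) ∧ (U t₁ = 0 → Y t₁ ≤ -(ρ * s)))
    {u y θ : ℝ → ℝ} (O : Orb c m h P K s k a κ u y) (A : Ang c m h P K s k a u y θ)
    (hδ : 0 < δ) (hδ1 : δ ≤ 1) (hκ : δ ≤ κ) {j J : ℕ} (hjJ : j ≤ J) (hθ : θ b = π / 2 - j * π)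
    (hC : C₀ ≤ k * (ρ ^ J * δ)) (hsJ : s ≤ η * (ρ ^ J * δ)) :
    ∀ r ∈ Icc a b, s ≤ |u r| + |y r| := by
  obtain ⟨t, ht, h1, -, h2⟩ := chain D hK hs hk hab hρ hρ1 hη hη1 hph O A hδ hδ1 hκ hjJ hθ hC hsJ
    j le_rfl
  have hk0 : 0 < k := by linarith
  rcases ht.2.eq_or_lt with h3 | h3
  · rw [← h3]; exact h2
  · have := A.lt_of_le hk0 h3 h1.le
    rw [hθ] at this
    exact absurd this (lt_irrefl _)

/-- the orbit that starts with a large slope makes at most one turn and a half -/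
theorem not_two (D : Dat c m h P c₁ c₂ m₁ m₂ P₀ H₀) {K s k a b κ Q₀ : ℝ} (hK : Q₀ ≤ K)
    (hs : 0 < s) (hk : 1 ≤ k) (hab : a < b) (hQ : 1 ≤ Q₀) (hQ2 : c₂ + 2 + P₀ + H₀ ≤ m₁ * Q₀)
    {u y θ : ℝ → ℝ} (O : Orb c m h P K s k a κ u y) (A : Ang c m h P K s k a u y θ)
    (hlg : ∀ t₁, t₁ ∈ Ioc a b → (∀ t ∈ Ioo a t₁, 0 < u t) → u t₁ = 0 → y t₁ ≤ -Q₀) :
    π / 2 - (2 : ℕ) * π < θ b := by
  have hk0 : 0 < k := by linarith
  by_contra hc
  push Not at hc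
  obtain ⟨t₂, ht₂, h2⟩ := A.exists_level hab.le hc
  have hc1 : θ b ≤ π / 2 - (1 : ℕ) * π := by
    push_cast at hc ⊢
    nlinarith [Real.pi_pos]
  obtain ⟨t₁, ht₁, h1⟩ := A.exists_level hab.le hc1
  have h12 : t₁ < t₂ := by
    by_contra hc
    push Not at hc
    rcases hc.eq_or_lt with h6 | h6
    · rw [← h6, h2] at h1
      push_cast at h1
      nlinarith [Real.pi_pos]
    · have h7 := A.lt_of_le hk0 h6 h2.le
      rw [h1] at h7
      push_cast at h7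
      nlinarith [Real.pi_pos]
  have ha1 : a < t₁ := by
    rcases ht₁.1.eq_or_lt with h3 | h3
    · rw [← h3, A.th0] at h1
      push_cast at h1
      nlinarith [Real.pi_pos]
    · exact h3
  have hpos : ∀ t ∈ Ioo a t₁, 0 < u t := by
    intro t ht
    have h3 : θ t < π / 2 - (0 : ℕ) * π := A.lt_of_le hk0 ht.1 (by rw [A.th0]; simp)
    have h4 := A.lt_of_lt hk0 ht.2 h1
    have h5 := A.u_pos (n := 0) h3 h4
    simpa using h5
  have hu1 := A.u_eq_zero h1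
  have hy1 := hlg t₁ ⟨ha1, ht₁.2⟩ hpos hu1
  have h3 := (no_return D hs hk hQ hQ2 hK O (t₁ := t₁) hu1.le (by rw [hu1]; linarith) t₂ h12).1
  rw [hu1, A.u_eq_zero h2] at h3
  exact lt_irrefl _ h3

end Field

theorem G_cont {c m h P : ℝ → ℝ} {c₁ c₂ m₁ m₂ P₀ H₀ : ℝ} (D : Dat c m h P c₁ c₂ m₁ m₂ P₀ H₀)
    {K s k a κ : ℝ} {u y : ℝ → ℝ} (O : Orb c m h P K s k a κ u y) :
    Continuous fun r => G c m h P K s k r (u r) (y r) := by
  have hu : Continuous u := continuous_iff_continuousAt.2 fun r => (O.du r).continuousAt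
  have hy : Continuous y := continuous_iff_continuousAt.2 fun r => (O.dy r).continuousAt
  have h1 := D.cc
  have h2 := D.cm
  have h3 := D.ch
  have h4 := D.cP
  unfold G T X
  fun_prop

/-- the boundary value problem in one dimension has many solutions when `k` is large -/
theorem oneD {c m h P : ℝ → ℝ} {c₁ c₂ m₁ m₂ P₀ H₀ : ℝ} (D : Dat c m h P c₁ c₂ m₁ m₂ P₀ H₀)
    {a b : ℝ} (hab : a < b) (n : ℕ) :
    ∃ k₀ : ℝ, 0 < k₀ ∧ ∀ k, k₀ ≤ k → ∃ u y z : Fin n → ℝ → ℝ,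
      (∀ i, u i a = 0 ∧ u i b = 0 ∧ (∀ r, HasDerivAt (u i) (k * y i r) r) ∧
        (∀ r, HasDerivAt (y i) (z i r) r) ∧ Continuous (z i) ∧
        ∀ r ∈ Icc a b, z i r = -(k * (c r * u i r + m r * y i r ^ 2)) - P r * y i r - h r / k) ∧
      ∀ i j, i ≠ j → y i a ≠ y j a := by
  obtain ⟨ρ, η, C₀, hρ, hρ1, hη, hη1, hC₀, hph⟩ := phase D.c₁pos D.c₂pos D.m₂pos D.P₀nonneg
    D.H₀nonneg (sub_pos.2 hab)
  set Q₀ : ℝ := max 1 ((c₂ + 2 + P₀ + H₀) / m₁) with hQ₀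
  have hQ : 1 ≤ Q₀ := le_max_left _ _
  have hQ2 : c₂ + 2 + P₀ + H₀ ≤ m₁ * Q₀ := by
    have h1 : (c₂ + 2 + P₀ + H₀) / m₁ ≤ Q₀ := le_max_right _ _
    rw [div_le_iff₀ D.m₁pos] at h1
    linarith
  obtain ⟨κ₁, hκ₁, hlarge⟩ := large D hab (show 0 < Q₀ by linarith)
  set J : ℕ := n + 1 with hJ
  obtain ⟨δ, hδ, hδ1, hsmall⟩ := small D hab J
  have hρJ : 0 < ρ ^ J := pow_pos hρ J
  set s : ℝ := η * (ρ ^ J * δ) with hsdef
  have hs : 0 < s := by positivity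
  obtain ⟨k₁, hk₁⟩ := hsmall s hs
  refine ⟨max (max 1 (C₀ / (ρ ^ J * δ))) k₁, lt_of_lt_of_le zero_lt_one
    ((le_max_left _ _).trans (le_max_left _ _)), fun k hk => ?_⟩
  have hk1 : 1 ≤ k := ((le_max_left _ _).trans (le_max_left _ _)).trans hk
  have hk0 : 0 < k := by linarith
  have hkC : C₀ ≤ k * (ρ ^ J * δ) := by
    have h1 : C₀ / (ρ ^ J * δ) ≤ k := ((le_max_right _ _).trans (le_max_left _ _)).trans hk
    rwa [div_le_iff₀ (by positivity)] at h1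
  have hkk : k₁ ≤ k := (le_max_right _ _).trans hk
  obtain ⟨K₁, hK₁⟩ := apriori D hab (show 0 < Q₀ by linarith) (show 0 < κ₁ by linarith) hk1
  set K : ℝ := max K₁ Q₀ with hKdef
  have hKQ : Q₀ ≤ K := le_max_right _ _
  have hK : 0 < K := by linarith
  obtain ⟨U, Y, hO, hU, hY⟩ := exists_flow D hK hs hk0 a
  obtain ⟨θ, hA, hθ⟩ := exists_angle D hK hs hk0 a hO hU hY
  have h1 : θ δ b ≤ π / 2 - J * π := hk₁ k K (U δ) (Y δ) (θ δ) hkk hK (hO δ) (hA δ hδ)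
  have h2 : π / 2 - (2 : ℕ) * π < θ κ₁ b := by
    refine not_two D hKQ hs hk1 hab hQ hQ2 (hO κ₁) (hA κ₁ (by linarith)) ?_
    intro t₁ ht₁ h3 h4
    exact hlarge k K s t₁ (U κ₁) (Y κ₁) hk1 hK hs (hO κ₁) ht₁ h3 h4
  have hex : ∀ i : Fin n, ∃ κ ∈ Icc δ κ₁, θ κ b = π / 2 - ((i : ℕ) + 2 : ℕ) * π := by
    intro i
    have hi : ((i : ℕ) + 2 : ℕ) ≤ J := by omega
    have hi2 : (((i : ℕ) + 2 : ℕ) : ℝ) ≤ (J : ℝ) := by exact_mod_cast hi
    have hi3 : (2 : ℝ) ≤ (((i : ℕ) + 2 : ℕ) : ℝ) := by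
      have : (2 : ℕ) ≤ (i : ℕ) + 2 := by omega
      exact_mod_cast this
    have h3 : π / 2 - ((i : ℕ) + 2 : ℕ) * π ∈ Icc (θ δ b) (θ κ₁ b) := by
      constructor
      · nlinarith [Real.pi_pos]
      · push_cast at h2 hi3 ⊢
        nlinarith [Real.pi_pos]
    have h4 : ContinuousOn (fun κ => θ κ b) (Icc δ κ₁) :=
      (hθ b).mono fun κ hκ => hδ.trans_le hκ.1
    obtain ⟨κ, hκ, h5⟩ := intermediate_value_Icc (by linarith) h4 h3
    exact ⟨κ, hκ, h5⟩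
  choose κ hκ hκθ using hex
  refine ⟨fun i => U (κ i), fun i => Y (κ i),
    fun i r => G c m h P K s k r (U (κ i) r) (Y (κ i) r), fun i => ?_, fun i j hij => ?_⟩
  · have O := hO (κ i)
    have hκ0 : 0 < κ i := hδ.trans_le (hκ i).1
    have A := hA (κ i) hκ0
    have hub : U (κ i) b = 0 := A.u_eq_zero (hκθ i)
    refine ⟨O.u0, hub, O.du, O.dy, G_cont D O, ?_⟩
    have hno : ∀ t ∈ Ico a b, U (κ i) t ≤ 0 → -(Y (κ i) t) < Q₀ - U (κ i) t := by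
      intro t ht hut
      by_contra hc
      push Not at hc
      have := (no_return D hs hk1 hQ hQ2 hKQ O hut hc b ht.2).1
      rw [hub] at this
      linarith
    have hap := hK₁ K s (κ i) (U (κ i)) (Y (κ i)) hK hs ⟨hκ0.le, (hκ i).2⟩ O hno
    have hch := chain_all D hK hs hk1 hab hρ hρ1 hη hη1 hph O A hδ hδ1 (hκ i).1
      (show ((i : ℕ) + 2) ≤ J by omega) (hκθ i) hkC le_rfl
    intro r hr
    show G c m h P K s k r (U (κ i) r) (Y (κ i) r) = _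
    unfold G
    rw [T_eq ((hap r hr).trans (le_max_left _ _)), X_eq hs (hch r hr), mul_one]
  · show Y (κ i) a ≠ Y (κ j) a
    rw [(hO (κ i)).y0, (hO (κ j)).y0]
    intro h3
    have h4 := hκθ i
    rw [h3, hκθ j] at h4
    have h5 : (((j : ℕ) + 2 : ℕ) : ℝ) = (((i : ℕ) + 2 : ℕ) : ℝ) := by
      have := Real.pi_pos
      have h6 : (((j : ℕ) + 2 : ℕ) : ℝ) * π = (((i : ℕ) + 2 : ℕ) : ℝ) * π := by linarith
      exact mul_right_cancel₀ this.ne' h6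
    have h6 : (j : ℕ) + 2 = (i : ℕ) + 2 := by exact_mod_cast h5
    exact hij (Fin.ext (by omega))

end QGN
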