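import Mathlib

/-!
# Radial solutions of `-Δu = λ c u + μ |∇u|² + h` in annuli: the planar system

`u' = k y`, `y' = -k (c u + m y²) - P y - h / k` with `k = √λ`, modified for large `|y|` (the square
is replaced by the Lipschitz function `T K y`) and near the origin (the forcing `h / k` is
multiplied by `X s u y`, which is `1` when `|u| + |y| ≥ s` and vanishes at the origin).
-/

namespace QGN

/-- the truncated square: `y²` for `|y| ≤ K`, `K |y|` for `|y| ≥ K` -/
noncomputable def T (K y : ℝ) : ℝ := |y| * min |y| K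

/-- the cut-off factor of the forcing term -/
noncomputable def X (s u y : ℝ) : ℝ := min 1 ((|u| + |y|) / s)

/-- continuous data with bounds -/
structure Dat (c m h P : ℝ → ℝ) (c₁ c₂ m₁ m₂ P₀ H₀ : ℝ) : Prop where
  cc : Continuous c
  cm : Continuous m
  ch : Continuous h
  cP : Continuous P
  c₁pos : 0 < c₁
  m₁pos : 0 < m₁
  c₁le : ∀ r, c₁ ≤ c r
  lec₂ : ∀ r, c r ≤ c₂
  m₁le : ∀ r, m₁ ≤ m r
  lem₂ : ∀ r, m r ≤ m₂
  P0 : ∀ r, 0 ≤ P r
  leP₀ : ∀ r, P r ≤ P₀
  leH₀ : ∀ r, |h r| ≤ H₀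

/-- the second component of the field -/
noncomputable def G (c m h P : ℝ → ℝ) (K s k r u y : ℝ) : ℝ :=
  -(k * (c r * u + m r * T K y)) - P r * y - h r / k * X s u y

/-- `(u, y)` is the orbit starting at `(0, κ)` at the point `a` -/
structure Orb (c m h P : ℝ → ℝ) (K s k a κ : ℝ) (u y : ℝ → ℝ) : Prop where
  u0 : u a = 0
  y0 : y a = κ
  du : ∀ r, HasDerivAt u (k * y r) r
  dy : ∀ r, HasDerivAt y (G c m h P K s k r (u r) (y r)) r

theorem T_nonneg {K : ℝ} (hK : 0 ≤ K) (y : ℝ) : 0 ≤ T K y :=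
  mul_nonneg (abs_nonneg _) (le_min (abs_nonneg _) hK)

theorem T_le_sq (K y : ℝ) : T K y ≤ y ^ 2 := by
  unfold T
  calc |y| * min |y| K ≤ |y| * |y| := mul_le_mul_of_nonneg_left (min_le_left _ _) (abs_nonneg _)
    _ = y ^ 2 := by rw [abs_mul_abs_self]; ring

theorem T_le_mul (K y : ℝ) : T K y ≤ |y| * K :=
  mul_le_mul_of_nonneg_left (min_le_right _ _) (abs_nonneg _)

theorem T_eq {K y : ℝ} (h : |y| ≤ K) : T K y = y ^ 2 := by
  unfold T
  rw [min_eq_left h, abs_mul_abs_self]
  ring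

theorem T_lip {K : ℝ} (hK : 0 ≤ K) (y z : ℝ) : |T K y - T K z| ≤ 2 * K * |y - z| := by
  have key : ∀ a b : ℝ, 0 ≤ a → a ≤ b → b * min b K - a * min a K ≤ 2 * K * (b - a) := by
    intro a b ha hab
    rcases le_total b K with h1 | h1
    · rw [min_eq_left h1, min_eq_left (hab.trans h1)]
      nlinarith
    · rw [min_eq_right h1]
      rcases le_total a K with h2 | h2
      · rw [min_eq_left h2]
        nlinarith
      · rw [min_eq_right h2]
        nlinarith
  have mono : ∀ a b : ℝ, 0 ≤ a → a ≤ b → a * min a K ≤ b * min b K := by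
    intro a b ha hab
    have h1 : min a K ≤ min b K := min_le_min_right _ hab
    exact mul_le_mul hab h1 (le_min ha hK) (ha.trans hab)
  unfold T
  have h3 : |(|y| - |z|)| ≤ |y - z| := abs_abs_sub_abs_le y z
  rcases le_total |y| |z| with h | h
  · have h1 := key |y| |z| (abs_nonneg _) h
    have h2 := mono |y| |z| (abs_nonneg _) h
    rw [abs_sub_comm, abs_of_nonneg (by linarith)]
    have h4 : |z| - |y| ≤ |y - z| := by
      rw [abs_of_nonpos (by linarith)] at h3
      linarith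
    nlinarith
  · have h1 := key |z| |y| (abs_nonneg _) h
    have h2 := mono |z| |y| (abs_nonneg _) h
    rw [abs_of_nonneg (by linarith)]
    have h4 : |y| - |z| ≤ |y - z| := (le_abs_self _).trans h3
    nlinarith

theorem X_nonneg {s : ℝ} (hs : 0 < s) (u y : ℝ) : 0 ≤ X s u y :=
  le_min zero_le_one (by positivity)

theorem X_le_one (s u y : ℝ) : X s u y ≤ 1 := min_le_left _ _

theorem X_le (s u y : ℝ) : X s u y ≤ (|u| + |y|) / s := min_le_right _ _

theorem X_eq {s u y : ℝ} (hs : 0 < s) (h : s ≤ |u| + |y|) : X s u y = 1 := by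
  unfold X
  rw [min_eq_left]
  rwa [le_div_iff₀ hs, one_mul]

theorem X_lip {s : ℝ} (hs : 0 < s) (u y v z : ℝ) :
    |X s u y - X s v z| ≤ (|u - v| + |y - z|) / s := by
  unfold X
  have h1 : |min 1 ((|u| + |y|) / s) - min 1 ((|v| + |z|) / s)| ≤
      |(|u| + |y|) / s - (|v| + |z|) / s| := by
    have h0 := abs_min_sub_min_le_max 1 ((|u| + |y|) / s) 1 ((|v| + |z|) / s)
    rwa [sub_self, abs_zero, max_eq_right (abs_nonneg _)] at h0
  refine h1.trans ?_
  rw [← sub_div, abs_div, abs_of_pos hs]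
  apply div_le_div_of_nonneg_right _ hs.le
  have h2 := abs_abs_sub_abs_le u v
  have h3 := abs_abs_sub_abs_le y z
  calc |(|u| + |y|) - (|v| + |z|)| = |(|u| - |v|) + (|y| - |z|)| := by congr 1; ring
    _ ≤ |(|u| - |v|)| + |(|y| - |z|)| := abs_add_le _ _
    _ ≤ |u - v| + |y - z| := add_le_add h2 h3

end QGN
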