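import Mathlib
import Pool.Agent.QGB.Radial

/-!
# Radial functions away from the centre
-/

namespace QGN

open Set Filter Topology MeasureTheory InnerProductSpace Laplacian Metric
open QGB (BL BL_apply norm_BL hasFDerivAt_norm_sub)

section

variable {E : Type*} [NormedAddCommGroup E] [InnerProductSpace ℝ E]

/-- the first derivative -/
noncomputable def A1 (x₀ : E) (f' : ℝ → ℝ) (x : E) : E →L[ℝ] ℝ :=
  (f' ‖x - x₀‖ / ‖x - x₀‖) • BL (x - x₀)

/-- the second derivative -/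
noncomputable def A2 (x₀ : E) (f' f'' : ℝ → ℝ) (x : E) : E →L[ℝ] E →L[ℝ] ℝ :=
  (f' ‖x - x₀‖ / ‖x - x₀‖) • BL +
    (((f'' ‖x - x₀‖ - f' ‖x - x₀‖ / ‖x - x₀‖) / ‖x - x₀‖ ^ 2) • BL (x - x₀)).smulRight
      (BL (x - x₀))

variable {x₀ : E} {f f' f'' : ℝ → ℝ}

theorem hasFDerivAt_A1 (h1 : ∀ r, HasDerivAt f (f' r) r) {x : E} (hx : x ≠ x₀) :
    HasFDerivAt (fun x => f ‖x - x₀‖) (A1 x₀ f' x) x := by
  have hz : x - x₀ ≠ 0 := sub_ne_zero.2 hx
  have h3 := (h1 ‖x - x₀‖).comp_hasFDerivAt x (hasFDerivAt_norm_sub x₀ x hz)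
  refine h3.congr_fderiv ?_
  ext y
  simp only [A1, smul_apply, smul_eq_mul]
  ring

theorem hasFDerivAt_A2 (h2 : ∀ r, HasDerivAt f' (f'' r) r) {x : E} (hx : x ≠ x₀) :
    HasFDerivAt (A1 x₀ f') (A2 x₀ f' f'' x) x := by
  have hz : x - x₀ ≠ 0 := sub_ne_zero.2 hx
  have hn : 0 < ‖x - x₀‖ := norm_pos_iff.2 hz
  have hB : HasFDerivAt (fun x : E => BL (x - x₀)) (BL : E →L[ℝ] E →L[ℝ] ℝ) x := by
    have h3 : HasFDerivAt (fun x : E => x - x₀) (ContinuousLinearMap.id ℝ E) x :=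
      (hasFDerivAt_id x).sub_const x₀
    have h4 := (BL : E →L[ℝ] E →L[ℝ] ℝ).hasFDerivAt.comp x h3
    refine h4.congr_fderiv ?_
    ext y z
    simp
  have h3 : HasDerivAt (fun r => f' r / r)
      ((f'' ‖x - x₀‖ * ‖x - x₀‖ - f' ‖x - x₀‖ * 1) / ‖x - x₀‖ ^ 2) ‖x - x₀‖ :=
    (h2 ‖x - x₀‖).fun_div (hasDerivAt_id' _) hn.ne'
  have h4 := (h3.comp_hasFDerivAt x (hasFDerivAt_norm_sub x₀ x hz)).smul hB
  refine h4.congr_fderiv ?_
  ext y z
  simp only [A2, add_apply, smul_apply, smul_eq_mul,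
    ContinuousLinearMap.smulRight_apply, Function.comp]
  field_simp

theorem continuousAt_radial {g : ℝ → ℝ} (hg : Continuous g) (x : E) :
    ContinuousAt (fun x : E => g ‖x - x₀‖) x :=
  (hg.comp (by fun_prop : Continuous fun x : E => ‖x - x₀‖)).continuousAt

theorem continuousOn_A2 (h2 : Continuous f') (h3 : Continuous f'') :
    ContinuousOn (A2 x₀ f' f'') {x | x ≠ x₀} := by
  intro x hx
  have hz : x - x₀ ≠ 0 := sub_ne_zero.2 hx
  have hn : ‖x - x₀‖ ≠ 0 := (norm_pos_iff.2 hz).ne'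
  apply ContinuousAt.continuousWithinAt
  have hp := continuousAt_radial (x₀ := x₀) h2 x
  have hq := continuousAt_radial (x₀ := x₀) h3 x
  have hr : ContinuousAt (fun x : E => ‖x - x₀‖) x :=
    (by fun_prop : Continuous fun x : E => ‖x - x₀‖).continuousAt
  have hpr : ContinuousAt (fun x : E => f' ‖x - x₀‖ / ‖x - x₀‖) x := hp.div hr hn
  have hb : Continuous fun x : E => BL (x - x₀) :=
    (BL : E →L[ℝ] E →L[ℝ] ℝ).continuous.comp (continuous_id.sub continuous_const)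
  have h1 : ContinuousAt (fun x : E => (f' ‖x - x₀‖ / ‖x - x₀‖) •
      (BL : E →L[ℝ] E →L[ℝ] ℝ)) x := hpr.smul continuousAt_const
  unfold A2
  let _ : NormedAddCommGroup (E →L[ℝ] E →L[ℝ] ℝ) := ContinuousLinearMap.toNormedAddCommGroup
  have _ : IsTopologicalAddGroup (E →L[ℝ] E →L[ℝ] ℝ) :=
    SeminormedAddCommGroup.toIsTopologicalAddGroup
  have _ : ContinuousAdd (E →L[ℝ] E →L[ℝ] ℝ) := IsTopologicalAddGroup.toContinuousAdd
  refine h1.add ?_
  have h5 : ContinuousAt (fun x : E => (f'' ‖x - x₀‖ - f' ‖x - x₀‖ / ‖x - x₀‖) /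
      ‖x - x₀‖ ^ 2) x := (hq.sub hpr).div (hr.pow 2) (pow_ne_zero _ hn)
  have h6 : ContinuousAt (fun x : E => ((f'' ‖x - x₀‖ - f' ‖x - x₀‖ / ‖x - x₀‖) /
      ‖x - x₀‖ ^ 2) • BL (x - x₀)) x := h5.smul hb.continuousAt
  exact ((ContinuousLinearMap.smulRightL ℝ E (E →L[ℝ] ℝ)).continuous.continuousAt.comp
    h6).clm_apply hb.continuousAt

theorem isOpen_off (x₀ : E) : IsOpen {x : E | x ≠ x₀} := isOpen_ne

theorem fderiv_radial (h1 : ∀ r, HasDerivAt f (f' r) r) {x : E} (hx : x ≠ x₀) :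
    fderiv ℝ (fun x => f ‖x - x₀‖) x = A1 x₀ f' x := (hasFDerivAt_A1 h1 hx).fderiv

theorem hasFDerivAt_fderiv_radial (h1 : ∀ r, HasDerivAt f (f' r) r)
    (h2 : ∀ r, HasDerivAt f' (f'' r) r) {x : E} (hx : x ≠ x₀) :
    HasFDerivAt (fderiv ℝ (fun x => f ‖x - x₀‖)) (A2 x₀ f' f'' x) x := by
  refine (hasFDerivAt_A2 h2 hx).congr_of_eventuallyEq ?_
  filter_upwards [(isOpen_off x₀).mem_nhds hx] with y hy
  exact fderiv_radial h1 hy

end

/-- module RADIAL: radial functions are of class `C²` away from the centre -/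
theorem radial_contDiffOn {N : ℕ} (x₀ : EuclideanSpace ℝ (Fin N)) {f f' f'' : ℝ → ℝ}
    (h1 : ∀ r, HasDerivAt f (f' r) r) (h2 : ∀ r, HasDerivAt f' (f'' r) r) (h3 : Continuous f'') :
    ContDiffOn ℝ 2 (fun x : EuclideanSpace ℝ (Fin N) => f ‖x - x₀‖) {x | x ≠ x₀} := by
  have hf' : Continuous f' := continuous_iff_continuousAt.2 fun r => (h2 r).continuousAt
  have e2 : (2 : WithTop ℕ∞) = 1 + 1 := by norm_num
  rw [e2, contDiffOn_succ_iff_fderiv_of_isOpen (isOpen_off x₀)]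
  refine ⟨fun x hx => (hasFDerivAt_A1 h1 hx).differentiableAt.differentiableWithinAt,
    by simp, ?_⟩
  have e1 : (1 : WithTop ℕ∞) = 0 + 1 := by norm_num
  rw [e1, contDiffOn_succ_iff_fderiv_of_isOpen (isOpen_off x₀)]
  refine ⟨fun x hx => (hasFDerivAt_fderiv_radial h1 h2
    hx).differentiableAt.differentiableWithinAt, by simp, ?_⟩
  rw [contDiffOn_zero]
  exact (continuousOn_A2 hf' h3).congr fun x hx => (hasFDerivAt_fderiv_radial h1 h2 hx).fderiv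

theorem radial_gradient {N : ℕ} (x₀ : EuclideanSpace ℝ (Fin N)) {f f' : ℝ → ℝ}
    (h1 : ∀ r, HasDerivAt f (f' r) r) {x : EuclideanSpace ℝ (Fin N)} (hx : x ≠ x₀) :
    gradient (fun x : EuclideanSpace ℝ (Fin N) => f ‖x - x₀‖) x =
      (f' ‖x - x₀‖ / ‖x - x₀‖) • (x - x₀) := by
  apply HasGradientAt.gradient
  rw [hasGradientAt_iff_hasFDerivAt]
  refine (hasFDerivAt_A1 h1 hx).congr_fderiv ?_
  ext y
  simp only [A1, smul_apply, smul_eq_mul, BL_apply, InnerProductSpace.toDual_apply_apply,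
    real_inner_smul_left]

theorem radial_laplacian {N : ℕ} (x₀ : EuclideanSpace ℝ (Fin N)) {f f' f'' : ℝ → ℝ}
    (h1 : ∀ r, HasDerivAt f (f' r) r) (h2 : ∀ r, HasDerivAt f' (f'' r) r) (h3 : Continuous f'')
    {x : EuclideanSpace ℝ (Fin N)} (hx : x ≠ x₀) :
    Δ (fun x : EuclideanSpace ℝ (Fin N) => f ‖x - x₀‖) x =
      f'' ‖x - x₀‖ + (N - 1) / ‖x - x₀‖ * f' ‖x - x₀‖ := by
  have hn : ‖x - x₀‖ ≠ 0 := (norm_pos_iff.2 (sub_ne_zero.2 hx)).ne'
  rw [laplacian_eq_iteratedFDeriv_orthonormalBasis _ (EuclideanSpace.basisFun (Fin N) ℝ)]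
  simp only [iteratedFDeriv_two_apply]
  rw [(hasFDerivAt_fderiv_radial h1 h2 hx).fderiv]
  simp only [Matrix.cons_val_zero, Matrix.cons_val_one, A2, add_apply,
    smul_apply, ContinuousLinearMap.smulRight_apply, smul_eq_mul, BL_apply]
  rw [Finset.sum_add_distrib]
  have e1 : ∀ i : Fin N, inner ℝ ((EuclideanSpace.basisFun (Fin N) ℝ) i)
      ((EuclideanSpace.basisFun (Fin N) ℝ) i) = (1 : ℝ) := by
    intro i
    rw [real_inner_self_eq_norm_sq, OrthonormalBasis.norm_eq_one]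
    norm_num
  have e2 : ∑ i : Fin N, inner ℝ (x - x₀) ((EuclideanSpace.basisFun (Fin N) ℝ) i) ^ 2 =
      ‖x - x₀‖ ^ 2 := by
    have := (EuclideanSpace.basisFun (Fin N) ℝ).sum_sq_norm_inner_left (x - x₀)
    simpa using this
  simp only [e1, mul_one, Finset.sum_const, Finset.card_univ, Fintype.card_fin, nsmul_eq_mul]
  obtain ⟨A, hA⟩ : ∃ A : ℝ, A = (f'' ‖x - x₀‖ - f' ‖x - x₀‖ / ‖x - x₀‖) / ‖x - x₀‖ ^ 2 :=
    ⟨_, rfl⟩
  rw [← hA]
  have e3 : ∑ i : Fin N, A * inner ℝ (x - x₀) ((EuclideanSpace.basisFun (Fin N) ℝ) i) *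
      inner ℝ (x - x₀) ((EuclideanSpace.basisFun (Fin N) ℝ) i) = A * ‖x - x₀‖ ^ 2 := by
    rw [← e2, Finset.mul_sum]
    exact Finset.sum_congr rfl fun i _ => by ring
  rw [e3, hA]
  field_simp
  ring

end QGN
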