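import Pool.Agent.QGB.Cut

/-!
# Classical solutions of the Dirichlet problem in an annulus are weak solutions
-/

open Set Filter Topology MeasureTheory InnerProductSpace Laplacian
open scoped Real

namespace QGN

/-- the annulus -/
def annulus {N : ℕ} (x₀ : EuclideanSpace ℝ (Fin N)) (a b : ℝ) : Set (EuclideanSpace ℝ (Fin N)) :=
  {x | a < ‖x - x₀‖ ∧ ‖x - x₀‖ < b}

section

open Metric QGB
open scoped ENNReal

variable {N : ℕ}

/-- Green's formula for test functions -/
theorem green_open {O Ω : Set (EuclideanSpace ℝ (Fin N))} (hO : IsOpen O) (hΩO : Ω ⊆ O)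
    {u φ : EuclideanSpace ℝ (Fin N) → ℝ} (hu : ContDiffOn ℝ 2 u O)
    (hφ : ContDiff ℝ 1 φ) (hc : HasCompactSupport φ) (hs : tsupport φ ⊆ Ω) :
    ∫ x in Ω, inner ℝ (gradient u x) (gradient φ x) = ∫ x in Ω, (-(Δ u) x) * φ x := by
  set b := EuclideanSpace.basisFun (Fin N) ℝ with hb
  have hsρ : tsupport φ ⊆ O := hs.trans hΩO
  have hu1 : ContDiffOn ℝ 1 (fderiv ℝ u) O := hu.fderiv_of_isOpen hO (by norm_num)
  have hu2 : ContDiffOn ℝ 0 (fderiv ℝ (fderiv ℝ u)) O := hu1.fderiv_of_isOpen hO (by norm_num)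
  have hc1 : ∀ v, ContinuousOn (fun x => fderiv ℝ u x v) O := fun v =>
    hu1.continuousOn.clm_apply continuousOn_const
  have hd1 : ∀ x ∈ O, DifferentiableAt ℝ (fderiv ℝ u) x := fun x hx =>
    ((hu1.contDiffAt (hO.mem_nhds hx)).differentiableAt (by norm_num))
  have hdd : ∀ v, ∀ x ∈ O, fderiv ℝ (fun x => fderiv ℝ u x v) x v =
      fderiv ℝ (fderiv ℝ u) x v v := by
    intro v x hx
    have h1 := (hd1 x hx).hasFDerivAt.clm_apply (hasFDerivAt_const v x)
    rw [h1.fderiv]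
    simp
  have hc2 : ∀ v, ContinuousOn (fun x => fderiv ℝ (fun x => fderiv ℝ u x v) x v) O := by
    intro v
    have h1 : ContinuousOn (fun x => fderiv ℝ (fderiv ℝ u) x v v) O :=
      (hu2.continuousOn.clm_apply continuousOn_const).clm_apply continuousOn_const
    exact h1.congr (hdd v)
  have hφ1 : ∀ v, Continuous (fun x => fderiv ℝ φ x v) := fun v =>
    (hφ.continuous_fderiv (by norm_num)).clm_apply continuous_const
  have hint1 : ∀ v, Integrable (fun x => fderiv ℝ u x v * fderiv ℝ φ x v) := fun v =>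
    integrable_mul_test hO (hc1 v) (hφ1 v) (hc.fderiv_apply ℝ v)
      ((tsupport_fderiv_apply_subset ℝ v).trans hsρ)
  have hint2 : ∀ v, Integrable (fun x => fderiv ℝ (fun x => fderiv ℝ u x v) x v * φ x) := fun v =>
    integrable_mul_test hO (hc2 v) hφ.continuous hc hsρ
  have hint3 : ∀ v, Integrable (fun x => fderiv ℝ u x v * φ x) := fun v =>
    integrable_mul_test hO (hc1 v) hφ.continuous hc hsρ
  have hparts : ∀ v, ∫ x, fderiv ℝ u x v * fderiv ℝ φ x v =
      -∫ x, fderiv ℝ (fun x => fderiv ℝ u x v) x v * φ x := fun v =>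
    integral_mul_fderiv_eq_neg_fderiv_mul_of_integrable (hint2 v) (hint1 v) (hint3 v)
      (fun x hx => (hd1 x (hsρ hx)).clm_apply (differentiableAt_const v))
      (fun x _ => (hφ.differentiable (by norm_num)).differentiableAt)
  have hzero : ∀ x, x ∉ Ω → φ x = 0 := fun x hx => by
    by_contra h
    exact hx (hs (subset_tsupport _ h))
  have hzero' : ∀ x, x ∉ Ω → fderiv ℝ φ x = 0 := fun x hx =>
    fderiv_of_notMem_tsupport ℝ (fun h => hx (hs h))
  -- left-hand side
  have hL : ∫ x in Ω, inner ℝ (gradient u x) (gradient φ x) =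
      ∑ i, ∫ x, fderiv ℝ u x (b i) * fderiv ℝ φ x (b i) := by
    rw [setIntegral_eq_integral_of_forall_compl_eq_zero, ← integral_finsetSum]
    · congr 1
      funext x
      rw [← b.sum_inner_mul_inner]
      refine Finset.sum_congr rfl fun i _ => ?_
      rw [inner_gradient, real_inner_comm, inner_gradient]
    · exact fun i _ => hint1 _
    · intro x hx
      rw [real_inner_comm, inner_gradient, hzero' x hx]
      simp
  have hRt : ∫ x in Ω, (-(Δ u) x) * φ x =
      ∑ i, -∫ x, fderiv ℝ (fun x => fderiv ℝ u x (b i)) x (b i) * φ x := by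
    rw [setIntegral_eq_integral_of_forall_compl_eq_zero, Finset.sum_neg_distrib,
      ← integral_finsetSum, ← integral_neg]
    · congr 1
      funext x
      by_cases hx : x ∈ Ω
      · have hx' : x ∈ O := hΩO hx
        rw [laplacian_eq_iteratedFDeriv_orthonormalBasis _ b]
        simp only [iteratedFDeriv_two_apply, Matrix.cons_val_zero, Matrix.cons_val_one]
        rw [neg_mul, Finset.sum_mul]
        congr 1
        refine Finset.sum_congr rfl fun i _ => ?_
        rw [hdd _ x hx']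
      · simp [hzero x hx]
    · exact fun i _ => hint2 _
    · intro x hx
      simp [hzero x hx]
  rw [hL, hRt]
  exact Finset.sum_congr rfl fun i _ => hparts _

/-- the closed annulus -/
def cann (x₀ : EuclideanSpace ℝ (Fin N)) (a b : ℝ) : Set (EuclideanSpace ℝ (Fin N)) :=
  {x | a ≤ ‖x - x₀‖ ∧ ‖x - x₀‖ ≤ b}

theorem isCompact_cann (x₀ : EuclideanSpace ℝ (Fin N)) (a b : ℝ) : IsCompact (cann x₀ a b) := by
  refine (isCompact_closedBall x₀ b).of_isClosed_subset ?_ ?_
  · have h1 : IsClosed {x : EuclideanSpace ℝ (Fin N) | a ≤ ‖x - x₀‖} :=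
      isClosed_le continuous_const (by fun_prop)
    have h2 : IsClosed {x : EuclideanSpace ℝ (Fin N) | ‖x - x₀‖ ≤ b} :=
      isClosed_le (by fun_prop) continuous_const
    exact h1.inter h2
  · intro x hx
    rw [mem_closedBall, dist_eq_norm]
    exact hx.2

theorem isOpen_annulus (x₀ : EuclideanSpace ℝ (Fin N)) (a b : ℝ) : IsOpen (annulus x₀ a b) := by
  have h1 : IsOpen {x : EuclideanSpace ℝ (Fin N) | a < ‖x - x₀‖} :=
    isOpen_lt continuous_const (by fun_prop)
  have h2 : IsOpen {x : EuclideanSpace ℝ (Fin N) | ‖x - x₀‖ < b} :=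
    isOpen_lt (by fun_prop) continuous_const
  exact h1.inter h2

theorem annulus_subset (x₀ : EuclideanSpace ℝ (Fin N)) (a b : ℝ) :
    annulus x₀ a b ⊆ cann x₀ a b := fun _ hx => ⟨hx.1.le, hx.2.le⟩

theorem volume_annulus (x₀ : EuclideanSpace ℝ (Fin N)) (a b : ℝ) :
    volume (annulus x₀ a b) ≠ ∞ :=
  ((measure_mono (annulus_subset x₀ a b)).trans_lt (isCompact_cann x₀ a b).measure_lt_top).ne

/-- the quadratic factor -/
noncomputable def qf (x₀ : EuclideanSpace ℝ (Fin N)) (a b : ℝ) (x : EuclideanSpace ℝ (Fin N)) : ℝ :=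
  (b ^ 2 - ‖x - x₀‖ ^ 2) * (‖x - x₀‖ ^ 2 - a ^ 2)

theorem qf_contDiff (x₀ : EuclideanSpace ℝ (Fin N)) (a b : ℝ) : ContDiff ℝ 1 (qf x₀ a b) := by
  have h1 : ContDiff ℝ 1 fun x : EuclideanSpace ℝ (Fin N) => ‖x - x₀‖ ^ 2 :=
    (contDiff_id.sub contDiff_const).norm_sq ℝ
  exact (contDiff_const.sub h1).mul (h1.sub contDiff_const)

theorem qf_hasFDerivAt (x₀ : EuclideanSpace ℝ (Fin N)) (a b : ℝ)
    (x : EuclideanSpace ℝ (Fin N)) :
    HasFDerivAt (qf x₀ a b)
      ((2 * (a ^ 2 + b ^ 2 - 2 * ‖x - x₀‖ ^ 2)) • innerSL ℝ (x - x₀)) x := by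
  have h1 : HasFDerivAt (fun x : EuclideanSpace ℝ (Fin N) => ‖x‖ ^ 2) (2 • (innerSL ℝ) (x - x₀))
      (x - x₀) := (hasStrictFDerivAt_norm_sq (x - x₀)).hasFDerivAt
  have h3 : HasFDerivAt (fun x : EuclideanSpace ℝ (Fin N) => x - x₀)
      (ContinuousLinearMap.id ℝ _) x := (hasFDerivAt_id x).sub_const x₀
  have h4 := h1.comp x h3
  have h5 := (h4.const_sub (b ^ 2)).mul (h4.sub_const (a ^ 2))
  refine h5.congr_fderiv ?_
  ext y
  simp
  ring

/-- a point of the segment towards a sphere around `x₀` -/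
theorem norm_seg {x₀ x y z : EuclideanSpace ℝ (Fin N)} {t : ℝ} (ht : 0 ≤ t)
    (hy : y - x₀ = t • (x - x₀)) (hz : z ∈ segment ℝ x y) :
    min ‖x - x₀‖ ‖y - x₀‖ ≤ ‖z - x₀‖ ∧ ‖z - x₀‖ ≤ max ‖x - x₀‖ ‖y - x₀‖ := by
  obtain ⟨p, q, hp, hq, hpq, rfl⟩ := hz
  have h1 : p • x + q • y - x₀ = (p + q * t) • (x - x₀) := by
    have h2 : p • x + q • y - x₀ = p • (x - x₀) + q • (y - x₀) := by
      have h3 : x₀ = (p + q) • x₀ := by rw [hpq, one_smul]
      nth_rw 1 [h3]
      module
    rw [h2, hy, smul_smul, ← add_smul]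
  have h4 : ‖p • x + q • y - x₀‖ = p * ‖x - x₀‖ + q * ‖y - x₀‖ := by
    rw [h1, norm_smul, Real.norm_eq_abs, abs_of_nonneg (by positivity), hy, norm_smul,
      Real.norm_eq_abs, abs_of_nonneg ht]
    ring
  rw [h4]
  have hp' : p = 1 - q := by linarith
  rcases le_total ‖x - x₀‖ ‖y - x₀‖ with h | h
  · rw [min_eq_left h, max_eq_right h, hp']
    constructor <;> nlinarith
  · rw [min_eq_right h, max_eq_left h, hp']
    constructor <;> nlinarith

/-- a function vanishing on the sphere of radius `R` is bounded by the distance to the sphere -/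
theorem dist_bound {x₀ : EuclideanSpace ℝ (Fin N)} {a b R M : ℝ} (ha : 0 < a)
    (hR : R ∈ Icc a b) {u : EuclideanSpace ℝ (Fin N) → ℝ}
    (hud : ∀ x ∈ cann x₀ a b, DifferentiableAt ℝ u x)
    (hM : ∀ x ∈ cann x₀ a b, ‖fderiv ℝ u x‖ ≤ M) (hb : ∀ x, ‖x - x₀‖ = R → u x = 0)
    {x : EuclideanSpace ℝ (Fin N)} (hx : x ∈ cann x₀ a b) :
    |u x| ≤ M * |R - ‖x - x₀‖| := by
  have hz : 0 < ‖x - x₀‖ := lt_of_lt_of_le ha hx.1
  have hR0 : 0 < R := lt_of_lt_of_le ha hR.1
  set y := x₀ + (R / ‖x - x₀‖) • (x - x₀) with hy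
  have hyx₀ : y - x₀ = (R / ‖x - x₀‖) • (x - x₀) := by rw [hy]; simp
  have hyn : ‖y - x₀‖ = R := by
    rw [hyx₀, norm_smul, norm_div, norm_norm, Real.norm_eq_abs, abs_of_pos hR0]
    field_simp
  have hyx : y - x = ((R - ‖x - x₀‖) / ‖x - x₀‖) • (x - x₀) := by
    have h1 : y - x = (y - x₀) - (x - x₀) := by abel
    rw [h1, hyx₀, sub_div, sub_smul, div_self hz.ne', one_smul]
  have hseg : ∀ z ∈ segment ℝ x y, z ∈ cann x₀ a b := by
    intro z hz'
    have h1 := norm_seg (t := R / ‖x - x₀‖) (by positivity) hyx₀ hz'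
    rw [hyn] at h1
    exact ⟨(le_min hx.1 hR.1).trans h1.1, h1.2.trans (max_le hx.2 hR.2)⟩
  have h1 := (convex_segment x y).norm_image_sub_le_of_norm_fderiv_le
    (fun z hz => hud z (hseg z hz)) (fun z hz => hM z (hseg z hz)) (left_mem_segment ℝ x y)
    (right_mem_segment ℝ x y)
  rw [hb y hyn, zero_sub, norm_neg, Real.norm_eq_abs, hyx, norm_smul, norm_div, norm_norm,
    Real.norm_eq_abs] at h1
  have h2 : |R - ‖x - x₀‖| / ‖x - x₀‖ * ‖x - x₀‖ = |R - ‖x - x₀‖| := by field_simp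
  rwa [h2] at h1

/-- a `C¹` function vanishing on both spheres is in `H¹₀` of the annulus -/
theorem isH10_annulus {x₀ : EuclideanSpace ℝ (Fin N)} {a b : ℝ} (ha : 0 < a) (hab : a < b)
    {O : Set (EuclideanSpace ℝ (Fin N))} (hO : IsOpen O) (hsub : cann x₀ a b ⊆ O)
    {u : EuclideanSpace ℝ (Fin N) → ℝ} (hu : ContDiffOn ℝ 1 u O)
    (hua : ∀ x, ‖x - x₀‖ = a → u x = 0) (hub : ∀ x, ‖x - x₀‖ = b → u x = 0) :
    IsH10 (annulus x₀ a b) u (gradient u) := by
  have hb0 : 0 < b := ha.trans hab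
  have hac := annulus_subset x₀ a b
  have hsub' : annulus x₀ a b ⊆ O := hac.trans hsub
  have hK : IsCompact (cann x₀ a b) := isCompact_cann x₀ a b
  have hΩ : IsOpen (annulus x₀ a b) := isOpen_annulus x₀ a b
  have hms : MeasurableSet (annulus x₀ a b) := hΩ.measurableSet
  have huc : ContinuousOn u O := hu.continuousOn
  have hu' : ContinuousOn (fderiv ℝ u) O := hu.continuousOn_fderiv_of_isOpen hO (by norm_num)
  have hud : ∀ x ∈ O, DifferentiableAt ℝ u x := fun x hx =>
    (hu.contDiffAt (hO.mem_nhds hx)).differentiableAt (by norm_num)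
  have hgc : ContinuousOn (gradient u) O :=
    (toDual ℝ (EuclideanSpace ℝ (Fin N))).symm.continuous.comp_continuousOn hu'
  obtain ⟨M₁, hM₁⟩ := hK.exists_bound_of_continuousOn (huc.mono hsub)
  obtain ⟨M₂, hM₂⟩ := hK.exists_bound_of_continuousOn (hu'.mono hsub)
  set M := max |M₁| |M₂| with hM
  have hM0 : 0 ≤ M := (abs_nonneg M₁).trans (le_max_left _ _)
  have hMu : ∀ x ∈ cann x₀ a b, |u x| ≤ M := fun x hx =>
    (hM₁ x hx).trans ((le_abs_self _).trans (le_max_left _ _))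
  have hMg : ∀ x ∈ cann x₀ a b, ‖fderiv ℝ u x‖ ≤ M := fun x hx =>
    (hM₂ x hx).trans ((le_abs_self _).trans (le_max_right _ _))
  -- the bound near the boundary
  have hlin : ∀ x ∈ annulus x₀ a b,
      |u x| * (b - a) ≤ 2 * M * ((b - ‖x - x₀‖) * (‖x - x₀‖ - a)) := by
    intro x hx
    have h1 := dist_bound ha (right_mem_Icc.2 hab.le) (fun x hx => hud x (hsub hx)) hMg hub (hac hx)
    have h2 := dist_bound ha (left_mem_Icc.2 hab.le) (fun x hx => hud x (hsub hx)) hMg hua (hac hx)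
    have h3 : 0 < b - ‖x - x₀‖ := by linarith [hx.2]
    have h4 : 0 < ‖x - x₀‖ - a := by linarith [hx.1]
    rw [abs_of_pos h3] at h1
    rw [abs_sub_comm, abs_of_pos h4] at h2
    have h5 := mul_le_mul_of_nonneg_right h1 h4.le
    have h6 := mul_le_mul_of_nonneg_right h2 h3.le
    nlinarith
  obtain ⟨C₁, hC₁0, hC₁⟩ := deriv_chi_bound
  have hfin : IsFiniteMeasure (volume.restrict (annulus x₀ a b)) := by
    refine ⟨?_⟩
    rw [Measure.restrict_apply_univ]
    exact lt_top_iff_ne_top.2 (volume_annulus x₀ a b)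
  have hae : ∀ {P : EuclideanSpace ℝ (Fin N) → Prop}, (∀ x ∈ annulus x₀ a b, P x) →
      ∀ᵐ x ∂(volume.restrict (annulus x₀ a b)), P x :=
    fun h => (ae_restrict_mem hms).mono h
  have hum : AEStronglyMeasurable u (volume.restrict (annulus x₀ a b)) :=
    (huc.mono hsub').aestronglyMeasurable hms
  have hgm : AEStronglyMeasurable (gradient u) (volume.restrict (annulus x₀ a b)) :=
    (hgc.mono hsub').aestronglyMeasurable hms
  have hgn : ∀ (f : EuclideanSpace ℝ (Fin N) → ℝ) x, ‖gradient f x‖ = ‖fderiv ℝ f x‖ := by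
    intro f x
    rw [gradient, LinearIsometryEquiv.norm_map]
  -- the cutoff
  set η : ℕ → EuclideanSpace ℝ (Fin N) → ℝ := fun n x => chi (((n : ℝ) + 1) * qf x₀ a b x) with hη
  have hηc : ∀ n, ContDiff ℝ 1 (η n) := fun n =>
    chi_contDiff.comp (contDiff_const.mul (qf_contDiff x₀ a b))
  have hηf : ∀ n x, HasFDerivAt (η n) (deriv chi (((n : ℝ) + 1) * qf x₀ a b x) •
      (((n : ℝ) + 1) • ((2 * (a ^ 2 + b ^ 2 - 2 * ‖x - x₀‖ ^ 2)) • innerSL ℝ (x - x₀)))) x := by
    intro n x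
    have h1 : HasDerivAt chi (deriv chi (((n : ℝ) + 1) * qf x₀ a b x))
        (((n : ℝ) + 1) * qf x₀ a b x) :=
      (chi_contDiff.differentiable (by norm_num)).differentiableAt.hasDerivAt
    have h2 := HasDerivAt.comp_hasFDerivAt (h₂ := chi)
      (f := fun x => ((n : ℝ) + 1) * qf x₀ a b x) x h1
      ((qf_hasFDerivAt x₀ a b x).const_mul ((n : ℝ) + 1))
    exact h2
  -- positivity of the quadratic factor
  have hqpos : ∀ x ∈ annulus x₀ a b,
      a * b * ((b - ‖x - x₀‖) * (‖x - x₀‖ - a)) ≤ qf x₀ a b x := by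
    intro x hx
    have h3 : 0 < b - ‖x - x₀‖ := by linarith [hx.2]
    have h4 : 0 < ‖x - x₀‖ - a := by linarith [hx.1]
    have h5 : 0 < ‖x - x₀‖ := ha.trans hx.1
    have h6 : a * b ≤ (b + ‖x - x₀‖) * (‖x - x₀‖ + a) := by nlinarith
    have h7 : qf x₀ a b x = (b + ‖x - x₀‖) * (‖x - x₀‖ + a) *
        ((b - ‖x - x₀‖) * (‖x - x₀‖ - a)) := by
      unfold qf
      ring
    rw [h7]
    exact mul_le_mul_of_nonneg_right h6 (by positivity)
  have hqpos' : ∀ x ∈ annulus x₀ a b, 0 < qf x₀ a b x := by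
    intro x hx
    have h3 : 0 < b - ‖x - x₀‖ := by linarith [hx.2]
    have h4 : 0 < ‖x - x₀‖ - a := by linarith [hx.1]
    exact lt_of_lt_of_le (by positivity) (hqpos x hx)
  have hqneg : ∀ x, 0 < qf x₀ a b x → x ∈ annulus x₀ a b := by
    intro x hx
    unfold qf at hx
    have hn := norm_nonneg (x - x₀)
    rcases (mul_pos_iff.1 hx) with ⟨h1, h2⟩ | ⟨h1, h2⟩
    · exact ⟨lt_of_pow_lt_pow_left₀ 2 hn (by linarith), lt_of_pow_lt_pow_left₀ 2 hb0.le (by linarith)⟩
    · exfalso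
      have h3 : a ^ 2 < b ^ 2 := pow_lt_pow_left₀ hab ha.le two_ne_zero
      linarith
  -- the approximations
  set φ : ℕ → EuclideanSpace ℝ (Fin N) → ℝ := fun n x => η n x * u x with hφ
  have hφzero : ∀ (n : ℕ) x, ((n : ℝ) + 1) * qf x₀ a b x ≤ 1 → φ n x = 0 := by
    intro n x hx
    simp [hφ, hη, chi_zero hx]
  have hSn : ∀ n : ℕ, IsClosed {x : EuclideanSpace ℝ (Fin N) |
      1 ≤ ((n : ℝ) + 1) * qf x₀ a b x} := by
    intro n
    exact isClosed_le continuous_const (continuous_const.mul (qf_contDiff x₀ a b).continuous)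
  have hSsub : ∀ n : ℕ, {x : EuclideanSpace ℝ (Fin N) |
      1 ≤ ((n : ℝ) + 1) * qf x₀ a b x} ⊆ annulus x₀ a b := by
    intro n x hx
    have h1 : (0 : ℝ) < n + 1 := by positivity
    have h2 : 1 ≤ ((n : ℝ) + 1) * qf x₀ a b x := hx
    apply hqneg
    by_contra h
    push Not at h
    have := mul_nonpos_of_nonneg_of_nonpos h1.le h
    linarith
  have hts : ∀ n, tsupport (φ n) ⊆ annulus x₀ a b := by
    intro n
    refine (closure_minimal ?_ (hSn n)).trans (hSsub n)
    intro x hx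
    by_contra h
    exact hx (hφzero n x (not_le.1 h).le)
  have hφd : ∀ (n : ℕ), ∀ x ∈ annulus x₀ a b, fderiv ℝ (φ n) x - fderiv ℝ u x =
      (η n x - 1) • fderiv ℝ u x + u x •
        (deriv chi (((n : ℝ) + 1) * qf x₀ a b x) •
          (((n : ℝ) + 1) • ((2 * (a ^ 2 + b ^ 2 - 2 * ‖x - x₀‖ ^ 2)) • innerSL ℝ (x - x₀)))) := by
    intro n x hx
    have h1 := (hηf n x).mul (hud x (hsub' hx)).hasFDerivAt
    have h2 : HasFDerivAt (φ n) (η n x • fderiv ℝ u x + u x •
        (deriv chi (((n : ℝ) + 1) * qf x₀ a b x) •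
          (((n : ℝ) + 1) • ((2 * (a ^ 2 + b ^ 2 - 2 * ‖x - x₀‖ ^ 2)) •
            innerSL ℝ (x - x₀))))) x := h1
    rw [h2.fderiv, sub_smul, one_smul]
    abel
  have hφm : ∀ n, ContDiff ℝ 1 (φ n) := by
    intro n
    rw [contDiff_iff_contDiffAt]
    intro x
    by_cases hx : x ∈ O
    · exact (hηc n).contDiffAt.mul (hu.contDiffAt (hO.mem_nhds hx))
    · have hx' : x ∉ tsupport (φ n) := fun h => hx (hsub' (hts n h))
      have h1 : φ n =ᶠ[𝓝 x] fun _ => 0 := notMem_tsupport_iff_eventuallyEq.1 hx'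
      exact (contDiffAt_const (c := (0 : ℝ))).congr_of_eventuallyEq h1
  have hφgm : ∀ n, Continuous (gradient (φ n)) := fun n =>
    (toDual ℝ (EuclideanSpace ℝ (Fin N))).symm.continuous.comp
      ((hφm n).continuous_fderiv (by norm_num))
  -- eventually the cutoff is one
  have hev : ∀ x ∈ annulus x₀ a b, ∀ᶠ n : ℕ in atTop, 2 < ((n : ℝ) + 1) * qf x₀ a b x := by
    intro x hx
    have h2 : Tendsto (fun n : ℕ => ((n : ℝ) + 1) * qf x₀ a b x) atTop atTop := by
      apply Tendsto.atTop_mul_const (hqpos' x hx)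
      exact tendsto_atTop_add_const_right _ _ tendsto_natCast_atTop_atTop
    exact h2.eventually_gt_atTop 2
  refine ⟨MemLp.of_bound hum M (hae fun x hx => hMu x (hac hx)),
    MemLp.of_bound hgm M (hae fun x hx => ?_), φ, fun n => ⟨hφm n, ?_, hts n⟩, ?_, ?_⟩
  · rw [hgn]
    exact hMg x (hac hx)
  · exact HasCompactSupport.of_support_subset_isCompact hK
      ((subset_tsupport _).trans ((hts n).trans hac))
  · apply tendsto_eLpNorm_zero (C := M)
    · intro n
      exact (hφm n).continuous.aestronglyMeasurable.sub hum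
    · intro n
      apply hae
      intro x hx
      have h1 : φ n x - u x = (η n x - 1) * u x := by
        simp only [hφ]; ring
      rw [h1, norm_mul, Real.norm_eq_abs, Real.norm_eq_abs]
      have h2 := chi_mem (((n : ℝ) + 1) * qf x₀ a b x)
      have h3 : |η n x - 1| ≤ 1 := by
        rw [abs_le]
        simp only [hη]
        constructor <;> linarith [h2.1, h2.2]
      calc |η n x - 1| * |u x| ≤ 1 * M :=
            mul_le_mul h3 (hMu x (hac hx)) (abs_nonneg _) zero_le_one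
        _ = M := one_mul _
    · apply hae
      intro x hx
      apply tendsto_const_nhds.congr'
      filter_upwards [hev x hx] with n hn
      simp [hφ, hη, chi_one hn.le]
  · apply tendsto_eLpNorm_zero (C := M + C₁ * (2 * b ^ 2 * b) * (4 * M / (a * b * (b - a))))
    · intro n
      exact (hφgm n).aestronglyMeasurable.sub hgm
    · intro n
      apply hae
      intro x hx
      have hxc := hac hx
      have h0 : ‖gradient (φ n) x - gradient u x‖ = ‖fderiv ℝ (φ n) x - fderiv ℝ u x‖ := by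
        rw [gradient, gradient, ← map_sub, LinearIsometryEquiv.norm_map]
      rw [h0, hφd n x hx]
      set t : ℝ := ((n : ℝ) + 1) * qf x₀ a b x with ht
      have h2 := chi_mem t
      have h3 : |η n x - 1| ≤ 1 := by
        rw [abs_le]
        simp only [hη]
        constructor <;> linarith [h2.1, h2.2]
      have h4 : ‖(η n x - 1) • fderiv ℝ u x‖ ≤ M := by
        rw [norm_smul, Real.norm_eq_abs]
        calc |η n x - 1| * ‖fderiv ℝ u x‖ ≤ 1 * M :=
              mul_le_mul h3 (hMg x hxc) (norm_nonneg _) zero_le_one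
          _ = M := one_mul _
      have hba : 0 < b - a := by linarith
      have h5 : ‖u x • (deriv chi t • (((n : ℝ) + 1) •
          ((2 * (a ^ 2 + b ^ 2 - 2 * ‖x - x₀‖ ^ 2)) • innerSL ℝ (x - x₀))))‖ ≤
          C₁ * (2 * b ^ 2 * b) * (4 * M / (a * b * (b - a))) := by
        by_cases ht2 : 2 < t
        · rw [deriv_chi_zero' ht2]
          simp
          positivity
        push Not at ht2
        have hn0 : (0 : ℝ) < n + 1 := by positivity
        rw [norm_smul, norm_smul, norm_smul, norm_smul, innerSL_apply_norm, Real.norm_eq_abs,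
          Real.norm_eq_abs, Real.norm_eq_abs, Real.norm_eq_abs, abs_of_pos hn0]
        have hpd : 0 < ‖x - x₀‖ := ha.trans hx.1
        have hs1 : a ^ 2 < ‖x - x₀‖ ^ 2 := pow_lt_pow_left₀ hx.1 ha.le two_ne_zero
        have hs2 : ‖x - x₀‖ ^ 2 < b ^ 2 := pow_lt_pow_left₀ hx.2 hpd.le two_ne_zero
        have h6 : |2 * (a ^ 2 + b ^ 2 - 2 * ‖x - x₀‖ ^ 2)| ≤ 2 * b ^ 2 := by
          rw [abs_le]
          have := sq_nonneg a
          constructor <;> nlinarith
        have h7 : |u x| * ((n : ℝ) + 1) ≤ 4 * M / (a * b * (b - a)) := by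
          rw [le_div_iff₀ (by positivity)]
          have h8 := hlin x hx
          have h9 := hqpos x hx
          have h10 : |u x| * (b - a) * (a * b) ≤ 2 * M * qf x₀ a b x := by
            calc |u x| * (b - a) * (a * b)
                ≤ 2 * M * ((b - ‖x - x₀‖) * (‖x - x₀‖ - a)) * (a * b) :=
                  mul_le_mul_of_nonneg_right h8 (by positivity)
              _ = 2 * M * (a * b * ((b - ‖x - x₀‖) * (‖x - x₀‖ - a))) := by ring
              _ ≤ 2 * M * qf x₀ a b x := mul_le_mul_of_nonneg_left h9 (by positivity)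
          calc |u x| * ((n : ℝ) + 1) * (a * b * (b - a))
              = (|u x| * (b - a) * (a * b)) * ((n : ℝ) + 1) := by ring
            _ ≤ (2 * M * qf x₀ a b x) * ((n : ℝ) + 1) := mul_le_mul_of_nonneg_right h10 hn0.le
            _ = 2 * M * t := by rw [ht]; ring
            _ ≤ 2 * M * 2 := mul_le_mul_of_nonneg_left ht2 (by positivity)
            _ = 4 * M := by ring
        have h9 : |deriv chi t| ≤ C₁ := hC₁ t
        calc |u x| * (|deriv chi t| * (((n : ℝ) + 1) *
              (|2 * (a ^ 2 + b ^ 2 - 2 * ‖x - x₀‖ ^ 2)| * ‖x - x₀‖)))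
            = |deriv chi t| * (|2 * (a ^ 2 + b ^ 2 - 2 * ‖x - x₀‖ ^ 2)| * ‖x - x₀‖) *
              (|u x| * ((n : ℝ) + 1)) := by ring
          _ ≤ C₁ * (2 * b ^ 2 * b) * (4 * M / (a * b * (b - a))) := by
              have := hx.2.le
              gcongr
      exact (norm_add_le _ _).trans (add_le_add h4 h5)
    · apply hae
      intro x hx
      apply tendsto_const_nhds.congr'
      filter_upwards [hev x hx] with n hn
      have h0 : ‖gradient (φ n) x - gradient u x‖ = ‖fderiv ℝ (φ n) x - fderiv ℝ u x‖ := by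
        rw [gradient, gradient, ← map_sub, LinearIsometryEquiv.norm_map]
      have h1 : ‖gradient (φ n) x - gradient u x‖ = 0 := by
        rw [h0, hφd n x hx, deriv_chi_zero' hn]
        simp only [hη]
        rw [chi_one hn.le]
        simp
      exact (norm_eq_zero.1 h1).symm

end

/-- module WEAK: classical solutions in the annulus are weak solutions -/
theorem isSolution_annulus {N : ℕ} {x₀ : EuclideanSpace ℝ (Fin N)} {a b : ℝ} (ha : 0 < a)
    (hab : a < b) {O : Set (EuclideanSpace ℝ (Fin N))} (hO : IsOpen O)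
    (hsub : {x : EuclideanSpace ℝ (Fin N) | a ≤ ‖x - x₀‖ ∧ ‖x - x₀‖ ≤ b} ⊆ O)
    {u : EuclideanSpace ℝ (Fin N) → ℝ} (hu : ContDiffOn ℝ 2 u O)
    (hua : ∀ x, ‖x - x₀‖ = a → u x = 0) (hub : ∀ x, ‖x - x₀‖ = b → u x = 0)
    {lam : ℝ} {c μ h : EuclideanSpace ℝ (Fin N) → ℝ}
    (hc : ContinuousOn c {x : EuclideanSpace ℝ (Fin N) | a ≤ ‖x - x₀‖ ∧ ‖x - x₀‖ ≤ b})
    (hμ : ContinuousOn μ {x : EuclideanSpace ℝ (Fin N) | a ≤ ‖x - x₀‖ ∧ ‖x - x₀‖ ≤ b})
    (hh : ContinuousOn h {x : EuclideanSpace ℝ (Fin N) | a ≤ ‖x - x₀‖ ∧ ‖x - x₀‖ ≤ b})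
    (hpde : ∀ x ∈ annulus x₀ a b,
      -(Δ u x) = lam * c x * u x + μ x * ‖gradient u x‖ ^ 2 + h x) :
    QGB.IsSolution (annulus x₀ a b) lam c μ h u := by
  have hu1 : ContDiffOn ℝ 1 u O := hu.of_le (by norm_num)
  have hac := annulus_subset x₀ a b
  have hsub1 : cann x₀ a b ⊆ O := hsub
  have hsub' : annulus x₀ a b ⊆ O := hac.trans hsub1
  have hK : IsCompact (cann x₀ a b) := isCompact_cann x₀ a b
  have hΩ : IsOpen (annulus x₀ a b) := isOpen_annulus x₀ a b
  have hms : MeasurableSet (annulus x₀ a b) := hΩ.measurableSet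
  have huc : ContinuousOn u O := hu.continuousOn
  have hu' : ContinuousOn (fderiv ℝ u) O := hu1.continuousOn_fderiv_of_isOpen hO (by norm_num)
  have hgc : ContinuousOn (gradient u) O :=
    (toDual ℝ (EuclideanSpace ℝ (Fin N))).symm.continuous.comp_continuousOn hu'
  have hc' : ContinuousOn c (cann x₀ a b) := hc
  have hμ' : ContinuousOn μ (cann x₀ a b) := hμ
  have hh' : ContinuousOn h (cann x₀ a b) := hh
  set f : EuclideanSpace ℝ (Fin N) → ℝ := fun x =>
    lam * c x * u x + μ x * ‖gradient u x‖ ^ 2 + h x with hf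
  have hfc : ContinuousOn f (cann x₀ a b) :=
    (((continuousOn_const.mul hc').mul (huc.mono hsub1)).add
      (hμ'.mul ((hgc.mono hsub1).norm.pow 2))).add hh'
  obtain ⟨M₁, hM₁⟩ := hK.exists_bound_of_continuousOn (huc.mono hsub1)
  obtain ⟨M₂, hM₂⟩ := hK.exists_bound_of_continuousOn (hgc.mono hsub1)
  obtain ⟨M₃, hM₃⟩ := hK.exists_bound_of_continuousOn hfc
  have hae : ∀ {P : EuclideanSpace ℝ (Fin N) → Prop}, (∀ x ∈ annulus x₀ a b, P x) →
      ∀ᵐ x ∂(volume.restrict (annulus x₀ a b)), P x :=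
    fun h => (ae_restrict_mem hms).mono h
  refine ⟨gradient u, isH10_annulus ha hab hO hsub1 hu1 hua hub,
    ⟨M₁, hae fun x hx => hM₁ x (hac hx)⟩, fun v gv hv _ => ?_⟩
  refine QGB.extend_test (C := max M₂ M₃) (G := gradient u) (f := f) hΩ
    (volume_annulus x₀ a b) ((hgc.mono hsub').aestronglyMeasurable hms)
    ((hfc.mono hac).aestronglyMeasurable hms)
    (fun x hx => (hM₂ x (hac hx)).trans (le_max_left _ _))
    (fun x hx => (hM₃ x (hac hx)).trans (le_max_right _ _)) ?_ hv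
  intro φ hφ hcs hs
  rw [green_open hO hsub' hu hφ hcs hs]
  apply setIntegral_congr_fun hms
  intro x hx
  simp only [hf, ← hpde x hx]

end QGN
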