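import Pool.Agent.QGN.Asm
import Pool.Agent.QGN.Weak
import Pool.Agent.QGN.Radial

/-!
# Many radial solutions in an annulus
-/

open Set Filter Topology MeasureTheory InnerProductSpace Laplacian
open scoped Real

namespace QGN

/-- extension by the values at the end points -/
noncomputable def ext (a b : ℝ) (f : ℝ → ℝ) (r : ℝ) : ℝ := f (max a (min b r))

theorem clamp_mem {a b : ℝ} (hab : a < b) (r : ℝ) : max a (min b r) ∈ Icc a b :=
  ⟨le_max_left _ _, max_le hab.le (min_le_left _ _)⟩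

theorem ext_eq {a b : ℝ} {f : ℝ → ℝ} {r : ℝ} (hr : r ∈ Icc a b) : ext a b f r = f r := by
  unfold ext
  rw [min_eq_right hr.2, max_eq_right hr.1]

theorem ext_cont {a b : ℝ} (hab : a < b) {f : ℝ → ℝ} (hf : ContinuousOn f (Icc a b)) :
    Continuous (ext a b f) :=
  hf.comp_continuous (by fun_prop) (clamp_mem hab)

/-- the friction coefficient -/
noncomputable def fric (N : ℕ) (a r : ℝ) : ℝ := ((N : ℝ) - 1) / max a r

theorem exists_dat {N : ℕ} (hN : 1 ≤ N) {a b : ℝ} (ha : 0 < a) (hab : a < b) {c μ h : ℝ → ℝ}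
    (hc : ContinuousOn c (Icc a b)) (hμ : ContinuousOn μ (Icc a b))
    (hh : ContinuousOn h (Icc a b)) (hc0 : ∀ r ∈ Icc a b, 0 < c r)
    (hμ0 : ∀ r ∈ Icc a b, 0 < μ r) :
    ∃ c₁ c₂ m₁ m₂ P₀ H₀ : ℝ, Dat (ext a b c) (ext a b μ) (ext a b h) (fric N a)
      c₁ c₂ m₁ m₂ P₀ H₀ := by
  have hK : IsCompact (Icc a b) := isCompact_Icc
  have hne : (Icc a b).Nonempty := nonempty_Icc.2 hab.le
  obtain ⟨r₁, hr₁, h1⟩ := hK.exists_isMinOn hne hc
  obtain ⟨r₂, hr₂, h2⟩ := hK.exists_isMaxOn hne hc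
  obtain ⟨r₃, hr₃, h3⟩ := hK.exists_isMinOn hne hμ
  obtain ⟨r₄, hr₄, h4⟩ := hK.exists_isMaxOn hne hμ
  obtain ⟨r₅, hr₅, h5⟩ := hK.exists_isMaxOn hne hh.abs
  have hN1 : (0 : ℝ) ≤ (N : ℝ) - 1 := by
    have : (1 : ℝ) ≤ N := by exact_mod_cast hN
    linarith
  refine ⟨c r₁, c r₂, μ r₃, μ r₄, ((N : ℝ) - 1) / a, |h r₅|, ⟨ext_cont hab hc, ext_cont hab hμ,
    ext_cont hab hh, ?_, hc0 r₁ hr₁, hμ0 r₃ hr₃, ?_, ?_, ?_, ?_, ?_, ?_, ?_⟩⟩
  · unfold fric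
    apply Continuous.div continuous_const (by fun_prop)
    intro r
    exact (ha.trans_le (le_max_left a r)).ne'
  · exact fun r => h1 (clamp_mem hab r)
  · exact fun r => h2 (clamp_mem hab r)
  · exact fun r => h3 (clamp_mem hab r)
  · exact fun r => h4 (clamp_mem hab r)
  · intro r
    exact div_nonneg hN1 (ha.le.trans (le_max_left a r))
  · intro r
    exact div_le_div_of_nonneg_left hN1 ha (le_max_left a r)
  · exact fun r => h5 (clamp_mem hab r)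

theorem continuousOn_radial {N : ℕ} (x₀ : EuclideanSpace ℝ (Fin N)) {a b : ℝ} {f : ℝ → ℝ}
    (hf : ContinuousOn f (Icc a b)) :
    ContinuousOn (fun x : EuclideanSpace ℝ (Fin N) => f ‖x - x₀‖)
      {x : EuclideanSpace ℝ (Fin N) | a ≤ ‖x - x₀‖ ∧ ‖x - x₀‖ ≤ b} :=
  hf.comp (by fun_prop) fun _ hx => hx

theorem norm_grad {N : ℕ} (x₀ : EuclideanSpace ℝ (Fin N)) {f f' : ℝ → ℝ}
    (h1 : ∀ r, HasDerivAt f (f' r) r) {x : EuclideanSpace ℝ (Fin N)} (hx : x ≠ x₀) :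
    ‖gradient (fun x : EuclideanSpace ℝ (Fin N) => f ‖x - x₀‖) x‖ ^ 2 = f' ‖x - x₀‖ ^ 2 := by
  rw [radial_gradient x₀ h1 hx, norm_smul, mul_pow, Real.norm_eq_abs, sq_abs, div_pow,
    div_mul_cancel₀]
  have : ‖x - x₀‖ ≠ 0 := by
    rw [norm_ne_zero_iff]
    exact sub_ne_zero.2 hx
  positivity

/-- two radial `C¹` functions that agree in the annulus have the same derivative at `a` -/
theorem deriv_eq_of_eq {a b : ℝ} (hab : a < b) {f g f' g' : ℝ → ℝ}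
    (hf : ∀ r, HasDerivAt f (f' r) r) (hg : ∀ r, HasDerivAt g (g' r) r)
    (hfg : ∀ r ∈ Ioo a b, f r = g r) : f' a = g' a := by
  have hfc : Continuous f := continuous_iff_continuousAt.2 fun r => (hf r).continuousAt
  have hgc : Continuous g := continuous_iff_continuousAt.2 fun r => (hg r).continuousAt
  have hcl : ∀ r ∈ Icc a b, f r = g r := by
    have h1 : IsClosed {r | f r = g r} := isClosed_eq hfc hgc
    have h2 : closure (Ioo a b) ⊆ {r | f r = g r} := closure_minimal hfg h1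
    rw [closure_Ioo hab.ne] at h2
    exact fun r hr => h2 hr
  have h1 : HasDerivWithinAt f (f' a) (Icc a b) a := (hf a).hasDerivWithinAt
  have h2 : HasDerivWithinAt f (g' a) (Icc a b) a :=
    ((hg a).hasDerivWithinAt (s := Icc a b)).congr hcl (hcl a (left_mem_Icc.2 hab.le))
  exact (uniqueDiffOn_Icc hab a (left_mem_Icc.2 hab.le)).eq_deriv _ h1 h2

theorem exists_norm {N : ℕ} (hN : 1 ≤ N) (x₀ : EuclideanSpace ℝ (Fin N)) {r : ℝ} (hr : 0 ≤ r) :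
    ∃ x : EuclideanSpace ℝ (Fin N), ‖x - x₀‖ = r := by
  have : Nonempty (Fin N) := ⟨⟨0, hN⟩⟩
  obtain ⟨v, hv⟩ := exists_norm_eq (EuclideanSpace ℝ (Fin N)) hr
  exact ⟨x₀ + v, by simpa using hv⟩

theorem main {N : ℕ} (hN : 1 ≤ N) (x₀ : EuclideanSpace ℝ (Fin N)) {a b : ℝ} (ha : 0 < a)
    (hab : a < b) {c μ h : ℝ → ℝ} (hc : ContinuousOn c (Icc a b)) (hμ : ContinuousOn μ (Icc a b))
    (hh : ContinuousOn h (Icc a b)) (hc0 : ∀ r ∈ Icc a b, 0 < c r)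
    (hμ0 : ∀ r ∈ Icc a b, 0 < μ r) (n : ℕ) :
    ∃ Λ : ℝ, 0 < Λ ∧ ∀ lam : ℝ, Λ ≤ lam →
      ∃ u : Fin n → EuclideanSpace ℝ (Fin N) → ℝ,
        (∀ i j, i ≠ j → ∃ x ∈ annulus x₀ a b, u i x ≠ u j x) ∧
        ∀ i, QGB.IsSolution (annulus x₀ a b) lam (fun x => c ‖x - x₀‖) (fun x => μ ‖x - x₀‖)
            (fun x => h ‖x - x₀‖) (u i) ∧
          (∃ f : ℝ → ℝ, ∀ x, u i x = f ‖x - x₀‖) ∧
          ContDiffOn ℝ 2 (u i) {x | x ≠ x₀} ∧
          (∀ x ∈ annulus x₀ a b, -(Δ (u i) x) = lam * c ‖x - x₀‖ * u i x +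
            μ ‖x - x₀‖ * ‖gradient (u i) x‖ ^ 2 + h ‖x - x₀‖) ∧
          ∀ x, ‖x - x₀‖ = a ∨ ‖x - x₀‖ = b → u i x = 0 := by
  obtain ⟨c₁, c₂, m₁, m₂, P₀, H₀, D⟩ := exists_dat hN ha hab hc hμ hh hc0 hμ0
  obtain ⟨k₀, hk₀, hk⟩ := oneD D hab n
  refine ⟨k₀ ^ 2, by positivity, fun lam hlam => ?_⟩
  have hlam0 : 0 ≤ lam := (by positivity : (0 : ℝ) ≤ k₀ ^ 2).trans hlam
  have hkk : k₀ ≤ √lam := Real.le_sqrt_of_sq_le hlam
  have hk0 : 0 < √lam := hk₀.trans_le hkk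
  have hsq : √lam * √lam = lam := Real.mul_self_sqrt hlam0
  obtain ⟨U, Y, Z, hU, hne⟩ := hk (√lam) hkk
  have h1 : ∀ i r, HasDerivAt (U i) (√lam * Y i r) r := fun i r => (hU i).2.2.1 r
  have h2 : ∀ i r, HasDerivAt (fun r => √lam * Y i r) (√lam * Z i r) r :=
    fun i r => ((hU i).2.2.2.1 r).const_mul _
  have h3 : ∀ i, Continuous fun r => √lam * Z i r := fun i => (hU i).2.2.2.2.1.const_mul _
  have hpde : ∀ i, ∀ x ∈ annulus x₀ a b,
      -(Δ (fun x : EuclideanSpace ℝ (Fin N) => U i ‖x - x₀‖) x) =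
        lam * c ‖x - x₀‖ * U i ‖x - x₀‖ + μ ‖x - x₀‖ *
          ‖gradient (fun x : EuclideanSpace ℝ (Fin N) => U i ‖x - x₀‖) x‖ ^ 2 + h ‖x - x₀‖ := by
    intro i x hx
    have hx0 : 0 < ‖x - x₀‖ := ha.trans hx.1
    have hxne : x ≠ x₀ := by
      intro h
      rw [h, sub_self, norm_zero] at hx0
      exact lt_irrefl _ hx0
    have hxI : ‖x - x₀‖ ∈ Icc a b := ⟨hx.1.le, hx.2.le⟩
    rw [radial_laplacian x₀ (h1 i) (h2 i) (h3 i) hxne, norm_grad x₀ (h1 i) hxne,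
      (hU i).2.2.2.2.2 _ hxI, ext_eq hxI, ext_eq hxI, ext_eq hxI]
    unfold fric
    rw [max_eq_right hx.1.le]
    have h4 : √lam * (h ‖x - x₀‖ / √lam) = h ‖x - x₀‖ := by
      field_simp
    have h5 : √lam * (-(√lam * (c ‖x - x₀‖ * U i ‖x - x₀‖ + μ ‖x - x₀‖ * Y i ‖x - x₀‖ ^ 2)) -
        ((N : ℝ) - 1) / ‖x - x₀‖ * Y i ‖x - x₀‖ - h ‖x - x₀‖ / √lam) =
        -((√lam * √lam) * (c ‖x - x₀‖ * U i ‖x - x₀‖ + μ ‖x - x₀‖ * Y i ‖x - x₀‖ ^ 2)) -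
        ((N : ℝ) - 1) / ‖x - x₀‖ * (√lam * Y i ‖x - x₀‖) - √lam * (h ‖x - x₀‖ / √lam) := by
      ring
    rw [h5, h4, mul_pow, pow_two (√lam), hsq]
    ring
  refine ⟨fun i x => U i ‖x - x₀‖, fun i j hij => ?_, fun i => ⟨?_, ⟨U i, fun _ => rfl⟩,
    radial_contDiffOn x₀ (h1 i) (h2 i) (h3 i), hpde i, ?_⟩⟩
  · by_contra hcon
    push Not at hcon
    have h4 : ∀ r ∈ Ioo a b, U i r = U j r := by
      intro r hr
      obtain ⟨x, hx⟩ := exists_norm hN x₀ (ha.le.trans hr.1.le)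
      have := hcon x ⟨by rw [hx]; exact hr.1, by rw [hx]; exact hr.2⟩
      simpa only [hx] using this
    have h5 := deriv_eq_of_eq hab (h1 i) (h1 j) h4
    exact hne i j hij (mul_left_cancel₀ hk0.ne' h5)
  · refine isSolution_annulus ha hab (O := {x | x ≠ x₀}) isOpen_ne ?_
      (radial_contDiffOn x₀ (h1 i) (h2 i) (h3 i)) ?_ ?_ (continuousOn_radial x₀ hc)
      (continuousOn_radial x₀ hμ) (continuousOn_radial x₀ hh) (hpde i)
    · intro x hx h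
      have hx1 := hx.1
      rw [h, sub_self, norm_zero] at hx1
      linarith
    · intro x hx
      show U i ‖x - x₀‖ = 0
      rw [hx]; exact (hU i).1
    · intro x hx
      show U i ‖x - x₀‖ = 0
      rw [hx]; exact (hU i).2.1
  · intro x hx
    show U i ‖x - x₀‖ = 0
    rcases hx with hx | hx
    · rw [hx]; exact (hU i).1
    · rw [hx]; exact (hU i).2.1

end QGN
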