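import Pool.Agent.QGN.Defs

/-!
# The flow: global existence and joint continuity

`exists_global`: a field which is continuous, uniformly Lipschitz in the state and vanishes at `0`
has a global flow, by the contraction principle in the space of the curves `e^{l |t - a|} w t`, `w`
bounded and continuous.
-/

open Set Filter Topology MeasureTheory
open scoped Real BoundedContinuousFunction

namespace QGN

section general

variable {E : Type*} [NormedAddCommGroup E] [NormedSpace ℝ E] [CompleteSpace E]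

omit [CompleteSpace E] in
theorem norm_integral_weight {φ : ℝ → E} {A l a : ℝ} (hl : 0 < l)
    (hA : ∀ τ, ‖φ τ‖ ≤ A * Real.exp (l * |τ - a|)) (t : ℝ) :
    ‖∫ τ in a..t, φ τ‖ ≤ A / l * (Real.exp (l * |t - a|) - 1) := by
  rcases le_total a t with h | h
  · have h1 : ‖∫ τ in a..t, φ τ‖ ≤ ∫ τ in a..t, A * Real.exp (l * (τ - a)) := by
      refine intervalIntegral.norm_integral_le_of_norm_le h ?_ ?_
      · refine Eventually.of_forall fun τ hτ => ?_
        have := hA τ
        rwa [abs_of_nonneg (sub_nonneg.2 hτ.1.le)] at this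
      · apply Continuous.intervalIntegrable
        fun_prop
    refine h1.trans (le_of_eq ?_)
    have hd : ∀ τ ∈ uIcc a t, HasDerivAt (fun τ => A * (Real.exp (l * (τ - a)) / l))
        (A * Real.exp (l * (τ - a))) τ := by
      intro τ _
      have h1 : HasDerivAt (fun τ : ℝ => l * (τ - a)) l τ := by
        simpa using ((hasDerivAt_id τ).sub_const a).const_mul l
      have h2 := (h1.exp.div_const l).const_mul A
      rwa [mul_div_assoc, div_self hl.ne', mul_one] at h2
    rw [intervalIntegral.integral_eq_sub_of_hasDerivAt hd, abs_of_nonneg (sub_nonneg.2 h)]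
    · simp
      ring
    · apply Continuous.intervalIntegrable
      fun_prop
  · have h1 : ‖∫ τ in t..a, φ τ‖ ≤ ∫ τ in t..a, A * Real.exp (l * (a - τ)) := by
      refine intervalIntegral.norm_integral_le_of_norm_le h ?_ ?_
      · refine Eventually.of_forall fun τ hτ => ?_
        have := hA τ
        rwa [abs_of_nonpos (sub_nonpos.2 hτ.2), neg_sub] at this
      · apply Continuous.intervalIntegrable
        fun_prop
    rw [intervalIntegral.integral_symm, norm_neg]
    refine h1.trans (le_of_eq ?_)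
    have hd : ∀ τ ∈ uIcc t a, HasDerivAt (fun τ => -(A * (Real.exp (l * (a - τ)) / l)))
        (A * Real.exp (l * (a - τ))) τ := by
      intro τ _
      have h1 : HasDerivAt (fun τ : ℝ => l * (a - τ)) (-l) τ := by
        simpa using ((hasDerivAt_id τ).const_sub a).const_mul l
      have h2 := ((h1.exp.div_const l).const_mul A).neg
      have h3 : -(A * (Real.exp (l * (a - τ)) * -l / l)) = A * Real.exp (l * (a - τ)) := by
        field_simp
      rwa [h3] at h2
    rw [intervalIntegral.integral_eq_sub_of_hasDerivAt hd, abs_of_nonpos (sub_nonpos.2 h), neg_sub]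
    · simp
      ring
    · apply Continuous.intervalIntegrable
      fun_prop

/-- a global flow for a uniformly Lipschitz field vanishing at the origin -/
theorem exists_global {g : ℝ → E → E} (hg : Continuous (fun p : ℝ × E => g p.1 p.2)) {L : ℝ}
    (hL0 : 0 ≤ L) (hL : ∀ t x y, ‖g t x - g t y‖ ≤ L * ‖x - y‖) (h0 : ∀ t, g t 0 = 0) (a : ℝ) :
    ∃ F : E → ℝ → E, (∀ x, F x a = x ∧ ∀ t, HasDerivAt (F x) (g t (F x t)) t) ∧
      Continuous (fun p : E × ℝ => F p.1 p.2) := by
  obtain ⟨l, hl⟩ : ∃ l : ℝ, l = 2 * L + 1 := ⟨_, rfl⟩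
  have hl0 : 0 < l := by rw [hl]; positivity
  have hL2 : L / l ≤ 1 / 2 := by
    rw [div_le_div_iff₀ hl0 (by norm_num)]
    linarith
  -- the curve of a weighted function
  obtain ⟨c, hc⟩ : ∃ c : (ℝ → E) → ℝ → E, ∀ w τ, c w τ = Real.exp (l * |τ - a|) • w τ :=
    ⟨fun w τ => Real.exp (l * |τ - a|) • w τ, fun _ _ => rfl⟩
  have hcc : ∀ w : ℝ → E, Continuous w → Continuous (c w) := by
    intro w hw
    have h1 : Continuous fun τ : ℝ => Real.exp (l * |τ - a|) := by fun_prop
    have h2 : c w = fun τ => Real.exp (l * |τ - a|) • w τ := funext (hc w)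
    rw [h2]
    exact h1.smul hw
  have hgc : ∀ w : ℝ → E, Continuous w → Continuous fun τ => g τ (c w τ) := by
    intro w hw
    exact hg.comp (continuous_id.prodMk (hcc w hw))
  obtain ⟨J, hJ⟩ : ∃ J : (ℝ → E) → ℝ → E, ∀ w t, J w t = ∫ τ in a..t, g τ (c w τ) :=
    ⟨fun w t => ∫ τ in a..t, g τ (c w τ), fun _ _ => rfl⟩
  have hJc : ∀ w : ℝ → E, Continuous w → Continuous (J w) := by
    intro w hw
    have h2 : J w = fun t => ∫ τ in a..t, g τ (c w τ) := funext (hJ w)
    rw [h2]
    exact intervalIntegral.continuous_primitive (fun x y => (hgc w hw).intervalIntegrable x y) a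
  have hJd : ∀ w : ℝ → E, Continuous w → ∀ t, HasDerivAt (J w) (g t (c w t)) t := by
    intro w hw t
    have h2 : J w = fun t => ∫ τ in a..t, g τ (c w τ) := funext (hJ w)
    rw [h2]
    exact intervalIntegral.integral_hasDerivAt_right ((hgc w hw).intervalIntegrable _ _)
      ((hgc w hw).stronglyMeasurableAtFilter _ _) (hgc w hw).continuousAt
  have hexp : ∀ t : ℝ, 1 ≤ Real.exp (l * |t - a|) := fun t => Real.one_le_exp (by positivity)
  have hee : ∀ t : ℝ, Real.exp (-(l * |t - a|)) * Real.exp (l * |t - a|) = 1 := by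
    intro t
    rw [← Real.exp_add]
    simp
  have hJsub : ∀ w v : ℝ → E, Continuous w → Continuous v → ∀ D : ℝ, (∀ τ, ‖w τ - v τ‖ ≤ D) →
      ∀ t, Real.exp (-(l * |t - a|)) * ‖J w t - J v t‖ ≤ 1 / 2 * D := by
    intro w v hw hv D hD t
    have hD0 : 0 ≤ D := (norm_nonneg _).trans (hD 0)
    have h1 : J w t - J v t = ∫ τ in a..t, (g τ (c w τ) - g τ (c v τ)) := by
      rw [hJ, hJ, intervalIntegral.integral_sub]
      · exact (hgc w hw).intervalIntegrable _ _
      · exact (hgc v hv).intervalIntegrable _ _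
    have h2 : ‖J w t - J v t‖ ≤ L * D / l * (Real.exp (l * |t - a|) - 1) := by
      rw [h1]
      refine norm_integral_weight hl0 (fun τ => ?_) t
      refine (hL τ _ _).trans ?_
      rw [hc, hc, ← smul_sub, norm_smul, Real.norm_eq_abs, abs_of_pos (Real.exp_pos _)]
      calc L * (Real.exp (l * |τ - a|) * ‖w τ - v τ‖) ≤ L * (Real.exp (l * |τ - a|) * D) := by
            gcongr
            exact hD τ
        _ = L * D * Real.exp (l * |τ - a|) := by ring
    calc Real.exp (-(l * |t - a|)) * ‖J w t - J v t‖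
        ≤ Real.exp (-(l * |t - a|)) * (L * D / l * (Real.exp (l * |t - a|) - 1)) :=
          mul_le_mul_of_nonneg_left h2 (Real.exp_pos _).le
      _ ≤ Real.exp (-(l * |t - a|)) * (L * D / l * Real.exp (l * |t - a|)) := by
          refine mul_le_mul_of_nonneg_left ?_ (Real.exp_pos _).le
          have : 0 ≤ L * D / l := by positivity
          nlinarith
      _ = L / l * D * (Real.exp (-(l * |t - a|)) * Real.exp (l * |t - a|)) := by ring
      _ = L / l * D := by rw [hee, mul_one]
      _ ≤ 1 / 2 * D := mul_le_mul_of_nonneg_right hL2 hD0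
  have hJ0 : ∀ t, J (fun _ => 0) t = 0 := by
    intro t
    rw [hJ]
    have : (fun τ => g τ (c (fun _ => 0) τ)) = fun _ => 0 := by
      funext τ
      rw [hc, smul_zero, h0]
    rw [this]
    simp
  have hJn : ∀ w : ℝ → E, Continuous w → ∀ D : ℝ, (∀ τ, ‖w τ‖ ≤ D) →
      ∀ t, Real.exp (-(l * |t - a|)) * ‖J w t‖ ≤ 1 / 2 * D := by
    intro w hw D hD t
    have := hJsub w (fun _ => 0) hw continuous_const D (fun τ => by rw [sub_zero]; exact hD τ) t
    rwa [hJ0, sub_zero] at this
  have hee1 : ∀ t : ℝ, Real.exp (-(l * |t - a|)) ≤ 1 := by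
    intro t
    rw [Real.exp_le_one_iff]
    have : 0 ≤ l * |t - a| := by positivity
    linarith
  -- the map
  obtain ⟨Φ, hΦ⟩ : ∃ Φ : E → (ℝ → E) → ℝ → E, ∀ x w t,
      Φ x w t = Real.exp (-(l * |t - a|)) • (x + J w t) :=
    ⟨fun x w t => Real.exp (-(l * |t - a|)) • (x + J w t), fun _ _ _ => rfl⟩
  have hΦc : ∀ x (w : ℝ → E), Continuous w → Continuous (Φ x w) := by
    intro x w hw
    have h1 : Continuous fun t : ℝ => Real.exp (-(l * |t - a|)) := by fun_prop
    have h2 : Φ x w = fun t => Real.exp (-(l * |t - a|)) • (x + J w t) := funext (hΦ x w)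
    rw [h2]
    exact h1.smul (continuous_const.add (hJc w hw))
  have hΦb : ∀ x (w : ℝ → E), Continuous w → ∀ D : ℝ, (∀ τ, ‖w τ‖ ≤ D) → ∀ t,
      ‖Φ x w t‖ ≤ ‖x‖ + 1 / 2 * D := by
    intro x w hw D hD t
    rw [hΦ, norm_smul, Real.norm_eq_abs, abs_of_pos (Real.exp_pos _)]
    have h1 := hJn w hw D hD t
    have h2 : Real.exp (-(l * |t - a|)) * ‖x‖ ≤ 1 * ‖x‖ :=
      mul_le_mul_of_nonneg_right (hee1 t) (norm_nonneg _)
    have h3 : Real.exp (-(l * |t - a|)) * ‖x + J w t‖ ≤
        Real.exp (-(l * |t - a|)) * (‖x‖ + ‖J w t‖) :=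
      mul_le_mul_of_nonneg_left (norm_add_le _ _) (Real.exp_pos _).le
    linarith
  let Ψ : E → (ℝ →ᵇ E) → (ℝ →ᵇ E) := fun x w =>
    BoundedContinuousFunction.ofNormedAddCommGroup (Φ x w) (hΦc x w w.continuous)
      (‖x‖ + 1 / 2 * ‖w‖) (hΦb x w w.continuous ‖w‖ w.norm_coe_le_norm)
  have hΨe : ∀ x (w : ℝ →ᵇ E) t, Ψ x w t = Φ x w t := fun _ _ _ => rfl
  have hΨ : ∀ x, ContractingWith (1 / 2) (Ψ x) := by
    intro x
    refine ⟨by rw [← NNReal.coe_lt_coe]; norm_num, ?_⟩
    apply LipschitzWith.of_dist_le_mul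
    intro w v
    rw [BoundedContinuousFunction.dist_le (by positivity)]
    intro t
    rw [hΨe, hΨe, hΦ, hΦ, dist_eq_norm, ← smul_sub, norm_smul, Real.norm_eq_abs,
      abs_of_pos (Real.exp_pos _), add_sub_add_left_eq_sub]
    have := hJsub w v w.continuous v.continuous (dist w v) (fun τ => by
      rw [← dist_eq_norm]
      exact BoundedContinuousFunction.dist_coe_le_dist τ) t
    push_cast
    exact this
  obtain ⟨W, hW⟩ : ∃ W : E → (ℝ →ᵇ E), ∀ x, W x = (hΨ x).fixedPoint := ⟨fun x => (hΨ x).fixedPoint, fun _ => rfl⟩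
  have hWe : ∀ x, Ψ x (W x) = W x := fun x => by
    rw [hW]
    exact (hΨ x).fixedPoint_isFixedPt
  have hWd : ∀ x y, dist (W x) (W y) ≤ 2 * ‖x - y‖ := by
    intro x y
    have h1 := (hΨ x).fixedPoint_lipschitz_in_map (hΨ y) (C := ‖x - y‖) (fun w => by
      rw [BoundedContinuousFunction.dist_le (norm_nonneg _)]
      intro t
      rw [hΨe, hΨe, hΦ, hΦ, dist_eq_norm, ← smul_sub, norm_smul, Real.norm_eq_abs,
        abs_of_pos (Real.exp_pos _), add_sub_add_right_eq_sub]
      have := mul_le_mul_of_nonneg_right (hee1 t) (norm_nonneg (x - y))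
      linarith)
    rw [← hW, ← hW] at h1
    refine h1.trans (le_of_eq ?_)
    push_cast
    ring
  have hWc : Continuous W := by
    have : LipschitzWith 2 W := by
      apply LipschitzWith.of_dist_le_mul
      intro x y
      rw [dist_eq_norm x y]
      exact_mod_cast hWd x y
    exact this.continuous
  have hcW : ∀ x t, c (W x) t = x + J (W x) t := by
    intro x t
    have h1 : W x t = Real.exp (-(l * |t - a|)) • (x + J (W x) t) := by
      have h2 : W x t = Ψ x (W x) t := by rw [hWe]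
      rw [h2, hΨe, hΦ]
    rw [hc, h1, smul_smul, mul_comm, hee, one_smul]
  refine ⟨fun x t => c (W x) t, fun x => ⟨?_, fun t => ?_⟩, ?_⟩
  · show c (W x) a = x
    rw [hcW, hJ]
    simp
  · have h1 : (fun t => c (W x) t) = fun t => x + J (W x) t := funext (hcW x)
    show HasDerivAt (fun t => c (W x) t) (g t (c (W x) t)) t
    rw [h1]
    exact (hJd (W x) (W x).continuous t).const_add x
  · have h1 : (fun p : E × ℝ => c (W p.1) p.2) =
        fun p : E × ℝ => Real.exp (l * |p.2 - a|) • (W p.1) p.2 := by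
      funext p
      exact hc _ _
    rw [h1]
    have h2 : Continuous fun p : E × ℝ => Real.exp (l * |p.2 - a|) := by fun_prop
    have h3 : Continuous fun p : E × ℝ => (W p.1) p.2 :=
      (hWc.comp continuous_fst).eval continuous_snd
    exact h2.smul h3

end general

/-- module FLOW -/
theorem exists_flow {c m h P : ℝ → ℝ} {c₁ c₂ m₁ m₂ P₀ H₀ : ℝ} (D : Dat c m h P c₁ c₂ m₁ m₂ P₀ H₀)
    {K s k : ℝ} (hK : 0 < K) (hs : 0 < s) (hk : 0 < k) (a : ℝ) :
    ∃ U Y : ℝ → ℝ → ℝ, (∀ κ, Orb c m h P K s k a κ (U κ) (Y κ)) ∧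
      Continuous (fun p : ℝ × ℝ => U p.1 p.2) ∧ Continuous (fun p : ℝ × ℝ => Y p.1 p.2) := by
  have hH₀ : 0 ≤ H₀ := (abs_nonneg _).trans (D.leH₀ 0)
  have hP₀ : 0 ≤ P₀ := (D.P0 0).trans (D.leP₀ 0)
  have hc₂ : 0 < c₂ := D.c₁pos.trans_le ((D.c₁le 0).trans (D.lec₂ 0))
  have hm₂ : 0 < m₂ := D.m₁pos.trans_le ((D.m₁le 0).trans (D.lem₂ 0))
  obtain ⟨g, hg⟩ : ∃ g : ℝ → ℝ × ℝ → ℝ × ℝ, ∀ t p, g t p = (k * p.2, G c m h P K s k t p.1 p.2) :=
    ⟨fun t p => (k * p.2, G c m h P K s k t p.1 p.2), fun _ _ => rfl⟩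
  have hgc : Continuous (fun p : ℝ × (ℝ × ℝ) => g p.1 p.2) := by
    have h1 : (fun p : ℝ × (ℝ × ℝ) => g p.1 p.2) = fun p => (k * p.2.2,
        -(k * (c p.1 * p.2.1 + m p.1 * (|p.2.2| * min |p.2.2| K))) - P p.1 * p.2.2 -
          h p.1 / k * min 1 ((|p.2.1| + |p.2.2|) / s)) := by
      funext p
      rw [hg, G, T, X]
    rw [h1]
    have e1 := D.cc
    have e2 := D.cm
    have e3 := D.ch
    have e4 := D.cP
    have f1 : Continuous fun p : ℝ × (ℝ × ℝ) => c p.1 := e1.comp continuous_fst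
    have f2 : Continuous fun p : ℝ × (ℝ × ℝ) => m p.1 := e2.comp continuous_fst
    have f3 : Continuous fun p : ℝ × (ℝ × ℝ) => h p.1 := e3.comp continuous_fst
    have f4 : Continuous fun p : ℝ × (ℝ × ℝ) => P p.1 := e4.comp continuous_fst
    have g1 : Continuous fun p : ℝ × (ℝ × ℝ) => p.2.1 := continuous_fst.comp continuous_snd
    have g2 : Continuous fun p : ℝ × (ℝ × ℝ) => p.2.2 := continuous_snd.comp continuous_snd
    refine (continuous_const.mul g2).prodMk ?_
    refine (((continuous_const.mul ((f1.mul g1).add (f2.mul (g2.abs.mul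
      (g2.abs.min continuous_const))))).neg.sub (f4.mul g2)).sub ?_)
    exact (f3.div_const k).mul (continuous_const.min ((g1.abs.add g2.abs).div_const s))
  have hg0 : ∀ t, g t 0 = 0 := by
    intro t
    rw [hg, G, T, X]
    simp
  obtain ⟨L, hL⟩ : ∃ L : ℝ, L = k + k * c₂ + 2 * (k * m₂ * K) + P₀ + 2 * (H₀ / k / s) := ⟨_, rfl⟩
  have q1 : 0 ≤ k * c₂ := by positivity
  have q2 : 0 ≤ k * m₂ * K := by positivity
  have q3 : 0 ≤ H₀ / k / s := by positivity
  have hL0 : 0 ≤ L := by rw [hL]; positivity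
  have hLip : ∀ t p q, ‖g t p - g t q‖ ≤ L * ‖p - q‖ := by
    intro t p q
    obtain ⟨u, y⟩ := p
    obtain ⟨v, z⟩ := q
    have n1 : |u - v| ≤ ‖((u, y) : ℝ × ℝ) - (v, z)‖ := by
      exact norm_fst_le (((u, y) : ℝ × ℝ) - (v, z))
    have n2 : |y - z| ≤ ‖((u, y) : ℝ × ℝ) - (v, z)‖ := by
      exact norm_snd_le (((u, y) : ℝ × ℝ) - (v, z))
    obtain ⟨δ, hδ⟩ : ∃ δ, δ = ‖((u, y) : ℝ × ℝ) - (v, z)‖ := ⟨_, rfl⟩
    rw [← hδ] at n1 n2 ⊢
    have hδ0 : 0 ≤ δ := (abs_nonneg _).trans n1
    rw [hg, hg, Prod.mk_sub_mk, Prod.norm_def]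
    refine max_le ?_ ?_
    · rw [Real.norm_eq_abs]
      show |k * y - k * z| ≤ L * δ
      rw [← mul_sub, abs_mul, abs_of_pos hk]
      have h1 : k * |y - z| ≤ k * δ := mul_le_mul_of_nonneg_left n2 hk.le
      have h2 : k * δ ≤ L * δ := mul_le_mul_of_nonneg_right (by rw [hL]; linarith) hδ0
      linarith
    · rw [Real.norm_eq_abs]
      show |G c m h P K s k t u y - G c m h P K s k t v z| ≤ L * δ
      have e1 : G c m h P K s k t u y - G c m h P K s k t v z =
          -(k * (c t * (u - v))) - k * (m t * (T K y - T K z)) - P t * (y - z) -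
            h t / k * (X s u y - X s v z) := by
        unfold G
        ring
      have a1 : |k * (c t * (u - v))| ≤ k * c₂ * δ := by
        rw [abs_mul, abs_mul, abs_of_pos hk, abs_of_pos (D.c₁pos.trans_le (D.c₁le t))]
        calc k * (c t * |u - v|) ≤ k * (c₂ * δ) := by
              have := D.lec₂ t
              gcongr
          _ = k * c₂ * δ := by ring
      have a2 : |k * (m t * (T K y - T K z))| ≤ 2 * (k * m₂ * K) * δ := by
        rw [abs_mul, abs_mul, abs_of_pos hk, abs_of_pos (D.m₁pos.trans_le (D.m₁le t))]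
        have h1 := T_lip hK.le y z
        have h2 : |T K y - T K z| ≤ 2 * K * δ :=
          h1.trans (mul_le_mul_of_nonneg_left n2 (by positivity))
        calc k * (m t * |T K y - T K z|) ≤ k * (m₂ * (2 * K * δ)) := by
              have := D.lem₂ t
              gcongr
          _ = 2 * (k * m₂ * K) * δ := by ring
      have a3 : |P t * (y - z)| ≤ P₀ * δ := by
        rw [abs_mul, abs_of_nonneg (D.P0 t)]
        have := D.leP₀ t
        gcongr
      have a4 : |h t / k * (X s u y - X s v z)| ≤ 2 * (H₀ / k / s) * δ := by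
        rw [abs_mul, abs_div, abs_of_pos hk]
        have h1 := X_lip hs u y v z
        have h2 : |X s u y - X s v z| ≤ (δ + δ) / s :=
          h1.trans (div_le_div_of_nonneg_right (add_le_add n1 n2) hs.le)
        have h3 : |h t| / k ≤ H₀ / k := div_le_div_of_nonneg_right (D.leH₀ t) hk.le
        calc |h t| / k * |X s u y - X s v z| ≤ H₀ / k * ((δ + δ) / s) :=
              mul_le_mul h3 h2 (abs_nonneg _) (by positivity)
          _ = 2 * (H₀ / k / s) * δ := by ring
      rw [e1]
      have t1 := abs_sub (-(k * (c t * (u - v))) - k * (m t * (T K y - T K z)) - P t * (y - z))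
        (h t / k * (X s u y - X s v z))
      have t2 := abs_sub (-(k * (c t * (u - v))) - k * (m t * (T K y - T K z))) (P t * (y - z))
      have t3 := abs_sub (-(k * (c t * (u - v)))) (k * (m t * (T K y - T K z)))
      rw [abs_neg] at t3
      have h5 : (k * c₂ + 2 * (k * m₂ * K) + P₀ + 2 * (H₀ / k / s)) * δ ≤ L * δ :=
        mul_le_mul_of_nonneg_right (by rw [hL]; linarith) hδ0
      linarith
  obtain ⟨F, hF, hFc⟩ := exists_global hgc hL0 hLip hg0 a
  refine ⟨fun κ r => (F (0, κ) r).1, fun κ r => (F (0, κ) r).2, fun κ => ?_, ?_, ?_⟩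
  · obtain ⟨h1, h2⟩ := hF (0, κ)
    refine ⟨?_, ?_, fun r => ?_, fun r => ?_⟩
    · show (F (0, κ) a).1 = 0
      rw [h1]
    · show (F (0, κ) a).2 = κ
      rw [h1]
    · have h3 := (ContinuousLinearMap.fst ℝ ℝ ℝ).hasFDerivAt.comp_hasDerivAt r (h2 r)
      rw [hg] at h3
      exact h3
    · have h3 := (ContinuousLinearMap.snd ℝ ℝ ℝ).hasFDerivAt.comp_hasDerivAt r (h2 r)
      rw [hg] at h3
      exact h3
  · have h1 : Continuous fun p : ℝ × ℝ => F (0, p.1) p.2 :=
      hFc.comp ((continuous_const.prodMk continuous_fst).prodMk continuous_snd)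
    exact continuous_fst.comp h1
  · have h1 : Continuous fun p : ℝ × ℝ => F (0, p.1) p.2 :=
      hFc.comp ((continuous_const.prodMk continuous_fst).prodMk continuous_snd)
    exact continuous_snd.comp h1

end QGN
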