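import Pool.Agent.QGN.SDefs
import Pool.Agent.QGN.Angle

/-!
# The angle function of an orbit of the singular system
-/

open Set Filter Topology MeasureTheory
open scoped Real

namespace QGN

/-- module SANGLE, part 2 -/
theorem SAng.lt_of_le {c m h : ℝ → ℝ} {ν : ℕ} {K s k : ℝ} {u y w θ : ℝ → ℝ}
    (A : SAng c m h ν K s k u y w θ) (hk : 0 < k) {n : ℕ} {r r' : ℝ} (h0 : 0 ≤ r) (hr : r < r')
    (h1 : θ r ≤ π / 2 - n * π) : θ r' < π / 2 - n * π := by
  have hd : ∀ t, 0 ≤ t → θ t = π / 2 - n * π → HasDerivAt θ (-k) t := by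
    intro t ht0 ht
    have hc : Real.cos (θ t) = 0 := by
      rw [ht, Real.cos_pi_div_two_sub, Real.sin_nat_mul_pi]
    have hu : u t = 0 := by rw [A.pu t ht0, hc, mul_zero]
    have h2 := A.dth t ht0
    have h3 := A.pos t ht0
    rw [hu] at h2 h3
    have h4 : y t ^ 2 ≠ 0 := by
      intro e; rw [e] at h3; simp at h3
    have h5 : (0 * (F c m h K s k t 0 (y t) - ν * w t) - k * y t ^ 2) / (0 ^ 2 + y t ^ 2) = -k := by
      field_simp
      ring
    rwa [h5] at h2
  have hle : ∀ x ∈ Icc r r', θ x ≤ π / 2 - n * π := by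
    intro x hx
    refine image_le_of_deriv_right_lt_deriv_boundary' (f := θ) (a := r) (b := r')
      (f' := fun t => (u t * (F c m h K s k t (u t) (y t) - ν * w t) - k * y t ^ 2) /
        (u t ^ 2 + y t ^ 2))
      (B := fun _ => π / 2 - n * π) (B' := fun _ => 0)
      (fun t ht => (A.dth t (h0.trans ht.1)).continuousAt.continuousWithinAt)
      (fun t ht => (A.dth t (h0.trans ht.1)).hasDerivWithinAt) h1 continuousOn_const
      (fun t _ => (hasDerivAt_const t _).hasDerivWithinAt) ?_ hx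
    intro t ht0 ht
    have h2 := (A.dth t (h0.trans ht0.1)).unique (hd t (h0.trans ht0.1) ht)
    rw [h2]
    linarith
  rcases lt_or_eq_of_le (hle r' (right_mem_Icc.2 hr.le)) with h2 | h2
  · exact h2
  · exfalso
    have h3 := (hasDerivAt_iff_tendsto_slope.1 (hd r' (h0.trans hr.le) h2)).eventually
      (gt_mem_nhds (show -k < 0 by linarith))
    have h4 : ∀ᶠ t in 𝓝[<] r', slope θ r' t < 0 :=
      h3.filter_mono (nhdsWithin_mono _ (fun t ht => ne_of_lt ht))
    have h5 : ∀ᶠ t in 𝓝[<] r', t ∈ Ioo r r' := Ioo_mem_nhdsLT hr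
    obtain ⟨t, h6, h7⟩ := (h4.and h5).exists
    have h8 := hle t ⟨h7.1.le, h7.2.le⟩
    rw [slope_def_field, h2] at h6
    have h9 : 0 ≤ (θ t - (π / 2 - n * π)) / (t - r') :=
      div_nonneg_of_nonpos (by linarith) (by linarith [h7.2])
    linarith

theorem continuous_F {c m h : ℝ → ℝ} {c₁ c₂ m₁ m₂ H₀ : ℝ}
    (D : SDat c m h c₁ c₂ m₁ m₂ H₀) (K s k : ℝ) {α : Type*} [TopologicalSpace α]
    {r u y : α → ℝ} (hr : Continuous r) (hu : Continuous u) (hy : Continuous y) :
    Continuous (fun p => F c m h K s k (r p) (u p) (y p)) := by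
  have h1 := D.cc.comp hr
  have h2 := D.cm.comp hr
  have h3 := D.ch.comp hr
  simp only [Function.comp_def] at h1 h2 h3
  unfold F T X
  exact (((h1.mul hu).add (h2.mul (hy.abs.mul (hy.abs.min continuous_const)))).const_mul k).neg.sub
    ((h3.div_const k).mul
      (continuous_const.min ((hu.abs.add hy.abs).div_const s)))

/-- an orbit with `0 < β` never passes through the origin -/
theorem SOrb.N_pos {c m h : ℝ → ℝ} {c₁ c₂ m₁ m₂ H₀ : ℝ}
    (D : SDat c m h c₁ c₂ m₁ m₂ H₀) {ν : ℕ} {K s k β : ℝ} (hK : 0 < K) (hs : 0 < s) (hk : 0 < k)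
    {u y w : ℝ → ℝ} (O : SOrb c m h ν K s k β u y w) (hβ : 0 < β) {r : ℝ} (hr : 0 ≤ r) :
    0 < u r ^ 2 + y r ^ 2 := by
  have hNc : Continuous (fun t => u t ^ 2 + y t ^ 2) := by
    have h1 : Continuous u := continuous_iff_continuousAt.2 fun t => (O.du t).continuousAt
    have h2 : Continuous y := continuous_iff_continuousAt.2 fun t => (O.dy t).continuousAt
    exact (h1.pow 2).add (h2.pow 2)
  have hN0 : ∀ t, 0 ≤ u t ^ 2 + y t ^ 2 := fun t => by positivity
  have hz : 0 < u 0 ^ 2 + y 0 ^ 2 := by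
    rw [O.u0, O.yw 0]; positivity
  rcases hr.eq_or_lt with hr0 | hr0
  · rw [← hr0]; exact hz
  refine lt_of_le_of_ne (hN0 r) fun hNr => ?_
  have hN : ∀ r₁, 0 < r₁ → r₁ ≤ r → u r₁ ^ 2 + y r₁ ^ 2 = 0 := by
    intro r₁ hr₁ hr₁r
    obtain ⟨C, hC⟩ := abs_dN_le (D.dat ν hr₁) hK hs hk
    have hexp : ∀ (b t : ℝ), HasDerivAt (fun t => Real.exp (b * t)) (b * Real.exp (b * t)) t := by
      intro b t
      have h1 := ((hasDerivAt_id t).const_mul b).exp
      refine h1.congr_deriv ?_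
      simp only [id, mul_one]
      ring
    have hd : ∀ t, r₁ ≤ t → HasDerivAt (fun t => (u t ^ 2 + y t ^ 2) * Real.exp (C * t))
        ((2 * u t * (k * y t) + 2 * y t * G c m h (sfric ν r₁) K s k t (u t) (y t) +
          C * (u t ^ 2 + y t ^ 2)) * Real.exp (C * t)) t := by
      intro t ht
      refine ((((O.du t).pow 2).add ((O.dy' hr₁ ht).pow 2)).mul (hexp C t)).congr_deriv ?_
      simp only [Nat.cast_ofNat, Nat.add_one_sub_one, pow_one, Pi.add_apply, Pi.pow_apply]
      ring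
    have hmono : MonotoneOn (fun t => (u t ^ 2 + y t ^ 2) * Real.exp (C * t)) (Ici r₁) := by
      apply monotoneOn_of_deriv_nonneg (convex_Ici r₁)
      · exact fun t ht => (hd t ht).continuousAt.continuousWithinAt
      · exact fun t ht => (hd t (interior_subset ht)).differentiableAt.differentiableWithinAt
      · intro t ht
        rw [(hd t (interior_subset ht)).deriv]
        have := neg_le_of_abs_le (hC t (u t) (y t))
        exact mul_nonneg (by linarith) (Real.exp_pos _).le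
    have h1 := hmono (mem_Ici.2 le_rfl) (mem_Ici.2 hr₁r) hr₁r
    simp only [← hNr, zero_mul] at h1
    exact le_antisymm (nonpos_of_mul_nonpos_left h1 (Real.exp_pos _)) (hN0 r₁)
  have hcl : ∀ᶠ t in 𝓝[>] (0:ℝ), u t ^ 2 + y t ^ 2 = 0 := by
    filter_upwards [Ioc_mem_nhdsGT hr0] with t ht
    exact hN t ht.1 ht.2
  have h1 : Tendsto (fun t => u t ^ 2 + y t ^ 2) (𝓝[>] (0:ℝ)) (𝓝 (u 0 ^ 2 + y 0 ^ 2)) :=
    hNc.continuousAt.tendsto.mono_left nhdsWithin_le_nhds
  have h2 : Tendsto (fun t => u t ^ 2 + y t ^ 2) (𝓝[>] (0:ℝ)) (𝓝 0) :=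
    tendsto_const_nhds.congr' (hcl.mono fun t ht => ht.symm)
  exact hz.ne' (tendsto_nhds_unique h1 h2)

/-- module SANGLE, part 1 -/
theorem exists_sangle {c m h : ℝ → ℝ} {c₁ c₂ m₁ m₂ H₀ : ℝ} (D : SDat c m h c₁ c₂ m₁ m₂ H₀) (ν : ℕ)
    {K s k : ℝ} (hK : 0 < K) (hs : 0 < s) (hk : 0 < k) {U Y W : ℝ → ℝ → ℝ}
    (hO : ∀ β, SOrb c m h ν K s k β (U β) (Y β) (W β))
    (hU : Continuous (fun p : ℝ × ℝ => U p.1 p.2)) (hY : Continuous (fun p : ℝ × ℝ => Y p.1 p.2))
    (hW : Continuous (fun p : ℝ × ℝ => W p.1 p.2)) :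
    ∃ θ : ℝ → ℝ → ℝ, (∀ β, 0 < β → SAng c m h ν K s k (U β) (Y β) (W β) (θ β)) ∧
      ∀ R, 0 ≤ R → ContinuousOn (fun β => θ β R) (Ioi 0) := by
  set E : ℝ → ℝ → ℝ := fun κ r => (U κ r * (F c m h K s k r (U κ r) (Y κ r) - ν * W κ r) -
    k * Y κ r ^ 2) / (U κ r ^ 2 + Y κ r ^ 2) with hE
  have hNpos : ∀ κ, 0 < κ → ∀ r, 0 ≤ r → 0 < U κ r ^ 2 + Y κ r ^ 2 := fun κ hκ r hr =>
    (hO κ).N_pos D hK hs hk hκ hr
  have hcont : Continuous (Function.uncurry (fun (κ : Ioi (0:ℝ)) (r : ℝ) => E κ |r|)) := by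
    have hp : Continuous (fun p : Ioi (0:ℝ) × ℝ => ((p.1 : ℝ), |p.2|)) :=
      (continuous_subtype_val.comp continuous_fst).prodMk continuous_snd.abs
    have hU' : Continuous (fun p : Ioi (0:ℝ) × ℝ => U p.1 |p.2|) := hU.comp hp
    have hY' : Continuous (fun p : Ioi (0:ℝ) × ℝ => Y p.1 |p.2|) := hY.comp hp
    have hW' : Continuous (fun p : Ioi (0:ℝ) × ℝ => W p.1 |p.2|) := hW.comp hp
    refine Continuous.div ?_ ?_ (fun p => (hNpos _ p.1.2 _ (abs_nonneg p.2)).ne')
    · exact (hU'.mul ((continuous_F D K s k continuous_snd.abs hU' hY').sub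
        (continuous_const.mul hW'))).sub (continuous_const.mul (hY'.pow 2))
    · exact (hU'.pow 2).add (hY'.pow 2)
  refine ⟨fun κ b => ∫ r in (0:ℝ)..b, E κ |r|, fun κ hκ => ?_, fun b _ => ?_⟩
  · have hFc : Continuous (fun r => E κ |r|) :=
      hcont.comp (Continuous.prodMk_right (⟨κ, hκ⟩ : Ioi (0:ℝ)))
    set θ : ℝ → ℝ := fun b => ∫ r in (0:ℝ)..b, E κ |r| with hθ
    have hdth : ∀ r, 0 ≤ r → HasDerivAt θ (E κ r) r := by
      intro r hr
      have h1 := intervalIntegral.integral_hasDerivAt_right (hFc.intervalIntegrable 0 r)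
        (hFc.stronglyMeasurableAtFilter _ _) hFc.continuousAt
      rwa [abs_of_nonneg hr] at h1
    have hth0 : θ 0 = 0 := by simp [hθ]
    set N : ℝ → ℝ := fun t => U κ t ^ 2 + Y κ t ^ 2 with hN
    have hNp : ∀ t, 0 ≤ t → 0 < N t := hNpos κ hκ
    set g : ℝ → ℝ := fun t => F c m h K s k t (U κ t) (Y κ t) - ν * W κ t with hg
    have hdN : ∀ t, HasDerivAt N (2 * U κ t * (k * Y κ t) + 2 * Y κ t * g t) t := by
      intro t
      have h1 := (((hO κ).du t).pow 2).add (((hO κ).dy t).pow 2)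
      refine h1.congr_deriv ?_
      simp only [Nat.cast_ofNat, Nat.add_one_sub_one, pow_one, hg]
    have hFN : ∀ t, 0 ≤ t → E κ t * N t = U κ t * g t - k * Y κ t ^ 2 := by
      intro t ht
      exact div_mul_cancel₀ _ (hNp t ht).ne'
    -- the two projections
    set A : ℝ → ℝ := fun t => U κ t * Real.cos (θ t) + Y κ t * Real.sin (θ t) with hA
    set B : ℝ → ℝ := fun t => -(U κ t * Real.sin (θ t)) + Y κ t * Real.cos (θ t) with hB
    have hdA : ∀ t, 0 ≤ t → HasDerivAt A (k * Y κ t * Real.cos (θ t) -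
        U κ t * Real.sin (θ t) * E κ t +
        (g t * Real.sin (θ t) + Y κ t * Real.cos (θ t) * E κ t)) t := by
      intro t ht
      have h1 := (((hO κ).du t).mul (hdth t ht).cos).add (((hO κ).dy t).mul (hdth t ht).sin)
      refine h1.congr_deriv ?_
      simp only [hg]
      ring
    have hdB : ∀ t, 0 ≤ t → HasDerivAt B (-(k * Y κ t * Real.sin (θ t) +
        U κ t * Real.cos (θ t) * E κ t) +
        (g t * Real.cos (θ t) - Y κ t * Real.sin (θ t) * E κ t)) t := by
      intro t ht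
      have h1 := (((hO κ).du t).mul (hdth t ht).sin).neg.add (((hO κ).dy t).mul (hdth t ht).cos)
      refine h1.congr_deriv ?_
      simp only [hg]
      ring
    have hsc : ∀ t, Real.sin (θ t) ^ 2 + Real.cos (θ t) ^ 2 = 1 := fun t =>
      Real.sin_sq_add_cos_sq _
    have hsq : ∀ t, 0 ≤ t → HasDerivAt (fun t => √(N t))
        ((2 * U κ t * (k * Y κ t) + 2 * Y κ t * g t) / (2 * √(N t))) t := fun t ht =>
      (hdN t).sqrt (hNp t ht).ne'
    have hsN : ∀ t, 0 ≤ t → 0 < √(N t) := fun t ht => Real.sqrt_pos.2 (hNp t ht)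
    have hss : ∀ t, 0 ≤ t → √(N t) * √(N t) = N t := fun t ht => Real.mul_self_sqrt (hNp t ht).le
    have hzero : ∀ (f f' : ℝ → ℝ), (∀ t, 0 ≤ t → HasDerivAt f (f' t) t) →
        (∀ t, 0 ≤ t → 2 * N t * f' t = (2 * U κ t * (k * Y κ t) + 2 * Y κ t * g t) * f t) →
        ∀ t, 0 ≤ t → f t / √(N t) = f 0 / √(N 0) := by
      intro f f' hf hf' t ht
      have hd : ∀ t, 0 ≤ t → HasDerivAt (fun t => f t / √(N t)) 0 t := by
        intro t ht
        refine ((hf t ht).div (hsq t ht) (hsN t ht).ne').congr_deriv ?_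
        rw [div_eq_zero_iff]
        left
        have h1 := hf' t ht
        rw [← hss t ht] at h1
        have h2 := (hsN t ht).ne'
        field_simp
        linear_combination (1 / 2) * h1
      exact constant_of_has_deriv_right_zero (a := 0) (b := t)
        (fun x hx => (hd x hx.1).continuousAt.continuousWithinAt)
        (fun x hx => (hd x hx.1).hasDerivWithinAt) t (right_mem_Icc.2 ht)
    have hAe : ∀ t, 0 ≤ t → 2 * N t * (k * Y κ t * Real.cos (θ t) -
        U κ t * Real.sin (θ t) * E κ t +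
        (g t * Real.sin (θ t) + Y κ t * Real.cos (θ t) * E κ t)) =
        (2 * U κ t * (k * Y κ t) + 2 * Y κ t * g t) * A t := by
      intro t ht
      have h1 := hFN t ht
      have h2 : N t = U κ t ^ 2 + Y κ t ^ 2 := rfl
      simp only [hA]
      rw [h2] at h1 ⊢
      linear_combination (2 * (Y κ t * Real.cos (θ t) - U κ t * Real.sin (θ t))) * h1
    have hBe : ∀ t, 0 ≤ t → 2 * N t * (-(k * Y κ t * Real.sin (θ t) +
        U κ t * Real.cos (θ t) * E κ t) +
        (g t * Real.cos (θ t) - Y κ t * Real.sin (θ t) * E κ t)) =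
        (2 * U κ t * (k * Y κ t) + 2 * Y κ t * g t) * B t := by
      intro t ht
      have h1 := hFN t ht
      have h2 : N t = U κ t ^ 2 + Y κ t ^ 2 := rfl
      simp only [hB]
      rw [h2] at h1 ⊢
      linear_combination (-2 * (U κ t * Real.cos (θ t) + Y κ t * Real.sin (θ t))) * h1
    have hAc := hzero A _ hdA hAe
    have hBc := hzero B _ hdB hBe
    have hy0 : Y κ 0 = 0 := by rw [(hO κ).yw 0, zero_mul]
    have hNa : N 0 = κ ^ 2 := by
      simp only [hN, (hO κ).u0, hy0]; ring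
    have hsNa : √(N 0) = κ := by rw [hNa, Real.sqrt_sq hκ.le]
    have hAa : A 0 = κ := by
      simp only [hA, hth0, (hO κ).u0, hy0, Real.cos_zero, Real.sin_zero]; ring
    have hBa : B 0 = 0 := by
      simp only [hB, hth0, (hO κ).u0, hy0, Real.cos_zero, Real.sin_zero]; ring
    have hAt : ∀ t, 0 ≤ t → A t = √(N t) := by
      intro t ht
      have h1 := hAc t ht
      rw [hAa, hsNa, div_self hκ.ne', div_eq_one_iff_eq (hsN t ht).ne'] at h1
      exact h1
    have hBt : ∀ t, 0 ≤ t → B t = 0 := by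
      intro t ht
      have h1 := hBc t ht
      rw [hBa, zero_div, div_eq_zero_iff] at h1
      rcases h1 with h1 | h1
      · exact h1
      · exact absurd h1 (hsN t ht).ne'
    refine ⟨hth0, hNpos κ hκ, hdth, fun t ht => ?_, fun t ht => ?_⟩
    · have h1 := hAt t ht
      have h2 := hBt t ht
      have h3 := hsc t
      change U κ t = √(N t) * Real.cos (θ t)
      rw [← h1]
      simp only [hA]
      simp only [hB] at h2
      linear_combination (-(U κ t)) * h3 - Real.sin (θ t) * h2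
    · have h1 := hAt t ht
      have h2 := hBt t ht
      have h3 := hsc t
      change Y κ t = √(N t) * Real.sin (θ t)
      rw [← h1]
      simp only [hA]
      simp only [hB] at h2
      linear_combination (-(Y κ t)) * h3 + Real.cos (θ t) * h2
  · rw [continuousOn_iff_continuous_domRestrict]
    exact intervalIntegral.continuous_parametric_intervalIntegral_of_continuous'
      (μ := volume) hcont 0 b

end QGN
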