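import Pool.Agent.QGN.SDefs

/-!
# Growth of small orbits of the singular planar system
-/

open Set

namespace QGN

/-- the constant of the growth estimate -/
private theorem field_le {c m h : ℝ → ℝ} {c₁ c₂ m₁ m₂ H₀ : ℝ} (D : SDat c m h c₁ c₂ m₁ m₂ H₀)
    {k K s : ℝ} (hk : 1 ≤ k) (hK : 0 < K) (hs : 0 < s) (hks : 1 ≤ k ^ 2 * s) (r u y : ℝ)
    (hN : u ^ 2 + y ^ 2 ≤ 1) :
    |2 * u * (k * y) + 2 * y * F c m h K s k r u y| ≤
      (1 + c₂ + 2 * m₂ + 3 * H₀) * k * (u ^ 2 + y ^ 2) := by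
  have hk0 : 0 < k := by linarith
  have hc₂ := D.c₂pos
  have hm₂ := D.m₂pos
  have hH₀ := D.H₀nonneg
  have hy1 : |y| ≤ 1 := by
    rw [abs_le_one_iff_mul_self_le_one]
    nlinarith [sq_nonneg u]
  have huy : |u * y| ≤ (u ^ 2 + y ^ 2) / 2 := by
    rw [abs_le]
    constructor
    · nlinarith [sq_nonneg (u + y)]
    · nlinarith [sq_nonneg (u - y)]
  have hN0 : 0 ≤ u ^ 2 + y ^ 2 := by positivity
  have hcr : |c r| ≤ c₂ := by
    rw [abs_of_pos (D.c₁pos.trans_le (D.c₁le r))]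
    exact D.lec₂ r
  have hmr : |m r| ≤ m₂ := by
    rw [abs_of_pos (D.m₁pos.trans_le (D.m₁le r))]
    exact D.lem₂ r
  have hT0 := T_nonneg hK.le y
  have hT1 := T_le_sq K y
  have hX0 := X_nonneg hs u y
  have hX1 := X_le s u y
  have hhr := D.leH₀ r
  -- the four terms
  have t1 : |2 * u * (k * y)| ≤ k * (u ^ 2 + y ^ 2) := by
    have e : 2 * u * (k * y) = 2 * k * (u * y) := by ring
    rw [e, abs_mul, abs_of_pos (by linarith : (0 : ℝ) < 2 * k)]
    nlinarith
  have t2 : |2 * y * (k * (c r * u))| ≤ c₂ * k * (u ^ 2 + y ^ 2) := by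
    have e : 2 * y * (k * (c r * u)) = 2 * k * (c r * (u * y)) := by ring
    rw [e, abs_mul, abs_of_pos (by linarith : (0 : ℝ) < 2 * k), abs_mul]
    have h1 : |c r| * |u * y| ≤ c₂ * ((u ^ 2 + y ^ 2) / 2) :=
      mul_le_mul hcr huy (abs_nonneg _) hc₂.le
    nlinarith
  have t3 : |2 * y * (k * (m r * T K y))| ≤ 2 * m₂ * k * (u ^ 2 + y ^ 2) := by
    have e : 2 * y * (k * (m r * T K y)) = 2 * k * (m r * (y * T K y)) := by ring
    rw [e, abs_mul, abs_of_pos (by linarith : (0 : ℝ) < 2 * k), abs_mul, abs_mul y,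
      abs_of_nonneg hT0]
    have h0 : |y| * T K y ≤ 1 * (u ^ 2 + y ^ 2) :=
      mul_le_mul hy1 (by nlinarith [sq_nonneg u]) hT0 zero_le_one
    have h1 : |m r| * (|y| * T K y) ≤ m₂ * (1 * (u ^ 2 + y ^ 2)) :=
      mul_le_mul hmr h0 (mul_nonneg (abs_nonneg _) hT0) hm₂.le
    nlinarith
  have t4 : |2 * y * (h r / k * X s u y)| ≤ 3 * H₀ * k * (u ^ 2 + y ^ 2) := by
    have e : 2 * y * (h r / k * X s u y) = 2 * (h r) * (y * X s u y) / k := by
      field_simp
    rw [e, abs_div, abs_of_pos hk0, abs_mul, abs_mul, abs_two, abs_mul y, abs_of_nonneg hX0,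
      div_le_iff₀ hk0]
    have h1 : |y| * X s u y ≤ |y| * ((|u| + |y|) / s) :=
      mul_le_mul_of_nonneg_left hX1 (abs_nonneg _)
    have h2 : |y| * ((|u| + |y|) / s) = (|u * y| + y ^ 2) / s := by
      rw [abs_mul, ← sq_abs y]
      ring
    have h3 : (|u * y| + y ^ 2) / s ≤ (3 / 2 * (u ^ 2 + y ^ 2)) / s := by
      apply div_le_div_of_nonneg_right _ hs.le
      nlinarith [sq_nonneg u]
    have h4 : (3 / 2 * (u ^ 2 + y ^ 2)) / s ≤ 3 / 2 * (u ^ 2 + y ^ 2) * k ^ 2 := by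
      rw [div_le_iff₀ hs]
      have : 0 ≤ 3 / 2 * (u ^ 2 + y ^ 2) := by positivity
      nlinarith
    have h5 : |y| * X s u y ≤ 3 / 2 * (u ^ 2 + y ^ 2) * k ^ 2 := by linarith
    have h6 : 2 * |h r| * (|y| * X s u y) ≤ 2 * H₀ * (3 / 2 * (u ^ 2 + y ^ 2) * k ^ 2) :=
      mul_le_mul (by linarith) h5 (mul_nonneg (abs_nonneg _) hX0) (by linarith)
    nlinarith
  have e : 2 * u * (k * y) + 2 * y * F c m h K s k r u y =
      2 * u * (k * y) - 2 * y * (k * (c r * u)) - 2 * y * (k * (m r * T K y)) -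
        2 * y * (h r / k * X s u y) := by
    unfold F
    ring
  rw [e]
  have a1 := abs_le.1 t1
  have a2 := abs_le.1 t2
  have a3 := abs_le.1 t3
  have a4 := abs_le.1 t4
  have e2 : (1 + c₂ + 2 * m₂ + 3 * H₀) * k * (u ^ 2 + y ^ 2) = k * (u ^ 2 + y ^ 2) +
      c₂ * k * (u ^ 2 + y ^ 2) + 2 * m₂ * k * (u ^ 2 + y ^ 2) + 3 * H₀ * k * (u ^ 2 + y ^ 2) := by
    ring
  rw [e2, abs_le]
  constructor <;> linarith

/-- comparison with an exponential which stays below `1` -/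
private theorem grow_core {f f' : ℝ → ℝ} {A L : ℝ} (hA : 0 < A) (hL : 0 ≤ L)
    (hf0 : 0 ≤ f 0) (hf : ∀ x ∈ Icc 0 L, HasDerivAt f (f' x) x)
    (hd : ∀ x ∈ Icc 0 L, f x ≤ 1 → 0 ≤ f x → f' x < A * f x ∨ f x = 0)
    (h1 : f 0 * Real.exp (A * L) ≤ 1) : f L ≤ f 0 * Real.exp (A * L) := by
  have key : ∀ v : ℝ, 0 < v → f 0 ≤ v → v * Real.exp (A * L) ≤ 1 →
      f L ≤ v * Real.exp (A * L) := by
    intro v hv hv0 hv1
    have hB : ∀ x, HasDerivAt (fun x => v * Real.exp (A * x)) (v * (Real.exp (A * x) * A)) x := by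
      intro x
      have h2 : HasDerivAt (fun x : ℝ => A * x) A x := by
        simpa using (hasDerivAt_id x).const_mul A
      exact (h2.exp).const_mul v
    have := image_le_of_deriv_right_lt_deriv_boundary (f := f) (f' := f') (a := 0) (b := L)
      (fun x hx => (hf x hx).continuousAt.continuousWithinAt)
      (fun x hx => (hf x (Ico_subset_Icc_self hx)).hasDerivWithinAt)
      (B := fun x => v * Real.exp (A * x)) (B' := fun x => v * (Real.exp (A * x) * A))
      (by simpa using hv0) hB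
      (by
        intro x hx hfx
        have hpos : 0 < v * Real.exp (A * x) := by positivity
        have hle : v * Real.exp (A * x) ≤ 1 := by
          refine le_trans ?_ hv1
          apply mul_le_mul_of_nonneg_left _ hv.le
          apply Real.exp_le_exp.2
          exact mul_le_mul_of_nonneg_left hx.2.le hA.le
        rcases hd x (Ico_subset_Icc_self hx) (by rw [hfx]; exact hle)
          (by rw [hfx]; exact hpos.le) with h3 | h3
        · rw [hfx] at h3
          calc f' x < A * (v * Real.exp (A * x)) := h3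
            _ = v * (Real.exp (A * x) * A) := by ring
        · rw [hfx] at h3
          exact absurd h3 hpos.ne')
    exact this (right_mem_Icc.2 hL)
  rcases hf0.lt_or_eq with h | h
  · exact key (f 0) h le_rfl h1
  · rw [← h, zero_mul]
    apply le_of_forall_pos_le_add
    intro ε hε
    rw [zero_add]
    have hE : 0 < Real.exp (A * L) := Real.exp_pos _
    have h2 := key (min ε 1 / Real.exp (A * L)) (by positivity) (by rw [← h]; positivity)
      (by rw [div_mul_cancel₀ _ hE.ne']; exact min_le_right _ _)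
    rw [div_mul_cancel₀ _ hE.ne'] at h2
    exact h2.trans (min_le_left _ _)

/-- module SGROW, part 1 -/
theorem sgrow {c m h : ℝ → ℝ} {c₁ c₂ m₁ m₂ H₀ : ℝ} (D : SDat c m h c₁ c₂ m₁ m₂ H₀) (ν : ℕ) :
    ∃ C : ℝ, 0 < C ∧ ∀ (k K s β t t' : ℝ) (u y w : ℝ → ℝ), 1 ≤ k → 0 < K → 0 < s →
      1 ≤ k ^ 2 * s → SOrb c m h ν K s k β u y w → 0 ≤ t → t ≤ t' →
      (u t ^ 2 + y t ^ 2) * Real.exp (C * k * (t' - t)) ≤ 1 →
      u t' ^ 2 + y t' ^ 2 ≤ (u t ^ 2 + y t ^ 2) * Real.exp (C * k * (t' - t)) := by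
  have hc₂ := D.c₂pos
  have hm₂ := D.m₂pos
  have hH₀ := D.H₀nonneg
  refine ⟨2 + c₂ + 2 * m₂ + 3 * H₀, by positivity, ?_⟩
  intro k K s β t t' u y w hk hK hs hks O ht htt h1
  have hk0 : 0 < k := by linarith
  have hder : ∀ r, HasDerivAt (fun r => u r ^ 2 + y r ^ 2)
      (2 * u r * (k * y r) + 2 * y r * (F c m h K s k r (u r) (y r) - ν * w r)) r := by
    intro r
    have h2 := ((O.du r).pow 2).add ((O.dy r).pow 2)
    refine h2.congr_deriv ?_
    simp
  have hsh : ∀ x, HasDerivAt (fun x => u (t + x) ^ 2 + y (t + x) ^ 2)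
      (2 * u (t + x) * (k * y (t + x)) + 2 * y (t + x) *
        (F c m h K s k (t + x) (u (t + x)) (y (t + x)) - ν * w (t + x))) x := by
    intro x
    have h2 := (hder (t + x)).comp_const_add t x
    simpa using h2
  have := grow_core (f := fun x => u (t + x) ^ 2 + y (t + x) ^ 2) (L := t' - t)
    (A := (2 + c₂ + 2 * m₂ + 3 * H₀) * k) (by positivity) (by linarith)
    (by positivity) (fun x _ => hsh x)
    (by
      intro x hx hx1 hx0
      rcases hx0.lt_or_eq with h3 | h3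
      · left
        have h4 := (abs_le.1 (field_le D hk hK hs hks (t + x) _ _ hx1)).2
        have h5 := O.yw_nonneg (r := t + x) (by linarith [hx.1])
        have hν : (0 : ℝ) ≤ ν := Nat.cast_nonneg ν
        have h6 : 0 ≤ ν * (y (t + x) * w (t + x)) := mul_nonneg hν h5
        nlinarith
      · right
        exact h3.symm)
    (by simpa using h1)
  simpa using this

/-- module SGROW, part 2 -/
theorem sgrow_back {c m h : ℝ → ℝ} {c₁ c₂ m₁ m₂ H₀ : ℝ} (D : SDat c m h c₁ c₂ m₁ m₂ H₀) (ν : ℕ)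
    {r₀ : ℝ} (hr₀ : 0 < r₀) :
    ∃ C : ℝ, 0 < C ∧ ∀ (k K s β t t' : ℝ) (u y w : ℝ → ℝ), 1 ≤ k → 0 < K → 0 < s →
      1 ≤ k ^ 2 * s → SOrb c m h ν K s k β u y w → r₀ ≤ t → t ≤ t' →
      (u t' ^ 2 + y t' ^ 2) * Real.exp (C * k * (t' - t)) ≤ 1 →
      u t ^ 2 + y t ^ 2 ≤ (u t' ^ 2 + y t' ^ 2) * Real.exp (C * k * (t' - t)) := by
  have hc₂ := D.c₂pos
  have hm₂ := D.m₂pos
  have hH₀ := D.H₀nonneg
  have hν : (0 : ℝ) ≤ ν := Nat.cast_nonneg ν
  have hνr : 0 ≤ (ν : ℝ) / r₀ := div_nonneg hν hr₀.le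
  refine ⟨2 + c₂ + 2 * m₂ + 3 * H₀ + 2 * (ν / r₀), by positivity, ?_⟩
  intro k K s β t t' u y w hk hK hs hks O ht htt h1
  have hk0 : 0 < k := by linarith
  have hder : ∀ r, HasDerivAt (fun r => u r ^ 2 + y r ^ 2)
      (2 * u r * (k * y r) + 2 * y r * (F c m h K s k r (u r) (y r) - ν * w r)) r := by
    intro r
    have h2 := ((O.du r).pow 2).add ((O.dy r).pow 2)
    refine h2.congr_deriv ?_
    simp
  have hsh : ∀ x, HasDerivAt (fun x => u (t' - x) ^ 2 + y (t' - x) ^ 2)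
      (-(2 * u (t' - x) * (k * y (t' - x)) + 2 * y (t' - x) *
        (F c m h K s k (t' - x) (u (t' - x)) (y (t' - x)) - ν * w (t' - x)))) x := by
    intro x
    have h2 := (hder (t' - x)).comp_const_sub t' x
    simpa using h2
  have := grow_core (f := fun x => u (t' - x) ^ 2 + y (t' - x) ^ 2) (L := t' - t)
    (A := (2 + c₂ + 2 * m₂ + 3 * H₀ + 2 * (ν / r₀)) * k) (by positivity) (by linarith)
    (by positivity) (fun x _ => hsh x)
    (by
      intro x hx hx1 hx0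
      rcases hx0.lt_or_eq with h3 | h3
      · left
        have h4 := (abs_le.1 (field_le D hk hK hs hks (t' - x) _ _ hx1)).1
        have hr : r₀ ≤ t' - x := by linarith [hx.2]
        have hr0 : 0 < t' - x := hr₀.trans_le hr
        -- `y w = y² / r`
        have h5 : y (t' - x) * w (t' - x) ≤ y (t' - x) ^ 2 / r₀ := by
          rw [le_div_iff₀ hr₀, O.yw (t' - x)]
          have hw2 : 0 ≤ (t' - x) * (w (t' - x) * w (t' - x)) :=
            mul_nonneg hr0.le (mul_self_nonneg _)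
          nlinarith
        have h6 : ν * (y (t' - x) * w (t' - x)) ≤ ν * (y (t' - x) ^ 2 / r₀) :=
          mul_le_mul_of_nonneg_left h5 hν
        have h7 : ν * (y (t' - x) ^ 2 / r₀) = ν / r₀ * y (t' - x) ^ 2 := by ring
        have h8 : ν / r₀ * y (t' - x) ^ 2 ≤ ν / r₀ * (u (t' - x) ^ 2 + y (t' - x) ^ 2) :=
          mul_le_mul_of_nonneg_left (by nlinarith [sq_nonneg (u (t' - x))]) hνr
        have h9 : ν / r₀ * (u (t' - x) ^ 2 + y (t' - x) ^ 2) * 1 ≤
            ν / r₀ * (u (t' - x) ^ 2 + y (t' - x) ^ 2) * k :=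
          mul_le_mul_of_nonneg_left hk (mul_nonneg hνr h3.le)
        have h10 : 0 < k * (u (t' - x) ^ 2 + y (t' - x) ^ 2) := mul_pos hk0 h3
        nlinarith
      · right
        exact h3.symm)
    (by simpa using h1)
  have e : t' - (t' - t) = t := by ring
  simpa [e] using this

end QGN
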