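import Pool.Agent.QGN.SDefs

/-!
# The orbit near the centre

On an interval of length `1 / (2 C k √β₁)` the orbit stays near its starting point.
-/

open Set

namespace QGN

theorem sinit {c m h : ℝ → ℝ} {c₁ c₂ m₁ m₂ H₀ : ℝ} (D : SDat c m h c₁ c₂ m₁ m₂ H₀) (ν : ℕ)
    {k β₁ : ℝ} (hk : 1 ≤ k) (hβ₁ : 1 ≤ β₁) {K s β : ℝ} {u y w : ℝ → ℝ} (hK : 0 < K) (hs : 0 < s)
    (hβ : β ∈ Icc 0 β₁) (O : SOrb c m h ν K s k β u y w) {r : ℝ} (hr : 0 ≤ r)
    (hr2 : r ≤ 1 / (2 * (2 * c₂ + m₂ + H₀ + 1) * k * √β₁)) :
    |y r| ≤ √β₁ ∧ |u r - β| ≤ β₁ / 2 := by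
  have hc₂ := D.c₂pos
  have hm₂ := D.m₂pos
  have hH₀ := D.H₀nonneg
  obtain ⟨b, hb⟩ : ∃ b, b = √β₁ := ⟨_, rfl⟩
  have hb1 : 1 ≤ b := by
    rw [hb]
    exact Real.one_le_sqrt.mpr hβ₁
  have hbb : b * b = β₁ := by
    rw [hb]
    exact Real.mul_self_sqrt (by linarith)
  rw [← hb] at hr2 ⊢
  obtain ⟨C, hC⟩ : ∃ C, C = 2 * c₂ + m₂ + H₀ + 1 := ⟨_, rfl⟩
  rw [← hC] at hr2
  have hC1 : 1 < C := by rw [hC]; linarith
  have hk0 : 0 < k := by linarith
  have hb0 : 0 < b := by linarith
  have hkb : 0 < k * b := by positivity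
  -- `r C k b ≤ 1 / 2`
  have hrC : r * (C * (k * b)) ≤ 1 / 2 := by
    rw [le_div_iff₀ (by positivity)] at hr2
    linarith
  have hcy : Continuous y := continuous_iff_continuousAt.mpr fun t => (O.dy t).continuousAt
  have hcu : Continuous u := continuous_iff_continuousAt.mpr fun t => (O.du t).continuousAt
  have hy0 : y 0 = 0 := by rw [O.yw 0, zero_mul]
  -- the estimate, up to the first exit
  have key : ∀ t, 0 ≤ t → t ≤ r → (∀ x ∈ Ico 0 t, |y x| ≤ b ∧ |u x - β| ≤ β₁ / 2) →
      |y t| < b ∧ |u t - β| < β₁ / 2 := by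
    intro t ht0 htr hx
    have htC : t * (C * (k * b)) ≤ 1 / 2 := by
      have : t * (C * (k * b)) ≤ r * (C * (k * b)) :=
        mul_le_mul_of_nonneg_right htr (by positivity)
      linarith
    constructor
    · -- the derivative of `y ^ 2`
      obtain ⟨M, hM⟩ : ∃ M, M = k * β₁ * C := ⟨_, rfl⟩
      have hM0 : 0 < M := by
        rw [hM]
        positivity
      have hF : ∀ x ∈ Ico 0 t, |F c m h K s k x (u x) (y x)| < M := by
        intro x hxt
        obtain ⟨h1, h2⟩ := hx x hxt
        have hu : |u x| ≤ 2 * β₁ := by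
          have h3 : |u x| ≤ |u x - β| + |β| := by
            calc |u x| = |(u x - β) + β| := by congr 1; ring
              _ ≤ |u x - β| + |β| := abs_add_le _ _
          have h4 : |β| ≤ β₁ := by
            rw [abs_of_nonneg hβ.1]
            exact hβ.2
          linarith
        have hT0 := T_nonneg hK.le (y x)
        have hT1 : T K (y x) ≤ β₁ := by
          have h5 : y x ^ 2 ≤ b ^ 2 := sq_le_sq' (by linarith [abs_le.mp h1]) (abs_le.mp h1).2
          have h6 := T_le_sq K (y x)
          have h7 : b ^ 2 = β₁ := by rw [← hbb]; ring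
          linarith
        have hX := F_forcing D.leH₀ hs hk0 x (u x) (y x)
        have hcx : |c x| ≤ c₂ := by
          rw [abs_of_pos (D.c₁pos.trans_le (D.c₁le x))]
          exact D.lec₂ x
        have hmx : |m x| ≤ m₂ := by
          rw [abs_of_pos (D.m₁pos.trans_le (D.m₁le x))]
          exact D.lem₂ x
        have h8 : |c x * u x| ≤ c₂ * (2 * β₁) := by
          rw [abs_mul]
          exact mul_le_mul hcx hu (abs_nonneg _) (by linarith)
        have h9 : |m x * T K (y x)| ≤ m₂ * β₁ := by
          rw [abs_mul, abs_of_nonneg hT0]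
          exact mul_le_mul hmx hT1 hT0 (by linarith)
        have h10 : |k * (c x * u x + m x * T K (y x))| ≤ k * (c₂ * (2 * β₁) + m₂ * β₁) := by
          rw [abs_mul, abs_of_pos hk0]
          refine mul_le_mul_of_nonneg_left ?_ hk0.le
          exact (abs_add_le _ _).trans (add_le_add h8 h9)
        have h11 : H₀ / k ≤ H₀ * (k * β₁) := by
          have h12 : H₀ / k ≤ H₀ := div_le_self hH₀ hk
          have h13 : 1 ≤ k * β₁ := one_le_mul_of_one_le_of_one_le hk hβ₁
          have h14 : H₀ * 1 ≤ H₀ * (k * β₁) := mul_le_mul_of_nonneg_left h13 hH₀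
          linarith
        have h15 : |F c m h K s k x (u x) (y x)| ≤ k * (c₂ * (2 * β₁) + m₂ * β₁) + H₀ / k := by
          unfold F
          have h16 := abs_sub (-(k * (c x * u x + m x * T K (y x)))) (h x / k * X s (u x) (y x))
          rw [abs_neg] at h16
          linarith
        have h17 : 0 < k * β₁ := by positivity
        rw [hM, hC]
        nlinarith
      have hd : ∀ x, HasDerivAt (fun t => y t ^ 2)
          (2 * y x * (F c m h K s k x (u x) (y x) - ν * w x)) x := by
        intro x
        have h1 := (O.dy x).pow 2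
        rw [Nat.cast_ofNat, pow_one] at h1
        exact h1
      have hB : ∀ x : ℝ, HasDerivAt (fun t => (M * t + b / 4) ^ 2) (2 * (M * x + b / 4) * M) x := by
        intro x
        have h1 : HasDerivAt (fun t : ℝ => M * t + b / 4) M x := by
          simpa using ((hasDerivAt_id x).const_mul M).add_const (b / 4)
        have h2 := h1.pow 2
        rw [Nat.cast_ofNat, pow_one] at h2
        exact h2
      have hle := image_le_of_deriv_right_lt_deriv_boundary' (f := fun t => y t ^ 2)
        (f' := fun x => 2 * y x * (F c m h K s k x (u x) (y x) - ν * w x)) (a := 0) (b := t)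
        (hcy.pow 2).continuousOn (fun x _ => (hd x).hasDerivWithinAt)
        (B := fun t => (M * t + b / 4) ^ 2) (B' := fun x => 2 * (M * x + b / 4) * M)
        (by
          show y 0 ^ 2 ≤ (M * 0 + b / 4) ^ 2
          rw [hy0, zero_pow two_ne_zero]
          exact sq_nonneg _)
        (by fun_prop) (fun x _ => (hB x).hasDerivWithinAt)
        (by
          intro x hxt hxe
          have hxe' : y x ^ 2 = (M * x + b / 4) ^ 2 := hxe
          have hp : 0 < M * x + b / 4 := by
            have := mul_nonneg hM0.le hxt.1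
            linarith
          have hya : |y x| = M * x + b / 4 := by
            have h1 : |y x| ^ 2 = (M * x + b / 4) ^ 2 := by rw [sq_abs]; exact hxe'
            exact (pow_left_inj₀ (abs_nonneg _) hp.le two_ne_zero).mp h1
          have h2 := hF x hxt
          have h3 := O.yw_nonneg hxt.1
          have h4 : y x * F c m h K s k x (u x) (y x) ≤ |y x| * |F c m h K s k x (u x) (y x)| := by
            rw [← abs_mul]
            exact le_abs_self _
          have h5 : |y x| * |F c m h K s k x (u x) (y x)| < |y x| * M :=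
            mul_lt_mul_of_pos_left h2 (by rw [hya]; exact hp)
          have h6 : 0 ≤ (ν : ℝ) * (y x * w x) := mul_nonneg (Nat.cast_nonneg ν) h3
          show 2 * y x * (F c m h K s k x (u x) (y x) - ν * w x) < 2 * (M * x + b / 4) * M
          rw [hya] at h4 h5
          nlinarith)
      have h7 : y t ^ 2 ≤ (M * t + b / 4) ^ 2 := hle ⟨ht0, le_rfl⟩
      have hMt : M * t ≤ b / 2 := by
        have : M * t = t * (C * (k * b)) * b := by
          rw [hM, ← hbb]
          ring
        rw [this]
        nlinarith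
      have hp : 0 ≤ M * t + b / 4 := by
        have := mul_nonneg hM0.le ht0
        linarith
      have h8 : |y t| ≤ M * t + b / 4 := abs_le_of_sq_le_sq h7 hp
      linarith
    · have h1 := norm_image_sub_le_of_norm_deriv_le_segment' (f := u) (f' := fun x => k * y x)
        (a := 0) (b := t) (C := k * b) (fun x _ => (O.du x).hasDerivWithinAt)
        (by
          intro x hxt
          rw [Real.norm_eq_abs, abs_mul, abs_of_pos hk0]
          exact mul_le_mul_of_nonneg_left (hx x hxt).1 hk0.le) t ⟨ht0, le_rfl⟩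
      rw [O.u0, Real.norm_eq_abs, sub_zero] at h1
      have h2 : t * (k * b) * C ≤ 1 / 2 := by linarith
      have h3 : 0 ≤ t * (k * b) := by positivity
      have h4 : t * (k * b) < 1 / 2 := by
        rcases h3.eq_or_lt with h5 | h5
        · rw [← h5]
          norm_num
        · nlinarith
      linarith
  -- the first exit
  by_contra hcon
  obtain ⟨E, hE⟩ : ∃ E : Set ℝ, E = {t | t ∈ Icc 0 r ∧ (b ≤ |y t| ∨ β₁ / 2 ≤ |u t - β|)} := ⟨_, rfl⟩
  have hEc : IsCompact E := by
    rw [hE]
    refine isCompact_Icc.inter_right (s := Icc 0 r) (t := {t | b ≤ |y t| ∨ β₁ / 2 ≤ |u t - β|}) ?_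
    exact (isClosed_le continuous_const hcy.abs).union
      (isClosed_le continuous_const (hcu.sub continuous_const).abs)
  have hEn : E.Nonempty := by
    refine ⟨r, ?_⟩
    rw [hE]
    refine ⟨⟨hr, le_rfl⟩, ?_⟩
    by_contra h1
    push Not at h1
    exact hcon ⟨h1.1.le, h1.2.le⟩
  obtain ⟨t, ht, hmin⟩ := hEc.exists_isLeast hEn
  have ht' := ht
  rw [hE] at ht'
  obtain ⟨⟨ht0, htr⟩, ht1⟩ := ht'
  have h1 := key t ht0 htr (fun x hx => by
    by_contra h2
    have hxE : x ∈ E := by
      rw [hE]
      refine ⟨⟨hx.1, hx.2.le.trans htr⟩, ?_⟩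
      by_contra h3
      push Not at h3
      exact h2 ⟨h3.1.le, h3.2.le⟩
    exact absurd (hmin hxE) (not_le.mpr hx.2))
  rcases ht1 with h2 | h2
  · exact absurd h1.1 (not_lt.mpr h2)
  · exact absurd h1.2 (not_lt.mpr h2)

end QGN
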