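import Pool.Agent.QGN.Aux1
import Pool.Agent.QGN.SInit

/-!
# Large initial values enter the escape region (ball)
-/

open Set Filter Topology
open scoped Real

namespace QGN

/-- exponential against powers -/
theorem exists_big {b C₀ L : ℝ} (hb : 0 < b) (n : ℕ) :
    ∃ S : ℝ, 1 ≤ S ∧ L ≤ S ∧ C₀ * S ^ n ≤ Real.exp (b * S) := by
  have h1 := Real.tendsto_exp_div_pow_atTop n
  have h2 : Tendsto (fun S : ℝ => b * S) atTop atTop := tendsto_id.const_mul_atTop hb
  have h3 := (h1.comp h2).eventually_ge_atTop (C₀ / b ^ n)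
  obtain ⟨S, hS, h4, h5⟩ := (h3.and ((eventually_ge_atTop 1).and (eventually_ge_atTop L))).exists
  refine ⟨S, h4, h5, ?_⟩
  have hS0 : 0 < S := by linarith
  have h6 : C₀ / b ^ n ≤ Real.exp (b * S) / (b * S) ^ n := hS
  rw [mul_pow, div_le_div_iff₀ (by positivity) (by positivity)] at h6
  have h7 : 0 < b ^ n := by positivity
  have h8 : (C₀ * S ^ n) * b ^ n ≤ Real.exp (b * S) * b ^ n := by
    calc (C₀ * S ^ n) * b ^ n = C₀ * (b ^ n * S ^ n) := by ring
      _ ≤ Real.exp (b * S) * b ^ n := h6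
  exact le_of_mul_le_mul_right h8 h7

theorem SOrb.pow_deriv {c m h : ℝ → ℝ} {ν : ℕ} {K s k β : ℝ} {u y w : ℝ → ℝ}
    (O : SOrb c m h ν K s k β u y w) (r : ℝ) :
    HasDerivAt (fun r => r ^ ν * (-y r)) (-(r ^ ν * F c m h K s k r (u r) (y r))) r := by
  have h1 : HasDerivAt (fun r : ℝ => r ^ ν) (ν * r ^ (ν - 1)) r := by
    simpa using hasDerivAt_pow ν r
  have h2 := h1.mul (O.dy r).neg
  refine h2.congr_deriv ?_
  have hy := O.yw r
  have h4 : (ν : ℝ) * r ^ (ν - 1) * y r = ν * r ^ ν * w r := by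
    rcases Nat.eq_zero_or_pos ν with h0 | h0
    · subst h0; simp
    · have h3 : r ^ ν = r ^ (ν - 1) * r := by rw [← pow_succ, Nat.sub_add_cancel h0]
      rw [hy, h3]; ring
  simp only [Pi.neg_apply]
  linear_combination (-1 : ℝ) * h4

/-- module LARGES (uses `sinit`) -/
theorem slarge {c m h : ℝ → ℝ} {c₁ c₂ m₁ m₂ H₀ : ℝ} (D : SDat c m h c₁ c₂ m₁ m₂ H₀) (ν : ℕ)
    {R : ℝ} (hR : 0 < R) {k : ℝ} (hk : 1 ≤ k) {A B : ℝ} (hA : (H₀ + 1) / m₁ + 1 ≤ A)
    (hB : 2 * ν * (2 * c₂ + m₂ + H₀ + 1) * k / m₁ ≤ B) :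
    ∃ β₁ : ℝ, 1 ≤ β₁ ∧ ∀ (K s t₁ : ℝ) (u y w : ℝ → ℝ), A + B * √β₁ ≤ K → 0 < s →
      SOrb c m h ν K s k β₁ u y w → t₁ ∈ Ioc 0 R → (∀ t ∈ Ico 0 t₁, 0 < u t) → u t₁ = 0 →
      y t₁ ≤ -(A + B * √β₁) := by
  have hk0 : 0 < k := by linarith
  have hc₁ := D.c₁pos
  have hc₂ := D.c₂pos
  have hm₁ := D.m₁pos
  have hm₂ := D.m₂pos
  have hH := D.H₀nonneg
  have hν : (0 : ℝ) ≤ ν := Nat.cast_nonneg ν
  obtain ⟨C, hC⟩ : ∃ C, C = 2 * c₂ + m₂ + H₀ + 1 := ⟨_, rfl⟩
  have hC0 : 0 < C := by rw [hC]; positivity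
  rw [← hC] at hB
  have hA1 : 1 ≤ A := by
    have : 0 < (H₀ + 1) / m₁ := by positivity
    linarith
  have hAm : H₀ + 1 + m₁ ≤ m₁ * A := by
    have h1 := mul_le_mul_of_nonneg_left hA hm₁.le
    have h2 : m₁ * ((H₀ + 1) / m₁ + 1) = H₀ + 1 + m₁ := by field_simp
    linarith
  have hB0 : 0 ≤ B := le_trans (by positivity) hB
  have hBm : 2 * ν * C * k ≤ m₁ * B := by
    rw [div_le_iff₀ hm₁] at hB
    linarith
  obtain ⟨E, hE⟩ : ∃ E, E = Real.exp (m₁ * (H₀ / c₁)) * H₀ + 1 := ⟨_, rfl⟩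
  have hE0 : 0 < E := by rw [hE]; positivity
  have hE1 : 0 ≤ E - 1 := by
    have h1 : E - 1 = Real.exp (m₁ * (H₀ / c₁)) * H₀ := by rw [hE]; ring
    rw [h1]
    positivity
  obtain ⟨a₀, ha₀⟩ : ∃ a₀, a₀ = c₁ / (8 * (ν + 1) * C * (2 * C * k) ^ ν) := ⟨_, rfl⟩
  have ha₀0 : 0 < a₀ := by rw [ha₀]; positivity
  obtain ⟨S, hS1, hSL, hSe⟩ := exists_big (b := m₁ / 2)
    (C₀ := (R ^ ν * (A + B) + R ^ (ν + 1) * E) / a₀) (L := 4 * H₀ / c₁) (by positivity) (ν + 1)
  have hS0 : 0 < S := by linarith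
  have hS2 : S ≤ S ^ 2 := by nlinarith
  have hS12 : 1 ≤ S ^ 2 := by linarith
  have hSc : 4 * H₀ ≤ c₁ * S ^ 2 := by
    rw [div_le_iff₀ hc₁] at hSL
    have := mul_le_mul_of_nonneg_left hS2 hc₁.le
    linarith
  refine ⟨S ^ 2, hS12, ?_⟩
  intro K s t₁ u y w hK' hs O ht₁ hpos hu1
  have hsq : √(S ^ 2) = S := Real.sqrt_sq hS0.le
  rw [hsq] at hK' ⊢
  obtain ⟨Q, hQ⟩ : ∃ Q, Q = A + B * S := ⟨_, rfl⟩
  rw [← hQ] at hK' ⊢
  have hBS : 0 ≤ B * S := by positivity
  have hQ1 : 1 ≤ Q := by rw [hQ]; linarith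
  have hQ0 : 0 < Q := by linarith
  have hK : 0 < K := by linarith
  have hQm : H₀ + 1 + m₁ + 2 * ν * C * k * S ≤ m₁ * Q := by
    rw [hQ]
    have := mul_le_mul_of_nonneg_right hBm hS0.le
    linarith
  obtain ⟨ρ, hρ⟩ : ∃ ρ, ρ = 1 / (2 * C * k * S) := ⟨_, rfl⟩
  have hρ0 : 0 < ρ := by rw [hρ]; positivity
  have hinit : ∀ r, 0 ≤ r → r ≤ ρ → |y r| ≤ S ∧ |u r - S ^ 2| ≤ S ^ 2 / 2 := by
    intro r hr hr2
    have h1 := sinit D ν hk hS12 hK hs ⟨by positivity, le_rfl⟩ O hr (by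
      rw [hsq, ← hC, ← hρ]; exact hr2)
    rwa [hsq] at h1
  have hur : ∀ r, 0 ≤ r → r ≤ ρ → S ^ 2 / 2 ≤ u r := by
    intro r hr hr2
    have := (abs_le.1 (hinit r hr hr2).2).1
    linarith
  have hρt : ρ < t₁ := by
    by_contra hcon
    have := hur t₁ ht₁.1.le (not_lt.1 hcon)
    rw [hu1] at this
    linarith
  have hforce : ∀ r, |h r / k * X s (u r) (y r)| ≤ H₀ := by
    intro r
    refine (F_forcing D.leH₀ hs hk0 r (u r) (y r)).trans ?_
    exact div_le_self hH hk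
  -- the first phase
  have hq : k * c₁ * S ^ 2 / (4 * (ν + 1)) * ρ ^ (ν + 1) ≤ ρ ^ ν * (-y ρ) := by
    set Z : ℝ → ℝ := fun r => r ^ ν * (-y r) - k * c₁ * S ^ 2 / (4 * (ν + 1)) * r ^ (ν + 1) with hZ
    have hZd : ∀ r, HasDerivAt Z (-(r ^ ν * F c m h K s k r (u r) (y r)) -
        k * c₁ * S ^ 2 / (4 * (ν + 1)) * (((ν + 1 : ℕ) : ℝ) * r ^ ν)) r := by
      intro r
      have h1 : HasDerivAt (fun r : ℝ => r ^ (ν + 1)) (((ν + 1 : ℕ) : ℝ) * r ^ ν) r := by
        simpa using hasDerivAt_pow (ν + 1) r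
      exact (O.pow_deriv r).sub (h1.const_mul _)
    have hm : MonotoneOn Z (Icc 0 ρ) := by
      apply monotoneOn_of_deriv_nonneg (convex_Icc _ _)
      · exact fun t _ => (hZd t).continuousAt.continuousWithinAt
      · exact fun t _ => (hZd t).differentiableAt.differentiableWithinAt
      · intro r hr
        rw [interior_Icc] at hr
        rw [(hZd r).deriv]
        have h1 := hur r hr.1.le hr.2.le
        have h2 := abs_le.1 (hforce r)
        have h3 : 0 ≤ m r * T K (y r) :=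
          mul_nonneg (hm₁.le.trans (D.m₁le r)) (T_nonneg hK.le _)
        have h4 : c₁ * (S ^ 2 / 2) ≤ c r * u r :=
          mul_le_mul (D.c₁le r) h1 (by positivity) (hc₁.le.trans (D.c₁le r))
        have h5 : k * (c₁ * (S ^ 2 / 2)) ≤ k * (c r * u r + m r * T K (y r)) :=
          mul_le_mul_of_nonneg_left (by linarith) hk0.le
        have h6 : H₀ ≤ k * (c₁ * (S ^ 2 / 4)) := by
          have h7 : 1 * (c₁ * (S ^ 2 / 4)) ≤ k * (c₁ * (S ^ 2 / 4)) :=
            mul_le_mul_of_nonneg_right hk (by positivity)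
          linarith
        have h8 : k * c₁ * S ^ 2 / 4 ≤ -F c m h K s k r (u r) (y r) := by
          unfold F
          linarith
        have h9 : 0 ≤ r ^ ν := pow_nonneg hr.1.le ν
        have h10 : k * c₁ * S ^ 2 / (4 * (ν + 1)) * (((ν + 1 : ℕ) : ℝ) * r ^ ν) =
            k * c₁ * S ^ 2 / 4 * r ^ ν := by
          push_cast
          field_simp
        rw [h10]
        have h11 := mul_le_mul_of_nonneg_right h8 h9
        linarith
    have h1 := hm (left_mem_Icc.2 hρ0.le) (right_mem_Icc.2 hρ0.le) hρ0.le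
    simp only [hZ] at h1
    have hy0 : y 0 = 0 := by rw [O.yw 0, zero_mul]
    rw [hy0, neg_zero, mul_zero, zero_pow (Nat.succ_ne_zero ν), mul_zero, sub_zero] at h1
    linarith
  -- the value at `ρ`
  set W : ℝ → ℝ := fun r => r ^ ν * (-y r) * Real.exp (m₁ * u r) with hW
  have hWρ : R ^ ν * Q + R ^ (ν + 1) * E ≤ W ρ := by
    have e1 : k * c₁ * S ^ 2 / (4 * (ν + 1)) * ρ ^ (ν + 1) = a₀ * S / S ^ ν := by
      rw [hρ, ha₀, div_pow, one_pow, pow_succ (2 * C * k * S) ν, mul_pow (2 * C * k) S ν]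
      field_simp
      ring
    have e2 : Real.exp (m₁ / 2 * S) ≤ Real.exp (m₁ * u ρ) := by
      apply Real.exp_le_exp.2
      have h1 := hur ρ hρ0.le le_rfl
      have h2 := mul_le_mul_of_nonneg_left h1 hm₁.le
      have h3 := mul_le_mul_of_nonneg_left hS2 hm₁.le
      linarith
    have e3 : (R ^ ν * (A + B) + R ^ (ν + 1) * E) * S ^ (ν + 1) ≤
        a₀ * Real.exp (m₁ / 2 * S) := by
      have h1 := mul_le_mul_of_nonneg_left hSe ha₀0.le
      have h2 : a₀ * ((R ^ ν * (A + B) + R ^ (ν + 1) * E) / a₀ * S ^ (ν + 1)) =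
          (R ^ ν * (A + B) + R ^ (ν + 1) * E) * S ^ (ν + 1) := by field_simp
      linarith
    have hSν : 0 < S ^ ν := by positivity
    have hRν : 0 < R ^ ν := by positivity
    have hRν1 : 0 < R ^ (ν + 1) := by positivity
    have e4 : (R ^ ν * (A + B) + R ^ (ν + 1) * E) * S ^ 2 ≤
        a₀ * S / S ^ ν * Real.exp (m₁ / 2 * S) := by
      have h1 := mul_le_mul_of_nonneg_right e3 (show 0 ≤ S / S ^ ν by positivity)
      have h2 : (R ^ ν * (A + B) + R ^ (ν + 1) * E) * S ^ (ν + 1) * (S / S ^ ν) =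
          (R ^ ν * (A + B) + R ^ (ν + 1) * E) * S ^ 2 := by
        have h5 : S ^ (ν + 1) * (S / S ^ ν) = S ^ 2 := by
          rw [pow_succ S ν]
          field_simp
        rw [mul_assoc, h5]
      have h3 : a₀ * Real.exp (m₁ / 2 * S) * (S / S ^ ν) =
          a₀ * S / S ^ ν * Real.exp (m₁ / 2 * S) := by ring
      rw [h2, h3] at h1
      exact h1
    have e5 : a₀ * S / S ^ ν * Real.exp (m₁ / 2 * S) ≤ W ρ := by
      rw [e1] at hq
      simp only [hW]
      exact mul_le_mul hq e2 (Real.exp_pos _).le (le_trans (by positivity) hq)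
    have e6 : R ^ ν * Q + R ^ (ν + 1) * E ≤ (R ^ ν * (A + B) + R ^ (ν + 1) * E) * S ^ 2 := by
      rw [hQ]
      have h1 : A ≤ A * S ^ 2 := le_mul_of_one_le_right (by linarith) hS12
      have h2 : B * S ≤ B * S ^ 2 := mul_le_mul_of_nonneg_left hS2 hB0
      have h3 : E ≤ E * S ^ 2 := le_mul_of_one_le_right hE0.le hS12
      have h4 := mul_le_mul_of_nonneg_left (add_le_add h1 h2) hRν.le
      have h5 := mul_le_mul_of_nonneg_left h3 hRν1.le
      linarith
    linarith
  have hRQ : 0 < R ^ ν * Q := by positivity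
  by_contra hcon
  rw [not_le] at hcon
  have hcon' : -y t₁ < Q := by linarith
  have hu0 : ∀ t ∈ Ico 0 t₁, 0 ≤ u t := fun t ht => (hpos t ht).le
  -- the region `Q ≤ -y` is invariant
  have hlt : ∀ t ∈ Icc ρ t₁, -y t < Q := by
    intro t ht
    by_contra hge
    rw [not_lt] at hge
    have hp := persist (Y := fun r => Q + y r)
      (Y' := fun r => F c m h K s k r (u r) (y r) - ν * w r) (a := t) (b := t₁)
      (fun r _ => (O.dy r).const_add Q) (by show Q + y t ≤ 0; linarith) (by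
        intro r hr _ hr0
        have hr0' : y r = -Q := by
          have : Q + y r = 0 := hr0
          linarith
        have hρr : ρ ≤ r := ht.1.trans hr.1
        have hrpos : 0 < r := hρ0.trans_le hρr
        have h1 := hu0 r ⟨hrpos.le, hr.2⟩
        have h2 := abs_le.1 (hforce r)
        have hT : T K (y r) = Q ^ 2 := by
          rw [T_eq (by rw [hr0', abs_neg, abs_of_pos hQ0]; exact hK'), hr0']
          ring
        have h3 : 0 ≤ c r * u r := mul_nonneg (hc₁.le.trans (D.c₁le r)) h1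
        have h4 : m₁ * Q ^ 2 ≤ m r * Q ^ 2 := mul_le_mul_of_nonneg_right (D.m₁le r) (sq_nonneg _)
        have h5 : w r = -Q / r := by
          have := O.yw r
          rw [hr0'] at this
          field_simp
          linarith
        have h6 : -(ν * w r) ≤ ν * Q * (2 * C * k * S) := by
          have h7 : 1 / r ≤ 2 * C * k * S := by
            have h8 := one_div_le_one_div_of_le hρ0 hρr
            have h9 : 1 / ρ = 2 * C * k * S := by rw [hρ, one_div_one_div]
            rw [← h9]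
            exact h8
          calc -(ν * w r) = ν * Q * (1 / r) := by rw [h5]; ring
            _ ≤ ν * Q * (2 * C * k * S) := mul_le_mul_of_nonneg_left h7 (by positivity)
        have h7 := mul_le_mul_of_nonneg_right hQm (show 0 ≤ k * Q by positivity)
        have h8 : k * (m₁ * Q ^ 2) ≤ k * (c r * u r + m r * T K (y r)) := by
          rw [hT]
          exact mul_le_mul_of_nonneg_left (by linarith) hk0.le
        have h9 : ν * Q * (2 * C * k * S) ≤ k * (ν * Q * (2 * C * k * S)) :=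
          le_mul_of_one_le_left (by positivity) hk
        have h10 : 1 ≤ k * Q := by nlinarith
        have h11 : H₀ + 1 + m₁ ≤ (H₀ + 1 + m₁) * (k * Q) :=
          le_mul_of_one_le_right (by positivity) h10
        show F c m h K s k r (u r) (y r) - ν * w r < 0
        unfold F
        linarith)
    have := hp t₁ ⟨ht.2, le_rfl⟩
    have h2 : Q + y t₁ ≤ 0 := this
    linarith
  -- the exponential quantity
  have hWd : ∀ r, HasDerivAt W (r ^ ν * Real.exp (m₁ * u r) *
      (-F c m h K s k r (u r) (y r) - m₁ * k * y r ^ 2)) r := by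
    intro r
    have h1 := (O.pow_deriv r).mul ((O.du r).const_mul m₁).exp
    refine h1.congr_deriv ?_
    ring
  have hbelow : ∀ r ∈ Icc ρ t₁, W ρ - R ^ ν * E * (r - ρ) - W r ≤ 0 := by
    refine persist (Y := fun r => W ρ - R ^ ν * E * (r - ρ) - W r)
      (Y' := fun r => -(R ^ ν * E) - r ^ ν * Real.exp (m₁ * u r) *
        (-F c m h K s k r (u r) (y r) - m₁ * k * y r ^ 2)) ?_ (by simp) ?_
    · intro r _
      have h1 : HasDerivAt (fun r : ℝ => W ρ - R ^ ν * E * (r - ρ)) (-(R ^ ν * E)) r := by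
        have h2 := (((hasDerivAt_id r).sub_const ρ).const_mul (R ^ ν * E)).const_sub (W ρ)
        refine h2.congr_deriv ?_
        simp
      exact h1.sub (hWd r)
    · intro r hr hist _
      have hrpos : 0 < r := hρ0.trans_le hr.1
      have h1 : W ρ - R ^ ν * E * (r - ρ) - W r ≤ 0 := hist r ⟨hr.1, le_rfl⟩
      have hrR : r ≤ R := hr.2.le.trans ht₁.2
      have h2 : R ^ ν * E * (r - ρ) ≤ R ^ (ν + 1) * E := by
        have h3 : R ^ ν * E * (r - ρ) ≤ R ^ ν * E * R :=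
          mul_le_mul_of_nonneg_left (by linarith) (by positivity)
        calc R ^ ν * E * (r - ρ) ≤ R ^ ν * E * R := h3
          _ = R ^ (ν + 1) * E := by ring
      have hWr : 0 < W r := by linarith
      have hy0 : 0 < -y r := by
        by_contra hneg
        rw [not_lt] at hneg
        have h3 : W r ≤ 0 := by
          simp only [hW]
          exact mul_nonpos_of_nonpos_of_nonneg
            (mul_nonpos_of_nonneg_of_nonpos (by positivity) hneg) (Real.exp_pos _).le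
        linarith
      have hyQ := hlt r ⟨hr.1, hr.2.le⟩
      have hT : T K (y r) = y r ^ 2 := T_eq (by
        rw [abs_of_neg (by linarith)]
        linarith)
      have hur0 := hu0 r ⟨hrpos.le, hr.2⟩
      have h4 := abs_le.1 (hforce r)
      have h5 : k * (c₁ * u r) - H₀ ≤ -F c m h K s k r (u r) (y r) - m₁ * k * y r ^ 2 := by
        have h6 : k * (c₁ * u r) ≤ k * (c r * u r) :=
          mul_le_mul_of_nonneg_left (mul_le_mul_of_nonneg_right (D.c₁le r) hur0) hk0.le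
        have h7 : k * (m₁ * y r ^ 2) ≤ k * (m r * y r ^ 2) :=
          mul_le_mul_of_nonneg_left (mul_le_mul_of_nonneg_right (D.m₁le r) (sq_nonneg _)) hk0.le
        unfold F
        rw [hT]
        linarith
      have h6 : -(E - 1) ≤ Real.exp (m₁ * u r) *
          (-F c m h K s k r (u r) (y r) - m₁ * k * y r ^ 2) := by
        have h7 : Real.exp (m₁ * u r) * (k * (c₁ * u r) - H₀) ≤ Real.exp (m₁ * u r) *
            (-F c m h K s k r (u r) (y r) - m₁ * k * y r ^ 2) :=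
          mul_le_mul_of_nonneg_left h5 (Real.exp_pos _).le
        refine le_trans ?_ h7
        rcases le_total (H₀ / c₁) (u r) with h8 | h8
        · have h9 : H₀ ≤ c₁ * u r := by
            rw [div_le_iff₀ hc₁] at h8
            linarith
          have h10 : c₁ * u r ≤ k * (c₁ * u r) := le_mul_of_one_le_left (by positivity) hk
          have h11 : 0 ≤ Real.exp (m₁ * u r) * (k * (c₁ * u r) - H₀) :=
            mul_nonneg (Real.exp_pos _).le (by linarith)
          linarith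
        · have h9 : Real.exp (m₁ * u r) ≤ Real.exp (m₁ * (H₀ / c₁)) :=
            Real.exp_le_exp.2 (mul_le_mul_of_nonneg_left h8 hm₁.le)
          have h10 : Real.exp (m₁ * u r) * H₀ ≤ Real.exp (m₁ * (H₀ / c₁)) * H₀ :=
            mul_le_mul_of_nonneg_right h9 hH
          have h11 : 0 ≤ Real.exp (m₁ * u r) * (k * (c₁ * u r)) := by positivity
          rw [hE]
          linarith
      have h7 : 0 < r ^ ν := by positivity
      have h8 : r ^ ν ≤ R ^ ν := pow_le_pow_left₀ hrpos.le hrR ν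
      have h9 := mul_le_mul_of_nonneg_left h6 h7.le
      have h10 := mul_le_mul_of_nonneg_right h8 hE1
      have h11 : 0 < R ^ ν := by positivity
      show -(R ^ ν * E) - r ^ ν * Real.exp (m₁ * u r) *
        (-F c m h K s k r (u r) (y r) - m₁ * k * y r ^ 2) < 0
      have h12 : r ^ ν * Real.exp (m₁ * u r) *
          (-F c m h K s k r (u r) (y r) - m₁ * k * y r ^ 2) = r ^ ν * (Real.exp (m₁ * u r) *
          (-F c m h K s k r (u r) (y r) - m₁ * k * y r ^ 2)) := by ring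
      rw [h12]
      linarith
  have hend := hbelow t₁ ⟨hρt.le, le_rfl⟩
  have h2 : R ^ ν * E * (t₁ - ρ) ≤ R ^ (ν + 1) * E := by
    have h3 : R ^ ν * E * (t₁ - ρ) ≤ R ^ ν * E * R :=
      mul_le_mul_of_nonneg_left (by linarith [ht₁.2]) (by positivity)
    calc R ^ ν * E * (t₁ - ρ) ≤ R ^ ν * E * R := h3
      _ = R ^ (ν + 1) * E := by ring
  have h3 : R ^ ν * Q ≤ W t₁ := by linarith
  have h4 : W t₁ = t₁ ^ ν * (-y t₁) := by
    simp only [hW]
    rw [hu1, mul_zero, Real.exp_zero, mul_one]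
  rw [h4] at h3
  have h5 : 0 < t₁ ^ ν := pow_pos ht₁.1 ν
  have h6 : t₁ ^ ν ≤ R ^ ν := pow_le_pow_left₀ ht₁.1.le ht₁.2 ν
  have h7 : t₁ ^ ν * (-y t₁) < t₁ ^ ν * Q := mul_lt_mul_of_pos_left hcon' h5
  have h8 : t₁ ^ ν * Q ≤ R ^ ν * Q := mul_le_mul_of_nonneg_right h6 hQ0.le
  linarith

end QGN
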