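import Pool.Agent.QGN.SDefs
import Pool.Agent.QGN.Aux1
import Pool.Agent.QGN.NoRet

/-!
# No return, for radial solutions in balls
-/

open Set

namespace QGN

/-- module SNORET -/
theorem sno_return {c m h : ℝ → ℝ} {c₁ c₂ m₁ m₂ H₀ : ℝ} (D : SDat c m h c₁ c₂ m₁ m₂ H₀) (ν : ℕ)
    {K s k β Q₀ r₁ : ℝ} {u y w : ℝ → ℝ} (hs : 0 < s) (hk : 1 ≤ k) (hr₁ : 0 < r₁) (hQ : 1 ≤ Q₀)
    (hQ2 : c₂ + 2 + ν / r₁ + H₀ ≤ m₁ * Q₀) (hK : Q₀ ≤ K) (O : SOrb c m h ν K s k β u y w) {t₁ : ℝ}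
    (ht₁ : r₁ ≤ t₁) (hu : u t₁ ≤ 0) (hy : Q₀ - u t₁ ≤ -y t₁) :
    ∀ t, t₁ < t → u t < u t₁ ∧ y t < 0 := by
  intro t ht
  have hk0 : 0 < k := by linarith
  -- while `y ≤ u - Q₀` we have `u ≤ 0`
  have hneg : ∀ b, (∀ r ∈ Icc t₁ b, Q₀ - u r + y r ≤ 0) → ∀ r ∈ Icc t₁ b, u r ≤ 0 := by
    intro b hb
    apply persist (Y' := fun r => k * y r) (fun r _ => O.du r) hu
    intro r hr _ hr0
    have h1 := hb r ⟨hr.1, hr.2.le⟩
    have h2 : y r < 0 := by linarith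
    exact mul_neg_of_pos_of_neg hk0 h2
  have hW : ∀ r ∈ Icc t₁ t, Q₀ - u r + y r ≤ 0 := by
    apply persist (Y' := fun r => -(k * y r) + G c m h (sfric ν r₁) K s k r (u r) (y r))
    · intro r hr
      have h1 := (((hasDerivAt_const r Q₀).sub (O.du r)).add (O.dy' hr₁ (ht₁.trans hr.1)))
      have h2 : (0 - k * y r + G c m h (sfric ν r₁) K s k r (u r) (y r)) =
          -(k * y r) + G c m h (sfric ν r₁) K s k r (u r) (y r) := by ring
      rw [h2] at h1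
      exact h1
    · linarith
    · intro r hr hhist hr0
      have h1 : u r ≤ 0 := hneg r hhist r ⟨hr.1, le_rfl⟩
      have h2 := G_le_of_region (D.dat ν hr₁) hs hk hQ hQ2 hK (r := r) h1
        (show y r ≤ u r - Q₀ by linarith)
      have h3 : k * y r < 0 := mul_neg_of_pos_of_neg hk0 (by linarith)
      show -(k * y r) + G c m h (sfric ν r₁) K s k r (u r) (y r) < 0
      linarith
  have hU := hneg t hW
  have hY : ∀ r ∈ Icc t₁ t, y r < 0 := by
    intro r hr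
    have h1 := hW r hr
    have h2 := hU r hr
    linarith
  have hs : StrictAntiOn u (Icc t₁ t) := by
    apply strictAntiOn_of_deriv_neg (convex_Icc _ _)
    · exact fun r _ => (O.du r).continuousAt.continuousWithinAt
    · intro r hr
      rw [interior_Icc] at hr
      rw [(O.du r).deriv]
      exact mul_neg_of_pos_of_neg hk0 (hY r (Ioo_subset_Icc_self hr))
  exact ⟨hs (left_mem_Icc.2 ht.le) (right_mem_Icc.2 ht.le) ht, hY t (right_mem_Icc.2 ht.le)⟩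

end QGN
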