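import Pool.Agent.QGN.SDefs

/-!
# Small orbits of the singular system make many turns
-/

set_option autoImplicit false

open Set Filter Topology
open scoped Real

namespace QGN

namespace SRo

theorem T_le_abs {K y : ℝ} : T K y ≤ |y| * |y| :=
  mul_le_mul_of_nonneg_left (min_le_left _ _) (abs_nonneg _)

/-- `|h / k * X| * |w| ≤ (H₀ / (k s)) (|u| + |y|) |w|` -/
theorem forcing {H₀ k s u y x w : ℝ} (hH : |x| ≤ H₀) (hk : 0 < k) (hs : 0 < s) :
    |x / k * X s u y * w| ≤ H₀ / (k * s) * ((|u| + |y|) * |w|) := by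
  have hX0 := X_nonneg hs u y
  have hX1 := X_le s u y
  have hH0 : 0 ≤ H₀ := (abs_nonneg x).trans hH
  rw [abs_mul, abs_mul, abs_div, abs_of_pos hk, abs_of_nonneg hX0]
  calc |x| / k * X s u y * |w| ≤ H₀ / k * ((|u| + |y|) / s) * |w| := by gcongr
    _ = H₀ / (k * s) * ((|u| + |y|) * |w|) := by
        field_simp

/-- the growth of `N = u² + y²` -/
theorem growth {c m h : ℝ → ℝ} {c₁ c₂ m₁ m₂ H₀ : ℝ} (D : SDat c m h c₁ c₂ m₁ m₂ H₀) (ν : ℕ)
    {K s k r u y w : ℝ} (hK : 0 < K) (hs : 0 < s) (hk : 0 < k) (hks : 4 * H₀ ≤ k * (k * s))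
    (hy : |y| ≤ 1) (hyw : 0 ≤ y * w) :
    2 * (u * (k * y)) + 2 * (y * (F c m h K s k r u y - ν * w)) ≤
      k * (2 + c₂ + 2 * m₂) * (u ^ 2 + y ^ 2) := by
  have hc0 : 0 < c r := D.c₁pos.trans_le (D.c₁le r)
  have hm0 : 0 < m r := D.m₁pos.trans_le (D.m₁le r)
  have hc2 := D.lec₂ r
  have hm2 := D.lem₂ r
  have hν : (0 : ℝ) ≤ ν := Nat.cast_nonneg ν
  have hT0 := T_nonneg hK.le y
  have hT1 : T K y ≤ |y| * |y| := T_le_abs
  have hf := forcing (u := u) (y := y) (w := y) (D.leH₀ r) hk hs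
  have hH0 : 0 ≤ H₀ := (abs_nonneg _).trans (D.leH₀ r)
  have hu2 : u ^ 2 = |u| * |u| := by rw [abs_mul_abs_self]; ring
  have hy2 : y ^ 2 = |y| * |y| := by rw [abs_mul_abs_self]; ring
  have hu0 := abs_nonneg u
  have hy0 := abs_nonneg y
  have e : 2 * (u * (k * y)) + 2 * (y * (F c m h K s k r u y - ν * w)) =
      2 * k * (u * y) + 2 * k * c r * (-(u * y)) + 2 * k * m r * (-(T K y * y)) -
        2 * (ν * (y * w)) - 2 * (h r / k * X s u y * y) := by
    simp only [F]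
    ring
  rw [e]
  have b1 : u * y ≤ |u| * |y| := by rw [← abs_mul]; exact le_abs_self _
  have b2 : -(u * y) ≤ |u| * |y| := by rw [← abs_mul]; exact neg_le_abs _
  have b3 : -(T K y * y) ≤ |y| * |y| := by
    calc -(T K y * y) ≤ |T K y * y| := neg_le_abs _
      _ = T K y * |y| := by rw [abs_mul, abs_of_nonneg hT0]
      _ ≤ (|y| * |y|) * 1 := mul_le_mul hT1 hy hy0 (by positivity)
      _ = |y| * |y| := mul_one _
  have b4 : -(h r / k * X s u y * y) ≤ H₀ / (k * s) * ((|u| + |y|) * |y|) :=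
    (neg_le_abs _).trans hf
  have b5 : 0 ≤ ν * (y * w) := by positivity
  have b6 : |u| * |y| ≤ (|u| * |u| + |y| * |y|) / 2 := by nlinarith [sq_nonneg (|u| - |y|)]
  have b7 : H₀ / (k * s) ≤ k / 4 := by
    rw [div_le_iff₀ (by positivity)]
    linarith
  have b8 : (|u| + |y|) * |y| ≤ 2 * (|u| * |u| + |y| * |y|) := by nlinarith
  have b9 : H₀ / (k * s) * ((|u| + |y|) * |y|) ≤ k / 4 * (2 * (|u| * |u| + |y| * |y|)) :=
    mul_le_mul b7 b8 (by positivity) (by positivity)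
  have d1 : 2 * k * (u * y) ≤ 2 * k * ((|u| * |u| + |y| * |y|) / 2) :=
    mul_le_mul_of_nonneg_left (b1.trans b6) (by positivity)
  have d2 : 2 * k * c r * (-(u * y)) ≤ 2 * k * c₂ * ((|u| * |u| + |y| * |y|) / 2) := by
    have d3 : 2 * k * c r * (-(u * y)) ≤ 2 * k * c r * ((|u| * |u| + |y| * |y|) / 2) :=
      mul_le_mul_of_nonneg_left (b2.trans b6) (by positivity)
    refine d3.trans (mul_le_mul_of_nonneg_right ?_ (by positivity))
    exact mul_le_mul_of_nonneg_left hc2 (by positivity)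
  have d4 : 2 * k * m r * (-(T K y * y)) ≤ 2 * k * m₂ * (|u| * |u| + |y| * |y|) := by
    have d5 : 2 * k * m r * (-(T K y * y)) ≤ 2 * k * m r * (|u| * |u| + |y| * |y|) := by
      refine mul_le_mul_of_nonneg_left (b3.trans ?_) (by positivity)
      nlinarith
    refine d5.trans (mul_le_mul_of_nonneg_right ?_ (by positivity))
    exact mul_le_mul_of_nonneg_left hm2 (by positivity)
  rw [hu2, hy2]
  nlinarith

/-- the angular velocity -/
theorem angular {c m h : ℝ → ℝ} {c₁ c₂ m₁ m₂ H₀ : ℝ} (D : SDat c m h c₁ c₂ m₁ m₂ H₀) (ν : ℕ)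
    {K s k r u y w mi ρ : ℝ} (hK : 0 < K) (hs : 0 < s) (hk : 0 < k) (hmi : 0 < mi)
    (hmi1 : mi ≤ 1) (hmic : mi ≤ c₁) (hρ : 8 * (m₂ * ρ) ≤ mi) (hρ0 : 0 ≤ ρ)
    (hw : ν * |w| ≤ k * mi / 4 * |y|)
    (hks : 16 * H₀ ≤ mi * (k * (k * s))) (hu : |u| ≤ ρ) (hN : 0 < u ^ 2 + y ^ 2) :
    (u * (F c m h K s k r u y - ν * w) - k * y ^ 2) / (u ^ 2 + y ^ 2) ≤ -(k * mi / 2) := by
  have hc1 := D.c₁le r
  have hm0 : 0 < m r := D.m₁pos.trans_le (D.m₁le r)
  have hm2 := D.lem₂ r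
  have hm20 : 0 < m₂ := hm0.trans_le hm2
  have hν : (0 : ℝ) ≤ ν := Nat.cast_nonneg ν
  have hT0 := T_nonneg hK.le y
  have hT1 : T K y ≤ |y| * |y| := T_le_abs
  have hf := forcing (u := u) (y := y) (w := u) (D.leH₀ r) hk hs
  have hH0 : 0 ≤ H₀ := (abs_nonneg _).trans (D.leH₀ r)
  have hu2 : u ^ 2 = |u| * |u| := by rw [abs_mul_abs_self]; ring
  have hy2 : y ^ 2 = |y| * |y| := by rw [abs_mul_abs_self]; ring
  have hu0 := abs_nonneg u
  have hy0 := abs_nonneg y
  rw [div_le_iff₀ hN]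
  have e : u * (F c m h K s k r u y - ν * w) - k * y ^ 2 =
      -(k * c r * u ^ 2) - k * y ^ 2 + k * m r * (-(T K y * u)) + (-(ν * (w * u))) -
        h r / k * X s u y * u := by
    simp only [F]
    ring
  rw [e]
  have b6 : |u| * |y| ≤ (|u| * |u| + |y| * |y|) / 2 := by nlinarith [sq_nonneg (|u| - |y|)]
  have b1 : k * m r * (-(T K y * u)) ≤ k * mi / 8 * (|u| * |u| + |y| * |y|) := by
    have c1 : -(T K y * u) ≤ (|y| * |y|) * ρ := by
      calc -(T K y * u) ≤ |T K y * u| := neg_le_abs _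
        _ = T K y * |u| := by rw [abs_mul, abs_of_nonneg hT0]
        _ ≤ (|y| * |y|) * ρ := mul_le_mul hT1 hu hu0 (by positivity)
    have c2 : k * m r * (-(T K y * u)) ≤ k * m₂ * ((|y| * |y|) * ρ) := by
      have c3 : k * m r * (-(T K y * u)) ≤ k * m r * ((|y| * |y|) * ρ) :=
        mul_le_mul_of_nonneg_left c1 (by positivity)
      refine c3.trans (mul_le_mul_of_nonneg_right ?_ (by positivity))
      exact mul_le_mul_of_nonneg_left hm2 hk.le
    have c4 : k * m₂ * ((|y| * |y|) * ρ) ≤ k * mi / 8 * (|y| * |y|) := by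
      have c5 : k * m₂ * ((|y| * |y|) * ρ) = k * (|y| * |y|) / 8 * (8 * (m₂ * ρ)) := by ring
      have c6 : k * mi / 8 * (|y| * |y|) = k * (|y| * |y|) / 8 * mi := by ring
      rw [c5, c6]
      exact mul_le_mul_of_nonneg_left hρ (by positivity)
    have c7 : k * mi / 8 * (|y| * |y|) ≤ k * mi / 8 * (|u| * |u| + |y| * |y|) :=
      mul_le_mul_of_nonneg_left (by nlinarith) (by positivity)
    linarith
  have b2 : -(ν * (w * u)) ≤ k * mi / 8 * (|u| * |u| + |y| * |y|) := by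
    have c1 : -(ν * (w * u)) ≤ ν * |w| * |u| := by
      calc -(ν * (w * u)) ≤ |ν * (w * u)| := neg_le_abs _
        _ = ν * |w| * |u| := by rw [abs_mul, abs_mul, abs_of_nonneg hν]; ring
    have c2 : ν * |w| * |u| ≤ k * mi / 4 * |y| * |u| := mul_le_mul_of_nonneg_right hw hu0
    have c3 : k * mi / 4 * |y| * |u| = k * mi / 4 * (|u| * |y|) := by ring
    have c4 : k * mi / 4 * (|u| * |y|) ≤ k * mi / 4 * ((|u| * |u| + |y| * |y|) / 2) :=
      mul_le_mul_of_nonneg_left b6 (by positivity)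
    linarith
  have b3 : -(h r / k * X s u y * u) ≤ k * mi / 8 * (|u| * |u| + |y| * |y|) := by
    have c1 : H₀ / (k * s) ≤ k * mi / 16 := by
      rw [div_le_iff₀ (by positivity)]
      nlinarith
    have c2 : (|u| + |y|) * |u| ≤ 2 * (|u| * |u| + |y| * |y|) := by nlinarith
    have c3 : H₀ / (k * s) * ((|u| + |y|) * |u|) ≤ k * mi / 16 * (2 * (|u| * |u| + |y| * |y|)) :=
      mul_le_mul c1 c2 (by positivity) (by positivity)
    have c4 := (neg_le_abs (h r / k * X s u y * u)).trans hf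
    linarith
  have b4 : k * mi * (u ^ 2 + y ^ 2) ≤ k * c r * u ^ 2 + k * y ^ 2 := by
    have c1 : k * mi * u ^ 2 ≤ k * c r * u ^ 2 :=
      mul_le_mul_of_nonneg_right (mul_le_mul_of_nonneg_left (hmic.trans hc1) hk.le) (sq_nonneg _)
    have c2 : k * mi * y ^ 2 ≤ k * 1 * y ^ 2 :=
      mul_le_mul_of_nonneg_right (mul_le_mul_of_nonneg_left hmi1 hk.le) (sq_nonneg _)
    linarith
  have b5 : 0 ≤ k * mi * (u ^ 2 + y ^ 2) := by positivity
  rw [← hu2, ← hy2] at b1 b2 b3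
  linarith

end SRo

open SRo in
/-- module SROT -/
theorem srot {c m h : ℝ → ℝ} {c₁ c₂ m₁ m₂ H₀ : ℝ} (D : SDat c m h c₁ c₂ m₁ m₂ H₀) (ν J : ℕ) :
    ∃ δ τ M A : ℝ, 0 < δ ∧ δ ≤ 1 ∧ 0 < τ ∧ 0 < M ∧ 1 ≤ A ∧
      ∀ (k K s β t : ℝ) (u y w θ : ℝ → ℝ), 1 ≤ k → 0 < K → 0 < s → A ≤ k ^ 2 * s →
        SOrb c m h ν K s k β u y w → SAng c m h ν K s k u y w θ → M / k ≤ t →
        u t ^ 2 + y t ^ 2 ≤ δ ^ 2 → θ (t + τ / k) ≤ θ t - J * π := by
  have hm20 : 0 < m₂ := D.m₂pos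
  have hc20 : 0 < c₂ := D.c₂pos
  have hH00 : 0 ≤ H₀ := D.H₀nonneg
  have hν : (0 : ℝ) ≤ ν := Nat.cast_nonneg ν
  obtain ⟨mi, hmi⟩ : ∃ mi, mi = min 1 c₁ := ⟨_, rfl⟩
  have hmi0 : 0 < mi := by rw [hmi]; exact lt_min one_pos D.c₁pos
  have hmi1 : mi ≤ 1 := by rw [hmi]; exact min_le_left _ _
  have hmic : mi ≤ c₁ := by rw [hmi]; exact min_le_right _ _
  obtain ⟨ρ, hρ⟩ : ∃ ρ, ρ = min (1 / 2) (mi / (8 * m₂)) := ⟨_, rfl⟩
  have hρ0 : 0 < ρ := by rw [hρ]; exact lt_min (by norm_num) (by positivity)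
  have hρ1 : ρ ≤ 1 / 2 := by rw [hρ]; exact min_le_left _ _
  have hρ2 : 8 * (m₂ * ρ) ≤ mi := by
    have h1 : ρ ≤ mi / (8 * m₂) := by rw [hρ]; exact min_le_right _ _
    rw [le_div_iff₀ (by positivity)] at h1
    linarith
  obtain ⟨τ, hτ⟩ : ∃ τ, τ = 2 * (J * π) / mi + 1 := ⟨_, rfl⟩
  have hτ0 : 0 < τ := by rw [hτ]; positivity
  have hτ1 : J * π ≤ mi * τ / 2 := by
    have h1 : mi * τ / 2 = J * π + mi / 2 := by
      rw [hτ]
      field_simp
    rw [h1]
    linarith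
  obtain ⟨C, hC⟩ : ∃ C, C = 3 + c₂ + 2 * m₂ := ⟨_, rfl⟩
  have hC0 : 0 < C := by rw [hC]; positivity
  have hCτ : 0 ≤ C * τ := by positivity
  refine ⟨ρ * Real.exp (-(C * τ / 2)), τ, 4 * ν / mi + 1, 16 * H₀ / mi + 4 * H₀ + 1,
    by positivity, ?_, hτ0, by positivity, ?_, ?_⟩
  · have h1 : Real.exp (-(C * τ / 2)) ≤ 1 := Real.exp_le_one_iff.2 (by linarith)
    have h2 := Real.exp_pos (-(C * τ / 2))
    nlinarith
  · have h1 : 0 ≤ 16 * H₀ / mi := by positivity
    linarith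
  intro k K s β t u y w θ hk1 hK hs hks O A htM hNt
  have hkpos : 0 < k := lt_of_lt_of_le one_pos hk1
  have hks1 : 4 * H₀ ≤ k * (k * s) := by
    have h1 : 0 ≤ 16 * H₀ / mi := by positivity
    have h2 : k ^ 2 * s = k * (k * s) := by ring
    rw [h2] at hks
    linarith
  have hks2 : 16 * H₀ ≤ mi * (k * (k * s)) := by
    have h2 : k ^ 2 * s = k * (k * s) := by ring
    rw [h2] at hks
    have h3 : 16 * H₀ / mi ≤ k * (k * s) := by linarith
    rw [div_le_iff₀ hmi0] at h3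
    linarith
  have htpos : 0 < t := lt_of_lt_of_le (by positivity) htM
  have hkt : 4 * ν ≤ mi * (k * t) := by
    rw [div_le_iff₀ hkpos] at htM
    have h1 : mi * (4 * ν / mi + 1) ≤ mi * (t * k) := mul_le_mul_of_nonneg_left htM hmi0.le
    have h2 : mi * (4 * ν / mi + 1) = 4 * ν + mi := by
      field_simp
    linarith
  have hfric : ∀ r, t ≤ r → ν * |w r| ≤ k * mi / 4 * |y r| := by
    intro r hr
    have hr0 : 0 < r := htpos.trans_le hr
    rw [O.yw r, abs_mul, abs_of_pos hr0]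
    have h1 : ν ≤ k * mi / 4 * r := by
      have h2 : mi * (k * t) ≤ mi * (k * r) := by gcongr
      linarith
    calc ν * |w r| ≤ (k * mi / 4 * r) * |w r| := mul_le_mul_of_nonneg_right h1 (abs_nonneg _)
      _ = k * mi / 4 * (r * |w r|) := by ring
  -- the growth of `N`
  have hNder : ∀ r, HasDerivAt (fun r => u r ^ 2 + y r ^ 2)
      (2 * (u r * (k * y r)) + 2 * (y r * (F c m h K s k r (u r) (y r) - ν * w r))) r := by
    intro r
    have h1 := ((O.du r).pow 2).add ((O.dy r).pow 2)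
    refine h1.congr_deriv ?_
    simp only [Nat.cast_ofNat, Nat.add_one_sub_one, pow_one]
    ring
  have hNa : u t ^ 2 + y t ^ 2 ≤ ρ ^ 2 * Real.exp (-(C * τ)) := by
    refine hNt.trans (le_of_eq ?_)
    rw [mul_pow, ← Real.exp_nat_mul]
    have : ((2 : ℕ) : ℝ) * -(C * τ / 2) = -(C * τ) := by push_cast; ring
    rw [this]
  have hexp : ∀ r ∈ Icc t (t + τ / k), -(C * τ) + k * C * (r - t) ≤ 0 := by
    intro r hr
    have h1 : r - t ≤ τ / k := by linarith [hr.2]
    have h2 : k * (r - t) ≤ τ := by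
      rw [le_div_iff₀ hkpos] at h1
      linarith
    nlinarith
  have hgrow : ∀ r ∈ Icc t (t + τ / k),
      u r ^ 2 + y r ^ 2 ≤ ρ ^ 2 * Real.exp (-(C * τ) + k * C * (r - t)) := by
    refine image_le_of_deriv_right_lt_deriv_boundary
      (f := fun r => u r ^ 2 + y r ^ 2)
      (f' := fun r => 2 * (u r * (k * y r)) +
        2 * (y r * (F c m h K s k r (u r) (y r) - ν * w r)))
      (B := fun r => ρ ^ 2 * Real.exp (-(C * τ) + k * C * (r - t)))
      (B' := fun r => ρ ^ 2 * (Real.exp (-(C * τ) + k * C * (r - t)) * (k * C)))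
      (fun r _ => (hNder r).continuousAt.continuousWithinAt)
      (fun r _ => (hNder r).hasDerivWithinAt) ?_ ?_ ?_
    · simp only [sub_self, mul_zero, add_zero]
      exact hNa
    · intro r
      have h1 : HasDerivAt (fun r => -(C * τ) + k * C * (r - t)) (k * C) r := by
        have h2 := (((hasDerivAt_id r).sub_const t).const_mul (k * C)).const_add (-(C * τ))
        simpa using h2
      exact (h1.exp).const_mul _
    · intro r hr heq
      have hle := hexp r ⟨hr.1, hr.2.le⟩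
      have h3 : u r ^ 2 + y r ^ 2 ≤ ρ ^ 2 := by
        rw [heq]
        have := Real.exp_le_one_iff.2 hle
        nlinarith [sq_nonneg ρ]
      have h4 : |y r| ≤ 1 := by
        rw [← sq_le_one_iff_abs_le_one]
        nlinarith [sq_nonneg (u r)]
      have hr0 : 0 ≤ r := htpos.le.trans hr.1
      have h5 := growth (r := r) (u := u r) (y := y r) (w := w r) D ν hK hs hkpos hks1 h4
        (O.yw_nonneg hr0)
      have h6 := A.pos r hr0
      have h7 : ρ ^ 2 * (Real.exp (-(C * τ) + k * C * (r - t)) * (k * C)) =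
          k * C * (u r ^ 2 + y r ^ 2) := by
        rw [heq]
        ring
      rw [h7]
      refine lt_of_le_of_lt h5 ?_
      apply mul_lt_mul_of_pos_right _ h6
      apply mul_lt_mul_of_pos_left _ hkpos
      rw [hC]
      linarith
  -- the angle
  have hsmall : ∀ r ∈ Icc t (t + τ / k), |u r| ≤ ρ := by
    intro r hr
    have h1 := hgrow r hr
    have h3 := Real.exp_le_one_iff.2 (hexp r hr)
    have h4 : u r ^ 2 ≤ ρ ^ 2 := by nlinarith [sq_nonneg ρ, sq_nonneg (y r)]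
    exact abs_le_of_sq_le_sq h4 hρ0.le |>.trans le_rfl
  have hang : ∀ r ∈ Icc t (t + τ / k), θ r ≤ θ t - k * mi / 2 * (r - t) := by
    refine image_le_of_deriv_right_le_deriv_boundary
      (f := θ)
      (f' := fun r => (u r * (F c m h K s k r (u r) (y r) - ν * w r) - k * y r ^ 2) /
        (u r ^ 2 + y r ^ 2))
      (B := fun r => θ t - k * mi / 2 * (r - t))
      (B' := fun _ => -(k * mi / 2))
      (fun r hr => (A.dth r (htpos.le.trans hr.1)).continuousAt.continuousWithinAt)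
      (fun r hr => (A.dth r (htpos.le.trans hr.1)).hasDerivWithinAt) ?_ ?_ ?_ ?_
    · simp
    · exact (Continuous.continuousOn (by fun_prop))
    · intro r _
      have h2 := (((hasDerivAt_id r).sub_const t).const_mul (k * mi / 2)).const_sub (θ t)
      have h3 : HasDerivAt (fun r => θ t - k * mi / 2 * (r - t)) (-(k * mi / 2)) r := by
        simpa using h2
      exact h3.hasDerivWithinAt
    · intro r hr
      exact angular D ν hK hs hkpos hmi0 hmi1 hmic hρ2 hρ0.le (hfric r hr.1) hks2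
        (hsmall r ⟨hr.1, hr.2.le⟩) (A.pos r (htpos.le.trans hr.1))
  have h1 := hang (t + τ / k) ⟨by
    have : 0 ≤ τ / k := by positivity
    linarith, le_rfl⟩
  have h2 : k * mi / 2 * (t + τ / k - t) = mi * τ / 2 := by
    field_simp
    ring
  rw [h2] at h1
  linarith

end QGN
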