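import Pool.Agent.QGN.SFlow
import Pool.Agent.QGN.SAngle
import Pool.Agent.QGN.SApri
import Pool.Agent.QGN.SInit
import Pool.Agent.QGN.SLarge
import Pool.Agent.QGN.SRot
import Pool.Agent.QGN.SGrow
import Pool.Agent.QGN.SNoRet

/-!
# The one-dimensional boundary value problem for balls
-/

open Set Filter Topology
open scoped Real

namespace QGN

section Angles

variable {c m h : ℝ → ℝ} {ν : ℕ} {K s k : ℝ} {u y w θ : ℝ → ℝ}

theorem SAng.contOn (A : SAng c m h ν K s k u y w θ) {R : ℝ} : ContinuousOn θ (Icc 0 R) :=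
  fun r hr => (A.dth r hr.1).continuousAt.continuousWithinAt

theorem SAng.lt_half (A : SAng c m h ν K s k u y w θ) (hk : 0 < k) {r : ℝ} (hr : 0 ≤ r) :
    θ r < π / 2 := by
  rcases hr.eq_or_lt with h | h
  · rw [← h, A.th0]
    have := Real.pi_pos
    linarith
  · have h1 := A.lt_of_le hk (n := 0) le_rfl h (by rw [A.th0]; simp; positivity)
    simpa using h1

/-- the times at which the angle has the value `π / 2 - n π` -/
theorem SAng.exists_level (A : SAng c m h ν K s k u y w θ) {R : ℝ} (hR : 0 ≤ R) {n : ℕ}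
    (hn : 1 ≤ n) (h1 : θ R ≤ π / 2 - n * π) : ∃ t ∈ Ioc 0 R, θ t = π / 2 - n * π := by
  have hn1 : (1 : ℝ) ≤ n := by exact_mod_cast hn
  have hpi := Real.pi_pos
  have h4 : π / 2 - n * π < 0 := by nlinarith
  have h2 : π / 2 - n * π ∈ Icc (θ R) (θ 0) := by
    refine ⟨h1, ?_⟩
    rw [A.th0]
    exact h4.le
  obtain ⟨t, ht, h3⟩ := intermediate_value_Icc' hR A.contOn h2
  refine ⟨t, ⟨?_, ht.2⟩, h3⟩
  rcases ht.1.eq_or_lt with h5 | h5
  · rw [← h5, A.th0] at h3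
    linarith
  · exact h5

theorem SAng.lt_of_lt (A : SAng c m h ν K s k u y w θ) (hk : 0 < k) {n : ℕ} {r t : ℝ}
    (h0 : 0 ≤ r) (hr : r < t) (h1 : θ t = π / 2 - n * π) : π / 2 - n * π < θ r := by
  by_contra h2
  push Not at h2
  have := A.lt_of_le hk h0 hr h2
  rw [h1] at this
  exact lt_irrefl _ this

theorem SAng.u_eq_zero (A : SAng c m h ν K s k u y w θ) {n : ℕ} {t : ℝ} (h0 : 0 ≤ t)
    (h1 : θ t = π / 2 - n * π) : u t = 0 := by
  rw [A.pu t h0, h1, Real.cos_sub_nat_mul_pi]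
  simp

theorem SAng.u_pos (A : SAng c m h ν K s k u y w θ) {t : ℝ} (h0 : 0 ≤ t)
    (h1 : θ t < π / 2) (h2 : -(π / 2) < θ t) : 0 < u t := by
  rw [A.pu t h0]
  exact mul_pos (Real.sqrt_pos.2 (A.pos t h0)) (Real.cos_pos_of_mem_Ioo ⟨h2, h1⟩)

end Angles

section

variable {c m h : ℝ → ℝ} {c₁ c₂ m₁ m₂ H₀ : ℝ}

/-- the orbit that starts far away makes less than two half-turns -/
theorem snot_two (D : SDat c m h c₁ c₂ m₁ m₂ H₀) {ν : ℕ} {K s k R β Q₀ r₁ : ℝ} (hK : Q₀ ≤ K)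
    (hs : 0 < s) (hk : 1 ≤ k) (hR : 0 < R) (hr₁ : 0 < r₁) (hQ : 1 ≤ Q₀)
    (hQ2 : c₂ + 2 + ν / r₁ + H₀ ≤ m₁ * Q₀) {u y w θ : ℝ → ℝ}
    (O : SOrb c m h ν K s k β u y w) (A : SAng c m h ν K s k u y w θ)
    (hin : ∀ r ∈ Icc 0 r₁, 0 < u r)
    (hlg : ∀ t₁, t₁ ∈ Ioc 0 R → (∀ t ∈ Ico 0 t₁, 0 < u t) → u t₁ = 0 → y t₁ ≤ -Q₀) :
    π / 2 - (2 : ℕ) * π < θ R := by
  have hk0 : 0 < k := by linarith
  by_contra hc
  push Not at hc
  obtain ⟨t₂, ht₂, h2⟩ := A.exists_level hR.le (by norm_num) hc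
  have hc1 : θ R ≤ π / 2 - (1 : ℕ) * π := by
    push_cast at hc ⊢
    nlinarith [Real.pi_pos]
  obtain ⟨t₁, ht₁, h1⟩ := A.exists_level hR.le le_rfl hc1
  have h12 : t₁ < t₂ := by
    by_contra hc
    push Not at hc
    rcases hc.eq_or_lt with h6 | h6
    · rw [← h6, h2] at h1
      push_cast at h1
      nlinarith [Real.pi_pos]
    · have h7 := A.lt_of_le hk0 ht₂.1.le h6 h2.le
      rw [h1] at h7
      push_cast at h7
      nlinarith [Real.pi_pos]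
  have hpos : ∀ t ∈ Ico 0 t₁, 0 < u t := by
    intro t ht
    have h4 := A.lt_of_lt hk0 ht.1 ht.2 h1
    refine A.u_pos ht.1 (A.lt_half hk0 ht.1) ?_
    push_cast at h4
    linarith
  have hu1 := A.u_eq_zero ht₁.1.le h1
  have hy1 := hlg t₁ ht₁ hpos hu1
  have hrt : r₁ ≤ t₁ := by
    by_contra hc
    push Not at hc
    have := hin t₁ ⟨ht₁.1.le, hc.le⟩
    rw [hu1] at this
    exact lt_irrefl _ this
  have h3 := (sno_return D ν hs hk hr₁ hQ hQ2 hK O hrt hu1.le (by rw [hu1]; linarith) t₂ h12).1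
  rw [hu1, A.u_eq_zero ht₂.1.le h2] at h3
  exact lt_irrefl _ h3

theorem F_cont (D : SDat c m h c₁ c₂ m₁ m₂ H₀) {ν : ℕ} {K s k β : ℝ} {u y w : ℝ → ℝ}
    (O : SOrb c m h ν K s k β u y w) :
    Continuous fun r => F c m h K s k r (u r) (y r) := by
  have hu : Continuous u := continuous_iff_continuousAt.2 fun r => (O.du r).continuousAt
  have hy : Continuous y := continuous_iff_continuousAt.2 fun r => (O.dy r).continuousAt
  have h1 := D.cc
  have h2 := D.cm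
  have h3 := D.ch
  unfold F T X
  fun_prop

theorem sq_le_abs {s a b : ℝ} (hs : 0 < s) (h : |a| + |b| < s) : a ^ 2 + b ^ 2 ≤ s ^ 2 := by
  have h1 := abs_nonneg a
  have h2 := abs_nonneg b
  have h3 : a ^ 2 + b ^ 2 = |a| ^ 2 + |b| ^ 2 := by rw [sq_abs, sq_abs]
  rw [h3]
  nlinarith

/-- an orbit with at most `J` half-turns stays away from the origin -/
theorem samp {ν J : ℕ} {δ τ M A C C' R : ℝ} (hδ : 0 < δ) (hδ1 : δ ≤ 1) (hτ : 0 < τ) (hM : 0 < M)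
    (hA : 1 ≤ A) (hC : 0 < C) (hC' : 0 < C')
    (hrot : ∀ (k K s β t : ℝ) (u y w θ : ℝ → ℝ), 1 ≤ k → 0 < K → 0 < s → A ≤ k ^ 2 * s →
        SOrb c m h ν K s k β u y w → SAng c m h ν K s k u y w θ → M / k ≤ t →
        u t ^ 2 + y t ^ 2 ≤ δ ^ 2 → θ (t + τ / k) ≤ θ t - J * π)
    (hgr : ∀ (k K s β t t' : ℝ) (u y w : ℝ → ℝ), 1 ≤ k → 0 < K → 0 < s →
      1 ≤ k ^ 2 * s → SOrb c m h ν K s k β u y w → 0 ≤ t → t ≤ t' →
      (u t ^ 2 + y t ^ 2) * Real.exp (C * k * (t' - t)) ≤ 1 →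
      u t' ^ 2 + y t' ^ 2 ≤ (u t ^ 2 + y t ^ 2) * Real.exp (C * k * (t' - t)))
    (hgb : ∀ (k K s β t t' : ℝ) (u y w : ℝ → ℝ), 1 ≤ k → 0 < K → 0 < s →
      1 ≤ k ^ 2 * s → SOrb c m h ν K s k β u y w → R / 2 ≤ t → t ≤ t' →
      (u t' ^ 2 + y t' ^ 2) * Real.exp (C' * k * (t' - t)) ≤ 1 →
      u t ^ 2 + y t ^ 2 ≤ (u t' ^ 2 + y t' ^ 2) * Real.exp (C' * k * (t' - t)))
    {k K s β : ℝ} {u y w θ : ℝ → ℝ} (hR : 0 < R) (hk : 1 ≤ k) (hK : 0 < K) (hs : 0 < s)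
    (hsA : A ≤ k ^ 2 * s) (hk1 : (M + 2 * τ) / k ≤ R / 2) (hs1 : s ^ 2 * Real.exp (C * M) ≤ δ ^ 2)
    (hs2 : s ^ 2 * Real.exp (C' * τ) ≤ δ ^ 2) (O : SOrb c m h ν K s k β u y w)
    (Θ : SAng c m h ν K s k u y w θ) (hθ : π / 2 - J * π ≤ θ R) :
    ∀ t ∈ Icc 0 R, s ≤ |u t| + |y t| := by
  have hk0 : 0 < k := by linarith
  have h1A : 1 ≤ k ^ 2 * s := hA.trans hsA
  have hδ2 : δ ^ 2 ≤ 1 := by nlinarith
  have hMk : 0 < M / k := by positivity
  have hτk : 0 < τ / k := by positivity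
  have hk1' : M / k + 2 * (τ / k) ≤ R / 2 := by
    calc M / k + 2 * (τ / k) = (M + 2 * τ) / k := by ring
      _ ≤ R / 2 := hk1
  -- a point at which the orbit is close to the origin leads to a contradiction
  have key : ∀ t, M / k ≤ t → t + τ / k ≤ R → u t ^ 2 + y t ^ 2 ≤ δ ^ 2 → False := by
    intro t h1 h2 h3
    have h4 := hrot k K s β t u y w θ hk hK hs hsA O Θ h1 h3
    have h5 := Θ.lt_half hk0 (hMk.le.trans h1)
    have h6 : θ (t + τ / k) ≤ π / 2 - J * π := by linarith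
    rcases h2.eq_or_lt with h7 | h7
    · rw [h7] at h4
      linarith
    · have := Θ.lt_of_le hk0 (by linarith : 0 ≤ t + τ / k) h7 h6
      linarith
  intro t ht
  by_contra hc
  push Not at hc
  have hN := sq_le_abs hs hc
  have hN0 : 0 ≤ u t ^ 2 + y t ^ 2 := by positivity
  rcases le_total t (M / k) with h1 | h1
  · -- forward growth up to `M / k`
    have h2 : Real.exp (C * k * (M / k - t)) ≤ Real.exp (C * M) := by
      apply Real.exp_le_exp.2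
      calc C * k * (M / k - t) ≤ C * k * (M / k) :=
            mul_le_mul_of_nonneg_left (by linarith [ht.1]) (by positivity)
        _ = C * M := by field_simp
    have h3 : (u t ^ 2 + y t ^ 2) * Real.exp (C * k * (M / k - t)) ≤ δ ^ 2 :=
      (mul_le_mul hN h2 (Real.exp_pos _).le (by positivity)).trans hs1
    have h4 := hgr k K s β t (M / k) u y w hk hK hs h1A O ht.1 h1 (h3.trans hδ2)
    exact key (M / k) le_rfl (by linarith) (h4.trans h3)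
  · rcases le_total (t + τ / k) R with h2 | h2
    · have h3 : s ^ 2 ≤ δ ^ 2 := by
        have : 1 ≤ Real.exp (C * M) := Real.one_le_exp (by positivity)
        nlinarith [sq_nonneg s]
      exact key t h1 h2 (hN.trans h3)
    · -- backward growth
      have h3 : (u t ^ 2 + y t ^ 2) * Real.exp (C' * k * (t - (t - τ / k))) ≤ δ ^ 2 := by
        have h4 : C' * k * (t - (t - τ / k)) = C' * τ := by field_simp; ring
        rw [h4]
        exact (mul_le_mul_of_nonneg_right hN (Real.exp_pos _).le).trans hs2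
      have h4 := hgb k K s β (t - τ / k) t u y w hk hK hs h1A O (by linarith) (by linarith)
        (h3.trans hδ2)
      exact key (t - τ / k) (by linarith) (by linarith [ht.2]) (h4.trans h3)

/-- the singular boundary value problem in one dimension has many solutions when `k` is large -/
theorem sOneD (D : SDat c m h c₁ c₂ m₁ m₂ H₀) (ν : ℕ) {R : ℝ} (hR : 0 < R) (n : ℕ) :
    ∃ k₀ : ℝ, 0 < k₀ ∧ ∀ k, k₀ ≤ k → ∃ u y w z : Fin n → ℝ → ℝ,
      (∀ i, u i R = 0 ∧ (∀ r, y i r = r * w i r) ∧ Continuous (w i) ∧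
        (∀ r, HasDerivAt (u i) (k * y i r) r) ∧
        (∀ r, HasDerivAt (y i) (z i r - ν * w i r) r) ∧ Continuous (z i) ∧
        ∀ r ∈ Icc 0 R, z i r = -(k * (c r * u i r + m r * y i r ^ 2)) - h r / k) ∧
      ∀ i j, i ≠ j → u i 0 ≠ u j 0 := by
  set J : ℕ := n + 1 with hJ
  obtain ⟨δ, τ, M, A, hδ, hδ1, hτ, hM, hA, hrot⟩ := srot D ν J
  obtain ⟨C, hC, hgr⟩ := sgrow D ν
  obtain ⟨C', hC', hgb⟩ := sgrow_back D ν (half_pos hR)
  have hc₂ := D.c₂pos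
  have hm₂ := D.m₂pos
  have hm₁ := D.m₁pos
  have hH₀ := D.H₀nonneg
  have hA0 : 0 < A := by linarith
  have hp1 : 0 < 2 * (M + 2 * τ) / R := by positivity
  have hp2 : 0 < A * Real.exp (C * M) / δ := by positivity
  have hp3 : 0 < A * Real.exp (C' * τ) / δ := by positivity
  refine ⟨1 + 2 * (M + 2 * τ) / R + A * Real.exp (C * M) / δ + A * Real.exp (C' * τ) / δ,
    by positivity, fun k hk => ?_⟩
  have hk1 : 1 ≤ k := by linarith
  have hk0 : 0 < k := by linarith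
  have hkR : (M + 2 * τ) / k ≤ R / 2 := by
    have h1 : 2 * (M + 2 * τ) / R ≤ k := by linarith
    rw [div_le_iff₀ hR] at h1
    rw [div_le_iff₀ hk0]
    linarith
  obtain ⟨s, hs⟩ : ∃ s, s = A / k ^ 2 := ⟨_, rfl⟩
  have hs0 : 0 < s := by rw [hs]; positivity
  have hsA : k ^ 2 * s = A := by rw [hs]; field_simp
  have hsk : s ≤ A / k := by
    rw [hs]
    apply div_le_div_of_nonneg_left hA0.le hk0
    nlinarith
  have hsE : ∀ x : ℝ, 0 ≤ x → A * Real.exp x / δ ≤ k → s ^ 2 * Real.exp x ≤ δ ^ 2 := by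
    intro x hx h1
    have hE := Real.exp_pos x
    have hE1 : 1 ≤ Real.exp x := Real.one_le_exp hx
    rw [div_le_iff₀ hδ] at h1
    have h2 : s * k ≤ A := by rwa [le_div_iff₀ hk0] at hsk
    have h3 : s * Real.exp x ≤ δ := by
      have h4 : s * (A * Real.exp x) ≤ s * (k * δ) := mul_le_mul_of_nonneg_left h1 hs0.le
      have h5 : A * (s * Real.exp x) ≤ A * δ := by
        calc A * (s * Real.exp x) = s * (A * Real.exp x) := by ring
          _ ≤ s * (k * δ) := h4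
          _ = (s * k) * δ := by ring
          _ ≤ A * δ := mul_le_mul_of_nonneg_right h2 hδ.le
      exact le_of_mul_le_mul_left h5 hA0
    have h4 : s ≤ δ := by nlinarith
    calc s ^ 2 * Real.exp x = s * (s * Real.exp x) := by ring
      _ ≤ δ * δ := mul_le_mul h4 h3 (by positivity) hδ.le
      _ = δ ^ 2 := by ring
  have hs1 := hsE (C * M) (by positivity) (by linarith)
  have hs2 := hsE (C' * τ) (by positivity) (by linarith)
  -- the far orbit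
  obtain ⟨C₁, hC₁⟩ : ∃ C₁, C₁ = 2 * c₂ + m₂ + H₀ + 1 := ⟨_, rfl⟩
  have hC₁0 : 0 < C₁ := by rw [hC₁]; linarith
  obtain ⟨a, ha⟩ : ∃ a, a = (c₂ + 2 + H₀) / m₁ + 2 := ⟨_, rfl⟩
  obtain ⟨b, hb⟩ : ∃ b, b = 2 * ν * C₁ * k / m₁ + 1 := ⟨_, rfl⟩
  have hν : (0 : ℝ) ≤ ν := Nat.cast_nonneg ν
  have ha' : (H₀ + 1) / m₁ + 1 ≤ a := by
    rw [ha]
    have : (H₀ + 1) / m₁ ≤ (c₂ + 2 + H₀) / m₁ := by
      apply div_le_div_of_nonneg_right _ hm₁.le
      linarith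
    linarith
  have hb' : 2 * ν * (2 * c₂ + m₂ + H₀ + 1) * k / m₁ ≤ b := by
    rw [hb, hC₁]
    linarith
  obtain ⟨β₁, hβ₁, hlarge⟩ := slarge D ν hR hk1 ha' hb'
  have hβ0 : 0 < β₁ := by linarith
  have hsb : 1 ≤ √β₁ := Real.one_le_sqrt.2 hβ₁
  obtain ⟨Q₀, hQ₀⟩ : ∃ Q₀, Q₀ = a + b * √β₁ := ⟨_, rfl⟩
  obtain ⟨r₁, hr₁⟩ : ∃ r₁, r₁ = 1 / (2 * C₁ * k * √β₁) := ⟨_, rfl⟩
  have hr₁0 : 0 < r₁ := by rw [hr₁]; positivity
  have ha1 : 2 ≤ a := by
    rw [ha]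
    have : 0 ≤ (c₂ + 2 + H₀) / m₁ := by positivity
    linarith
  have hb1 : 1 ≤ b := by
    rw [hb]
    have : 0 ≤ 2 * ν * C₁ * k / m₁ := by positivity
    linarith
  have hQs : √β₁ < Q₀ := by
    rw [hQ₀]
    nlinarith
  have hQ1 : 1 ≤ Q₀ := by linarith
  have hQ2 : c₂ + 2 + ν / r₁ + H₀ ≤ m₁ * Q₀ := by
    have h1 : (ν : ℝ) / r₁ = 2 * ν * C₁ * k * √β₁ := by
      rw [hr₁]
      field_simp
    have h2 : m₁ * Q₀ = (c₂ + 2 + H₀ + 2 * m₁) + (2 * ν * C₁ * k + m₁) * √β₁ := by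
      rw [hQ₀, ha, hb]
      field_simp
    rw [h1, h2]
    nlinarith
  obtain ⟨K₁, hK₁⟩ := sapriori D ν hR (show 0 < Q₀ by linarith) hβ0 hk1
  obtain ⟨K, hKd⟩ : ∃ K, K = max K₁ Q₀ := ⟨_, rfl⟩
  have hKQ : Q₀ ≤ K := by rw [hKd]; exact le_max_right _ _
  have hKK : K₁ ≤ K := by rw [hKd]; exact le_max_left _ _
  have hK : 0 < K := by linarith
  obtain ⟨U, Y, W, hO, hU, hY, hW⟩ := exists_sflow D ν hK hs0 hk0
  obtain ⟨θ, hΘ, hθ⟩ := exists_sangle D ν hK hs0 hk0 hO hU hY hW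
  have hinit : ∀ β ∈ Icc 0 β₁, ∀ r ∈ Icc 0 r₁, |Y β r| ≤ √β₁ ∧ |U β r - β| ≤ β₁ / 2 := by
    intro β hβ r hr
    apply sinit D ν hk1 hβ₁ hK hs0 hβ (hO β) hr.1
    rw [← hC₁, ← hr₁]
    exact hr.2
  obtain ⟨δ₀, hδ₀⟩ : ∃ δ₀, δ₀ = δ * Real.exp (-(C * M / 2)) := ⟨_, rfl⟩
  have hδ₀0 : 0 < δ₀ := by rw [hδ₀]; positivity
  have hδ₀1 : δ₀ ≤ δ := by
    rw [hδ₀]
    have : Real.exp (-(C * M / 2)) ≤ 1 := by
      rw [Real.exp_le_one_iff]
      have : 0 ≤ C * M / 2 := by positivity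
      linarith
    nlinarith
  have hMk : 0 < M / k := by positivity
  have hτk : 0 < τ / k := by positivity
  have hkR' : M / k + 2 * (τ / k) ≤ R / 2 := by
    calc M / k + 2 * (τ / k) = (M + 2 * τ) / k := by ring
      _ ≤ R / 2 := hkR
  have h1A : 1 ≤ k ^ 2 * s := by rw [hsA]; exact hA
  have h1 : θ δ₀ R < π / 2 - J * π := by
    have hN0 : (U δ₀ 0 ^ 2 + Y δ₀ 0 ^ 2) * Real.exp (C * k * (M / k - 0)) = δ ^ 2 := by
      rw [(hO δ₀).u0, (hO δ₀).yw 0, hδ₀, show C * k * (M / k - 0) = C * M by field_simp; ring]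
      have h2 : Real.exp (-(C * M / 2)) ^ 2 * Real.exp (C * M) = 1 := by
        rw [← Real.exp_nat_mul, ← Real.exp_add]
        rw [Real.exp_eq_one_iff]
        push_cast
        ring
      calc ((δ * Real.exp (-(C * M / 2))) ^ 2 + (0 * W (δ * Real.exp (-(C * M / 2))) 0) ^ 2) *
          Real.exp (C * M) = δ ^ 2 * (Real.exp (-(C * M / 2)) ^ 2 * Real.exp (C * M)) := by ring
        _ = δ ^ 2 := by rw [h2, mul_one]
    have h2 := hgr k K s δ₀ 0 (M / k) (U δ₀) (Y δ₀) (W δ₀) hk1 hK hs0 h1A (hO δ₀) le_rfl hMk.le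
      (by rw [hN0]; nlinarith)
    rw [hN0] at h2
    have h3 := hrot k K s δ₀ (M / k) (U δ₀) (Y δ₀) (W δ₀) (θ δ₀) hk1 hK hs0 hsA.ge (hO δ₀)
      (hΘ δ₀ hδ₀0) le_rfl h2
    have h4 := (hΘ δ₀ hδ₀0).lt_half hk0 hMk.le
    exact (hΘ δ₀ hδ₀0).lt_of_le hk0 (by positivity) (by linarith : M / k + τ / k < R)
      (by linarith)
  have h2 : π / 2 - (2 : ℕ) * π < θ β₁ R := by
    refine snot_two D hKQ hs0 hk1 hR hr₁0 hQ1 hQ2 (hO β₁) (hΘ β₁ hβ0) ?_ ?_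
    · intro r hr
      have h3 := (abs_le.1 (hinit β₁ ⟨hβ0.le, le_rfl⟩ r hr).2).1
      linarith
    · intro t₁ ht₁ h3 h4
      have := hlarge K s t₁ (U β₁) (Y β₁) (W β₁) (by rw [← hQ₀]; exact hKQ) hs0 (hO β₁) ht₁ h3 h4
      rwa [← hQ₀] at this
  have hex : ∀ i : Fin n, ∃ β ∈ Icc δ₀ β₁, θ β R = π / 2 - ((i : ℕ) + 2 : ℕ) * π := by
    intro i
    have hi : ((i : ℕ) + 2 : ℕ) ≤ J := by omega
    have hi2 : (((i : ℕ) + 2 : ℕ) : ℝ) ≤ (J : ℝ) := by exact_mod_cast hi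
    have hi3 : (2 : ℝ) ≤ (((i : ℕ) + 2 : ℕ) : ℝ) := by
      have : (2 : ℕ) ≤ (i : ℕ) + 2 := by omega
      exact_mod_cast this
    have h3 : π / 2 - ((i : ℕ) + 2 : ℕ) * π ∈ Icc (θ δ₀ R) (θ β₁ R) := by
      constructor
      · nlinarith [Real.pi_pos]
      · push_cast at h2 hi3 ⊢
        nlinarith [Real.pi_pos]
    have h4 : ContinuousOn (fun β => θ β R) (Icc δ₀ β₁) :=
      (hθ R hR.le).mono fun β hβ => hδ₀0.trans_le hβ.1
    obtain ⟨β, hβ, h5⟩ := intermediate_value_Icc (by linarith) h4 h3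
    exact ⟨β, hβ, h5⟩
  choose β hβ hβθ using hex
  refine ⟨fun i => U (β i), fun i => Y (β i), fun i => W (β i),
    fun i r => F c m h K s k r (U (β i) r) (Y (β i) r), fun i => ?_, fun i j hij => ?_⟩
  · have O := hO (β i)
    have hβi0 : 0 < β i := hδ₀0.trans_le (hβ i).1
    have hβi : β i ∈ Icc 0 β₁ := ⟨hβi0.le, (hβ i).2⟩
    have Θ := hΘ (β i) hβi0
    have hub : U (β i) R = 0 := Θ.u_eq_zero hR.le (hβθ i)
    refine ⟨hub, O.yw, O.cw, O.du, O.dy, F_cont D O, ?_⟩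
    have hno : ∀ t ∈ Ico 0 R, U (β i) t ≤ 0 → -(Y (β i) t) < Q₀ - U (β i) t := by
      intro t ht hut
      rcases le_total t r₁ with h3 | h3
      · have h4 := (abs_le.1 (hinit (β i) hβi t ⟨ht.1, h3⟩).1).1
        linarith
      · by_contra hc
        push Not at hc
        have := (sno_return D ν hs0 hk1 hr₁0 hQ1 hQ2 hKQ O h3 hut hc R ht.2).1
        rw [hub] at this
        linarith
    have hap := hK₁ K s (β i) (U (β i)) (Y (β i)) (W (β i)) hK hs0 hβi O hno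
    have hi : ((i : ℕ) + 2 : ℕ) ≤ J := by omega
    have hi2 : (((i : ℕ) + 2 : ℕ) : ℝ) ≤ (J : ℝ) := by exact_mod_cast hi
    have hch := samp hδ hδ1 hτ hM hA hC hC' hrot hgr hgb hR hk1 hK hs0 hsA.ge hkR hs1 hs2 O Θ
      (by rw [hβθ i]; nlinarith [Real.pi_pos])
    intro r hr
    show F c m h K s k r (U (β i) r) (Y (β i) r) = _
    unfold F
    rw [T_eq ((hap r hr).trans hKK), X_eq hs0 (hch r hr), mul_one]
  · show U (β i) 0 ≠ U (β j) 0
    rw [(hO (β i)).u0, (hO (β j)).u0]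
    intro h3
    have h4 := hβθ i
    rw [h3, hβθ j] at h4
    have h5 : (((j : ℕ) + 2 : ℕ) : ℝ) = (((i : ℕ) + 2 : ℕ) : ℝ) := by
      have := Real.pi_pos
      have h6 : (((j : ℕ) + 2 : ℕ) : ℝ) * π = (((i : ℕ) + 2 : ℕ) : ℝ) * π := by linarith
      exact mul_right_cancel₀ this.ne' h6
    have h6 : (j : ℕ) + 2 = (i : ℕ) + 2 := by exact_mod_cast h5
    exact hij (Fin.ext (by omega))

end

end QGN
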