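import Pool.Agent.QGN.Defs

/-!
# Radial solutions in balls: the singular planar system

`u' = k y`, `y' = -k (c u + m y²) - (ν / r) y - h / k`, `u 0 = β`, `y 0 = 0`; here `ν = N - 1`, and
`y r = r * w r` with a continuous `w`.
-/

namespace QGN

/-- the second component of the field without the friction term -/
noncomputable def F (c m h : ℝ → ℝ) (K s k r u y : ℝ) : ℝ :=
  -(k * (c r * u + m r * T K y)) - h r / k * X s u y

/-- continuous data with bounds -/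
structure SDat (c m h : ℝ → ℝ) (c₁ c₂ m₁ m₂ H₀ : ℝ) : Prop where
  cc : Continuous c
  cm : Continuous m
  ch : Continuous h
  c₁pos : 0 < c₁
  m₁pos : 0 < m₁
  c₁le : ∀ r, c₁ ≤ c r
  lec₂ : ∀ r, c r ≤ c₂
  m₁le : ∀ r, m₁ ≤ m r
  lem₂ : ∀ r, m r ≤ m₂
  leH₀ : ∀ r, |h r| ≤ H₀

/-- `(u, y)` is the orbit starting at `(β, 0)` at the point `0`, and `y r = r * w r` -/
structure SOrb (c m h : ℝ → ℝ) (ν : ℕ) (K s k β : ℝ) (u y w : ℝ → ℝ) : Prop where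
  u0 : u 0 = β
  yw : ∀ r, y r = r * w r
  cw : Continuous w
  du : ∀ r, HasDerivAt u (k * y r) r
  dy : ∀ r, HasDerivAt y (F c m h K s k r (u r) (y r) - ν * w r) r

/-- `θ` is an angle function of the orbit `(u, y)` (clockwise rotation on the axis `u = 0`) -/
structure SAng (c m h : ℝ → ℝ) (ν : ℕ) (K s k : ℝ) (u y w θ : ℝ → ℝ) : Prop where
  th0 : θ 0 = 0
  pos : ∀ r, 0 ≤ r → 0 < u r ^ 2 + y r ^ 2
  dth : ∀ r, 0 ≤ r → HasDerivAt θ ((u r * (F c m h K s k r (u r) (y r) - ν * w r) - k * y r ^ 2) /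
    (u r ^ 2 + y r ^ 2)) r
  pu : ∀ r, 0 ≤ r → u r = √(u r ^ 2 + y r ^ 2) * Real.cos (θ r)
  py : ∀ r, 0 ≤ r → y r = √(u r ^ 2 + y r ^ 2) * Real.sin (θ r)

/-- the friction coefficient, made regular below `r₁` -/
noncomputable def sfric (ν : ℕ) (r₁ r : ℝ) : ℝ := ν / max r₁ r

theorem SDat.c₂pos {c m h : ℝ → ℝ} {c₁ c₂ m₁ m₂ H₀ : ℝ} (D : SDat c m h c₁ c₂ m₁ m₂ H₀) :
    0 < c₂ := D.c₁pos.trans_le ((D.c₁le 0).trans (D.lec₂ 0))

theorem SDat.m₂pos {c m h : ℝ → ℝ} {c₁ c₂ m₁ m₂ H₀ : ℝ} (D : SDat c m h c₁ c₂ m₁ m₂ H₀) :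
    0 < m₂ := D.m₁pos.trans_le ((D.m₁le 0).trans (D.lem₂ 0))

theorem SDat.H₀nonneg {c m h : ℝ → ℝ} {c₁ c₂ m₁ m₂ H₀ : ℝ} (D : SDat c m h c₁ c₂ m₁ m₂ H₀) :
    0 ≤ H₀ := (abs_nonneg _).trans (D.leH₀ 0)

theorem SDat.dat {c m h : ℝ → ℝ} {c₁ c₂ m₁ m₂ H₀ : ℝ} (D : SDat c m h c₁ c₂ m₁ m₂ H₀) (ν : ℕ)
    {r₁ : ℝ} (hr₁ : 0 < r₁) : Dat c m h (sfric ν r₁) c₁ c₂ m₁ m₂ (ν / r₁) H₀ where
  cc := D.cc
  cm := D.cm
  ch := D.ch
  cP := by
    unfold sfric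
    apply Continuous.div continuous_const (by fun_prop)
    intro r
    exact (hr₁.trans_le (le_max_left _ _)).ne'
  c₁pos := D.c₁pos
  m₁pos := D.m₁pos
  c₁le := D.c₁le
  lec₂ := D.lec₂
  m₁le := D.m₁le
  lem₂ := D.lem₂
  P0 r := div_nonneg (Nat.cast_nonneg ν) (hr₁.le.trans (le_max_left _ _))
  leP₀ r := div_le_div_of_nonneg_left (Nat.cast_nonneg ν) hr₁ (le_max_left _ _)
  leH₀ := D.leH₀

/-- away from the centre the orbit solves a regular system -/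
theorem SOrb.dy' {c m h : ℝ → ℝ} {ν : ℕ} {K s k β : ℝ} {u y w : ℝ → ℝ}
    (O : SOrb c m h ν K s k β u y w) {r₁ r : ℝ} (hr₁ : 0 < r₁) (hr : r₁ ≤ r) :
    HasDerivAt y (G c m h (sfric ν r₁) K s k r (u r) (y r)) r := by
  have h1 := O.dy r
  have h2 : F c m h K s k r (u r) (y r) - ν * w r =
      G c m h (sfric ν r₁) K s k r (u r) (y r) := by
    have hr0 : r ≠ 0 := (hr₁.trans_le hr).ne'
    have h3 : sfric ν r₁ r * y r = ν * w r := by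
      unfold sfric
      rw [max_eq_right hr, O.yw r]
      field_simp
    unfold F G
    rw [h3]
    ring
  rwa [h2] at h1

/-- the friction never has the sign that feeds the orbit -/
theorem SOrb.yw_nonneg {c m h : ℝ → ℝ} {ν : ℕ} {K s k β : ℝ} {u y w : ℝ → ℝ}
    (O : SOrb c m h ν K s k β u y w) {r : ℝ} (hr : 0 ≤ r) : 0 ≤ y r * w r := by
  rw [O.yw r, mul_assoc]
  exact mul_nonneg hr (mul_self_nonneg _)

theorem F_forcing {h : ℝ → ℝ} {H₀ : ℝ} (hH : ∀ r, |h r| ≤ H₀) {s k : ℝ} (hs : 0 < s)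
    (hk : 0 < k) (r u y : ℝ) : |h r / k * X s u y| ≤ H₀ / k := by
  have h1 := hH r
  rw [abs_mul, abs_div, abs_of_pos hk, abs_of_nonneg (X_nonneg hs u y)]
  calc |h r| / k * X s u y ≤ |h r| / k * 1 :=
        mul_le_mul_of_nonneg_left (X_le_one s u y) (by positivity)
    _ ≤ H₀ / k := by
        rw [mul_one]
        exact div_le_div_of_nonneg_right h1 hk.le

end QGN
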