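import Pool.Agent.QGB.Radial

/-!
# Radial functions in a neighbourhood of the centre
-/

open Set Filter Topology InnerProductSpace Laplacian Metric

namespace QGN

theorem srad_w {ν : ℕ} {y w z : ℝ → ℝ} (hyw : ∀ r, y r = r * w r)
    (hy : ∀ r, HasDerivAt y (z r - ν * w r) r) {r : ℝ} (hr : 0 < r) :
    HasDerivAt w ((z r - (ν + 1) * w r) / r) r := by
  have h1 : HasDerivAt (fun r => y r / r) (((z r - ν * w r) * r - y r * 1) / r ^ 2) r :=
    (hy r).div (hasDerivAt_id r) hr.ne'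
  have h2 : (fun r => y r / r) =ᶠ[𝓝 r] w := by
    filter_upwards [lt_mem_nhds hr] with t ht
    rw [hyw t]
    field_simp
  have h3 := h1.congr_of_eventuallyEq h2.symm
  refine h3.congr_deriv ?_
  rw [hyw r]
  field_simp
  ring

theorem srad_zero {ν : ℕ} {y w z : ℝ → ℝ} (hyw : ∀ r, y r = r * w r) (hw : Continuous w)
    (hy : ∀ r, HasDerivAt y (z r - ν * w r) r) : z 0 = (ν + 1) * w 0 := by
  have h1 := hasDerivAt_iff_tendsto_slope.1 (hy 0)
  have h2 : Tendsto w (𝓝[≠] 0) (𝓝 (w 0)) := hw.continuousAt.continuousWithinAt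
  have h3 : slope y 0 =ᶠ[𝓝[≠] 0] w := by
    filter_upwards [self_mem_nhdsWithin] with t ht
    have ht' : t ≠ 0 := ht
    rw [slope_def_field, hyw t, hyw 0]
    field_simp
    ring
  have h4 := tendsto_nhds_unique (h1.congr' h3) h2
  linarith

/-- module SRAD: radial functions in a neighbourhood of the centre -/
theorem sradial {ν : ℕ} (x₀ : EuclideanSpace ℝ (Fin (ν + 1))) {k : ℝ} {u y w z : ℝ → ℝ}
    (hyw : ∀ r, y r = r * w r) (hw : Continuous w) (hu : ∀ r, HasDerivAt u (k * y r) r)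
    (hy : ∀ r, HasDerivAt y (z r - ν * w r) r) (hz : Continuous z) :
    ContDiff ℝ 2 (fun x : EuclideanSpace ℝ (Fin (ν + 1)) => u ‖x - x₀‖) ∧
      (∀ x, Δ (fun x : EuclideanSpace ℝ (Fin (ν + 1)) => u ‖x - x₀‖) x = k * z ‖x - x₀‖) ∧
      ∀ x, ‖gradient (fun x : EuclideanSpace ℝ (Fin (ν + 1)) => u ‖x - x₀‖) x‖ ^ 2 =
        (k * y ‖x - x₀‖) ^ 2 := by
  have hP : ∀ T : ℝ, QGB.Prof T u (fun r => k * w r) (fun r => k * ((ν + 1) * w r - z r)) := by
    intro T
    refine ⟨?_, ?_, ?_, ?_, ?_, ?_⟩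
    · intro s _
      have h1 := hu s
      rw [hyw s] at h1
      refine h1.congr_deriv ?_
      ring
    · intro s hs
      refine ((srad_w hyw hy hs.1).const_mul k).congr_deriv ?_
      have := hs.1.ne'
      field_simp
      ring
    · exact fun s _ => (hu s).continuousAt.continuousWithinAt
    · exact (continuous_const.mul hw).continuousOn
    · exact (continuous_const.mul ((continuous_const.mul hw).sub hz)).continuousOn
    · show k * ((ν + 1) * w 0 - z 0) = 0
      rw [srad_zero hyw hw hy]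
      ring
  have he : (fun x : EuclideanSpace ℝ (Fin (ν + 1)) => u (1 * ‖x - x₀‖)) =
      fun x => u ‖x - x₀‖ := by
    funext x
    rw [one_mul]
  have hb : ∀ x : EuclideanSpace ℝ (Fin (ν + 1)), x ∈ ball x₀ ((‖x - x₀‖ + 1) / 1) := by
    intro x
    rw [mem_ball, dist_eq_norm, div_one]
    linarith
  refine ⟨?_, ?_, ?_⟩
  · rw [contDiff_iff_contDiffAt]
    intro x
    have h1 := (hP (‖x - x₀‖ + 1)).contDiffOn (x₀ := x₀) one_pos
    rw [he] at h1
    exact h1.contDiffAt (isOpen_ball.mem_nhds (hb x))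
  · intro x
    have h1 := (hP (‖x - x₀‖ + 1)).laplacian (x₀ := x₀) one_pos (hb x)
    rw [he] at h1
    rw [h1]
    push_cast
    simp only [one_mul]
    ring
  · intro x
    have h1 := (hP (‖x - x₀‖ + 1)).gradient (x₀ := x₀) one_pos (hb x)
    rw [he] at h1
    rw [h1, norm_smul, mul_pow, Real.norm_eq_abs, sq_abs, hyw]
    simp only [one_mul]
    ring

end QGN
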