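import Pool.Agent.QGB.Cut

/-!
# Classical solutions of the Dirichlet problem in a ball are weak solutions (variable data)
-/

open Set Filter Topology MeasureTheory InnerProductSpace Laplacian Metric
open scoped Real

namespace QGN

/-- module SWEAK: classical solutions in the ball are weak solutions, variable data -/
theorem isSolution_ball {N : ℕ} {x₀ : EuclideanSpace ℝ (Fin N)} {R ρ : ℝ} (hR0 : 0 < R)
    (hR : R < ρ) {u : EuclideanSpace ℝ (Fin N) → ℝ} (hu : ContDiffOn ℝ 2 u (ball x₀ ρ))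
    (hb : ∀ x ∈ sphere x₀ R, u x = 0) {lam : ℝ} {c μ h : EuclideanSpace ℝ (Fin N) → ℝ}
    (hc : ContinuousOn c (closedBall x₀ R)) (hμ : ContinuousOn μ (closedBall x₀ R))
    (hh : ContinuousOn h (closedBall x₀ R))
    (hpde : ∀ x ∈ ball x₀ R, -(Δ u x) = lam * c x * u x + μ x * ‖gradient u x‖ ^ 2 + h x) :
    QGB.IsSolution (ball x₀ R) lam c μ h u := by
  have hO : IsOpen (ball x₀ ρ) := isOpen_ball
  have hu1 : ContDiffOn ℝ 1 u (ball x₀ ρ) := hu.of_le (by norm_num)
  have hsub : closedBall x₀ R ⊆ ball x₀ ρ := closedBall_subset_ball hR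
  have hsub' : ball x₀ R ⊆ ball x₀ ρ := ball_subset_ball hR.le
  have hbc : ball x₀ R ⊆ closedBall x₀ R := ball_subset_closedBall
  have hK : IsCompact (closedBall x₀ R) := isCompact_closedBall x₀ R
  have huc : ContinuousOn u (ball x₀ ρ) := hu.continuousOn
  have hu' : ContinuousOn (fderiv ℝ u) (ball x₀ ρ) := hu1.continuousOn_fderiv_of_isOpen hO
    (by norm_num)
  have hgc : ContinuousOn (gradient u) (ball x₀ ρ) :=
    (toDual ℝ (EuclideanSpace ℝ (Fin N))).symm.continuous.comp_continuousOn hu'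
  set f : EuclideanSpace ℝ (Fin N) → ℝ := fun x =>
    lam * c x * u x + μ x * ‖gradient u x‖ ^ 2 + h x with hf
  have hfc : ContinuousOn f (closedBall x₀ R) :=
    (((continuousOn_const.mul hc).mul (huc.mono hsub)).add
      (hμ.mul ((hgc.mono hsub).norm.pow 2))).add hh
  obtain ⟨M₁, hM₁⟩ := hK.exists_bound_of_continuousOn (huc.mono hsub)
  obtain ⟨M₂, hM₂⟩ := hK.exists_bound_of_continuousOn (hgc.mono hsub)
  obtain ⟨M₃, hM₃⟩ := hK.exists_bound_of_continuousOn hfc
  have hae : ∀ {P : EuclideanSpace ℝ (Fin N) → Prop}, (∀ x ∈ ball x₀ R, P x) →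
      ∀ᵐ x ∂(volume.restrict (ball x₀ R)), P x :=
    fun h => (ae_restrict_mem measurableSet_ball).mono h
  refine ⟨gradient u, QGB.isH10_of_boundary hR0 hR hu1 hb,
    ⟨M₁, hae fun x hx => hM₁ x (hbc hx)⟩, fun v gv hv _ => ?_⟩
  refine QGB.extend_test (C := max M₂ M₃) (G := gradient u) (f := f) isOpen_ball
    measure_ball_lt_top.ne ((hgc.mono hsub').aestronglyMeasurable measurableSet_ball)
    ((hfc.mono hbc).aestronglyMeasurable measurableSet_ball)
    (fun x hx => (hM₂ x (hbc hx)).trans (le_max_left _ _))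
    (fun x hx => (hM₃ x (hbc hx)).trans (le_max_right _ _)) ?_ hv
  intro φ hφ hcs hs
  rw [QGB.green hR hu hφ hcs hs]
  apply setIntegral_congr_fun measurableSet_ball
  intro x hx
  simp only [hf, ← hpde x hx]

end QGN
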