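import Pool.Agent.QGN.SAsm
import Pool.Agent.QGN.SWeak
import Pool.Agent.QGN.SRad
import Pool.Agent.QGN.Final

/-!
# Many radial solutions in a ball, variable radial data
-/

open Set Filter Topology MeasureTheory InnerProductSpace Laplacian Metric
open scoped Real

namespace QGN

theorem exists_sdat {R : ℝ} (hR : 0 < R) {c μ h : ℝ → ℝ}
    (hc : ContinuousOn c (Icc 0 R)) (hμ : ContinuousOn μ (Icc 0 R))
    (hh : ContinuousOn h (Icc 0 R)) (hc0 : ∀ r ∈ Icc 0 R, 0 < c r)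
    (hμ0 : ∀ r ∈ Icc 0 R, 0 < μ r) :
    ∃ c₁ c₂ m₁ m₂ H₀ : ℝ, SDat (ext 0 R c) (ext 0 R μ) (ext 0 R h) c₁ c₂ m₁ m₂ H₀ := by
  have hK : IsCompact (Icc 0 R) := isCompact_Icc
  have hne : (Icc 0 R).Nonempty := nonempty_Icc.2 hR.le
  obtain ⟨r₁, hr₁, h1⟩ := hK.exists_isMinOn hne hc
  obtain ⟨r₂, hr₂, h2⟩ := hK.exists_isMaxOn hne hc
  obtain ⟨r₃, hr₃, h3⟩ := hK.exists_isMinOn hne hμ
  obtain ⟨r₄, hr₄, h4⟩ := hK.exists_isMaxOn hne hμ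
  obtain ⟨r₅, hr₅, h5⟩ := hK.exists_isMaxOn hne hh.abs
  exact ⟨c r₁, c r₂, μ r₃, μ r₄, |h r₅|, ⟨ext_cont hR hc, ext_cont hR hμ,
    ext_cont hR hh, hc0 r₁ hr₁, hμ0 r₃ hr₃, fun r => h1 (clamp_mem hR r),
    fun r => h2 (clamp_mem hR r), fun r => h3 (clamp_mem hR r), fun r => h4 (clamp_mem hR r),
    fun r => h5 (clamp_mem hR r)⟩⟩

theorem continuousOn_radial_ball {N : ℕ} (x₀ : EuclideanSpace ℝ (Fin N)) {R : ℝ} {f : ℝ → ℝ}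
    (hf : ContinuousOn f (Icc 0 R)) :
    ContinuousOn (fun x : EuclideanSpace ℝ (Fin N) => f ‖x - x₀‖) (closedBall x₀ R) :=
  hf.comp (by fun_prop) fun x hx => ⟨norm_nonneg _, by rwa [mem_closedBall, dist_eq_norm] at hx⟩

theorem smain {ν : ℕ} (x₀ : EuclideanSpace ℝ (Fin (ν + 1))) {R : ℝ} (hR : 0 < R)
    {c μ h : ℝ → ℝ} (hc : ContinuousOn c (Icc 0 R)) (hμ : ContinuousOn μ (Icc 0 R))
    (hh : ContinuousOn h (Icc 0 R)) (hc0 : ∀ r ∈ Icc 0 R, 0 < c r)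
    (hμ0 : ∀ r ∈ Icc 0 R, 0 < μ r) (n : ℕ) :
    ∃ Λ : ℝ, 0 < Λ ∧ ∀ lam : ℝ, Λ ≤ lam →
      ∃ u : Fin n → EuclideanSpace ℝ (Fin (ν + 1)) → ℝ,
        (∀ i j, i ≠ j → u i x₀ ≠ u j x₀) ∧
        ∀ i, QGB.IsSolution (ball x₀ R) lam (fun x => c ‖x - x₀‖) (fun x => μ ‖x - x₀‖)
            (fun x => h ‖x - x₀‖) (u i) ∧
          (∃ f : ℝ → ℝ, ∀ x, u i x = f ‖x - x₀‖) ∧
          ContDiff ℝ 2 (u i) ∧
          (∀ x ∈ ball x₀ R, -(Δ (u i) x) = lam * c ‖x - x₀‖ * u i x +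
            μ ‖x - x₀‖ * ‖gradient (u i) x‖ ^ 2 + h ‖x - x₀‖) ∧
          ∀ x ∈ sphere x₀ R, u i x = 0 := by
  obtain ⟨c₁, c₂, m₁, m₂, H₀, D⟩ := exists_sdat hR hc hμ hh hc0 hμ0
  obtain ⟨k₀, hk₀, hk⟩ := sOneD D ν hR n
  refine ⟨k₀ ^ 2, by positivity, fun lam hlam => ?_⟩
  have hlam0 : 0 ≤ lam := (by positivity : (0 : ℝ) ≤ k₀ ^ 2).trans hlam
  have hkk : k₀ ≤ √lam := Real.le_sqrt_of_sq_le hlam
  have hk0 : 0 < √lam := hk₀.trans_le hkk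
  have hsq : √lam * √lam = lam := Real.mul_self_sqrt hlam0
  obtain ⟨U, Y, W, Z, hU, hne⟩ := hk (√lam) hkk
  have hrad := fun i => sradial x₀ (hU i).2.1 (hU i).2.2.1 (hU i).2.2.2.1 (hU i).2.2.2.2.1
    (hU i).2.2.2.2.2.1
  have hpde : ∀ i, ∀ x ∈ ball x₀ R,
      -(Δ (fun x : EuclideanSpace ℝ (Fin (ν + 1)) => U i ‖x - x₀‖) x) =
        lam * c ‖x - x₀‖ * U i ‖x - x₀‖ + μ ‖x - x₀‖ *
          ‖gradient (fun x : EuclideanSpace ℝ (Fin (ν + 1)) => U i ‖x - x₀‖) x‖ ^ 2 +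
            h ‖x - x₀‖ := by
    intro i x hx
    have hxI : ‖x - x₀‖ ∈ Icc 0 R := by
      rw [mem_ball, dist_eq_norm] at hx
      exact ⟨norm_nonneg _, hx.le⟩
    rw [(hrad i).2.1 x, (hrad i).2.2 x, (hU i).2.2.2.2.2.2 _ hxI, ext_eq hxI, ext_eq hxI,
      ext_eq hxI]
    have h4 : √lam * (h ‖x - x₀‖ / √lam) = h ‖x - x₀‖ := by
      field_simp
    have h5 : √lam * (-(√lam * (c ‖x - x₀‖ * U i ‖x - x₀‖ + μ ‖x - x₀‖ * Y i ‖x - x₀‖ ^ 2)) -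
        h ‖x - x₀‖ / √lam) =
        -((√lam * √lam) * (c ‖x - x₀‖ * U i ‖x - x₀‖ + μ ‖x - x₀‖ * Y i ‖x - x₀‖ ^ 2)) -
        √lam * (h ‖x - x₀‖ / √lam) := by
      ring
    rw [h5, h4, mul_pow, pow_two (√lam), hsq]
    ring
  have hbd : ∀ i, ∀ x ∈ sphere x₀ R, U i ‖x - x₀‖ = 0 := by
    intro i x hx
    rw [mem_sphere, dist_eq_norm] at hx
    rw [hx]
    exact (hU i).1
  refine ⟨fun i x => U i ‖x - x₀‖, fun i j hij => ?_, fun i => ⟨?_, ⟨U i, fun _ => rfl⟩,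
    (hrad i).1, hpde i, hbd i⟩⟩
  · show U i ‖x₀ - x₀‖ ≠ U j ‖x₀ - x₀‖
    rw [sub_self, norm_zero]
    exact hne i j hij
  · exact isSolution_ball (ρ := R + 1) hR (by linarith) (hrad i).1.contDiffOn (hbd i)
      (continuousOn_radial_ball x₀ hc) (continuousOn_radial_ball x₀ hμ)
      (continuousOn_radial_ball x₀ hh) (hpde i)

end QGN
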