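import Pool.Agent.QGN.Flow
import Pool.Agent.QGN.SDefs

/-!
# The singular flow: global existence and joint continuity

`exists_fix`: fixed points of Volterra operators with a parameter, by the contraction principle in a
weighted space. `av`: the averages `∫_0^1 x^ν φ(x t) dx`.
-/

open Set Filter Topology MeasureTheory
open scoped Real BoundedContinuousFunction

namespace QGN

section general

variable {E : Type*} [NormedAddCommGroup E] [NormedSpace ℝ E] [CompleteSpace E]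

/-- the fixed point of a Volterra operator, with a parameter -/
theorem exists_fix {V : (ℝ → E) → ℝ → E} (hVc : ∀ c, Continuous c → Continuous (V c)) {L : ℝ}
    (hL0 : 0 ≤ L)
    (hV : ∀ c c' : ℝ → E, Continuous c → Continuous c' → ∀ D l : ℝ, 0 ≤ D → 0 < l →
      (∀ τ, ‖c τ - c' τ‖ ≤ D * Real.exp (l * |τ|)) →
      ∀ t, ‖V c t - V c' t‖ ≤ L * D / l * Real.exp (l * |t|))
    (h0 : ∀ t, V (fun _ => 0) t = 0) :
    ∃ F : E → ℝ → E, (∀ x, Continuous (F x)) ∧ (∀ x t, F x t = x + V (F x) t) ∧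
      Continuous (fun p : E × ℝ => F p.1 p.2) := by
  obtain ⟨l, hl⟩ : ∃ l : ℝ, l = 2 * L + 1 := ⟨_, rfl⟩
  have hl0 : 0 < l := by rw [hl]; positivity
  have hL2 : L / l ≤ 1 / 2 := by
    rw [div_le_div_iff₀ hl0 (by norm_num)]
    linarith
  -- the curve of a weighted function
  obtain ⟨c, hc⟩ : ∃ c : (ℝ → E) → ℝ → E, ∀ w τ, c w τ = Real.exp (l * |τ|) • w τ :=
    ⟨fun w τ => Real.exp (l * |τ|) • w τ, fun _ _ => rfl⟩
  have hcc : ∀ w : ℝ → E, Continuous w → Continuous (c w) := by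
    intro w hw
    have h1 : Continuous fun τ : ℝ => Real.exp (l * |τ|) := by fun_prop
    have h2 : c w = fun τ => Real.exp (l * |τ|) • w τ := funext (hc w)
    rw [h2]
    exact h1.smul hw
  have hee : ∀ t : ℝ, Real.exp (-(l * |t|)) * Real.exp (l * |t|) = 1 := by
    intro t
    rw [← Real.exp_add]
    simp
  have hJsub : ∀ w v : ℝ → E, Continuous w → Continuous v → ∀ D : ℝ, (∀ τ, ‖w τ - v τ‖ ≤ D) →
      ∀ t, Real.exp (-(l * |t|)) * ‖V (c w) t - V (c v) t‖ ≤ 1 / 2 * D := by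
    intro w v hw hv D hD t
    have hD0 : 0 ≤ D := (norm_nonneg _).trans (hD 0)
    have h2 : ‖V (c w) t - V (c v) t‖ ≤ L * D / l * Real.exp (l * |t|) := by
      refine hV _ _ (hcc w hw) (hcc v hv) D l hD0 hl0 (fun τ => ?_) t
      rw [hc, hc, ← smul_sub, norm_smul, Real.norm_eq_abs, abs_of_pos (Real.exp_pos _), mul_comm]
      exact mul_le_mul_of_nonneg_right (hD τ) (Real.exp_pos _).le
    calc Real.exp (-(l * |t|)) * ‖V (c w) t - V (c v) t‖
        ≤ Real.exp (-(l * |t|)) * (L * D / l * Real.exp (l * |t|)) :=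
          mul_le_mul_of_nonneg_left h2 (Real.exp_pos _).le
      _ = L / l * D * (Real.exp (-(l * |t|)) * Real.exp (l * |t|)) := by ring
      _ = L / l * D := by rw [hee, mul_one]
      _ ≤ 1 / 2 * D := mul_le_mul_of_nonneg_right hL2 hD0
  have hc0 : c (fun _ => 0) = fun _ => 0 := by
    funext τ
    rw [hc, smul_zero]
  have hJn : ∀ w : ℝ → E, Continuous w → ∀ D : ℝ, (∀ τ, ‖w τ‖ ≤ D) →
      ∀ t, Real.exp (-(l * |t|)) * ‖V (c w) t‖ ≤ 1 / 2 * D := by
    intro w hw D hD t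
    have := hJsub w (fun _ => 0) hw continuous_const D (fun τ => by rw [sub_zero]; exact hD τ) t
    rwa [hc0, h0, sub_zero] at this
  have hee1 : ∀ t : ℝ, Real.exp (-(l * |t|)) ≤ 1 := by
    intro t
    rw [Real.exp_le_one_iff]
    have : 0 ≤ l * |t| := by positivity
    linarith
  -- the map
  obtain ⟨Φ, hΦ⟩ : ∃ Φ : E → (ℝ → E) → ℝ → E, ∀ x w t,
      Φ x w t = Real.exp (-(l * |t|)) • (x + V (c w) t) :=
    ⟨fun x w t => Real.exp (-(l * |t|)) • (x + V (c w) t), fun _ _ _ => rfl⟩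
  have hΦc : ∀ x (w : ℝ → E), Continuous w → Continuous (Φ x w) := by
    intro x w hw
    have h1 : Continuous fun t : ℝ => Real.exp (-(l * |t|)) := by fun_prop
    have h2 : Φ x w = fun t => Real.exp (-(l * |t|)) • (x + V (c w) t) := funext (hΦ x w)
    rw [h2]
    exact h1.smul (continuous_const.add (hVc _ (hcc w hw)))
  have hΦb : ∀ x (w : ℝ → E), Continuous w → ∀ D : ℝ, (∀ τ, ‖w τ‖ ≤ D) → ∀ t,
      ‖Φ x w t‖ ≤ ‖x‖ + 1 / 2 * D := by
    intro x w hw D hD t
    rw [hΦ, norm_smul, Real.norm_eq_abs, abs_of_pos (Real.exp_pos _)]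
    have h1 := hJn w hw D hD t
    have h2 : Real.exp (-(l * |t|)) * ‖x‖ ≤ 1 * ‖x‖ :=
      mul_le_mul_of_nonneg_right (hee1 t) (norm_nonneg _)
    have h3 : Real.exp (-(l * |t|)) * ‖x + V (c w) t‖ ≤
        Real.exp (-(l * |t|)) * (‖x‖ + ‖V (c w) t‖) :=
      mul_le_mul_of_nonneg_left (norm_add_le _ _) (Real.exp_pos _).le
    linarith
  let Ψ : E → (ℝ →ᵇ E) → (ℝ →ᵇ E) := fun x w =>
    BoundedContinuousFunction.ofNormedAddCommGroup (Φ x w) (hΦc x w w.continuous)
      (‖x‖ + 1 / 2 * ‖w‖) (hΦb x w w.continuous ‖w‖ w.norm_coe_le_norm)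
  have hΨe : ∀ x (w : ℝ →ᵇ E) t, Ψ x w t = Φ x w t := fun _ _ _ => rfl
  have hΨ : ∀ x, ContractingWith (1 / 2) (Ψ x) := by
    intro x
    refine ⟨by rw [← NNReal.coe_lt_coe]; norm_num, ?_⟩
    apply LipschitzWith.of_dist_le_mul
    intro w v
    rw [BoundedContinuousFunction.dist_le (by positivity)]
    intro t
    rw [hΨe, hΨe, hΦ, hΦ, dist_eq_norm, ← smul_sub, norm_smul, Real.norm_eq_abs,
      abs_of_pos (Real.exp_pos _), add_sub_add_left_eq_sub]
    have := hJsub w v w.continuous v.continuous (dist w v) (fun τ => by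
      rw [← dist_eq_norm]
      exact BoundedContinuousFunction.dist_coe_le_dist τ) t
    push_cast
    exact this
  obtain ⟨W, hW⟩ : ∃ W : E → (ℝ →ᵇ E), ∀ x, W x = (hΨ x).fixedPoint :=
    ⟨fun x => (hΨ x).fixedPoint, fun _ => rfl⟩
  have hWe : ∀ x, Ψ x (W x) = W x := fun x => by
    rw [hW]
    exact (hΨ x).fixedPoint_isFixedPt
  have hWd : ∀ x y, dist (W x) (W y) ≤ 2 * ‖x - y‖ := by
    intro x y
    have h1 := (hΨ x).fixedPoint_lipschitz_in_map (hΨ y) (C := ‖x - y‖) (fun w => by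
      rw [BoundedContinuousFunction.dist_le (norm_nonneg _)]
      intro t
      rw [hΨe, hΨe, hΦ, hΦ, dist_eq_norm, ← smul_sub, norm_smul, Real.norm_eq_abs,
        abs_of_pos (Real.exp_pos _), add_sub_add_right_eq_sub]
      have := mul_le_mul_of_nonneg_right (hee1 t) (norm_nonneg (x - y))
      linarith)
    rw [← hW, ← hW] at h1
    refine h1.trans (le_of_eq ?_)
    push_cast
    ring
  have hWc : Continuous W := by
    have : LipschitzWith 2 W := by
      apply LipschitzWith.of_dist_le_mul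
      intro x y
      rw [dist_eq_norm x y]
      exact_mod_cast hWd x y
    exact this.continuous
  have hcW : ∀ x t, c (W x) t = x + V (c (W x)) t := by
    intro x t
    have h1 : W x t = Real.exp (-(l * |t|)) • (x + V (c (W x)) t) := by
      have h2 : W x t = Ψ x (W x) t := by rw [hWe]
      rw [h2, hΨe, hΦ]
    rw [hc, h1, smul_smul, mul_comm, hee, one_smul]
  refine ⟨fun x => c (W x), fun x => hcc _ (W x).continuous, hcW, ?_⟩
  have h1 : (fun p : E × ℝ => c (W p.1) p.2) =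
      fun p : E × ℝ => Real.exp (l * |p.2|) • (W p.1) p.2 := by
    funext p
    exact hc _ _
  rw [h1]
  have h2 : Continuous fun p : E × ℝ => Real.exp (l * |p.2|) := by fun_prop
  have h3 : Continuous fun p : E × ℝ => (W p.1) p.2 :=
    (hWc.comp continuous_fst).eval continuous_snd
  exact h2.smul h3

end general

/-! ### averages -/

/-- the average `∫_0^1 x^ν φ(x t) dx` -/
noncomputable def av (ν : ℕ) (φ : ℝ → ℝ) (t : ℝ) : ℝ := ∫ x in (0 : ℝ)..1, x ^ ν * φ (x * t)

theorem continuous_av {ν : ℕ} {φ : ℝ → ℝ} (hφ : Continuous φ) : Continuous (av ν φ) := by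
  unfold av
  apply intervalIntegral.continuous_parametric_intervalIntegral_of_continuous'
  have : Continuous fun p : ℝ × ℝ => p.2 ^ ν * φ (p.2 * p.1) := by fun_prop
  exact this

theorem av_sub {ν : ℕ} {φ ψ : ℝ → ℝ} (hφ : Continuous φ) (hψ : Continuous ψ) (t : ℝ) :
    av ν φ t - av ν ψ t = av ν (fun τ => φ τ - ψ τ) t := by
  unfold av
  rw [← intervalIntegral.integral_sub]
  · congr 1
    funext x
    ring
  · apply Continuous.intervalIntegrable; fun_prop
  · apply Continuous.intervalIntegrable; fun_prop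

theorem av_bound {ν : ℕ} {φ : ℝ → ℝ} {A l : ℝ} (hl : 0 < l) (hA0 : 0 ≤ A)
    (hA : ∀ τ, |φ τ| ≤ A * Real.exp (l * |τ|)) (t : ℝ) :
    |t * av ν φ t| ≤ A / l * Real.exp (l * |t|) := by
  have h2 : |t * av ν φ t| ≤ ∫ x in (0 : ℝ)..1, A * (|t| * Real.exp (l * (x * |t|))) := by
    unfold av
    rw [← intervalIntegral.integral_const_mul, ← Real.norm_eq_abs]
    refine intervalIntegral.norm_integral_le_of_norm_le zero_le_one ?_ ?_
    · refine Eventually.of_forall fun x hx => ?_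
      rw [norm_mul, norm_mul, Real.norm_eq_abs, Real.norm_eq_abs, Real.norm_eq_abs,
        abs_of_nonneg (pow_nonneg hx.1.le ν)]
      have h3 : x ^ ν ≤ 1 := pow_le_one₀ hx.1.le hx.2
      have h5 := hA (x * t)
      rw [abs_mul, abs_of_pos hx.1] at h5
      calc |t| * (x ^ ν * |φ (x * t)|) ≤ |t| * (1 * (A * Real.exp (l * (x * |t|)))) := by gcongr
        _ = A * (|t| * Real.exp (l * (x * |t|))) := by ring
    · apply Continuous.intervalIntegrable; fun_prop
  have h3 : ∫ x in (0 : ℝ)..1, A * (|t| * Real.exp (l * (x * |t|))) =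
      A * ((Real.exp (l * |t|) - 1) / l) := by
    have hd : ∀ x ∈ uIcc (0 : ℝ) 1, HasDerivAt (fun x => A * (Real.exp (l * (x * |t|)) / l))
        (A * (|t| * Real.exp (l * (x * |t|)))) x := by
      intro x _
      have h4 : HasDerivAt (fun x : ℝ => l * (x * |t|)) (l * |t|) x := by
        simpa using ((hasDerivAt_id x).mul_const |t|).const_mul l
      have h5 := (h4.exp.div_const l).const_mul A
      have h6 : Real.exp (l * (x * |t|)) * (l * |t|) / l = |t| * Real.exp (l * (x * |t|)) := by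
        field_simp
      rwa [h6] at h5
    rw [intervalIntegral.integral_eq_sub_of_hasDerivAt hd]
    · simp
      ring
    · apply Continuous.intervalIntegrable; fun_prop
  rw [h3] at h2
  refine h2.trans ?_
  have h4 : 0 ≤ A / l := by positivity
  calc A * ((Real.exp (l * |t|) - 1) / l) = A / l * (Real.exp (l * |t|) - 1) := by ring
    _ ≤ A / l * Real.exp (l * |t|) := by
        apply mul_le_mul_of_nonneg_left _ h4; linarith

theorem av_zero (ν : ℕ) (φ : ℝ → ℝ) : av ν φ 0 = φ 0 / (ν + 1) := by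
  unfold av
  simp only [mul_zero]
  rw [intervalIntegral.integral_mul_const, integral_pow]
  simp
  ring

theorem av_prim {ν : ℕ} {φ : ℝ → ℝ} {t : ℝ} (ht : t ≠ 0) :
    t * av ν φ t = (∫ τ in (0 : ℝ)..t, τ ^ ν * φ τ) / t ^ ν := by
  have h1 := intervalIntegral.integral_comp_mul_right (fun τ => τ ^ ν * φ τ) (a := 0) (b := 1) ht
  rw [zero_mul, one_mul, smul_eq_mul] at h1
  have h2 : ∫ x in (0 : ℝ)..1, (x * t) ^ ν * φ (x * t) = t ^ ν * av ν φ t := by
    unfold av
    rw [← intervalIntegral.integral_const_mul]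
    congr 1
    funext x
    rw [mul_pow]
    ring
  rw [h2] at h1
  have h3 : t ^ ν ≠ 0 := pow_ne_zero _ ht
  rw [eq_div_iff h3]
  calc t * av ν φ t * t ^ ν = t * (t ^ ν * av ν φ t) := by ring
    _ = t * (t⁻¹ * ∫ τ in (0 : ℝ)..t, τ ^ ν * φ τ) := by rw [h1]
    _ = ∫ τ in (0 : ℝ)..t, τ ^ ν * φ τ := by
        rw [← mul_assoc, mul_inv_cancel₀ ht, one_mul]

theorem hasDerivAt_av {ν : ℕ} {φ : ℝ → ℝ} (hφ : Continuous φ) (t : ℝ) :
    HasDerivAt (fun t => t * av ν φ t) (φ t - ν * av ν φ t) t := by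
  by_cases ht : t = 0
  · subst ht
    have h1 : φ 0 - ν * av ν φ 0 = av ν φ 0 := by
      rw [av_zero]
      have : (ν : ℝ) + 1 ≠ 0 := by positivity
      field_simp
      ring
    rw [h1, hasDerivAt_iff_tendsto_slope_zero]
    have h2 : Tendsto (av ν φ) (𝓝[≠] 0) (𝓝 (av ν φ 0)) :=
      ((continuous_av hφ).tendsto 0).mono_left nhdsWithin_le_nhds
    refine h2.congr' ?_
    filter_upwards [self_mem_nhdsWithin] with x hx
    have hx0 : x ≠ 0 := hx
    rw [zero_add, zero_mul, sub_zero, smul_eq_mul, ← mul_assoc, inv_mul_cancel₀ hx0, one_mul]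
  · have hc : Continuous fun τ : ℝ => τ ^ ν * φ τ := by fun_prop
    have h1 : HasDerivAt (fun t => ∫ τ in (0 : ℝ)..t, τ ^ ν * φ τ) (t ^ ν * φ t) t :=
      intervalIntegral.integral_hasDerivAt_right (hc.intervalIntegrable _ _)
        (hc.stronglyMeasurableAtFilter _ _) hc.continuousAt
    have h3 : t ^ ν ≠ 0 := pow_ne_zero _ ht
    have h2 := h1.div (hasDerivAt_pow ν t) h3
    have h4 : (fun t => t * av ν φ t) =ᶠ[𝓝 t]
        fun t => (∫ τ in (0 : ℝ)..t, τ ^ ν * φ τ) / t ^ ν := by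
      filter_upwards [isOpen_ne.mem_nhds ht] with x hx
      exact av_prim hx
    have h5 : (∫ τ in (0 : ℝ)..t, τ ^ ν * φ τ) = t * av ν φ t * t ^ ν := by
      rw [av_prim ht, div_mul_cancel₀ _ h3]
    have h6 : (ν : ℝ) * t ^ (ν - 1) * t = ν * t ^ ν := by
      rcases Nat.eq_zero_or_pos ν with h | h
      · rw [h]; simp
      · rw [mul_assoc, ← pow_succ, Nat.sub_add_cancel h]
    refine (h2.congr_of_eventuallyEq h4).congr_deriv ?_
    rw [h5, div_eq_iff (pow_ne_zero 2 h3)]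
    calc t ^ ν * φ t * t ^ ν - t * av ν φ t * t ^ ν * (ν * t ^ (ν - 1))
        = t ^ ν * φ t * t ^ ν - av ν φ t * t ^ ν * (ν * t ^ (ν - 1) * t) := by ring
      _ = (φ t - ν * av ν φ t) * (t ^ ν) ^ 2 := by rw [h6]; ring

/-! ### the flow -/

theorem F_lip {c m h : ℝ → ℝ} {c₁ c₂ m₁ m₂ H₀ : ℝ} (D : SDat c m h c₁ c₂ m₁ m₂ H₀)
    {K s k : ℝ} (hK : 0 < K) (hs : 0 < s) (hk : 0 < k) {t u y v z δ : ℝ} (n1 : |u - v| ≤ δ)
    (n2 : |y - z| ≤ δ) : |F c m h K s k t u y - F c m h K s k t v z| ≤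
      (k * c₂ + 2 * (k * m₂ * K) + 2 * (H₀ / k / s)) * δ := by
  have hH₀ : 0 ≤ H₀ := D.H₀nonneg
  have hm₂ : 0 < m₂ := D.m₂pos
  have hδ0 : 0 ≤ δ := (abs_nonneg _).trans n1
  have e1 : F c m h K s k t u y - F c m h K s k t v z =
      -(k * (c t * (u - v))) - k * (m t * (T K y - T K z)) - h t / k * (X s u y - X s v z) := by
    unfold F
    ring
  have a1 : |k * (c t * (u - v))| ≤ k * c₂ * δ := by
    rw [abs_mul, abs_mul, abs_of_pos hk, abs_of_pos (D.c₁pos.trans_le (D.c₁le t))]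
    calc k * (c t * |u - v|) ≤ k * (c₂ * δ) := by
          have := D.lec₂ t
          gcongr
          exact D.c₂pos.le
      _ = k * c₂ * δ := by ring
  have a2 : |k * (m t * (T K y - T K z))| ≤ 2 * (k * m₂ * K) * δ := by
    rw [abs_mul, abs_mul, abs_of_pos hk, abs_of_pos (D.m₁pos.trans_le (D.m₁le t))]
    have h1 := T_lip hK.le y z
    have h2 : |T K y - T K z| ≤ 2 * K * δ :=
      h1.trans (mul_le_mul_of_nonneg_left n2 (by positivity))
    calc k * (m t * |T K y - T K z|) ≤ k * (m₂ * (2 * K * δ)) := by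
          have := D.lem₂ t
          gcongr
      _ = 2 * (k * m₂ * K) * δ := by ring
  have a4 : |h t / k * (X s u y - X s v z)| ≤ 2 * (H₀ / k / s) * δ := by
    rw [abs_mul, abs_div, abs_of_pos hk]
    have h1 := X_lip hs u y v z
    have h2 : |X s u y - X s v z| ≤ (δ + δ) / s :=
      h1.trans (div_le_div_of_nonneg_right (add_le_add n1 n2) hs.le)
    have h3 : |h t| / k ≤ H₀ / k := div_le_div_of_nonneg_right (D.leH₀ t) hk.le
    calc |h t| / k * |X s u y - X s v z| ≤ H₀ / k * ((δ + δ) / s) :=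
          mul_le_mul h3 h2 (abs_nonneg _) (by positivity)
      _ = 2 * (H₀ / k / s) * δ := by ring
  rw [e1]
  have t1 := abs_sub (-(k * (c t * (u - v))) - k * (m t * (T K y - T K z)))
    (h t / k * (X s u y - X s v z))
  have t3 := abs_sub (-(k * (c t * (u - v)))) (k * (m t * (T K y - T K z)))
  rw [abs_neg] at t3
  linarith

theorem F_zero (c m h : ℝ → ℝ) (K s k t : ℝ) : F c m h K s k t 0 0 = 0 := by
  rw [F, T, X]
  simp

theorem continuous_F {c m h : ℝ → ℝ} {c₁ c₂ m₁ m₂ H₀ : ℝ} (D : SDat c m h c₁ c₂ m₁ m₂ H₀)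
    (K s k : ℝ) {α : Type*} [TopologicalSpace α] {t u y : α → ℝ} (ht : Continuous t)
    (hu : Continuous u) (hy : Continuous y) :
    Continuous fun a => F c m h K s k (t a) (u a) (y a) := by
  have h1 : (fun a => F c m h K s k (t a) (u a) (y a)) = fun a =>
      -(k * (c (t a) * u a + m (t a) * (|y a| * min |y a| K))) -
        h (t a) / k * min 1 ((|u a| + |y a|) / s) := by
    funext a
    rw [F, T, X]
  rw [h1]
  have f1 := D.cc.comp ht
  have f2 := D.cm.comp ht
  have f3 := D.ch.comp ht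
  refine ((continuous_const.mul ((f1.mul hu).add (f2.mul (hy.abs.mul
    (hy.abs.min continuous_const))))).neg.sub ?_)
  exact (f3.div_const k).mul (continuous_const.min ((hu.abs.add hy.abs).div_const s))

/-- module SFLOW -/
theorem exists_sflow {c m h : ℝ → ℝ} {c₁ c₂ m₁ m₂ H₀ : ℝ} (D : SDat c m h c₁ c₂ m₁ m₂ H₀) (ν : ℕ)
    {K s k : ℝ} (hK : 0 < K) (hs : 0 < s) (hk : 0 < k) :
    ∃ U Y W : ℝ → ℝ → ℝ, (∀ β, SOrb c m h ν K s k β (U β) (Y β) (W β)) ∧
      Continuous (fun p : ℝ × ℝ => U p.1 p.2) ∧ Continuous (fun p : ℝ × ℝ => Y p.1 p.2) ∧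
      Continuous (fun p : ℝ × ℝ => W p.1 p.2) := by
  have hH₀ : 0 ≤ H₀ := D.H₀nonneg
  have hc₂ : 0 < c₂ := D.c₂pos
  have hm₂ : 0 < m₂ := D.m₂pos
  obtain ⟨φ, hφ⟩ : ∃ φ : (ℝ → ℝ × ℝ) → ℝ → ℝ, ∀ v τ, φ v τ = F c m h K s k τ (v τ).1 (v τ).2 :=
    ⟨fun v τ => F c m h K s k τ (v τ).1 (v τ).2, fun _ _ => rfl⟩
  have hφc : ∀ v : ℝ → ℝ × ℝ, Continuous v → Continuous (φ v) := by
    intro v hv
    rw [funext (hφ v)]
    exact continuous_F D K s k continuous_id hv.fst hv.snd
  obtain ⟨V, hV⟩ : ∃ V : (ℝ → ℝ × ℝ) → ℝ → ℝ × ℝ, ∀ v t,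
      V v t = (k * ∫ τ in (0 : ℝ)..t, (v τ).2, t * av ν (φ v) t) :=
    ⟨fun v t => (k * ∫ τ in (0 : ℝ)..t, (v τ).2, t * av ν (φ v) t), fun _ _ => rfl⟩
  have hprim : ∀ v : ℝ → ℝ × ℝ, Continuous v → ∀ t,
      HasDerivAt (fun t => ∫ τ in (0 : ℝ)..t, (v τ).2) (v t).2 t := by
    intro v hv t
    have hc : Continuous fun τ => (v τ).2 := hv.snd
    exact intervalIntegral.integral_hasDerivAt_right (hc.intervalIntegrable _ _)
      (hc.stronglyMeasurableAtFilter _ _) hc.continuousAt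
  obtain ⟨L₂, hL₂⟩ : ∃ L₂ : ℝ, L₂ = k * c₂ + 2 * (k * m₂ * K) + 2 * (H₀ / k / s) := ⟨_, rfl⟩
  have hL₂0 : 0 ≤ L₂ := by rw [hL₂]; positivity
  obtain ⟨Fl, hFc, hFe, hFj⟩ : ∃ Fl : ℝ × ℝ → ℝ → ℝ × ℝ, (∀ x, Continuous (Fl x)) ∧
      (∀ x t, Fl x t = x + V (Fl x) t) ∧ Continuous (fun p : (ℝ × ℝ) × ℝ => Fl p.1 p.2) := by
    refine exists_fix (V := V) (L := k + L₂) ?_ (by positivity) ?_ ?_
    · intro v hv
      rw [funext (hV v)]
      have h1 : Continuous fun t => ∫ τ in (0 : ℝ)..t, (v τ).2 :=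
        continuous_iff_continuousAt.2 fun t => (hprim v hv t).continuousAt
      exact (continuous_const.mul h1).prodMk (continuous_id.mul (continuous_av (hφc v hv)))
    · intro v v' hv hv' D' l hD' hl hd t
      have hE : 0 ≤ D' / l * Real.exp (l * |t|) := by positivity
      rw [hV, hV, Prod.mk_sub_mk, Prod.norm_def]
      refine max_le ?_ ?_
      · rw [Real.norm_eq_abs]
        show |k * (∫ τ in (0 : ℝ)..t, (v τ).2) - k * ∫ τ in (0 : ℝ)..t, (v' τ).2| ≤ _
        rw [← mul_sub, ← intervalIntegral.integral_sub (hv.snd.intervalIntegrable _ _)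
          (hv'.snd.intervalIntegrable _ _), abs_mul, abs_of_pos hk]
        have h1 := norm_integral_weight (φ := fun τ => (v τ).2 - (v' τ).2) (A := D') (l := l)
          (a := 0) hl (fun τ => by
            rw [sub_zero]
            exact (norm_snd_le (v τ - v' τ)).trans (hd τ)) t
        rw [sub_zero, Real.norm_eq_abs] at h1
        have h2 : 0 ≤ D' / l := by positivity
        have h3 : D' / l * (Real.exp (l * |t|) - 1) ≤ D' / l * Real.exp (l * |t|) :=
          mul_le_mul_of_nonneg_left (by linarith) h2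
        calc k * |∫ τ in (0 : ℝ)..t, ((v τ).2 - (v' τ).2)| ≤ k * (D' / l * Real.exp (l * |t|)) :=
              mul_le_mul_of_nonneg_left (h1.trans h3) hk.le
          _ ≤ (k + L₂) * (D' / l * Real.exp (l * |t|)) :=
              mul_le_mul_of_nonneg_right (by linarith) hE
          _ = (k + L₂) * D' / l * Real.exp (l * |t|) := by ring
      · rw [Real.norm_eq_abs]
        show |t * av ν (φ v) t - t * av ν (φ v') t| ≤ _
        rw [← mul_sub, av_sub (hφc v hv) (hφc v' hv')]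
        have h1 := av_bound (ν := ν) (φ := fun τ => φ v τ - φ v' τ) (A := L₂ * D') hl
          (by positivity) (fun τ => by
            rw [hφ, hφ, hL₂, mul_assoc]
            exact F_lip D hK hs hk ((norm_fst_le (v τ - v' τ)).trans (hd τ))
              ((norm_snd_le (v τ - v' τ)).trans (hd τ))) t
        calc |t * av ν (fun τ => φ v τ - φ v' τ) t| ≤ L₂ * D' / l * Real.exp (l * |t|) := h1
          _ = L₂ * (D' / l * Real.exp (l * |t|)) := by ring
          _ ≤ (k + L₂) * (D' / l * Real.exp (l * |t|)) :=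
              mul_le_mul_of_nonneg_right (by linarith) hE
          _ = (k + L₂) * D' / l * Real.exp (l * |t|) := by ring
    · intro t
      rw [hV]
      have h1 : φ (fun _ => 0) = fun _ => 0 := by
        funext τ
        rw [hφ]
        exact F_zero c m h K s k τ
      rw [h1]
      unfold av
      simp
  have hx : ∀ β : ℝ, Continuous (Fl (β, 0)) := fun β => hFc _
  refine ⟨fun β r => (Fl (β, 0) r).1, fun β r => (Fl (β, 0) r).2,
    fun β r => av ν (φ (Fl (β, 0))) r, fun β => ⟨?_, fun r => ?_, ?_, fun r => ?_, fun r => ?_⟩,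
    ?_, ?_, ?_⟩
  · show (Fl (β, 0) 0).1 = β
    rw [hFe, hV]
    simp
  · show (Fl (β, 0) r).2 = r * av ν (φ (Fl (β, 0))) r
    conv_lhs => rw [hFe, hV]
    simp
  · exact continuous_av (hφc _ (hx β))
  · show HasDerivAt (fun r => (Fl (β, 0) r).1) (k * (Fl (β, 0) r).2) r
    have h1 : (fun r => (Fl (β, 0) r).1) =
        fun r => β + k * ∫ τ in (0 : ℝ)..r, (Fl (β, 0) τ).2 := by
      funext r
      conv_lhs => rw [hFe, hV]
      simp
    rw [h1]
    exact ((hprim _ (hx β) r).const_mul k).const_add β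
  · show HasDerivAt (fun r => (Fl (β, 0) r).2) (F c m h K s k r (Fl (β, 0) r).1
      (Fl (β, 0) r).2 - ν * av ν (φ (Fl (β, 0))) r) r
    have h1 : (fun r => (Fl (β, 0) r).2) = fun r => r * av ν (φ (Fl (β, 0))) r := by
      funext r
      conv_lhs => rw [hFe, hV]
      simp
    rw [h1, ← hφ]
    exact hasDerivAt_av (hφc _ (hx β)) r
  · exact (hFj.comp (((continuous_fst).prodMk continuous_const).prodMk continuous_snd :
      Continuous fun p : ℝ × ℝ => ((p.1, (0 : ℝ)), p.2))).fst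
  · exact (hFj.comp (((continuous_fst).prodMk continuous_const).prodMk continuous_snd :
      Continuous fun p : ℝ × ℝ => ((p.1, (0 : ℝ)), p.2))).snd
  · unfold av
    apply intervalIntegral.continuous_parametric_intervalIntegral_of_continuous'
    have h1 : Continuous fun q : (ℝ × ℝ) × ℝ => Fl (q.1.1, 0) (q.2 * q.1.2) := by
      have h2 : Continuous fun q : (ℝ × ℝ) × ℝ => ((q.1.1, (0 : ℝ)), q.2 * q.1.2) := by fun_prop
      exact hFj.comp h2
    have h3 : Continuous fun q : (ℝ × ℝ) × ℝ =>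
        q.2 ^ ν * F c m h K s k (q.2 * q.1.2) (Fl (q.1.1, 0) (q.2 * q.1.2)).1
          (Fl (q.1.1, 0) (q.2 * q.1.2)).2 := by
      have h4 : Continuous fun q : (ℝ × ℝ) × ℝ => q.2 * q.1.2 := by fun_prop
      have h5 : Continuous fun q : (ℝ × ℝ) × ℝ => q.2 ^ ν := by fun_prop
      exact h5.mul (continuous_F D K s k h4 h1.fst h1.snd)
    have h6 : (Function.uncurry fun (p : ℝ × ℝ) (x : ℝ) => x ^ ν * φ (Fl (p.1, 0)) (x * p.2)) =
        fun q : (ℝ × ℝ) × ℝ =>
        q.2 ^ ν * F c m h K s k (q.2 * q.1.2) (Fl (q.1.1, 0) (q.2 * q.1.2)).1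
          (Fl (q.1.1, 0) (q.2 * q.1.2)).2 := by
      funext q
      rw [Function.uncurry, hφ]
    rw [h6]
    exact h3

end QGN
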